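import Pool.Agent.CVH.Targets

set_option autoImplicit false

/-!
# CVH, target COMPL: the Lubin-Tate ring is complete for its maximal ideal
-/

noncomputable section

namespace Pool.Agent.CVH

namespace COMPL_

open MvPowerSeries

variable {σ R : Type} [CommRing R]

/-- The filtration `K i`. -/
def K (ϖ : R) (i : ℕ) : Ideal (MvPowerSeries σ R) where
  carrier := {f | ∀ e : σ →₀ ℕ, ϖ ^ (i - e.degree) ∣ coeff e f}
  zero_mem' := fun e => by simp
  add_mem' := fun {f g} hf hg e => by
    rw [map_add]
    exact dvd_add (hf e) (hg e)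
  smul_mem' := fun g f hf e => by
    classical
    rw [smul_eq_mul, coeff_mul]
    refine Finset.dvd_sum fun uv huv => ?_
    rw [Finset.HasAntidiagonal.mem_antidiagonal] at huv
    have h1 : uv.2.degree ≤ e.degree := by
      rw [← huv, map_add]
      omega
    exact dvd_mul_of_dvd_right ((pow_dvd_pow ϖ (by omega)).trans (hf uv.2)) _

theorem mem_K {ϖ : R} {i : ℕ} {f : MvPowerSeries σ R} :
    f ∈ K ϖ i ↔ ∀ e : σ →₀ ℕ, ϖ ^ (i - e.degree) ∣ coeff e f := Iff.rfl

theorem mul_mem_K {ϖ : R} {i j : ℕ} {f g : MvPowerSeries σ R} (hf : f ∈ K ϖ i)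
    (hg : g ∈ K ϖ j) : f * g ∈ K ϖ (i + j) := by
  classical
  intro e
  rw [coeff_mul]
  refine Finset.dvd_sum fun uv huv => ?_
  rw [Finset.HasAntidiagonal.mem_antidiagonal] at huv
  have h1 : uv.1.degree + uv.2.degree = e.degree := by
    rw [← huv, map_add]
  refine (pow_dvd_pow ϖ (?_ : _ ≤ (i - uv.1.degree) + (j - uv.2.degree))).trans ?_
  · omega
  · rw [pow_add]
    exact mul_dvd_mul (hf uv.1) (hg uv.2)

theorem pow_le_K {ϖ : R} {m : Ideal (MvPowerSeries σ R)}
    (hm : ∀ f ∈ m, ϖ ∣ constantCoeff f) (i : ℕ) : m ^ i ≤ K ϖ i := by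
  induction i with
  | zero =>
    intro f _ e
    simp
  | succ i ih =>
    rw [pow_succ, Ideal.mul_le]
    intro f hf g hg
    refine mul_mem_K (ih hf) ?_
    intro e
    by_cases he : e.degree = 0
    · rw [Finsupp.degree_eq_zero_iff] at he
      subst he
      simpa using hm g hg
    · have h1 : 1 - e.degree = 0 := by omega
      rw [h1, pow_zero]
      exact one_dvd _

section fin

variable [Fintype σ] [LinearOrder σ]

/-- The part of `f` which is divisible by `X j` but contains no smaller variable, divided by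
`X j`. -/
def prt (f : MvPowerSeries σ R) (j : σ) : MvPowerSeries σ R := fun e =>
  open Classical in if ∀ k < j, e k = 0 then coeff (e + Finsupp.single j 1) f else 0

theorem coeff_prt (f : MvPowerSeries σ R) (j : σ) (e : σ →₀ ℕ) :
    coeff e (prt f j) = open Classical in
      if ∀ k < j, e k = 0 then coeff (e + Finsupp.single j 1) f else 0 := rfl

theorem decomp (f : MvPowerSeries σ R) :
    f = C (coeff 0 f) + ∑ j, X j * prt f j := by
  classical
  ext e
  rw [map_add, map_sum]
  have hX : ∀ j, coeff e (X j * prt f j) = if Finsupp.single j 1 ≤ e then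
      coeff (e - Finsupp.single j 1) (prt f j) else 0 := by
    intro j
    rw [X_def, coeff_monomial_mul]
    simp
  simp only [hX]
  by_cases he : e = 0
  · subst he
    rw [Finset.sum_eq_zero]
    · simp
    · intro j _
      rw [if_neg]
      intro h
      have := h j
      simp at this
  · have hs : e.support.Nonempty := Finsupp.support_nonempty_iff.2 he
    have hj := e.support.min'_mem hs
    set j0 := e.support.min' hs with hj0
    rw [Finsupp.mem_support_iff] at hj
    have hle : Finsupp.single j0 1 ≤ e := by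
      rw [Finsupp.single_le_iff]
      omega
    rw [coeff_C, if_neg he, zero_add, Finset.sum_eq_single j0]
    · rw [if_pos hle, coeff_prt, if_pos, tsub_add_cancel_of_le hle]
      intro k hk
      have h0 : e k = 0 := by
        by_contra h
        exact absurd (e.support.min'_le k (Finsupp.mem_support_iff.2 h)) (not_le.2 hk)
      rw [Finsupp.tsub_apply, h0, Nat.zero_sub]
    · intro j _ hne
      split_ifs with h
      · rw [coeff_prt, if_neg]
        intro hall
        rw [Finsupp.single_le_iff] at h
        have h1 : j0 ≤ j := e.support.min'_le j (Finsupp.mem_support_iff.2 (by omega))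
        have h2 := hall j0 (lt_of_le_of_ne h1 hne.symm)
        rw [Finsupp.tsub_apply, Finsupp.single_apply, if_neg hne, Nat.sub_zero] at h2
        exact hj h2
      · rfl
    · intro h
      exact absurd (Finset.mem_univ _) h

theorem K_le_pow {ϖ : R} {m : Ideal (MvPowerSeries σ R)} (h1 : C ϖ ∈ m)
    (h2 : ∀ j : σ, X j ∈ m) (i : ℕ) : K ϖ i ≤ m ^ i := by
  classical
  induction i with
  | zero => simp
  | succ i ih =>
    intro f hf
    rw [decomp f, pow_succ']
    refine Ideal.add_mem _ ?_ (Ideal.sum_mem _ fun j _ => ?_)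
    · have h3 := hf 0
      rw [map_zero, Nat.sub_zero] at h3
      obtain ⟨a, ha⟩ := h3
      have h4 : (C (coeff 0 f) : MvPowerSeries σ R) = C ϖ * C (ϖ ^ i * a) := by
        rw [← map_mul, ha]
        congr 1
        ring
      rw [h4]
      refine Ideal.mul_mem_mul h1 (ih ?_)
      intro e
      rw [coeff_C]
      split_ifs with he
      · subst he
        rw [map_zero, Nat.sub_zero]
        exact dvd_mul_right _ _
      · exact dvd_zero _
    · refine Ideal.mul_mem_mul (h2 j) (ih ?_)
      intro e
      rw [coeff_prt]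
      split_ifs with h
      · have h3 := hf (e + Finsupp.single j 1)
        rw [map_add, Finsupp.degree_single, Nat.add_sub_add_right] at h3
        exact h3
      · exact dvd_zero _

theorem compl (ϖ : R) [hR : IsAdicComplete (Ideal.span {ϖ}) R]
    (m : Ideal (MvPowerSeries σ R)) (h1 : C ϖ ∈ m) (h2 : ∀ j : σ, X j ∈ m)
    (h3 : ∀ f ∈ m, ϖ ∣ constantCoeff f) : IsAdicComplete m (MvPowerSeries σ R) := by
  have hmem : ∀ (x : R) (n : ℕ), x ∈ ((Ideal.span {ϖ} : Ideal R) ^ n • ⊤ : Submodule R R) ↔
      ϖ ^ n ∣ x := by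
    intro x n
    rw [smul_eq_mul, Ideal.mul_top, Ideal.span_singleton_pow, Ideal.mem_span_singleton]
  have hmem' : ∀ (f : MvPowerSeries σ R) (n : ℕ),
      f ∈ (m ^ n • ⊤ : Submodule (MvPowerSeries σ R) (MvPowerSeries σ R)) ↔ f ∈ K ϖ n := by
    intro f n
    rw [smul_eq_mul, Ideal.mul_top]
    exact ⟨fun h => pow_le_K h3 n h, fun h => K_le_pow h1 h2 n h⟩
  refine { haus' := ?_, prec' := ?_ }
  · intro f hf
    ext e
    rw [map_zero]
    refine IsHausdorff.haus hR.toIsHausdorff _ fun n => ?_
    rw [SModEq.sub_mem, sub_zero, hmem]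
    have h4 := hf (n + e.degree)
    rw [SModEq.sub_mem, sub_zero, hmem'] at h4
    have h5 := h4 e
    rwa [Nat.add_sub_cancel] at h5
  · intro f hf
    have hL : ∀ e : σ →₀ ℕ, ∃ L : R, ∀ n, ϖ ^ n ∣ coeff e (f (n + e.degree)) - L := by
      intro e
      obtain ⟨L, hL⟩ := IsPrecomplete.prec hR.toIsPrecomplete
        (f := fun n => coeff e (f (n + e.degree))) (by
          intro a b hab
          have h4 := hf (Nat.add_le_add_right hab e.degree)
          rw [SModEq.sub_mem, hmem'] at h4
          have h5 := h4 e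
          rw [Nat.add_sub_cancel, map_sub] at h5
          rw [SModEq.sub_mem, hmem]
          exact h5)
      refine ⟨L, fun n => ?_⟩
      have h4 := hL n
      rwa [SModEq.sub_mem, hmem] at h4
    choose L hL using hL
    let F : MvPowerSeries σ R := fun e => L e
    have hF : ∀ e, coeff e F = L e := fun _ => rfl
    refine ⟨F, fun n => ?_⟩
    rw [SModEq.sub_mem, hmem']
    intro e
    rw [map_sub, hF]
    rcases le_or_gt e.degree n with h | h
    · have h4 := hL e (n - e.degree)
      rwa [Nat.sub_add_cancel h] at h4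
    · rw [Nat.sub_eq_zero_of_le h.le, pow_zero]
      exact one_dvd _

end fin

end COMPL_

open COMPL_ in
theorem p_COMPL : T_COMPL := by
  intro p _ n
  have hW : ∀ x : Wb p, ¬ IsUnit x ↔ (p : Wb p) ∣ x := by
    intro x
    rw [← Ideal.mem_span_singleton, ← WittVector.ker_constantCoeff, RingHom.mem_ker]
    constructor
    · intro hx
      by_contra h0
      exact hx (WittVector.isUnit_of_coeff_zero_ne_zero _ h0)
    · intro hx hu
      have h1 := hu.map (WittVector.constantCoeff : Wb p →+* Kb p)
      rw [hx] at h1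
      exact not_isUnit_zero h1
  have hA : ∀ f : Ab p n, f ∈ IsLocalRing.maximalIdeal (Ab p n) ↔
      (p : Wb p) ∣ MvPowerSeries.constantCoeff f := by
    intro f
    rw [IsLocalRing.mem_maximalIdeal, mem_nonunits_iff, MvPowerSeries.isUnit_iff_constantCoeff, hW]
  refine compl (p : Wb p) _ ?_ ?_ ?_
  · rw [hA, MvPowerSeries.constantCoeff_C]
  · intro j
    rw [hA, MvPowerSeries.constantCoeff_X]
    exact dvd_zero _
  · intro f hf
    exact (hA f).1 hf

end Pool.Agent.CVH
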