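import Pool.Agent.CVH.Core
import Pool.Agent.CVH.P_COMPL

set_option autoImplicit false

/-!
# CVH: the action of the automorphism group on the Lubin-Tate ring
-/

noncomputable section

namespace Pool.Agent.CVH

variable {p : ℕ} [Fact p.Prime] {n : ℕ}

theorem res_surj : Function.Surjective (res p n) := by
  intro c
  obtain ⟨w, rfl⟩ := WittVector.constantCoeff_surjective (p := p) c
  exact ⟨MvPowerSeries.C w, res_C w⟩

theorem isUnit_of_res {a : Ab p n} (h : res p n a ≠ 0) : IsUnit a := by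
  rw [MvPowerSeries.isUnit_iff_constantCoeff]
  exact WittVector.isUnit_of_coeff_zero_ne_zero _ h

/-- The defining property of the action of `g`. -/
def ActBy {Γ : FormalGroup (Kb p)} (F : FormalGroup (Ab p n)) (g : (EndF Γ)ˣ)
    (φ : Ab p n →ₐ[Wb p] Ab p n) : Prop :=
  (res p n).comp (φ : Ab p n →+* Ab p n) = res p n ∧
    ∃ ψ : PowerSeries (Ab p n), IsHom (F.map (φ : Ab p n →+* Ab p n)) F ψ ∧
      PowerSeries.map (res p n) ψ = g.1.1

theorem existsUnique_act {Γ : FormalGroup (Kb p)} {F : FormalGroup (Ab p n)}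
    (hF : IsUniversalDeformation p n Γ F) (g : (EndF Γ)ˣ) :
    ∃! φ : Ab p n →ₐ[Wb p] Ab p n, ActBy F g φ := by
  have hcompl : IsAdicComplete (IsLocalRing.maximalIdeal (Ab p n)) (Ab p n) := p_COMPL p n
  have hcomm := hF.comm
  have hi : IsHom (F.map (res p n)) Γ (g⁻¹).1.1 := by
    rw [hF.red]; exact (g⁻¹).1.2
  have h := hF.univ (Ab p n) (res p n) res_surj (fun w => res_C w) F (g⁻¹).1.1 hi
    (isUnit_coeff_one g⁻¹)
  have hg1 : comp g.1.1 (g⁻¹).1.1 = PowerSeries.X := congrArg (fun x : EndF Γ => x.1) g.mul_inv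
  have hg2 : comp (g⁻¹).1.1 g.1.1 = PowerSeries.X := congrArg (fun x : EndF Γ => x.1) g.inv_mul
  have key : ∀ φ : Ab p n →ₐ[Wb p] Ab p n, ActBy F g φ ↔
      ((res p n).comp (φ : Ab p n →+* Ab p n) = res p n ∧
        ∃ ψ : PowerSeries (Ab p n), IsHom (F.map (φ : Ab p n →+* Ab p n)) F ψ ∧
          comp (g⁻¹).1.1 (PowerSeries.map (res p n) ψ) = PowerSeries.X) := by
    intro φ
    unfold ActBy
    refine and_congr_right fun _ => exists_congr fun ψ => and_congr_right fun hψ => ?_
    have z : PowerSeries.constantCoeff (PowerSeries.map (res p n) ψ) = 0 :=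
      map_zero_cc _ hψ.zero
    constructor
    · intro h1
      rw [h1, hg2]
    · intro h1
      have h2 := congrArg (comp g.1.1) h1
      rw [← comp_assoc (g⁻¹).1.2.zero z, hg1, X_comp z, comp_X] at h2
      exact h2
  obtain ⟨φ, hφ, huniq⟩ := h
  exact ⟨φ, (key φ).mpr hφ, fun φ' hφ' => huniq φ' ((key φ').mp hφ')⟩

/-- The automorphism of `A` given by `g`. -/
def act {Γ : FormalGroup (Kb p)} {F : FormalGroup (Ab p n)}
    (hF : IsUniversalDeformation p n Γ F) (g : (EndF Γ)ˣ) : Ab p n →ₐ[Wb p] Ab p n :=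
  (existsUnique_act hF g).choose

theorem act_spec {Γ : FormalGroup (Kb p)} {F : FormalGroup (Ab p n)}
    (hF : IsUniversalDeformation p n Γ F) (g : (EndF Γ)ˣ) : ActBy F g (act hF g) :=
  (existsUnique_act hF g).choose_spec.1

theorem act_uniq {Γ : FormalGroup (Kb p)} {F : FormalGroup (Ab p n)}
    (hF : IsUniversalDeformation p n Γ F) (g : (EndF Γ)ˣ) {φ : Ab p n →ₐ[Wb p] Ab p n}
    (h : ActBy F g φ) : act hF g = φ :=
  ((existsUnique_act hF g).choose_spec.2 φ h).symm

theorem act_one {Γ : FormalGroup (Kb p)} {F : FormalGroup (Ab p n)}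
    (hF : IsUniversalDeformation p n Γ F) : act hF 1 = AlgHom.id (Wb p) (Ab p n) := by
  apply act_uniq
  refine ⟨RingHom.ext fun _ => rfl, PowerSeries.X, ?_, PowerSeries.map_X _⟩
  have : F.map ((AlgHom.id (Wb p) (Ab p n) : Ab p n →ₐ[Wb p] Ab p n) : Ab p n →+* Ab p n) = F :=
    map_id_FG F
  rw [this]
  exact isHom_X F

theorem act_mul {Γ : FormalGroup (Kb p)} {F : FormalGroup (Ab p n)}
    (hF : IsUniversalDeformation p n Γ F) (g h : (EndF Γ)ˣ) :
    act hF (g * h) = (act hF g).comp (act hF h) := by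
  apply act_uniq
  obtain ⟨h1, ψ1, h2, h3⟩ := act_spec hF g
  obtain ⟨k1, ψ2, k2, k3⟩ := act_spec hF h
  refine ⟨?_, comp ψ1 (PowerSeries.map (act hF g : Ab p n →+* Ab p n) ψ2), ?_, ?_⟩
  · ext a
    change res p n (act hF g (act hF h a)) = res p n a
    have e1 := RingHom.congr_fun h1 (act hF h a)
    have e2 := RingHom.congr_fun k1 a
    exact e1.trans e2
  · have h4 := k2.map (act hF g : Ab p n →+* Ab p n)
    rw [map_map_FG] at h4
    exact h2.comp h4
  · have z : PowerSeries.constantCoeff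
        (PowerSeries.map (act hF g : Ab p n →+* Ab p n) ψ2) = 0 := map_zero_cc _ k2.zero
    rw [map_comp _ z, h3]
    have e : PowerSeries.map (res p n) (PowerSeries.map (act hF g : Ab p n →+* Ab p n) ψ2) =
        h.1.1 := by
      rw [← k3]
      ext i
      simp only [PowerSeries.coeff_map]
      exact RingHom.congr_fun h1 _
    rw [e]
    rfl

/-- The action of the automorphism group of `Γ` on the Lubin-Tate ring. -/
def ltAction {Γ : FormalGroup (Kb p)} {F : FormalGroup (Ab p n)}
    (hF : IsUniversalDeformation p n Γ F) : (EndF Γ)ˣ →* (Ab p n →+* Ab p n) where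
  toFun g := (act hF g : Ab p n →+* Ab p n)
  map_one' := by rw [act_one]; rfl
  map_mul' g h := by rw [act_mul]; rfl

theorem elt_act {Γ : FormalGroup (Kb p)} {F : FormalGroup (Ab p n)}
    (hF : IsUniversalDeformation p n Γ F) (g : (EndF Γ)ˣ) :
    Elt F (ltAction hF g) (act_spec hF g).2.choose where
  hom := (act_spec hF g).2.choose_spec.1
  unit := by
    apply isUnit_of_res
    rw [← PowerSeries.coeff_map, (act_spec hF g).2.choose_spec.2]
    exact (isUnit_coeff_one g).ne_zero
  lin w := (act hF g).commutes w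
  res a := RingHom.congr_fun (act_spec hF g).1 a

end Pool.Agent.CVH
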