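import Pool.Agent.CVH.Targets2

set_option autoImplicit false

/-!
# CVH: the Hasse invariants generate the maximal ideal
-/

noncomputable section

namespace Pool.Agent.CVH

theorem pow_frob_apply {R : Type} [CommRing R] (p : ℕ) [Fact p.Prime] [CharP R p] (h : ℕ)
    (x : R) : (frobenius R p ^ h) x = x ^ p ^ h := by
  induction h generalizing x with
  | zero => simp
  | succ h ih =>
    rw [pow_succ]
    change (frobenius R p ^ h) (frobenius R p x) = _
    rw [ih, frobenius_def, ← pow_mul, pow_succ']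

theorem coeff_comp_X_pow {R : Type} [CommRing R] {f : PowerSeries R} {Q : ℕ} (hQ : 1 ≤ Q)
    (hf : PowerSeries.constantCoeff f = 0) :
    PowerSeries.coeff Q (comp f (PowerSeries.X ^ Q)) = PowerSeries.coeff 1 f := by
  rw [coeff_comp_right hQ hf (dvd_refl _), PowerSeries.coeff_X_pow_self, mul_one]

theorem X_pow_cc {R : Type} [CommRing R] {Q : ℕ} (hQ : 1 ≤ Q) :
    PowerSeries.constantCoeff ((PowerSeries.X : PowerSeries R) ^ Q) = 0 := by
  rw [map_pow, PowerSeries.constantCoeff_X, zero_pow (by omega)]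

theorem frob_iter (h_FROB : T_FROB) {R : Type} [CommRing R] (p : ℕ) [Fact p.Prime] [CharP R p]
    {F G : FormalGroup R} {f : PowerSeries R} (hf : IsHom F G f) (h : ℕ)
    (hz : ∀ i < h, PowerSeries.coeff (p ^ i) f = 0) :
    ∃ f1 : PowerSeries R, IsHom (F.map (frobenius R p ^ h)) G f1 ∧
      f = comp f1 (PowerSeries.X ^ p ^ h) := by
  have hp : p.Prime := Fact.out
  induction h with
  | zero =>
    refine ⟨f, ?_, ?_⟩
    · rw [pow_zero]
      have : F.map (1 : R →+* R) = F := map_id_FG F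
      rw [this]
      exact hf
    · rw [pow_zero, pow_one]; exact (comp_X f).symm
  | succ h ih =>
    obtain ⟨f1, h1, h2⟩ := ih (fun i hi => hz i (by omega))
    have hQ : 1 ≤ p ^ h := Nat.one_le_pow _ _ hp.pos
    have h3 : PowerSeries.coeff 1 f1 = 0 := by
      rw [← coeff_comp_X_pow hQ h1.zero, ← h2]
      exact hz h (by omega)
    obtain ⟨f2, h4, h5⟩ := h_FROB R p _ G f1 h1 h3
    refine ⟨f2, ?_, ?_⟩
    · rw [map_map_FG] at h4
      rw [pow_succ']
      exact h4
    · rw [h2, h5, comp_assoc (X_pow_cc hp.one_le) (X_pow_cc hQ), comp_pow _ (X_pow_cc hQ),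
        X_comp (X_pow_cc hQ), ← pow_mul, ← pow_succ]

/-- The coefficients of `[p]` below `p ^ (h + 1)`. -/
theorem low_mem (h_FROB : T_FROB) {A : Type} [CommRing A] (p : ℕ) [Fact p.Prime]
    (F : FormalGroup A) [F.IsComm] (J : Ideal A) (hpJ : (p : A) ∈ J) (h : ℕ)
    (hz : ∀ i, 1 ≤ i → i < h → PowerSeries.coeff (p ^ i) (mulSeries F p) ∈ J) (m : ℕ)
    (hm : m < p ^ h) : PowerSeries.coeff m (mulSeries F p) ∈ J := by
  have hp : p.Prime := Fact.out
  by_cases hJ : J = ⊤
  · rw [hJ]; exact Submodule.mem_top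
  · have : Nontrivial (A ⧸ J) := Ideal.Quotient.nontrivial_iff.mpr hJ
    have hp0 : ((p : ℕ) : A ⧸ J) = 0 := by
      have := Ideal.Quotient.eq_zero_iff_mem.mpr hpJ
      rwa [map_natCast] at this
    have : CharP (A ⧸ J) p := (CharP.charP_iff_prime_eq_zero hp).mpr hp0
    have e : mulSeries (F.map (Ideal.Quotient.mk J)) p =
        PowerSeries.map (Ideal.Quotient.mk J) (mulSeries F p) := (map_mulSeries _ F p).symm
    obtain ⟨f1, h1, h2⟩ := frob_iter h_FROB p (isHom_mulSeries (F.map (Ideal.Quotient.mk J)) p) h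
      (by
        intro i hi
        rcases Nat.eq_zero_or_pos i with h0 | h0
        · rw [h0, pow_zero, coeff_one_mulSeries, hp0]
        · rw [e, PowerSeries.coeff_map]
          exact Ideal.Quotient.eq_zero_iff_mem.mpr (hz i h0 hi))
    have hQ : 1 ≤ p ^ h := Nat.one_le_pow _ _ hp.pos
    obtain ⟨f2, hf2⟩ := PowerSeries.X_dvd_iff.mpr h1.zero
    have h3 : PowerSeries.X ^ p ^ h ∣ mulSeries (F.map (Ideal.Quotient.mk J)) p := by
      rw [h2, hf2, comp_mul _ _ (X_pow_cc hQ), X_comp (X_pow_cc hQ)]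
      exact Dvd.intro _ rfl
    have h4 := PowerSeries.X_pow_dvd_iff.mp h3 m hm
    rw [e, PowerSeries.coeff_map] at h4
    exact Ideal.Quotient.eq_zero_iff_mem.mp h4

end Pool.Agent.CVH
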