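import Pool.Agent.CVH.ThmC

set_option autoImplicit false

/-!
# CVH: no invariants over `k[[t]]`, the theorem
-/

noncomputable section

namespace Pool.Agent.CVH

/-- The final arithmetic. -/
theorem arith {p n e r α : ℕ} (hp : p.Prime) (hn : 2 ≤ n) (he : 1 ≤ e)
    (h : α ^ (n * e) = p ^ ((n - 1) * (r * (n * e) + e))) : False := by
  have h1 : (α ^ n) ^ e = (p ^ ((n - 1) * (r * n + 1))) ^ e := by
    rw [← pow_mul, h, ← pow_mul]
    congr 1
    ring
  have h2 : α ^ n = p ^ ((n - 1) * (r * n + 1)) := Nat.pow_left_injective (by omega) h1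
  have h3 : α ∣ p ^ ((n - 1) * (r * n + 1)) := by
    rw [← h2]; exact dvd_pow_self α (by omega)
  obtain ⟨c, -, hc⟩ := (Nat.dvd_prime_pow hp).mp h3
  rw [hc, ← pow_mul] at h2
  have h4 : c * n = (n - 1) * (r * n + 1) := Nat.pow_right_injective hp.two_le h2
  have h5 : n ∣ (n - 1) := by
    have h6 : n ∣ (n - 1) * (r * n + 1) := ⟨c, by rw [← h4]; ring⟩
    have h7 : (n - 1) * (r * n + 1) = n * ((n - 1) * r) + (n - 1) := by ring
    rw [h7] at h6
    exact (Nat.dvd_add_right (Dvd.intro _ rfl)).mp h6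
  have := Nat.le_of_dvd (by omega) h5
  omega

variable {k : Type} [Field k]

theorem order_mulSeries_pow (F : FormalGroup (PowerSeries k)) [F.IsComm] {p Q : ℕ}
    (hQ : 1 ≤ Q) (hF : (mulSeries F p).order = Q) (v : ℕ) :
    (mulSeries F (p ^ v)).order = ((Q ^ v : ℕ) : ℕ∞) := by
  induction v with
  | zero =>
    rw [pow_zero, mulSeries_one, pow_zero, PowerSeries.order_X]
    rfl
  | succ v ih =>
    rw [pow_succ, mulSeries_mul, order_comp ih hF hQ, pow_succ]

theorem order_mulSeries_unit (F : FormalGroup (PowerSeries k)) {b : ℕ} (hb : (b : k) ≠ 0) :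
    (mulSeries F b).order = ((1 : ℕ) : ℕ∞) := by
  rw [PowerSeries.order_eq_nat]
  refine ⟨?_, ?_⟩
  · rw [coeff_one_mulSeries]
    intro h
    apply hb
    have := congrArg PowerSeries.constantCoeff h
    simpa using this
  · intro i hi
    interval_cases i
    rw [PowerSeries.coeff_zero_eq_constantCoeff_apply, mulSeries_zero_cc]

theorem thmC (p : ℕ) [Fact p.Prime] [CharP k p] (n : ℕ) (hn : 2 ≤ n)
    (F : FormalGroup (PowerSeries k)) [F.IsComm]
    (hF : (mulSeries F p).order = ((p ^ (n - 1) : ℕ) : ℕ∞)) (hΓ : rd (mulSeries F p) ≠ 0)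
    (S : PowerSeries k)
    (hS : IsHom (F.map (PowerSeries.constantCoeff : PowerSeries k →+* k))
      (F.map (PowerSeries.constantCoeff : PowerSeries k →+* k)) S)
    (hSn : iter S n = mulSeries (F.map (PowerSeries.constantCoeff : PowerSeries k →+* k)) p)
    (φ : ℕ → (PowerSeries k →+* PowerSeries k))
    (hC : ∀ r (c : k), φ r (PowerSeries.C c) = PowerSeries.C c)
    (hX : ∀ r, PowerSeries.constantCoeff (φ r PowerSeries.X) = 0)
    (ψ : ℕ → PowerSeries (PowerSeries k)) (hψ : ∀ r, IsHom (F.map (φ r)) F (ψ r))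
    (hψr : ∀ r, rd (ψ r) = addG (F.map (PowerSeries.constantCoeff : PowerSeries k →+* k))
      PowerSeries.X (comp (mulSeries (F.map (PowerSeries.constantCoeff : PowerSeries k →+* k))
        (p ^ (r + 1))) S))
    (f : PowerSeries k) (hf : ∀ r, φ r f = f) (d : ℕ) (hd : 1 ≤ d) :
    PowerSeries.coeff d f = 0 := by
  have hp : p.Prime := Fact.out
  by_contra hne
  set Γ := F.map (PowerSeries.constantCoeff : PowerSeries k →+* k) with hΓdef
  -- two of the maps agree
  have key : ∀ y : Fin (d + 1) → PowerSeries k,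
      (∀ i, PowerSeries.constantCoeff (y i) = 0) → (∀ i, comp f (y i) = f) →
      ∃ i j : Fin (d + 1), i < j ∧ y i = y j := by
    intro y h1 h2
    have h3 := p_ROOT k f f d hd hne y h1 h2
    unfold Function.Injective at h3
    push Not at h3
    obtain ⟨i, j, hij, hne'⟩ := h3
    rcases lt_or_gt_of_ne hne' with h | h
    · exact ⟨i, j, h, hij⟩
    · exact ⟨j, i, h, hij.symm⟩
  obtain ⟨i, j, hij, hyij⟩ := key (fun i => φ i PowerSeries.X) (fun i => hX i)
    (fun i => by rw [← phi_eq (φ i) (hC i) (hX i), hf])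
  obtain ⟨r, hr⟩ : ∃ r : ℕ, r = (i : ℕ) := ⟨_, rfl⟩
  obtain ⟨s, hs⟩ : ∃ s : ℕ, s = (j : ℕ) := ⟨_, rfl⟩
  have hrs : r < s := by rw [hr, hs]; exact hij
  have hXrs : φ r PowerSeries.X = φ s PowerSeries.X := by rw [hr, hs]; exact hyij
  clear hyij
  have hφrs : φ s = φ r := by
    ext1 g
    rw [phi_eq (φ r) (hC r) (hX r), phi_eq (φ s) (hC s) (hX s), hXrs]
  set Φ := φ r with hΦ
  have hΦC : ∀ c : k, Φ (PowerSeries.C c) = PowerSeries.C c := hC r
  have hΦX : PowerSeries.constantCoeff (Φ PowerSeries.X) = 0 := hX r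
  have hΦf : Φ f = f := hf r
  have hΦe : ∀ g, Φ g = comp g (Φ PowerSeries.X) := phi_eq Φ hΦC hΦX
  have hΦcc : ∀ g, PowerSeries.constantCoeff (Φ g) = PowerSeries.constantCoeff g := by
    intro g
    rw [hΦe, cc_comp g hΦX]
  have hΦX0 : Φ PowerSeries.X ≠ 0 := by
    intro h0
    have h1 := hΦe f
    rw [h0, hΦf, comp_zero_right] at h1
    apply hne
    rw [h1, PowerSeries.coeff_C, if_neg (by omega)]
  have hΦinj : Function.Injective Φ := by
    rw [injective_iff_map_eq_zero]
    intro g hg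
    by_contra hg0
    exact comp_ne_zero hg0 hΦX0 hΦX (by rw [← hΦe, hg])
  -- finite order
  have hpowC : ∀ (m : ℕ) (c : k), (Φ ^ m) (PowerSeries.C c) = PowerSeries.C c := by
    intro m c
    induction m with
    | zero => rfl
    | succ m ih => rw [pow_succ']; change Φ ((Φ ^ m) (PowerSeries.C c)) = _; rw [ih, hΦC]
  have hpowcc : ∀ (m : ℕ) (g : PowerSeries k),
      PowerSeries.constantCoeff ((Φ ^ m) g) = PowerSeries.constantCoeff g := by
    intro m g
    induction m with
    | zero => rfl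
    | succ m ih =>
      rw [pow_succ']
      change PowerSeries.constantCoeff (Φ ((Φ ^ m) g)) = _
      rw [hΦcc, ih]
  have hpowf : ∀ m : ℕ, (Φ ^ m) f = f := by
    intro m
    induction m with
    | zero => rfl
    | succ m ih => rw [pow_succ']; change Φ ((Φ ^ m) f) = _; rw [ih, hΦf]
  have hpowX : ∀ m : ℕ, PowerSeries.constantCoeff ((Φ ^ m) PowerSeries.X) = 0 := by
    intro m; rw [hpowcc]; simp
  obtain ⟨e, he, hΦ1⟩ : ∃ e : ℕ, 1 ≤ e ∧ Φ ^ e = 1 := by
    obtain ⟨a, b, hab, h1⟩ := key (fun i => (Φ ^ (i : ℕ)) PowerSeries.X) (fun i => hpowX i)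
      (fun i => by rw [← phi_eq (Φ ^ (i : ℕ)) (hpowC i) (hpowX i), hpowf])
    have hab' : (a : ℕ) < b := hab
    refine ⟨b - a, by omega, ?_⟩
    have h2 : (Φ ^ ((b : ℕ) - a)) PowerSeries.X = PowerSeries.X := by
      have hinj : Function.Injective (Φ ^ (a : ℕ)) := by
        have : ∀ m : ℕ, Function.Injective (Φ ^ m) := by
          intro m
          induction m with
          | zero => exact fun x y h => h
          | succ m ih =>
            intro x y h
            rw [pow_succ'] at h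
            exact ih (hΦinj h)
        exact this a
      apply hinj
      have h3 : (Φ ^ (a : ℕ)) ((Φ ^ ((b : ℕ) - a)) PowerSeries.X) =
          (Φ ^ (a : ℕ) * Φ ^ ((b : ℕ) - a)) PowerSeries.X := rfl
      rw [h3, ← pow_add, Nat.add_sub_cancel' hab'.le]
      exact h1.symm
    ext1 g
    rw [phi_eq (Φ ^ ((b : ℕ) - a)) (hpowC _) (hpowX _), h2, comp_X]
    rfl
  -- the difference
  have hψs : IsHom (F.map Φ) F (ψ s) := by rw [← hφrs]; exact hψ s
  obtain ⟨y, hy, hye⟩ := exists_diff p_NEG (hψ r) hψs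
  change IsHom (F.map Φ) F y at hy
  set a := p ^ (s + 1) - p ^ (r + 1) with ha
  have hle : p ^ (r + 1) ≤ p ^ (s + 1) := Nat.pow_le_pow_right hp.pos (by omega)
  have hyr : rd y = comp (mulSeries Γ a) S := by
    have z1 : PowerSeries.constantCoeff (rd y) = 0 := map_zero_cc _ hy.zero
    have z2 : ∀ m, PowerSeries.constantCoeff (comp (mulSeries Γ m) S) = 0 :=
      fun m => comp_zero_cc (mulSeries_zero_cc Γ m) hS.zero
    have e1 : rd (addG F (ψ r) y) = addG Γ (rd (ψ r)) (rd y) :=
      map_addG _ F (hs_of_zero (hψ r).zero) (hs_of_zero hy.zero)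
    have zX : PowerSeries.constantCoeff (PowerSeries.X : PowerSeries k) = 0 := by simp
    rw [hye, hψr r, hψr s, addG_assoc Γ (hs_of_zero zX) (hs_of_zero (z2 _)) (hs_of_zero z1)] at e1
    have e2 := addG_cancel p_NEG Γ zX (z2 _) (addG_zero_cc Γ (z2 _) z1) e1
    have e3 : comp (mulSeries Γ (p ^ (s + 1))) S =
        addG Γ (comp (mulSeries Γ (p ^ (r + 1))) S) (comp (mulSeries Γ a) S) := by
      rw [← comp_addG Γ (mulSeries_zero_cc Γ _) (mulSeries_zero_cc Γ _) hS.zero, ← mulSeries_add,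
        ha, Nat.add_sub_cancel' hle]
    rw [e3] at e2
    exact (addG_cancel p_NEG Γ (z2 _) (z2 _) z1 e2).symm
  -- the twisted powers
  let Y : ℕ → PowerSeries (PowerSeries k) := fun j => Nat.rec PowerSeries.X
    (fun _ Z => comp y (PowerSeries.map Φ Z)) j
  have hY0 : Y 0 = PowerSeries.X := rfl
  have hYs : ∀ m, Y (m + 1) = comp y (PowerSeries.map Φ (Y m)) := fun m => rfl
  have hYH : ∀ m, IsHom (F.map (Φ ^ m)) F (Y m) := by
    intro m
    induction m with
    | zero =>
      rw [pow_zero, hY0]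
      have : F.map (1 : PowerSeries k →+* PowerSeries k) = F := map_id_FG F
      rw [this]
      exact isHom_X F
    | succ m ih =>
      rw [hYs]
      have h1 := ih.map Φ
      rw [map_map_FG] at h1
      have h2 : Φ.comp (Φ ^ m) = Φ ^ (m + 1) := by rw [pow_succ']; rfl
      rw [h2] at h1
      exact hy.comp h1
  have hYrd : ∀ m, rd (Y m) = iter (rd y) m := by
    intro m
    induction m with
    | zero => rw [hY0]; exact PowerSeries.map_X _
    | succ m ih =>
      rw [hYs]
      change rd (comp y (PowerSeries.map Φ (Y m))) = comp (rd y) (iter (rd y) m)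
      rw [← ih]
      have z : PowerSeries.constantCoeff (PowerSeries.map Φ (Y m)) = 0 :=
        map_zero_cc Φ (hYH m).zero
      rw [rd, map_comp _ z]
      congr 1
      ext j
      simp only [PowerSeries.coeff_map]
      exact hΦcc _
  set M := a ^ (n * e) * p ^ e with hM
  have hYN : Y (n * e) = mulSeries F M := by
    have h1 := hYH (n * e)
    have h2 : Φ ^ (n * e) = 1 := by rw [mul_comm, pow_mul, hΦ1, one_pow]
    rw [h2] at h1
    have h3 : F.map (1 : PowerSeries k →+* PowerSeries k) = F := map_id_FG F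
    rw [h3] at h1
    have hp0 : PowerSeries.coeff 1 (mulSeries F p) = 0 := by
      rw [coeff_one_mulSeries]
      have : ((p : ℕ) : k) = 0 := CharP.cast_eq_zero k p
      have h5 : ((p : ℕ) : PowerSeries k) = PowerSeries.C ((p : ℕ) : k) :=
        (map_natCast (PowerSeries.C : k →+* PowerSeries k) p).symm
      rw [h5, this, map_zero]
    refine rigid_eq h1 (isHom_mulSeries F M) p hΓ hp0 ?_
    have h4 : rd (mulSeries F M) = mulSeries Γ M := map_mulSeries _ F M
    rw [hYrd, h4, hyr, iter_comp_mulSeries hS, iter_mul_of hS hSn, ← mulSeries_mul]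
  -- orders
  set Q := p ^ (n - 1) with hQ
  have hQ1 : 1 ≤ Q := Nat.one_le_pow _ _ hp.pos
  have hb : (((p ^ (s - r) - 1) ^ (n * e) : ℕ) : k) ≠ 0 := by
    rw [Nat.cast_pow]
    refine pow_ne_zero _ ?_
    have h1 : 1 ≤ p ^ (s - r) := Nat.one_le_pow _ _ hp.pos
    rw [Nat.cast_sub h1, Nat.cast_pow, CharP.cast_eq_zero k p, zero_pow (by omega)]
    simp
  have hMe : M = p ^ ((r + 1) * (n * e) + e) * (p ^ (s - r) - 1) ^ (n * e) := by
    have h1 : a = p ^ (r + 1) * (p ^ (s - r) - 1) := by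
      rw [ha, Nat.mul_sub, mul_one, ← pow_add]
      congr 2
      omega
    rw [hM, h1, mul_pow, ← pow_mul, pow_add]
    ring
  have hordM : (mulSeries F M).order = ((Q ^ ((r + 1) * (n * e) + e) : ℕ) : ℕ∞) := by
    rw [hMe, mulSeries_mul, order_comp (order_mulSeries_pow F hQ1 hF _)
      (order_mulSeries_unit F hb) le_rfl, mul_one]
  have hy0 : y ≠ 0 := by
    intro h0
    obtain ⟨m, hm⟩ : ∃ m, n * e = m + 1 := ⟨n * e - 1, by
      have : 1 ≤ n * e := Nat.mul_pos (by omega) he
      omega⟩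
    have h1 : Y (n * e) = 0 := by
      rw [hm, hYs, h0]
      unfold comp
      rw [← PowerSeries.coe_substAlgHom (hs_of_zero (map_zero_cc Φ (hYH m).zero)), map_zero]
    rw [hYN] at h1
    rw [h1, PowerSeries.order_zero] at hordM
    exact ENat.top_ne_natCast _ hordM
  obtain ⟨α, hα⟩ : ∃ α : ℕ, y.order = α := ⟨_, (PowerSeries.coe_toNat_order hy0).symm⟩
  have hα1 : 1 ≤ α := by
    by_contra hcon
    have h0 : α = 0 := by omega
    rw [h0] at hα
    exact (PowerSeries.order_eq_nat.mp hα).1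
      (by rw [PowerSeries.coeff_zero_eq_constantCoeff_apply, hy.zero])
  have hordY : ∀ m, (Y m).order = ((α ^ m : ℕ) : ℕ∞) := by
    intro m
    induction m with
    | zero => rw [hY0, pow_zero, PowerSeries.order_X]; rfl
    | succ m ih =>
      rw [hYs]
      have h1 : (PowerSeries.map Φ (Y m)).order = ((α ^ m : ℕ) : ℕ∞) := by
        rw [order_map Φ hΦinj, ih]
      rw [order_comp hα h1 (Nat.one_le_pow _ _ hα1), pow_succ']
  have hfin := hordY (n * e)
  rw [hYN, hordM] at hfin
  have hfin' : Q ^ ((r + 1) * (n * e) + e) = α ^ (n * e) := by exact_mod_cast hfin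
  rw [hQ, ← pow_mul] at hfin'
  exact arith hp hn he hfin'.symm

end Pool.Agent.CVH
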