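import Pool.Agent.CVH.Desc
import Pool.Agent.CVH.ThmC2

set_option autoImplicit false

/-!
# CVH: the invariants of `A / p`
-/

noncomputable section

namespace Pool.Agent.CVH

open MvPowerSeries

variable {p : ℕ} [Fact p.Prime] {n : ℕ}

/-- The quotient map to the last coordinate line `k[[t]]`. -/
def kapL (p : ℕ) [Fact p.Prime] (n : ℕ) (j : Fin (n - 1)) : Ab p n →+* PowerSeries (Kb p) :=
  ((MvPowerSeries.killCompl (R := Kb p)
    (⟨fun _ : Unit => j, fun _ _ _ => rfl⟩ : Unit ↪ Fin (n - 1))) :
      MvPowerSeries (Fin (n - 1)) (Kb p) →+* _).comp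
    (MvPowerSeries.map (WittVector.constantCoeff : Wb p →+* Kb p))

theorem coeff_kapL (j : Fin (n - 1)) (f : Ab p n) (i : ℕ) :
    PowerSeries.coeff i (kapL p n j f) =
      WittVector.constantCoeff (MvPowerSeries.coeff (Finsupp.single j i) f) := by
  change MvPowerSeries.coeff (Finsupp.single () i) (MvPowerSeries.killCompl (R := Kb p)
    (⟨fun _ : Unit => j, fun _ _ _ => rfl⟩ : Unit ↪ Fin (n - 1))
    (MvPowerSeries.map (WittVector.constantCoeff : Wb p →+* Kb p) f)) = _
  rw [MvPowerSeries.coeff_killCompl, MvPowerSeries.coeff_map, Finsupp.embDomain_single]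
  rfl

theorem kapL_surj (j : Fin (n - 1)) : Function.Surjective (kapL p n j) := by
  classical
  intro g
  have h : ∀ i : ℕ, ∃ w : Wb p, WittVector.constantCoeff w = PowerSeries.coeff i g :=
    fun i => WittVector.constantCoeff_surjective p _
  choose w hw using h
  let f : Ab p n := fun e => w (e j)
  have hf : ∀ e, MvPowerSeries.coeff e f = w (e j) := fun e => rfl
  refine ⟨f, ?_⟩
  ext i
  rw [coeff_kapL, hf, Finsupp.single_eq_same, hw]

theorem kapL_eq_zero_iff (j : Fin (n - 1)) (hj : (j : ℕ) + 1 = n - 1) (f : Ab p n) :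
    kapL p n j f = 0 ↔ f ∈ Jid p n j := by
  rw [p_JMEM]
  constructor
  · intro h e he
    have h1 : e = Finsupp.single j (e j) := by
      ext i
      rcases eq_or_ne i j with rfl | hij
      · rw [Finsupp.single_eq_same]
      · rw [Finsupp.single_eq_of_ne (by simpa using hij), he i]
        have h2 := i.2
        have h3 : (i : ℕ) ≠ j := fun h => hij (Fin.ext h)
        omega
    rw [h1, ← coeff_kapL, h, map_zero]
  · intro h
    ext i
    rw [coeff_kapL, map_zero]
    apply h
    intro l hl
    rw [Finsupp.single_eq_of_ne]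
    rintro rfl
    exact lt_irrefl _ hl

theorem kapL_X (j : Fin (n - 1)) : kapL p n j (MvPowerSeries.X j) = PowerSeries.X := by
  classical
  ext i
  rw [coeff_kapL, MvPowerSeries.coeff_X, PowerSeries.coeff_X]
  by_cases hi : i = 1
  · subst hi
    simp
  · rw [if_neg hi, if_neg, map_zero]
    intro h
    exact hi ((Finsupp.single_injective j) h)

theorem kapL_C (j : Fin (n - 1)) (w : Wb p) :
    kapL p n j (MvPowerSeries.C w) = PowerSeries.C (WittVector.constantCoeff w) := by
  classical
  ext i
  rw [coeff_kapL, MvPowerSeries.coeff_C, PowerSeries.coeff_C]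
  by_cases hi : i = 0
  · subst hi
    simp
  · rw [if_neg hi, if_neg, map_zero]
    intro h
    apply hi
    simpa using h

theorem cc_kapL (j : Fin (n - 1)) (f : Ab p n) :
    PowerSeries.constantCoeff (kapL p n j f) = res p n f := by
  rw [← PowerSeries.coeff_zero_eq_constantCoeff_apply, coeff_kapL, Finsupp.single_zero,
    MvPowerSeries.coeff_zero_eq_constantCoeff_apply]
  rfl

theorem cc_comp_kapL (j : Fin (n - 1)) :
    (PowerSeries.constantCoeff : PowerSeries (Kb p) →+* Kb p).comp (kapL p n j) = res p n :=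
  RingHom.ext (cc_kapL j)

/-- The invariants of `A / p` are constants. -/
theorem core (Γ : FormalGroup (Kb p)) (hΓ : mulSeries Γ p ≠ 0)
    (S : PowerSeries (Kb p)) (hS : IsHom Γ Γ S) (hSn : iter S n = mulSeries Γ p)
    (F : FormalGroup (Ab p n)) [F.IsComm] (hred : F.map (res p n) = Γ) (hc : StdCoord p n F)
    (φ : (EndF Γ)ˣ → (Ab p n →+* Ab p n)) (ψ : (EndF Γ)ˣ → PowerSeries (Ab p n))
    (h : ∀ g, Elt F (φ g) (ψ g)) (hψ : ∀ g, PowerSeries.map (res p n) (ψ g) = g.1.1)
    (a : Ab p n) (ha : ∀ g, φ g a - a ∈ Ideal.span {(p : Ab p n)}) :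
    ∃ w : Wb p, a - MvPowerSeries.C w ∈ Ideal.span {(p : Ab p n)} := by
  have hp : p.Prime := Fact.out
  refine ⟨MvPowerSeries.constantCoeff a, ?_⟩
  by_contra hcon
  set f0 := a - MvPowerSeries.C (MvPowerSeries.constantCoeff a) with hf0
  rw [← Jid_zero] at hcon
  have hr0 : res p n f0 = 0 := by
    rw [hf0, map_sub, res_C, res_apply, sub_self]
  have hi0 : ∀ g, φ g f0 - f0 ∈ Jid p n 0 := by
    intro g
    rw [hf0, map_sub, (h g).lin, Jid_zero]
    have e : φ g a - MvPowerSeries.C (MvPowerSeries.constantCoeff a) -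
        (a - MvPowerSeries.C (MvPowerSeries.constantCoeff a)) = φ g a - a := by ring
    rw [e]
    exact ha g
  rcases Nat.lt_or_ge n 2 with hn | hn
  · -- no variables
    apply hcon
    have : IsEmpty (Fin (n - 1)) := ⟨fun i => by have := i.2; omega⟩
    have h0 : f0 = 0 := by
      ext1 e
      have he : e = 0 := Subsingleton.elim _ _
      rw [he, MvPowerSeries.coeff_zero_eq_constantCoeff_apply, hf0, map_sub,
        MvPowerSeries.constantCoeff_C, sub_self]
      rfl
    rw [h0]
    exact Ideal.zero_mem _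
  · obtain ⟨f, w, hf, hfi, hw⟩ := descend hc h hcon hr0 hi0 (n - 2) (by omega)
    set j : Fin (n - 1) := ⟨n - 2, by omega⟩ with hj
    have hjn : (j : ℕ) = n - 2 := rfl
    have hj1 : (j : ℕ) + 1 = n - 1 := by omega
    set N := p ^ (n - 1) - 1 with hN
    have hN1 : 1 ≤ N := by
      have h8 : p ^ 1 ≤ p ^ (n - 1) := Nat.pow_le_pow_right hp.pos (by omega)
      rw [pow_one] at h8
      have := hp.two_le
      rw [hN]
      omega
    -- the invariant
    set f1 := f ^ N * MvPowerSeries.X j ^ w with hf1
    have hf1not : f1 ∉ Jid p n (n - 2) := by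
      intro h1
      rcases (prime_Jid (n - 2)).mem_or_mem h1 with h2 | h2
      · exact hf ((prime_Jid (p := p) (n := n) (n - 2)).mem_of_pow_mem N h2)
      · exact X_notMem j ((prime_Jid (p := p) (n := n) (n - 2)).mem_of_pow_mem w h2)
    have hf1res : res p n f1 = 0 := by
      rw [hf1, map_mul, map_pow, map_pow, res_X]
      rcases hw with hw | hw
      · rw [zero_pow (by omega), mul_zero]
      · rw [hw, zero_pow (by omega), zero_mul]
    have hf1inv : ∀ g, φ g f1 - f1 ∈ Jid p n (n - 2) := by
      intro g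
      have hX := (h g).coord hc j ((h g).pres hc (n - 2) (by omega))
      rw [hj1, hjn] at hX
      set c := PowerSeries.coeff 1 (ψ g) with hcdef
      set π := Ideal.Quotient.mk (Jid p n (n - 2)) with hπ
      have z : ∀ x, x ∈ Jid p n (n - 2) ↔ π x = 0 := fun x => Ideal.Quotient.eq_zero_iff_mem.symm
      have e1 : π (φ g (MvPowerSeries.X j)) = π c ^ N * π (MvPowerSeries.X j) := by
        have := (z _).mp hX
        rw [map_sub, sub_eq_zero, map_mul, map_pow] at this
        exact this
      have e4 : π c ^ w * π (φ g f) = π f := by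
        have := (z _).mp (hfi g)
        rw [map_sub, sub_eq_zero, map_mul, map_pow] at this
        exact this
      rw [z, map_sub, sub_eq_zero, hf1]
      simp only [map_mul, map_pow]
      rw [e1, ← e4]
      ring
    -- descend to the line
    set κ := kapL p n j with hκ
    have hker : ∀ g, RingHom.ker κ ≤ RingHom.ker (κ.comp (φ g)) := by
      intro g x hx
      rw [RingHom.mem_ker] at hx ⊢
      rw [hκ, kapL_eq_zero_iff j hj1] at hx
      have := (h g).pres hc (n - 2) (by omega) x hx
      rw [RingHom.comp_apply, hκ, kapL_eq_zero_iff j hj1]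
      exact this
    let φb : (EndF Γ)ˣ → (PowerSeries (Kb p) →+* PowerSeries (Kb p)) := fun g =>
      RingHom.liftOfSurjective κ (kapL_surj j) ⟨κ.comp (φ g), hker g⟩
    have hφb : ∀ g x, φb g (κ x) = κ (φ g x) := by
      intro g x
      exact RingHom.liftOfRightInverse_comp_apply _ _ _ _ _
    have hφbc : ∀ g, (φb g).comp κ = κ.comp (φ g) := fun g => RingHom.ext (hφb g)
    set Fb := F.map κ with hFb
    have hFbred : Fb.map (PowerSeries.constantCoeff : PowerSeries (Kb p) →+* Kb p) = Γ := by
      rw [hFb, map_map_FG, hκ, cc_comp_kapL, hred]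
    have hFbmul : mulSeries Fb p = PowerSeries.map κ (mulSeries F p) :=
      (map_mulSeries κ F p).symm
    have hord : (mulSeries Fb p).order = ((p ^ (n - 1) : ℕ) : ℕ∞) := by
      rw [PowerSeries.order_eq_nat, hFbmul]
      constructor
      · rw [PowerSeries.coeff_map]
        have h1 := hc.lead j
        rw [hj1, ← kapL_eq_zero_iff j hj1, map_sub, kapL_X, sub_eq_zero] at h1
        rw [h1]
        exact PowerSeries.X_ne_zero
      · intro i hi
        rw [PowerSeries.coeff_map, hκ, kapL_eq_zero_iff j hj1]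
        exact hc.low j i (by rw [hj1]; exact hi)
    have hrdne : rd (mulSeries Fb p) ≠ 0 := by
      have : rd (mulSeries Fb p) = mulSeries (Fb.map
        (PowerSeries.constantCoeff : PowerSeries (Kb p) →+* Kb p)) p := map_mulSeries _ _ _
      rw [this, hFbred]
      exact hΓ
    -- the automorphisms `1 + p ^ (r + 1) S`
    have hΓc : Γ.IsComm := by rw [← hred]; infer_instance
    have hg : ∀ r : ℕ, IsHom Γ Γ (addG Γ PowerSeries.X (comp (mulSeries Γ (p ^ (r + 1))) S)) :=
      fun r => (isHom_X Γ).add ((isHom_mulSeries Γ _).comp hS)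
    have hu : ∀ r : ℕ, IsUnit (PowerSeries.coeff 1
        (addG Γ PowerSeries.X (comp (mulSeries Γ (p ^ (r + 1))) S))) := by
      intro r
      rw [coeff_one_addG Γ (by simp) (comp_zero_cc (mulSeries_zero_cc Γ _) hS.zero),
        coeff_one_comp (mulSeries_zero_cc Γ _) hS.zero, coeff_one_mulSeries,
        PowerSeries.coeff_one_X]
      have : ((p ^ (r + 1) : ℕ) : Kb p) = 0 := by
        rw [Nat.cast_pow, CharP.cast_eq_zero (Kb p) p, zero_pow (by omega)]
      rw [this, zero_mul, add_zero]
      exact isUnit_one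
    let g : ℕ → (EndF Γ)ˣ := fun r => mkUnit _ (hg r) (hu r)
    have hfin := thmC (k := Kb p) p n hn Fb hord hrdne S (by rw [hFbred]; exact hS)
      (by rw [hFbred]; exact hSn) (fun r => φb (g r))
      (by
        intro r c
        obtain ⟨v, rfl⟩ := WittVector.constantCoeff_surjective (p := p) c
        rw [← kapL_C j, hφb, (h (g r)).lin])
      (by
        intro r
        rw [← kapL_X j, hφb, hκ, cc_kapL, (h (g r)).res, res_X])
      (fun r => PowerSeries.map κ (ψ (g r)))
      (by
        intro r
        have h1 := (h (g r)).hom.map κ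
        rw [map_map_FG, ← hφbc, ← map_map_FG] at h1
        exact h1)
      (by
        intro r
        rw [hFbred]
        have h1 : rd (PowerSeries.map κ (ψ (g r))) = PowerSeries.map (res p n) (ψ (g r)) := by
          ext i
          simp only [rd, PowerSeries.coeff_map]
          exact cc_kapL j _
        rw [h1, hψ]
        rfl)
      (κ f1) (by
        intro r
        rw [hφb, ← sub_eq_zero, ← map_sub, hκ, kapL_eq_zero_iff j hj1]
        exact hf1inv (g r))
    apply hf1not
    rw [← hjn, ← kapL_eq_zero_iff j hj1]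
    ext d
    rw [map_zero]
    rcases Nat.eq_zero_or_pos d with hd | hd
    · rw [hd, PowerSeries.coeff_zero_eq_constantCoeff_apply, cc_kapL, hf1res]
    · exact hfin d hd

end Pool.Agent.CVH
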