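import Mathlib

set_option autoImplicit false

/-!
# CVH: the chromatic vanishing conjecture in degree one (MP_05d689_gt), definitions

One-dimensional formal group laws are Mathlib's `FormalGroup R` (with `FormalGroup.IsComm`).
-/

noncomputable section

namespace Pool.Agent.CVH

/-! ## Homomorphisms of formal group laws -/

section FG

variable {R : Type} [CommRing R]

/-- The series `f(X) +_G g(X) = G(f(X), g(X))`. -/
def addG {τ : Type} (G : FormalGroup R) (f g : MvPowerSeries τ R) : MvPowerSeries τ R :=
  MvPowerSeries.subst ![f, g] G.toPowerSeries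

/-- `f` is a homomorphism of formal group laws `F → G`: `f(0) = 0` and
`f(F(X, Y)) = G(f(X), f(Y))`. -/
structure IsHom (F G : FormalGroup R) (f : PowerSeries R) : Prop where
  zero : PowerSeries.constantCoeff f = 0
  map_add : PowerSeries.subst F.toPowerSeries f =
    addG G (PowerSeries.subst (MvPowerSeries.X 0 : MvPowerSeries (Fin 2) R) f)
      (PowerSeries.subst (MvPowerSeries.X 1 : MvPowerSeries (Fin 2) R) f)

/-- The composite `f(g(X))`. -/
def comp (f g : PowerSeries R) : PowerSeries R := PowerSeries.subst g f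

/-- The series `[m]_F(X)`. -/
def mulSeries (F : FormalGroup R) : ℕ → PowerSeries R
  | 0 => 0
  | m + 1 => addG F (mulSeries F m) PowerSeries.X

/-- The `m`-fold composite of `f`. -/
def iter (f : PowerSeries R) : ℕ → PowerSeries R
  | 0 => PowerSeries.X
  | m + 1 => comp f (iter f m)

/-- The set of endomorphisms of `F`. -/
def EndF (F : FormalGroup R) : Type := {f : PowerSeries R // IsHom F F f}

end FG

/-! ## The Lubin-Tate ring -/

section LT

variable (p : ℕ) [Fact p.Prime] (n : ℕ)

/-- The field `k`, an algebraic closure of `ℤ/p`. -/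
abbrev Kb : Type := AlgebraicClosure (ZMod p)

/-- The ring `W = W(k)` of `p`-typical Witt vectors of `k`. -/
abbrev Wb : Type := WittVector p (Kb p)

/-- The ring `A = W[[u_1, …, u_(n-1)]]`; the variable `u_(j+1)` is `X j`. -/
abbrev Ab : Type := MvPowerSeries (Fin (n - 1)) (Wb p)

/-- The residue map `A → k`. -/
def res : Ab p n →+* Kb p :=
  (WittVector.constantCoeff : Wb p →+* Kb p).comp MvPowerSeries.constantCoeff

/-- `F` is a universal deformation of the formal group law `Γ` over `k`: `F` is a commutative formal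
group law over `A` which reduces to `Γ`, and for every complete local Noetherian `W`-algebra `B`
with residue field `k` (residue map `π`), every commutative formal group law `F'` over `B` and every
isomorphism `i : π F' → Γ` there is exactly one local `W`-algebra homomorphism `φ : A → B` (inducing
the identity on `k`) such that there is an isomorphism `ψ : φ F → F'` with `i ∘ π ψ = id`. -/
structure IsUniversalDeformation (Γ : FormalGroup (Kb p)) (F : FormalGroup (Ab p n)) : Prop where
  comm : F.IsComm
  red : F.map (res p n) = Γ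
  univ : ∀ (B : Type) [CommRing B] [Algebra (Wb p) B] [IsLocalRing B] [IsNoetherianRing B]
    [IsAdicComplete (IsLocalRing.maximalIdeal B) B] (π : B →+* Kb p),
    Function.Surjective π → (∀ w : Wb p, π (algebraMap (Wb p) B w) = WittVector.constantCoeff w) →
    ∀ (F' : FormalGroup B) [F'.IsComm] (i : PowerSeries (Kb p)), IsHom (F'.map π) Γ i →
      IsUnit (PowerSeries.coeff 1 i) →
      ∃! φ : Ab p n →ₐ[Wb p] B, π.comp (φ : Ab p n →+* B) = res p n ∧
        ∃ ψ : PowerSeries B, IsHom (F.map (φ : Ab p n →+* B)) F' ψ ∧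
          comp i (PowerSeries.map π ψ) = PowerSeries.X

/-- The ideal `(p, u_1, …, u_h)`. -/
def Jid (h : ℕ) : Ideal (Ab p n) :=
  Ideal.span ({(p : Ab p n)} ∪ {x | ∃ j : Fin (n - 1), (j : ℕ) < h ∧ x = MvPowerSeries.X j})

/-- The coordinates `u_1, …, u_(n-1)` are standard: modulo `(p, u_1, …, u_(h-1))` the series
`[p]_F(X)` is `u_h X ^ (p ^ h) + …` (here `h = j + 1`). -/
structure StdCoord (F : FormalGroup (Ab p n)) : Prop where
  low : ∀ j : Fin (n - 1), ∀ m : ℕ, m < p ^ ((j : ℕ) + 1) →
    PowerSeries.coeff m (mulSeries F p) ∈ Jid p n j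
  lead : ∀ j : Fin (n - 1),
    PowerSeries.coeff (p ^ ((j : ℕ) + 1)) (mulSeries F p) - MvPowerSeries.X j ∈ Jid p n j

end LT

/-! ## Cohomology in degree one -/

section coh

variable {G M : Type} [Group G] [CommRing M]

/-- Continuous functions on `G` with values in `M` for the topology of `G` given by a sequence
`q` of quotients and the `I`-adic topology of `M`. -/
def Cts {Q : Type} (q : G → ℕ → Q) (I : Ideal M) : AddSubgroup (G → M) where
  carrier := {z | ∀ (g : G) (N : ℕ), ∃ d : ℕ, ∀ h : G, (∀ i < d, q h i = q g i) →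
    z h - z g ∈ I ^ N}
  zero_mem' := fun g N => ⟨0, fun h _ => by simp⟩
  add_mem' := by
    intro x y hx hy g N
    obtain ⟨d, hd⟩ := hx g N
    obtain ⟨e, he⟩ := hy g N
    refine ⟨max d e, fun h hh => ?_⟩
    have h1 := hd h (fun i hi => hh i (lt_of_lt_of_le hi (le_max_left _ _)))
    have h2 := he h (fun i hi => hh i (lt_of_lt_of_le hi (le_max_right _ _)))
    have e3 : (x + y) h - (x + y) g = (x h - x g) + (y h - y g) := by
      simp only [Pi.add_apply]; ring
    rw [e3]
    exact (I ^ N).add_mem h1 h2
  neg_mem' := by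
    intro x hx g N
    obtain ⟨d, hd⟩ := hx g N
    refine ⟨d, fun h hh => ?_⟩
    have e3 : (-x) h - (-x) g = -(x h - x g) := by
      simp only [Pi.neg_apply]; ring
    rw [e3]
    exact (I ^ N).neg_mem (hd h hh)

/-- Cocycles. -/
def Coc (ρ : G →* (M →+* M)) : AddSubgroup (G → M) where
  carrier := {z | ∀ g h : G, z (g * h) = z g + ρ g (z h)}
  zero_mem' := by intro g h; simp
  add_mem' := by
    intro x y hx hy g h
    simp only [Pi.add_apply, hx g h, hy g h, map_add]; ring
  neg_mem' := by
    intro x hx g h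
    simp only [Pi.neg_apply, hx g h, map_neg]; ring

/-- Coboundaries. -/
def Cob (ρ : G →* (M →+* M)) : AddSubgroup (G → M) where
  carrier := {z | ∃ a : M, ∀ g : G, z g = ρ g a - a}
  zero_mem' := ⟨0, fun g => by simp⟩
  add_mem' := by
    rintro x y ⟨a, ha⟩ ⟨b, hb⟩
    exact ⟨a + b, fun g => by simp only [Pi.add_apply, ha, hb, map_add]; ring⟩
  neg_mem' := by
    rintro x ⟨a, ha⟩
    exact ⟨-a, fun g => by simp only [Pi.neg_apply, ha, map_neg]; ring⟩

/-- Continuous 1-cocycles. -/
def Z1 {Q : Type} (q : G → ℕ → Q) (I : Ideal M) (ρ : G →* (M →+* M)) : AddSubgroup (G → M) :=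
  Cts q I ⊓ Coc ρ

/-- Continuous cohomology in degree one: continuous cocycles modulo continuous coboundaries. -/
abbrev H1 {Q : Type} (q : G → ℕ → Q) (I : Ideal M) (ρ : G →* (M →+* M)) : Type :=
  Z1 q I ρ ⧸ (Cob ρ).addSubgroupOf (Z1 q I ρ)

end coh

end Pool.Agent.CVH
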