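import Pool.Agent.CVH.Targets

set_option autoImplicit false

noncomputable section

namespace Pool.Agent.CVH

namespace JMEM_

open MvPowerSeries

variable {p : ℕ} [Fact p.Prime] {n : ℕ}

lemma mono {h : ℕ} : Jid p n h ≤ Jid p n (h + 1) := by
  unfold Jid
  apply Ideal.span_mono
  apply Set.union_subset_union_right
  rintro x ⟨j, hj, rfl⟩
  exact ⟨j, by omega, rfl⟩

lemma fwd (h : ℕ) (f : Ab p n) (hf : f ∈ Jid p n h) :
    ∀ e : Fin (n - 1) →₀ ℕ, (∀ j : Fin (n - 1), (j : ℕ) < h → e j = 0) →
      WittVector.constantCoeff (MvPowerSeries.coeff e f) = (0 : Kb p) := by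
  unfold Jid at hf
  induction hf using Submodule.span_induction with
  | mem x hx =>
    intro e he
    rcases hx with hx | ⟨j, hj, rfl⟩
    · rw [Set.mem_singleton_iff] at hx
      subst hx
      have h1 : ((p : ℕ) : Ab p n) = MvPowerSeries.C (p : Wb p) := by
        rw [map_natCast]
      rw [h1]
      classical
      rw [MvPowerSeries.coeff_C]
      split_ifs
      · rw [map_natCast]
        exact CharP.cast_eq_zero (Kb p) p
      · exact map_zero _
    · classical
      rw [MvPowerSeries.coeff_X]
      split_ifs with h1
      · exfalso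
        have h2 := he j hj
        rw [h1] at h2
        simp at h2
      · exact map_zero _
  | zero => intro e _; simp
  | add x y _ _ hx hy =>
    intro e he
    rw [map_add, map_add, hx e he, hy e he, add_zero]
  | smul a x _ hx =>
    intro e he
    classical
    rw [smul_eq_mul, MvPowerSeries.coeff_mul, map_sum]
    apply Finset.sum_eq_zero
    intro uv huv
    rw [Finset.HasAntidiagonal.mem_antidiagonal] at huv
    rw [map_mul, hx uv.2, mul_zero]
    intro j hj
    have h1 := he j hj
    rw [← huv, Finsupp.add_apply] at h1
    omega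

lemma bwd (h : ℕ) : ∀ f : Ab p n,
    (∀ e : Fin (n - 1) →₀ ℕ, (∀ j : Fin (n - 1), (j : ℕ) < h → e j = 0) →
      WittVector.constantCoeff (MvPowerSeries.coeff e f) = (0 : Kb p)) → f ∈ Jid p n h := by
  induction h with
  | zero =>
    intro f hf
    have h1 : ∀ e, ∃ y : Wb p, MvPowerSeries.coeff e f = (p : Wb p) * y := by
      intro e
      have h2 : MvPowerSeries.coeff e f ∈ RingHom.ker
          (WittVector.constantCoeff : Wb p →+* Kb p) :=
        hf e (fun j hj => absurd hj (Nat.not_lt_zero _))
      rw [WittVector.ker_constantCoeff, Ideal.mem_span_singleton] at h2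
      exact h2
    choose g' hg using h1
    set g : Ab p n := g' with hg'
    have h2 : f = (p : Ab p n) * g := by
      have h1 : ((p : ℕ) : Ab p n) = MvPowerSeries.C (p : Wb p) := by
        rw [map_natCast]
      ext1 e
      rw [hg e, h1, MvPowerSeries.coeff_C_mul]
      rfl
    rw [h2]
    exact Ideal.mul_mem_right _ _ (Ideal.subset_span (Or.inl rfl))
  | succ h ih =>
    intro f hf
    by_cases hn : h < n - 1
    · set j0 : Fin (n - 1) := ⟨h, hn⟩ with hj0
      classical
      set f' : Ab p n := fun e => if e j0 = 0 then MvPowerSeries.coeff e f else 0 with hf'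
      have hc : ∀ e, MvPowerSeries.coeff e f' = if e j0 = 0 then MvPowerSeries.coeff e f else 0 :=
        fun e => rfl
      have h1 : f' ∈ Jid p n h := by
        apply ih
        intro e he
        rw [hc]
        split_ifs with h2
        · apply hf
          intro j hj
          rcases Nat.lt_succ_iff_lt_or_eq.1 hj with h3 | h3
          · exact he j h3
          · have : j = j0 := Fin.ext h3
            rw [this]
            exact h2
        · exact map_zero _
      have h2 : (MvPowerSeries.X j0 : Ab p n) ∣ f - f' := by
        rw [MvPowerSeries.X_dvd_iff]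
        intro e he
        rw [map_sub, hc, if_pos he, sub_self]
      obtain ⟨g, hg⟩ := h2
      have h3 : f = f' + MvPowerSeries.X j0 * g := by
        rw [← hg]; ring
      rw [h3]
      apply Ideal.add_mem _ (mono h1)
      apply Ideal.mul_mem_right
      exact Ideal.subset_span (Or.inr ⟨j0, by simp [hj0], rfl⟩)
    · apply mono
      apply ih
      intro e he
      apply hf
      intro j _
      exact he j (by omega)

end JMEM_

theorem p_JMEM : T_JMEM := fun _ _ _ h f => ⟨JMEM_.fwd h f, JMEM_.bwd h f⟩

end Pool.Agent.CVH
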