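import Pool.Agent.CVH.Lib3
import Pool.Agent.CVH.P_JMEM

set_option autoImplicit false

/-!
# CVH: the ideals `(p, u_1, …, u_h)` and the descent
-/

noncomputable section

namespace Pool.Agent.CVH

open MvPowerSeries

variable {p : ℕ} [Fact p.Prime] {n : ℕ}

theorem res_apply (f : Ab p n) :
    res p n f = WittVector.constantCoeff (MvPowerSeries.constantCoeff f) := rfl

theorem res_C (w : Wb p) : res p n (MvPowerSeries.C w) = WittVector.constantCoeff w := by
  rw [res_apply, MvPowerSeries.constantCoeff_C]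

theorem res_X (j : Fin (n - 1)) : res p n (MvPowerSeries.X j) = 0 := by
  rw [res_apply, MvPowerSeries.constantCoeff_X, map_zero]

/-- The quotient map modulo `(p, u_1, …, u_h)`. -/
def kapH (p : ℕ) [Fact p.Prime] (n h : ℕ) :
    Ab p n →+* MvPowerSeries {j : Fin (n - 1) // h ≤ (j : ℕ)} (Kb p) :=
  ((MvPowerSeries.killCompl (R := Kb p) (Function.Embedding.subtype
    (fun j : Fin (n - 1) => h ≤ (j : ℕ)))) :
      MvPowerSeries (Fin (n - 1)) (Kb p) →+* _).comp
    (MvPowerSeries.map (WittVector.constantCoeff : Wb p →+* Kb p))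

theorem coeff_kapH (h : ℕ) (f : Ab p n) (x : {j : Fin (n - 1) // h ≤ (j : ℕ)} →₀ ℕ) :
    MvPowerSeries.coeff x (kapH p n h f) = WittVector.constantCoeff (MvPowerSeries.coeff
      (Finsupp.embDomain (Function.Embedding.subtype (fun j : Fin (n - 1) => h ≤ (j : ℕ))) x) f) := by
  change MvPowerSeries.coeff x (MvPowerSeries.killCompl (R := Kb p)
    (Function.Embedding.subtype (fun j : Fin (n - 1) => h ≤ (j : ℕ)))
    (MvPowerSeries.map (WittVector.constantCoeff : Wb p →+* Kb p) f)) = _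
  rw [MvPowerSeries.coeff_killCompl, MvPowerSeries.coeff_map]

theorem mem_Jid_iff (h : ℕ) (f : Ab p n) : f ∈ Jid p n h ↔ kapH p n h f = 0 := by
  rw [p_JMEM]
  constructor
  · intro hf
    ext x
    rw [coeff_kapH, map_zero]
    apply hf
    intro j hj
    rw [Finsupp.embDomain_of_notMem_range]
    rintro ⟨y, rfl⟩
    have := y.2
    simp only [Function.Embedding.subtype_apply] at hj
    omega
  · intro hf e he
    have hsupp : ∀ j ∈ e.support, h ≤ (j : ℕ) := by
      intro j hj
      by_contra hc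
      exact (Finsupp.mem_support_iff.mp hj) (he j (by omega))
    have hx : ∃ x : {j : Fin (n - 1) // h ≤ (j : ℕ)} →₀ ℕ, Finsupp.embDomain
        (Function.Embedding.subtype (fun j : Fin (n - 1) => h ≤ (j : ℕ))) x = e := by
      refine ⟨Finsupp.comapDomain (Function.Embedding.subtype
        (fun j : Fin (n - 1) => h ≤ (j : ℕ))) e
        (Function.Embedding.injective _).injOn, ?_⟩
      apply Finsupp.embDomain_comapDomain
      intro j hj
      exact ⟨⟨j, hsupp j hj⟩, rfl⟩
    obtain ⟨x, rfl⟩ := hx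
    rw [← coeff_kapH, hf, map_zero]

instance prime_Jid (h : ℕ) : (Jid p n h).IsPrime := by
  have : Jid p n h = RingHom.ker (kapH p n h) := by
    ext f
    rw [mem_Jid_iff, RingHom.mem_ker]
  rw [this]
  have : IsDomain (MvPowerSeries {j : Fin (n - 1) // h ≤ (j : ℕ)} (Kb p)) :=
    NoZeroDivisors.to_isDomain _
  exact RingHom.ker_isPrime _

theorem X_notMem (j : Fin (n - 1)) : (MvPowerSeries.X j : Ab p n) ∉ Jid p n j := by
  intro h
  rw [p_JMEM] at h
  have h1 := h (Finsupp.single j 1) (by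
    intro i hi
    rw [Finsupp.single_eq_of_ne]
    rintro rfl
    exact lt_irrefl _ hi)
  rw [MvPowerSeries.coeff_index_single_self_X, map_one] at h1
  exact one_ne_zero h1

theorem Jid_succ (j : Fin (n - 1)) :
    Jid p n ((j : ℕ) + 1) = Jid p n j ⊔ Ideal.span {(MvPowerSeries.X j : Ab p n)} := by
  unfold Jid
  rw [← Ideal.span_union]
  congr 1
  ext x
  simp only [Set.mem_union, Set.mem_singleton_iff, Set.mem_ofPred_eq]
  constructor
  · rintro (h | ⟨i, hi, rfl⟩)
    · exact Or.inl (Or.inl h)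
    · rcases Nat.lt_succ_iff_lt_or_eq.mp hi with h1 | h1
      · exact Or.inl (Or.inr ⟨i, h1, rfl⟩)
      · right
        rw [Fin.ext h1]
  · rintro ((h | ⟨i, hi, rfl⟩) | rfl)
    · exact Or.inl h
    · exact Or.inr ⟨i, by omega, rfl⟩
    · exact Or.inr ⟨j, by omega, rfl⟩

theorem Jid_zero : Jid p n 0 = Ideal.span {(p : Ab p n)} := by
  unfold Jid
  congr 1
  ext x
  simp

theorem res_of_mem {h : ℕ} {f : Ab p n} (hf : f ∈ Jid p n h) : res p n f = 0 := by
  rw [p_JMEM] at hf
  have := hf 0 (fun j _ => rfl)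
  rwa [MvPowerSeries.coeff_zero_eq_constantCoeff_apply] at this

/-- Dividing out the highest power of `u_(j+1)`. -/
theorem exists_divide (j : Fin (n - 1)) {f : Ab p n} (hf : f ∉ Jid p n j) :
    ∃ (m : ℕ) (f' : Ab p n), f' ∉ Jid p n ((j : ℕ) + 1) ∧
      f - MvPowerSeries.X j ^ m * f' ∈ Jid p n j := by
  classical
  have hex : ∃ N : ℕ, ¬ ∃ b : Ab p n, f - MvPowerSeries.X j ^ N * b ∈ Jid p n j := by
    by_contra hc
    push Not at hc
    apply hf
    rw [p_JMEM]
    intro e he
    obtain ⟨b, hb⟩ := hc (e j + 1)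
    rw [p_JMEM] at hb
    have h1 := hb e he
    have h2 : MvPowerSeries.coeff e (MvPowerSeries.X j ^ (e j + 1) * b : Ab p n) = 0 :=
      MvPowerSeries.X_pow_dvd_iff.mp (Dvd.intro _ rfl) e (Nat.lt_succ_self _)
    rw [map_sub, h2, sub_zero] at h1
    exact h1
  set N := Nat.find hex with hN
  have hN0 : N ≠ 0 := by
    intro h0
    apply Nat.find_spec hex
    rw [← hN, h0]
    exact ⟨f, by rw [pow_zero, one_mul, sub_self]; exact Ideal.zero_mem _⟩
  obtain ⟨m, hm⟩ := Nat.exists_eq_succ_of_ne_zero hN0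
  have h1 : ∃ b : Ab p n, f - MvPowerSeries.X j ^ m * b ∈ Jid p n j := by
    by_contra hc
    exact Nat.find_min hex (by omega : m < N) hc
  obtain ⟨f', hf'⟩ := h1
  refine ⟨m, f', ?_, hf'⟩
  intro hmem
  rw [Jid_succ, Submodule.mem_sup] at hmem
  obtain ⟨a, ha, b, hb, hab⟩ := hmem
  obtain ⟨b', rfl⟩ := Ideal.mem_span_singleton'.mp hb
  apply Nat.find_spec hex
  rw [← hN, hm]
  refine ⟨b', ?_⟩
  have e : f - MvPowerSeries.X j ^ (m + 1) * b' =
      (f - MvPowerSeries.X j ^ m * f') + MvPowerSeries.X j ^ m * a := by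
    rw [← hab]; ring
  rw [Nat.succ_eq_add_one, e]
  exact Ideal.add_mem _ hf' (Ideal.mul_mem_left _ _ ha)

/-! ### The action on the coordinates -/

/-- The relation between the leading coefficients. -/
theorem lead_rel {A : Type} [CommRing A] {F : FormalGroup A} {φ : A →+* A} {ψ : PowerSeries A}
    (hψ : IsHom (F.map φ) F ψ) (m : ℕ) (J : Ideal A) (hJ : ∀ x ∈ J, φ x ∈ J) {Q : ℕ} (hQ : 1 ≤ Q)
    {u : A} (hlow : ∀ i < Q, PowerSeries.coeff i (mulSeries F m) ∈ J)
    (hlead : PowerSeries.coeff Q (mulSeries F m) - u ∈ J) :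
    PowerSeries.coeff 1 ψ * φ u - u * PowerSeries.coeff 1 ψ ^ Q ∈ J := by
  set π := Ideal.Quotient.mk J with hπ
  have e := hψ.comp_mulSeries m
  rw [← map_mulSeries φ F m] at e
  have z1 : PowerSeries.constantCoeff (PowerSeries.map φ (mulSeries F m)) = 0 :=
    map_zero_cc φ (mulSeries_zero_cc F m)
  have e' := congrArg (PowerSeries.map π) e
  rw [map_comp π z1, map_comp π hψ.zero] at e'
  have e'' := congrArg (PowerSeries.coeff Q) e'
  have hd1 : PowerSeries.X ^ Q ∣ PowerSeries.map π (PowerSeries.map φ (mulSeries F m)) := by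
    rw [PowerSeries.X_pow_dvd_iff]
    intro i hi
    rw [PowerSeries.coeff_map, PowerSeries.coeff_map]
    exact Ideal.Quotient.eq_zero_iff_mem.mpr (hJ _ (hlow i hi))
  have hd2 : PowerSeries.X ^ Q ∣ PowerSeries.map π (mulSeries F m) := by
    rw [PowerSeries.X_pow_dvd_iff]
    intro i hi
    rw [PowerSeries.coeff_map]
    exact Ideal.Quotient.eq_zero_iff_mem.mpr (hlow i hi)
  rw [coeff_comp_right hQ (map_zero_cc π hψ.zero) hd1,
    coeff_comp_left hd2 (map_zero_cc π hψ.zero)] at e''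
  simp only [PowerSeries.coeff_map] at e''
  have h1 : π (PowerSeries.coeff Q (mulSeries F m)) = π u := by
    rw [← sub_eq_zero, ← map_sub]
    exact Ideal.Quotient.eq_zero_iff_mem.mpr hlead
  have h2 : π (φ (PowerSeries.coeff Q (mulSeries F m))) = π (φ u) := by
    rw [← sub_eq_zero, ← map_sub, ← map_sub]
    exact Ideal.Quotient.eq_zero_iff_mem.mpr (hJ _ hlead)
  rw [h1, h2, ← map_mul, ← map_pow, ← map_mul] at e''
  exact Ideal.Quotient.eq.mp e''

/-- One element of the group: an endomorphism `φ` of `A` with an isomorphism `ψ : φ F → F`. -/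
structure Elt (F : FormalGroup (Ab p n)) (φ : Ab p n →+* Ab p n) (ψ : PowerSeries (Ab p n)) :
    Prop where
  hom : IsHom (F.map φ) F ψ
  unit : IsUnit (PowerSeries.coeff 1 ψ)
  lin : ∀ w : Wb p, φ (MvPowerSeries.C w) = MvPowerSeries.C w
  res : ∀ a, res p n (φ a) = res p n a

theorem Elt.coord {F : FormalGroup (Ab p n)} (hc : StdCoord p n F) {φ : Ab p n →+* Ab p n}
    {ψ : PowerSeries (Ab p n)} (h : Elt F φ ψ) (j : Fin (n - 1))
    (hJ : ∀ x ∈ Jid p n j, φ x ∈ Jid p n j) :
    φ (MvPowerSeries.X j) -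
      PowerSeries.coeff 1 ψ ^ (p ^ ((j : ℕ) + 1) - 1) * MvPowerSeries.X j ∈ Jid p n j := by
  have hp : p.Prime := Fact.out
  have hQ : 1 ≤ p ^ ((j : ℕ) + 1) := Nat.one_le_pow _ _ hp.pos
  have h1 := lead_rel h.hom p (Jid p n j) hJ hQ (hc.low j) (hc.lead j)
  have h2 : PowerSeries.coeff 1 ψ * (φ (MvPowerSeries.X j) -
      PowerSeries.coeff 1 ψ ^ (p ^ ((j : ℕ) + 1) - 1) * MvPowerSeries.X j) ∈ Jid p n j := by
    have e : PowerSeries.coeff 1 ψ * (φ (MvPowerSeries.X j) -
        PowerSeries.coeff 1 ψ ^ (p ^ ((j : ℕ) + 1) - 1) * MvPowerSeries.X j) =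
        PowerSeries.coeff 1 ψ * φ (MvPowerSeries.X j) -
        MvPowerSeries.X j * PowerSeries.coeff 1 ψ ^ (p ^ ((j : ℕ) + 1)) := by
      have : PowerSeries.coeff 1 ψ ^ (p ^ ((j : ℕ) + 1)) =
          PowerSeries.coeff 1 ψ * PowerSeries.coeff 1 ψ ^ (p ^ ((j : ℕ) + 1) - 1) := by
        rw [← pow_succ', Nat.sub_add_cancel hQ]
      rw [this]; ring
    rw [e]
    exact h1
  exact (Ideal.unit_mul_mem_iff_mem _ h.unit).mp h2

theorem Elt.pres {F : FormalGroup (Ab p n)} (hc : StdCoord p n F) {φ : Ab p n →+* Ab p n}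
    {ψ : PowerSeries (Ab p n)} (h : Elt F φ ψ) :
    ∀ (m : ℕ), m ≤ n - 1 → ∀ x ∈ Jid p n m, φ x ∈ Jid p n m := by
  intro m
  induction m with
  | zero =>
    intro _ x hx
    rw [Jid_zero] at hx ⊢
    obtain ⟨y, rfl⟩ := Ideal.mem_span_singleton'.mp hx
    rw [map_mul, map_natCast]
    exact Ideal.mul_mem_left _ _ (Ideal.mem_span_singleton_self _)
  | succ m ih =>
    intro hm x hx
    have ih' := ih (by omega)
    set j : Fin (n - 1) := ⟨m, by omega⟩ with hj
    have hjm : (j : ℕ) = m := rfl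
    have e : Jid p n (m + 1) = Jid p n m ⊔ Ideal.span {(MvPowerSeries.X j : Ab p n)} :=
      Jid_succ j
    have hle : Jid p n m ≤ Jid p n (m + 1) := by rw [e]; exact le_sup_left
    rw [e, Submodule.mem_sup] at hx
    obtain ⟨a, ha, b, hb, rfl⟩ := hx
    obtain ⟨b', rfl⟩ := Ideal.mem_span_singleton'.mp hb
    rw [map_add, map_mul]
    refine Ideal.add_mem _ (hle (ih' a ha)) (Ideal.mul_mem_left _ _ ?_)
    have h1 := h.coord hc j (by rw [hjm]; exact ih')
    have h2 : φ (MvPowerSeries.X j) = (φ (MvPowerSeries.X j) -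
      PowerSeries.coeff 1 ψ ^ (p ^ ((j : ℕ) + 1) - 1) * MvPowerSeries.X j) +
      PowerSeries.coeff 1 ψ ^ (p ^ ((j : ℕ) + 1) - 1) * MvPowerSeries.X j := by ring
    rw [h2]
    refine Ideal.add_mem _ (hle h1) (Ideal.mul_mem_left _ _ ?_)
    rw [e]
    exact Ideal.mem_sup_right (Ideal.mem_span_singleton_self _)

/-- One step of the descent. -/
theorem descend {ι : Type} {F : FormalGroup (Ab p n)} (hc : StdCoord p n F)
    {φ : ι → (Ab p n →+* Ab p n)} {ψ : ι → PowerSeries (Ab p n)} (h : ∀ i, Elt F (φ i) (ψ i))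
    {f0 : Ab p n} (hf0 : f0 ∉ Jid p n 0) (hr0 : res p n f0 = 0)
    (hi0 : ∀ i, φ i f0 - f0 ∈ Jid p n 0) :
    ∀ m : ℕ, m ≤ n - 1 → ∃ (f : Ab p n) (w : ℕ), f ∉ Jid p n m ∧
      (∀ i, PowerSeries.coeff 1 (ψ i) ^ w * φ i f - f ∈ Jid p n m) ∧
      (0 < w ∨ res p n f = 0) := by
  have hp : p.Prime := Fact.out
  intro m
  induction m with
  | zero =>
    intro _
    exact ⟨f0, 0, hf0, fun i => by rw [pow_zero, one_mul]; exact hi0 i, Or.inr hr0⟩
  | succ m ih =>
    intro hm
    obtain ⟨f, w, hf, hfi, hw⟩ := ih (by omega)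
    set j : Fin (n - 1) := ⟨m, by omega⟩ with hj
    have hjm : (j : ℕ) = m := rfl
    obtain ⟨l, f', hf', hff'⟩ := exists_divide j (f := f) hf
    rw [hjm] at hf' hff'
    have hle : Jid p n m ≤ Jid p n (m + 1) := by
      have e : Jid p n (m + 1) = Jid p n m ⊔ Ideal.span {(MvPowerSeries.X j : Ab p n)} :=
        Jid_succ j
      rw [e]; exact le_sup_left
    set N := p ^ (m + 1) - 1 with hN
    refine ⟨f', w + l * N, hf', fun i => hle ?_, ?_⟩
    · set c := PowerSeries.coeff 1 (ψ i) with hcdef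
      have hX := (h i).coord hc j ((h i).pres hc m (by omega))
      rw [hjm] at hX
      set π := Ideal.Quotient.mk (Jid p n m) with hπ
      have z : ∀ x, x ∈ Jid p n m ↔ π x = 0 := fun x => Ideal.Quotient.eq_zero_iff_mem.symm
      have e1 : π (φ i (MvPowerSeries.X j)) = π c ^ N * π (MvPowerSeries.X j) := by
        have := (z _).mp hX
        rw [map_sub, sub_eq_zero, map_mul, map_pow] at this
        exact this
      have e2 : π f = π (MvPowerSeries.X j) ^ l * π f' := by
        have := (z _).mp hff'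
        rw [map_sub, sub_eq_zero, map_mul, map_pow] at this
        exact this
      have e3 : π (φ i f) = π (φ i (MvPowerSeries.X j)) ^ l * π (φ i f') := by
        have := (z _).mp ((h i).pres hc m (by omega) _ hff')
        rw [map_sub, map_sub, sub_eq_zero, map_mul, map_mul, map_pow, map_pow] at this
        exact this
      have e4 : π c ^ w * π (φ i f) = π f := by
        have := (z _).mp (hfi i)
        rw [map_sub, sub_eq_zero, map_mul, map_pow] at this
        exact this
      have e5 : π (MvPowerSeries.X j ^ l * (c ^ (w + l * N) * φ i f' - f')) = 0 := by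
        rw [map_mul, map_sub, map_mul, map_pow, map_pow, mul_sub, ← e2, ← e4, e3, e1]
        ring
      rcases (prime_Jid m).mem_or_mem ((z _).mpr e5) with h6 | h6
      · exfalso
        exact X_notMem j ((prime_Jid (p := p) (n := n) m).mem_of_pow_mem l h6)
      · exact h6
    · have hN1 : 1 ≤ N := by
        have h8 : p ^ 1 ≤ p ^ (m + 1) := Nat.pow_le_pow_right hp.pos (by omega)
        rw [pow_one] at h8
        have := hp.two_le
        rw [hN]
        omega
      rcases hw with hw | hw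
      · exact Or.inl (by omega)
      · rcases Nat.eq_zero_or_pos l with hl | hl
        · right
          rw [hl, pow_zero, one_mul] at hff'
          have := res_of_mem hff'
          rw [map_sub, hw, zero_sub, neg_eq_zero] at this
          exact this
        · exact Or.inl (by have := Nat.mul_pos hl hN1; omega)

end Pool.Agent.CVH
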