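import Pool.Agent.CVH.Lib2

set_option autoImplicit false

/-!
# CVH: the notions used in the statement of the main theorem
-/

noncomputable section

namespace Pool.Agent.CVH

/-! ## Universal deformations and the action of the automorphism group -/

section def1

variable {k W A : Type} [Field k] [CommRing W] [CommRing A]

/-- `F` over `A` is a universal deformation (Lubin-Tate) of the formal group law `Γ` over `k`; here
`ev : W → k` and `res : A → k` are the residue maps. So: `F` is commutative and reduces to `Γ`, and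
for every complete local Noetherian `W`-algebra `B` with residue map `π : B → k`, every commutative
formal group law `F'` over `B` and every isomorphism `i : π F' → Γ` there is exactly one `W`-algebra
homomorphism `φ : A → B` compatible with the residue maps such that there is an isomorphism
`ψ : φ F → F'` with `i ∘ π ψ = id`. -/
structure IsUnivDef [Algebra W A] (ev : W →+* k) (res : A →+* k) (Γ : FormalGroup k)
    (F : FormalGroup A) : Prop where
  comm : F.IsComm
  red : F.map res = Γ
  univ : ∀ (B : Type) [CommRing B] [Algebra W B] [IsLocalRing B] [IsNoetherianRing B]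
    [IsAdicComplete (IsLocalRing.maximalIdeal B) B] (π : B →+* k),
    Function.Surjective π → (∀ w : W, π (algebraMap W B w) = ev w) →
    ∀ (F' : FormalGroup B) [F'.IsComm] (i : PowerSeries k), IsHom (F'.map π) Γ i →
      IsUnit (PowerSeries.coeff 1 i) →
      ∃! φ : A →ₐ[W] B, π.comp (φ : A →+* B) = res ∧
        ∃ ψ : PowerSeries B, IsHom (F.map (φ : A →+* B)) F' ψ ∧
          comp i (PowerSeries.map π ψ) = PowerSeries.X

/-- `ρ` is the action of the automorphism group of `Γ` on the ring `A` of a deformation `F`: the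
image of `g` is the ring endomorphism `ρ g` over `W` (`ι : W → A`) and over the residue field `k`
for which there is an isomorphism `ψ : (ρ g) F → F` lifting `g`. -/
structure IsLTAction (ι : W →+* A) (res : A →+* k) (Γ : FormalGroup k) (F : FormalGroup A)
    (ρ : (EndF Γ)ˣ →* (A →+* A)) : Prop where
  lin : ∀ g w, ρ g (ι w) = ι w
  red : ∀ g a, res (ρ g a) = res a
  lift : ∀ g, ∃ ψ : PowerSeries A, IsHom (F.map (ρ g)) F ψ ∧ PowerSeries.map res ψ = g.1.1

end def1

/-! ## Cohomology in degree one -/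

section def2

variable {G Q W A : Type} [Group G] [CommRing W] [CommRing A]

/-- The group of continuous cocycles of `G` with values in `A` (the action is `ρ`, the topology
of `G` is given by the maps `q`, that of `A` by the powers of `J`). -/
def ZC (q : G → ℕ → Q) (J : Ideal A) (ρ : G →* (A →+* A)) : Type := Z1 q J ρ

instance (q : G → ℕ → Q) (J : Ideal A) (ρ : G →* (A →+* A)) : AddCommGroup (ZC q J ρ) :=
  (Z1 q J ρ).toAddCommGroup

/-- The subgroup of coboundaries. -/
def BC (q : G → ℕ → Q) (J : Ideal A) (ρ : G →* (A →+* A)) : AddSubgroup (ZC q J ρ) :=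
  (Cob ρ).addSubgroupOf (Z1 q J ρ)

/-- Continuous cohomology in degree one: continuous cocycles modulo coboundaries. -/
def HC (q : G → ℕ → Q) (J : Ideal A) (ρ : G →* (A →+* A)) : Type := ZC q J ρ ⧸ BC q J ρ

instance (q : G → ℕ → Q) (J : Ideal A) (ρ : G →* (A →+* A)) : AddCommGroup (HC q J ρ) :=
  QuotientAddGroup.Quotient.addCommGroup (BC q J ρ)

theorem zmap_aux (q : G → ℕ → Q) (I : Ideal W) (J : Ideal A) (ρ : G →* (A →+* A)) (ι : W →+* A)
    (hc : Ideal.map ι I ≤ J) (hι : ∀ g w, ρ g (ι w) = ι w)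
    (z : ZC q I (1 : G →* (W →+* W))) : (fun g => ι (z.1 g)) ∈ Z1 q J ρ := by
  refine ⟨fun g N => ?_, fun g h => ?_⟩
  · obtain ⟨d, hd⟩ := z.2.1 g N
    refine ⟨d, fun h hh => ?_⟩
    change ι (z.1 h) - ι (z.1 g) ∈ _
    rw [← map_sub]
    have h2 := Ideal.mem_map_of_mem ι (hd h hh)
    rw [Ideal.map_pow] at h2
    exact Ideal.pow_right_mono hc N h2
  · change ι (z.1 (g * h)) = ι (z.1 g) + ρ g (ι (z.1 h))
    have h1 : z.1 (g * h) = z.1 g + z.1 h := z.2.2 g h
    rw [hι, h1, map_add]

/-- The map on continuous cocycles given by a ring homomorphism `ι : W → A` with `ι(I) ⊆ J` and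
with values in the invariants of `A` (the group acts trivially on `W`). -/
def zmap (q : G → ℕ → Q) (I : Ideal W) (J : Ideal A) (ρ : G →* (A →+* A)) (ι : W →+* A)
    (hc : Ideal.map ι I ≤ J) (hι : ∀ g w, ρ g (ι w) = ι w) :
    ZC q I (1 : G →* (W →+* W)) →+ ZC q J ρ :=
  AddMonoidHom.mk' (fun z => ⟨fun g => ι (z.1 g), zmap_aux q I J ρ ι hc hι z⟩) (by
    intro x y
    apply Subtype.ext
    funext g
    exact map_add ι _ _)

/-- The map `H^1(G, W) → H^1(G, A)` on continuous cohomology in degree one, see `zmap`. -/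
def hmap (q : G → ℕ → Q) (I : Ideal W) (J : Ideal A) (ρ : G →* (A →+* A)) (ι : W →+* A)
    (hc : Ideal.map ι I ≤ J) (hι : ∀ g w, ρ g (ι w) = ι w) :
    HC q I (1 : G →* (W →+* W)) →+ HC q J ρ :=
  QuotientAddGroup.map (BC q I (1 : G →* (W →+* W))) (BC q J ρ) (zmap q I J ρ ι hc hι) (by
    rintro z ⟨a, ha⟩
    refine ⟨ι a, fun g => ?_⟩
    have h1 : z.1 g = 0 := (ha g).trans (sub_self a)
    change ι (z.1 g) = ρ g (ι a) - ι a
    rw [hι, h1, map_zero, sub_self])

/-- The results in degree one. -/
structure DegOne (p : ℕ) (q : G → ℕ → Q) (I : Ideal W) (J : Ideal A) (ρ : G →* (A →+* A))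
    (ι : W →+* A) (hc : Ideal.map ι I ≤ J) (hι : ∀ g w, ρ g (ι w) = ι w) : Prop where
  /-- The invariants of `A / p` are constant. -/
  inv : ∀ a : A, (∀ g, ρ g a - a ∈ Ideal.span {(p : A)}) → ∃ w : W, a - ι w ∈ Ideal.span {(p : A)}
  /-- `H^1(G, W) → H^1(G, A)` is injective. -/
  inj : Function.Injective (hmap q I J ρ ι hc hι)
  /-- The cokernel of `H^1(G, W) → H^1(G, A)` has no `p`-torsion. -/
  coker : ∀ (m : ℕ) (x : HC q J ρ), (p ^ m) • x ∈ Set.range (hmap q I J ρ ι hc hι) →
    x ∈ Set.range (hmap q I J ρ ι hc hι)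
  /-- `H^1(G, A / W)` has no `p`-torsion. -/
  tors : ∀ (z : G → A) (a : A), (∀ g, ∃ w : W, (p : A) * z g - (ρ g a - a) = ι w) →
    ∃ b : A, ∀ g, ∃ v : W, z g - (ρ g b - b) = ι v
  /-- If `H^1(G, W) → H^1(G, A)` is surjective after inverting `p` then it is bijective. -/
  bij : (∀ x : HC q J ρ, ∃ m : ℕ, (p ^ m) • x ∈ Set.range (hmap q I J ρ ι hc hι)) →
    Function.Bijective (hmap q I J ρ ι hc hι)

end def2

end Pool.Agent.CVH
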