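import Pool.Agent.CVH.Laz
import Pool.Agent.CVH.Stmt

set_option autoImplicit false

/-!
# CVH: the main theorem in terms of the notions of Stmt.lean
-/

noncomputable section

namespace Pool.Agent.CVH

variable {p : ℕ} [Fact p.Prime] {n : ℕ}

theorem map_C_le : Ideal.map (MvPowerSeries.C : Wb p →+* Ab p n) (Ideal.span {(p : Wb p)}) ≤
    IsLocalRing.maximalIdeal (Ab p n) := by
  rw [Ideal.map_le_iff_le_comap]
  intro w hw
  have := C_mem_pow (n := n) (N := 1) (w := w) (by rwa [pow_one])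
  rwa [pow_one] at this

theorem ltAction_C {Γ : FormalGroup (Kb p)} {F : FormalGroup (Ab p n)}
    (hF : IsUniversalDeformation p n Γ F) (g : (EndF Γ)ˣ) (w : Wb p) :
    ltAction hF g (MvPowerSeries.C w) = MvPowerSeries.C w := (elt_act hF g).lin w

theorem isUniversal_of {Γ : FormalGroup (Kb p)} {F : FormalGroup (Ab p n)}
    (hF : IsUnivDef (WittVector.constantCoeff : Wb p →+* Kb p) (res p n) Γ F) :
    IsUniversalDeformation p n Γ F := ⟨hF.comm, hF.red, hF.univ⟩

theorem isLTAction_ltAction {Γ : FormalGroup (Kb p)} {F : FormalGroup (Ab p n)}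
    (hF : IsUniversalDeformation p n Γ F) :
    IsLTAction (MvPowerSeries.C : Wb p →+* Ab p n) (res p n) Γ F (ltAction hF) where
  lin := ltAction_C hF
  red g a := (elt_act hF g).res a
  lift g := ⟨_, (act_spec hF g).2.choose_spec.1, (act_spec hF g).2.choose_spec.2⟩

theorem eq_ltAction {Γ : FormalGroup (Kb p)} {F : FormalGroup (Ab p n)}
    (hF : IsUniversalDeformation p n Γ F) {ρ : (EndF Γ)ˣ →* (Ab p n →+* Ab p n)}
    (hρ : IsLTAction (MvPowerSeries.C : Wb p →+* Ab p n) (res p n) Γ F ρ) :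
    ρ = ltAction hF := by
  ext g a
  let φ : Ab p n →ₐ[Wb p] Ab p n := { ρ g with commutes' := fun w => hρ.lin g w }
  have h1 : act hF g = φ := by
    apply act_uniq
    refine ⟨RingHom.ext fun a => hρ.red g a, ?_⟩
    obtain ⟨ψ, h1, h2⟩ := hρ.lift g
    exact ⟨ψ, h1, h2⟩
  have h2 : ltAction hF g a = act hF g a := rfl
  rw [h2, h1]
  rfl

theorem degOne {Γ : FormalGroup (Kb p)} {F : FormalGroup (Ab p n)}
    (hF : IsUniversalDeformation p n Γ F) (hinv : InvConst hF) :
    DegOne p (qc (F := Γ)) (Ideal.span {(p : Wb p)}) (IsLocalRing.maximalIdeal (Ab p n))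
      (ltAction hF) (MvPowerSeries.C : Wb p →+* Ab p n) map_C_le (ltAction_C hF) := by
  have e : (hmap (qc (F := Γ)) (Ideal.span {(p : Wb p)}) (IsLocalRing.maximalIdeal (Ab p n))
      (ltAction hF) (MvPowerSeries.C : Wb p →+* Ab p n) map_C_le (ltAction_C hF) :
      H1 (qc (F := Γ)) (Ideal.span {(p : Wb p)}) (1 : (EndF Γ)ˣ →* (Wb p →+* Wb p)) →+
      H1 (qc (F := Γ)) (IsLocalRing.maximalIdeal (Ab p n)) (ltAction hF)) =
      H1map hF := rfl
  have hinj := H1_injective' hF hinv
  have hcok : ∀ (m : ℕ) (x : H1 (qc (F := Γ)) (IsLocalRing.maximalIdeal (Ab p n)) (ltAction hF)),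
      (p ^ m) • x ∈ (H1map hF).range → x ∈ (H1map hF).range := by
    intro m
    induction m with
    | zero =>
      intro x hx
      rwa [pow_zero, one_smul] at hx
    | succ m ih =>
      intro x hx
      refine ih x (H1_coker' hF hinv _ ?_)
      rwa [← mul_smul, ← pow_succ']
  constructor
  · exact hinv
  · exact hinj
  · exact hcok
  · intro z a hz
    obtain ⟨b, hb⟩ := no_torsion' hF hinv z a hz
    refine ⟨b, fun g => ?_⟩
    obtain ⟨w, hw⟩ := hz g
    obtain ⟨v, hv, -⟩ := hb g w hw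
    exact ⟨v, hv⟩
  · intro h
    refine ⟨hinj, fun x => ?_⟩
    obtain ⟨m, hm⟩ := h x
    exact hcok m x hm

end Pool.Agent.CVH
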