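import Pool.Agent.CVH.Act

set_option autoImplicit false

/-!
# CVH: cohomology in degree one
-/

noncomputable section

namespace Pool.Agent.CVH

variable {p : ℕ} [Fact p.Prime] {n : ℕ}

/-! ### The map `H^1(G, W) → H^1(G, A)` -/

theorem C_mem_pow {w : Wb p} {N : ℕ} (hw : w ∈ Ideal.span {(p : Wb p)} ^ N) :
    (MvPowerSeries.C w : Ab p n) ∈ IsLocalRing.maximalIdeal (Ab p n) ^ N := by
  have h1 : Ideal.map (MvPowerSeries.C : Wb p →+* Ab p n) (Ideal.span {(p : Wb p)}) ≤
      IsLocalRing.maximalIdeal (Ab p n) := by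
    rw [Ideal.map_span, Ideal.span_le]
    rintro x ⟨y, hy, rfl⟩
    rw [Set.mem_singleton_iff] at hy
    subst hy
    change MvPowerSeries.C (p : Wb p) ∈ IsLocalRing.maximalIdeal (Ab p n)
    rw [IsLocalRing.mem_maximalIdeal, mem_nonunits_iff]
    intro hu
    have h2 := hu.map (res p n)
    rw [res_C, map_natCast, CharP.cast_eq_zero (Kb p) p] at h2
    exact not_isUnit_zero h2
  have h2 := Ideal.mem_map_of_mem (MvPowerSeries.C : Wb p →+* Ab p n) hw
  rw [Ideal.map_pow] at h2
  exact Ideal.pow_right_mono h1 N h2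

/-- Constant cocycles. -/
def Z1map {Γ : FormalGroup (Kb p)} {F : FormalGroup (Ab p n)}
    (hF : IsUniversalDeformation p n Γ F) :
    Z1 (qc (F := Γ)) (Ideal.span {(p : Wb p)}) (1 : (EndF Γ)ˣ →* (Wb p →+* Wb p)) →+
      Z1 (qc (F := Γ)) (IsLocalRing.maximalIdeal (Ab p n)) (ltAction hF) where
  toFun z := ⟨fun g => MvPowerSeries.C (z.1 g), by
    refine ⟨fun g N => ?_, fun g h => ?_⟩
    · obtain ⟨d, hd⟩ := z.2.1 g N
      refine ⟨d, fun h hh => ?_⟩
      change MvPowerSeries.C (z.1 h) - MvPowerSeries.C (z.1 g) ∈ _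
      rw [← map_sub]
      exact C_mem_pow (hd h hh)
    · change MvPowerSeries.C (z.1 (g * h)) = MvPowerSeries.C (z.1 g) +
        ltAction hF g (MvPowerSeries.C (z.1 h))
      have h1 : z.1 (g * h) = z.1 g + z.1 h := z.2.2 g h
      rw [(elt_act hF g).lin, h1, map_add]⟩
  map_zero' := by
    ext g : 2
    exact map_zero MvPowerSeries.C
  map_add' x y := by
    ext g : 2
    exact map_add MvPowerSeries.C _ _

/-- The map `H^1(G, W) → H^1(G, A)`. -/
def H1map {Γ : FormalGroup (Kb p)} {F : FormalGroup (Ab p n)}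
    (hF : IsUniversalDeformation p n Γ F) :
    H1 (qc (F := Γ)) (Ideal.span {(p : Wb p)}) (1 : (EndF Γ)ˣ →* (Wb p →+* Wb p)) →+
      H1 (qc (F := Γ)) (IsLocalRing.maximalIdeal (Ab p n)) (ltAction hF) :=
  QuotientAddGroup.map _ _ (Z1map hF) (by
    rintro z ⟨a, ha⟩
    refine ⟨MvPowerSeries.C a, fun g => ?_⟩
    have h1 : z.1 g = 0 := (ha g).trans (sub_self a)
    change MvPowerSeries.C (z.1 g) = ltAction hF g (MvPowerSeries.C a) - MvPowerSeries.C a
    rw [(elt_act hF g).lin, h1, map_zero, sub_self])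

/-! ### Torsion -/

theorem p_ne_zero : (p : Wb p) ≠ 0 :=
  WittVector.p_nonzero p (Kb p)

theorem divp {x : Ab p n} {w : Wb p} (h : (p : Ab p n) * x = MvPowerSeries.C w) :
    ∃ v : Wb p, x = MvPowerSeries.C v ∧ (p : Wb p) * v = w := by
  classical
  have hC : (p : Ab p n) = MvPowerSeries.C (p : Wb p) := by rw [map_natCast]
  rw [hC] at h
  have hcoef : ∀ e, (p : Wb p) * MvPowerSeries.coeff e x =
      MvPowerSeries.coeff e (MvPowerSeries.C w : Ab p n) := by
    intro e
    rw [← h, MvPowerSeries.coeff_C_mul]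
  have h0 := hcoef 0
  rw [MvPowerSeries.coeff_zero_eq_constantCoeff_apply,
    MvPowerSeries.coeff_zero_eq_constantCoeff_apply, MvPowerSeries.constantCoeff_C] at h0
  refine ⟨MvPowerSeries.constantCoeff x, ?_, h0⟩
  ext1 e
  rw [MvPowerSeries.coeff_C]
  have h1 := hcoef e
  rw [MvPowerSeries.coeff_C] at h1
  by_cases he : e = 0
  · subst he
    rw [if_pos rfl, MvPowerSeries.coeff_zero_eq_constantCoeff_apply]
  · rw [if_neg he] at h1 ⊢
    exact (mul_eq_zero.mp h1).resolve_left p_ne_zero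

theorem divp_pow {x : Ab p n} : ∀ (N : ℕ) {w : Wb p},
    (p : Ab p n) ^ N * x = MvPowerSeries.C w → ∃ v : Wb p, x = MvPowerSeries.C v := by
  intro N
  induction N with
  | zero => intro w h; exact ⟨w, by rw [← h, pow_zero, one_mul]⟩
  | succ N ih =>
    intro w h
    rw [pow_succ', mul_assoc] at h
    obtain ⟨v, hv, -⟩ := divp h
    exact ih hv

section main

variable {Γ : FormalGroup (Kb p)} {F : FormalGroup (Ab p n)}
  (hF : IsUniversalDeformation p n Γ F)

include hF

/-- Invariants of `A / (W + p)`. -/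
theorem inv_const (hΓ : mulSeries Γ p ≠ 0) {S : PowerSeries (Kb p)} (hS : IsHom Γ Γ S)
    (hSn : iter S n = mulSeries Γ p) (hc : StdCoord p n F) (a : Ab p n)
    (ha : ∀ g, ∃ w : Wb p, ltAction hF g a - a - MvPowerSeries.C w ∈
      Ideal.span {(p : Ab p n)}) :
    ∃ w : Wb p, a - MvPowerSeries.C w ∈ Ideal.span {(p : Ab p n)} := by
  have hcomm := hF.comm
  refine core Γ hΓ S hS hSn F hF.red hc (fun g => ltAction hF g)
    (fun g => (act_spec hF g).2.choose) (fun g => elt_act hF g)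
    (fun g => (act_spec hF g).2.choose_spec.2) a (fun g => ?_)
  obtain ⟨w, hw⟩ := ha g
  have h1 : res p n (ltAction hF g a - a - MvPowerSeries.C w) = 0 := by
    rw [← Jid_zero] at hw
    exact res_of_mem hw
  rw [map_sub, map_sub, (elt_act hF g).res, sub_self, zero_sub, neg_eq_zero, res_C] at h1
  have h2 : w ∈ RingHom.ker (WittVector.constantCoeff : Wb p →+* Kb p) := h1
  rw [WittVector.ker_constantCoeff] at h2
  obtain ⟨v, rfl⟩ := Ideal.mem_span_singleton'.mp h2
  have h3 : (MvPowerSeries.C (v * (p : Wb p)) : Ab p n) ∈ Ideal.span {(p : Ab p n)} := by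
    rw [map_mul, map_natCast]
    exact Ideal.mul_mem_left _ _ (Ideal.mem_span_singleton_self _)
  have h4 : ltAction hF g a - a = (ltAction hF g a - a - MvPowerSeries.C (v * (p : Wb p))) +
      MvPowerSeries.C (v * (p : Wb p)) := by ring
  change ltAction hF g a - a ∈ _
  rw [h4]
  exact Ideal.add_mem _ hw h3

/-- Invariants of `A / W`. -/
theorem inv_zero (hΓ : mulSeries Γ p ≠ 0) {S : PowerSeries (Kb p)} (hS : IsHom Γ Γ S)
    (hSn : iter S n = mulSeries Γ p) (hc : StdCoord p n F) (a : Ab p n)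
    (ha : ∀ g, ∃ w : Wb p, ltAction hF g a - a = MvPowerSeries.C w) :
    ∃ w : Wb p, a = MvPowerSeries.C w := by
  have step : ∀ N : ℕ, ∃ (w : Wb p) (b : Ab p n), a = MvPowerSeries.C w + (p : Ab p n) ^ N * b := by
    intro N
    induction N with
    | zero => exact ⟨0, a, by rw [map_zero, pow_zero, one_mul, zero_add]⟩
    | succ N ih =>
      obtain ⟨w, b, hb⟩ := ih
      have h1 : ∀ g, ∃ v : Wb p, ltAction hF g b - b = MvPowerSeries.C v := by
        intro g
        obtain ⟨v, hv⟩ := ha g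
        refine divp_pow N (w := v) ?_
        rw [← hv, hb, map_add, map_mul, map_pow, map_natCast, (elt_act hF g).lin]
        ring
      obtain ⟨v, hv⟩ := inv_const hF hΓ hS hSn hc b (fun g => by
        obtain ⟨v, hv⟩ := h1 g
        exact ⟨v, by rw [hv, sub_self]; exact Ideal.zero_mem _⟩)
      obtain ⟨b', hb'⟩ := Ideal.mem_span_singleton'.mp hv
      refine ⟨w + (p : Wb p) ^ N * v, b', ?_⟩
      have h2 : b = MvPowerSeries.C v + b' * (p : Ab p n) := by rw [hb']; ring
      have h3 : b * (p : Ab p n) ^ N = MvPowerSeries.C v * (p : Ab p n) ^ N +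
          b' * (p : Ab p n) * (p : Ab p n) ^ N := by
        conv_lhs => rw [h2]
        ring
      rw [map_add, map_mul, map_pow, map_natCast]
      rw [hb, mul_comm ((p : Ab p n) ^ N) b, h3]
      ring
  refine ⟨MvPowerSeries.constantCoeff a, ?_⟩
  classical
  ext1 e
  rw [MvPowerSeries.coeff_C]
  by_cases he : e = 0
  · subst he
    rw [if_pos rfl, MvPowerSeries.coeff_zero_eq_constantCoeff_apply]
  · rw [if_neg he]
    have hmem : ∀ N : ℕ, MvPowerSeries.coeff e a ∈ Ideal.span {(p : Wb p)} ^ N := by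
      intro N
      obtain ⟨w, b, hb⟩ := step N
      have hC : (p : Ab p n) ^ N = MvPowerSeries.C ((p : Wb p) ^ N) := by
        rw [map_pow, map_natCast]
      rw [hb, map_add, MvPowerSeries.coeff_C, if_neg he, zero_add, hC,
        MvPowerSeries.coeff_C_mul]
      exact Ideal.mul_mem_right _ _ (Ideal.pow_mem_pow (Ideal.mem_span_singleton_self _) N)
    have haus : IsHausdorff (Ideal.span {(p : Wb p)}) (Wb p) := inferInstance
    apply haus.haus
    intro N
    rw [smul_eq_mul, Ideal.mul_top, SModEq.zero]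
    exact hmem N

theorem H1_injective (hΓ : mulSeries Γ p ≠ 0) {S : PowerSeries (Kb p)} (hS : IsHom Γ Γ S)
    (hSn : iter S n = mulSeries Γ p) (hc : StdCoord p n F) :
    Function.Injective (H1map hF) := by
  rw [injective_iff_map_eq_zero]
  intro x hx
  induction x using QuotientAddGroup.induction_on with
  | H z =>
    have h1 : H1map hF (z : H1 (qc (F := Γ)) (Ideal.span {(p : Wb p)})
        (1 : (EndF Γ)ˣ →* (Wb p →+* Wb p))) = ((Z1map hF z : _) : H1 (qc (F := Γ))
        (IsLocalRing.maximalIdeal (Ab p n)) (ltAction hF)) := rfl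
    rw [h1, QuotientAddGroup.eq_zero_iff] at hx
    obtain ⟨a, ha⟩ := hx
    obtain ⟨w, hw⟩ := inv_zero hF hΓ hS hSn hc a (fun g => ⟨z.1 g, (ha g).symm⟩)
    rw [QuotientAddGroup.eq_zero_iff]
    refine ⟨0, fun g => ?_⟩
    have h2 : MvPowerSeries.C (z.1 g) = ltAction hF g a - a := ha g
    rw [hw, (elt_act hF g).lin, sub_self] at h2
    have h3 := congrArg (MvPowerSeries.constantCoeff) h2
    rw [MvPowerSeries.constantCoeff_C, map_zero] at h3
    rw [map_zero, sub_zero]
    exact h3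

/-- No torsion in `H^1(G, A / W)`, explicit form. -/
theorem no_torsion (hΓ : mulSeries Γ p ≠ 0) {S : PowerSeries (Kb p)} (hS : IsHom Γ Γ S)
    (hSn : iter S n = mulSeries Γ p) (hc : StdCoord p n F) (z : (EndF Γ)ˣ → Ab p n) (a : Ab p n)
    (hz : ∀ g, ∃ w : Wb p, (p : Ab p n) * z g - (ltAction hF g a - a) = MvPowerSeries.C w) :
    ∃ b : Ab p n, ∀ g, ∀ w : Wb p,
      (p : Ab p n) * z g - (ltAction hF g a - a) = MvPowerSeries.C w →
      ∃ v : Wb p, z g - (ltAction hF g b - b) = MvPowerSeries.C v ∧ (p : Wb p) * v = w := by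
  obtain ⟨w0, hw0⟩ := inv_const hF hΓ hS hSn hc a (fun g => by
    obtain ⟨w, hw⟩ := hz g
    refine ⟨-w, ?_⟩
    have h1 : ltAction hF g a - a - MvPowerSeries.C (-w) = z g * (p : Ab p n) := by
      rw [map_neg, ← hw]; ring
    rw [h1]
    exact Ideal.mul_mem_left _ _ (Ideal.mem_span_singleton_self _))
  obtain ⟨b, hb⟩ := Ideal.mem_span_singleton'.mp hw0
  refine ⟨b, fun g w hw => ?_⟩
  apply divp
  have h2 : a = b * (p : Ab p n) + MvPowerSeries.C w0 := by rw [hb]; ring
  rw [← hw]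
  have h3 : ltAction hF g a - a = (p : Ab p n) * (ltAction hF g b - b) := by
    rw [h2, map_add, map_mul, map_natCast, (elt_act hF g).lin]; ring
  rw [h3]; ring

theorem H1_coker (hΓ : mulSeries Γ p ≠ 0) {S : PowerSeries (Kb p)} (hS : IsHom Γ Γ S)
    (hSn : iter S n = mulSeries Γ p) (hc : StdCoord p n F)
    (x : H1 (qc (F := Γ)) (IsLocalRing.maximalIdeal (Ab p n)) (ltAction hF))
    (hx : (p : ℕ) • x ∈ (H1map hF).range) : x ∈ (H1map hF).range := by
  induction x using QuotientAddGroup.induction_on with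
  | H z =>
    obtain ⟨y, hy⟩ := hx
    induction y using QuotientAddGroup.induction_on with
    | H χ =>
      have h1 : H1map hF (χ : H1 (qc (F := Γ)) (Ideal.span {(p : Wb p)})
        (1 : (EndF Γ)ˣ →* (Wb p →+* Wb p))) = ((Z1map hF χ : _) : H1 (qc (F := Γ))
        (IsLocalRing.maximalIdeal (Ab p n)) (ltAction hF)) := rfl
      rw [h1, ← QuotientAddGroup.mk_nsmul, QuotientAddGroup.eq] at hy
      obtain ⟨a, ha⟩ := hy
      have ha' : ∀ g, (p : Ab p n) * z.1 g - (ltAction hF g a - a) =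
          MvPowerSeries.C (χ.1 g) := by
        intro g
        have h2 : -(MvPowerSeries.C (χ.1 g)) + (p : ℕ) • z.1 g = ltAction hF g a - a := ha g
        rw [nsmul_eq_mul] at h2
        rw [← h2]; ring
      obtain ⟨b, hb⟩ := no_torsion hF hΓ hS hSn hc z.1 a (fun g => ⟨_, ha' g⟩)
      have hb' : ∀ g, ∃ v : Wb p, z.1 g - (ltAction hF g b - b) = MvPowerSeries.C v ∧
          (p : Wb p) * v = χ.1 g := fun g => hb g _ (ha' g)
      choose v hv1 hv2 using hb'
      have hvmul : ∀ g h, v (g * h) = v g + v h := by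
        intro g h
        have h3 : (p : Wb p) * v (g * h) = (p : Wb p) * (v g + v h) := by
          rw [hv2, mul_add, hv2, hv2]
          exact χ.2.2 g h
        exact mul_left_cancel₀ p_ne_zero h3
      have hvcts : ∀ (g : (EndF Γ)ˣ) (N : ℕ), ∃ d : ℕ, ∀ h : (EndF Γ)ˣ,
          (∀ i < d, qc h i = qc g i) → v h - v g ∈ Ideal.span {(p : Wb p)} ^ N := by
        intro g N
        obtain ⟨d, hd⟩ := χ.2.1 g (N + 1)
        refine ⟨d, fun h hh => ?_⟩
        have h4 := hd h hh
        change χ.1 h - χ.1 g ∈ _ at h4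
        rw [← hv2, ← hv2, ← mul_sub, Ideal.span_singleton_pow,
          Ideal.mem_span_singleton, pow_succ'] at h4
        rw [Ideal.span_singleton_pow, Ideal.mem_span_singleton]
        exact (mul_dvd_mul_iff_left p_ne_zero).mp h4
      let χ' : Z1 (qc (F := Γ)) (Ideal.span {(p : Wb p)})
          (1 : (EndF Γ)ˣ →* (Wb p →+* Wb p)) := ⟨v, hvcts, hvmul⟩
      refine ⟨(χ' : H1 (qc (F := Γ)) (Ideal.span {(p : Wb p)})
        (1 : (EndF Γ)ˣ →* (Wb p →+* Wb p))), ?_⟩
      have h5 : H1map hF (χ' : H1 (qc (F := Γ)) (Ideal.span {(p : Wb p)})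
        (1 : (EndF Γ)ˣ →* (Wb p →+* Wb p))) = ((Z1map hF χ' : _) : H1 (qc (F := Γ))
        (IsLocalRing.maximalIdeal (Ab p n)) (ltAction hF)) := rfl
      rw [h5, QuotientAddGroup.eq]
      refine ⟨b, fun g => ?_⟩
      change -(MvPowerSeries.C (v g)) + z.1 g = ltAction hF g b - b
      rw [← hv1 g]; ring

end main

end Pool.Agent.CVH
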