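import Pool.Agent.CVH.Targets2

set_option autoImplicit false

/-!
# CVH: Lazard's comparison theorem
-/

noncomputable section

namespace Pool.Agent.CVH

open MvPowerSeries Finsupp

namespace CMP_

variable {R : Type} [CommRing R]

/-- Agreement in all degrees less than `m`. -/
def Ag {τ : Type} (m : ℕ) (f g : MvPowerSeries τ R) : Prop :=
  ∀ d : τ →₀ ℕ, Finsupp.degree d < m → MvPowerSeries.coeff d f = MvPowerSeries.coeff d g

theorem ag_iff {τ : Type} [Finite τ] (m : ℕ) (f g : MvPowerSeries τ R) :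
    Ag m f g ↔ MvPowerSeries.truncTotal m f = MvPowerSeries.truncTotal m g := by
  constructor
  · intro h
    ext d
    by_cases hd : Finsupp.degree d < m
    · rw [MvPowerSeries.coeff_truncTotal _ hd, MvPowerSeries.coeff_truncTotal _ hd, h d hd]
    · rw [MvPowerSeries.coeff_truncTotal_eq_zero _ (not_lt.mp hd),
        MvPowerSeries.coeff_truncTotal_eq_zero _ (not_lt.mp hd)]
  · intro h d hd
    rw [← MvPowerSeries.coeff_truncTotal _ hd, ← MvPowerSeries.coeff_truncTotal _ hd, h]

theorem ag_subst {σ τ : Type} [Finite σ] [Finite τ] (m : ℕ) {f g : MvPowerSeries σ R}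
    {a b : σ → MvPowerSeries τ R} (ha : ∀ i, MvPowerSeries.constantCoeff (a i) = 0)
    (hb : ∀ i, MvPowerSeries.constantCoeff (b i) = 0) (hfg : Ag m f g)
    (hab : ∀ i, Ag m (a i) (b i)) :
    Ag m (MvPowerSeries.subst a f) (MvPowerSeries.subst b g) := by
  rw [ag_iff, MvPowerSeries.truncTotal_subst ha, MvPowerSeries.truncTotal_subst hb,
    (ag_iff m f g).mp hfg]
  have : (fun i => ((a i).truncTotal m).toMvPowerSeries) =
      fun i => ((b i).truncTotal m).toMvPowerSeries := by
    funext i
    rw [(ag_iff m (a i) (b i)).mp (hab i)]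
  rw [this]

theorem ag_symm {τ : Type} {m : ℕ} {f g : MvPowerSeries τ R} (h : Ag m f g) : Ag m g f :=
  fun d hd => (h d hd).symm

theorem ag_trans {τ : Type} {m : ℕ} {f g h : MvPowerSeries τ R} (h1 : Ag m f g) (h2 : Ag m g h) :
    Ag m f h := fun d hd => (h1 d hd).trans (h2 d hd)

theorem ag_refl {τ : Type} (m : ℕ) (f : MvPowerSeries τ R) : Ag m f f := fun _ _ => rfl

/-- Power series in one variable. -/
theorem ag_ps {m : ℕ} {f g : PowerSeries R}
    (h : ∀ i < m, PowerSeries.coeff i f = PowerSeries.coeff i g) :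
    Ag m (f : MvPowerSeries Unit R) g := by
  intro d hd
  have e : d = Finsupp.single () (d ()) := by
    ext x; simp
  have e2 : Finsupp.degree d = d () := by
    rw [e]; simp
  rw [e]
  exact h (d ()) (by omega)

theorem ag_psubst {τ : Type} [Finite τ] {m : ℕ} {f g : PowerSeries R} {a b : MvPowerSeries τ R}
    (h : ∀ i < m, PowerSeries.coeff i f = PowerSeries.coeff i g)
    (ha : MvPowerSeries.constantCoeff a = 0) (hb : MvPowerSeries.constantCoeff b = 0)
    (hab : Ag m a b) :
    Ag m (PowerSeries.subst a f) (PowerSeries.subst b g) :=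
  ag_subst m (fun _ => ha) (fun _ => hb) (ag_ps h) (fun _ => hab)

theorem ag_addG {m : ℕ} {G H : FormalGroup R} {τ : Type} [Finite τ] {a b c d : MvPowerSeries τ R}
    (hG : ∀ i j, i + j < m → c2 G i j = c2 H i j)
    (ha : MvPowerSeries.constantCoeff a = 0) (hb : MvPowerSeries.constantCoeff b = 0)
    (hc : MvPowerSeries.constantCoeff c = 0) (hd : MvPowerSeries.constantCoeff d = 0)
    (hac : Ag m a c) (hbd : Ag m b d) :
    Ag m (addG G a b) (addG H c d) := by
  refine ag_subst m ?_ ?_ ?_ ?_
  · intro i; fin_cases i <;> simpa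
  · intro i; fin_cases i <;> simpa
  · intro e he
    have e1 : e = Finsupp.single 0 (e 0) + Finsupp.single 1 (e 1) := by
      ext x; fin_cases x <;> simp
    have e2 : Finsupp.degree e = e 0 + e 1 := by
      rw [Finsupp.degree_eq_sum]; simp
    rw [e1]
    exact hG (e 0) (e 1) (by omega)
  · intro i; fin_cases i <;> simpa

/-- The limit. -/
theorem limit {G1 G2 : FormalGroup R} (G : ℕ → FormalGroup R) (u : ℕ → PowerSeries R)
    (hG : ∀ N, ∀ i j, i + j < N → c2 (G N) i j = c2 G2 i j)
    (hu : ∀ N, IsHom G1 (G N) (u N))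
    (hs : ∀ N, ∀ i ≤ N, PowerSeries.coeff i (u (N + 1)) = PowerSeries.coeff i (u N)) :
    IsHom G1 G2 (PowerSeries.mk fun i => PowerSeries.coeff i (u i)) := by
  set v : PowerSeries R := PowerSeries.mk fun i => PowerSeries.coeff i (u i) with hv
  have hst : ∀ N i, i ≤ N → PowerSeries.coeff i (u N) = PowerSeries.coeff i (u i) := by
    intro N
    induction N with
    | zero => intro i hi; rw [Nat.le_zero.mp hi]
    | succ N ih =>
      intro i hi
      rcases Nat.lt_or_ge N i with h | h
      · have : i = N + 1 := by omega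
        rw [this]
      · rw [hs N i h, ih i h]
  have hag : ∀ N, ∀ i < N, PowerSeries.coeff i v = PowerSeries.coeff i (u N) := by
    intro N i hi
    rw [hv, PowerSeries.coeff_mk, hst N i hi.le]
  have hv0 : PowerSeries.constantCoeff v = 0 := by
    rw [← PowerSeries.coeff_zero_eq_constantCoeff_apply, hag 1 0 one_pos,
      PowerSeries.coeff_zero_eq_constantCoeff_apply, (hu 1).zero]
  refine ⟨hv0, ?_⟩
  ext e
  set m := Finsupp.degree e + 1 with hm
  have h0 : MvPowerSeries.constantCoeff (MvPowerSeries.X 0 : MvPowerSeries (Fin 2) R) = 0 := by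
    simp
  have h1 : MvPowerSeries.constantCoeff (MvPowerSeries.X 1 : MvPowerSeries (Fin 2) R) = 0 := by
    simp
  have key : Ag m (PowerSeries.subst G1.toPowerSeries v)
      (addG G2 (PowerSeries.subst (MvPowerSeries.X 0 : MvPowerSeries (Fin 2) R) v)
        (PowerSeries.subst (MvPowerSeries.X 1 : MvPowerSeries (Fin 2) R) v)) := by
    have a1 : Ag m (PowerSeries.subst G1.toPowerSeries v)
        (PowerSeries.subst G1.toPowerSeries (u m)) :=
      ag_psubst (hag m) G1.zero_constantCoeff G1.zero_constantCoeff (ag_refl _ _)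
    rw [(hu m).map_add] at a1
    refine ag_trans a1 (ag_addG (hG m) ?_ ?_ ?_ ?_ ?_ ?_)
    · exact cc_psubst h0 (hu m).zero
    · exact cc_psubst h1 (hu m).zero
    · exact cc_psubst h0 hv0
    · exact cc_psubst h1 hv0
    · exact ag_psubst (fun i hi => (hag m i hi).symm) h0 h0 (ag_refl _ _)
    · exact ag_psubst (fun i hi => (hag m i hi).symm) h1 h1 (ag_refl _ _)
  exact key e (by omega)

/-- The coefficients of `w ∘ u` with `w = X + b X ^ M`. -/
theorem coeff_step (b : R) {u : PowerSeries R} (hu : PowerSeries.constantCoeff u = 0) {M i : ℕ}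
    (hi : i < M) :
    PowerSeries.coeff i (comp (PowerSeries.X + PowerSeries.C b * PowerSeries.X ^ M) u) =
      PowerSeries.coeff i u := by
  have e : comp (PowerSeries.X + PowerSeries.C b * PowerSeries.X ^ M) u =
      u + PowerSeries.C b * u ^ M := by
    have e1 := PowerSeries.subst_add (hs_of_zero hu) (PowerSeries.X : PowerSeries R)
      (PowerSeries.C b * PowerSeries.X ^ M)
    have e2 := comp_C_mul b (PowerSeries.X ^ M) hu
    have e3 := comp_pow (PowerSeries.X : PowerSeries R) hu M
    rw [X_comp hu] at e3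
    have e4 := X_comp hu
    unfold comp at e2 e3 e4 ⊢
    rw [e1, e2, e3, e4]
  rw [e, map_add]
  obtain ⟨v, rfl⟩ := PowerSeries.X_dvd_iff.mpr hu
  have : PowerSeries.coeff i (PowerSeries.C b * (PowerSeries.X * v) ^ M) = 0 := by
    have e5 : PowerSeries.C b * (PowerSeries.X * v) ^ M =
        PowerSeries.X ^ M * (PowerSeries.C b * v ^ M) := by
      rw [mul_pow]; ring
    rw [e5]
    exact (PowerSeries.X_pow_dvd_iff.mp (Dvd.intro _ rfl)) i hi
  rw [this, add_zero]

end CMP_

open CMP_ in
/-- Lazard's comparison theorem. -/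
theorem p_CMP (h_STEP : T_STEP) : T_CMP := by
  intro p _ n hn k _ _ G1 G2 hG1 hG2 hm1 hm2
  -- the states
  let Good : ℕ → FormalGroup k × PowerSeries k → Prop := fun N P =>
    P.1.IsComm ∧ mulSeries P.1 p = PowerSeries.X ^ (p ^ n) ∧
      (∀ i j, i + j < N + 2 → c2 P.1 i j = c2 G2 i j) ∧ IsHom G1 P.1 P.2 ∧
      PowerSeries.coeff 1 P.2 = 1
  have hbase : Good 0 (G1, PowerSeries.X) := by
    refine ⟨hG1, hm1, ?_, isHom_X G1, PowerSeries.coeff_one_X⟩
    intro i j hij
    have h00 : ∀ G : FormalGroup k, c2 G 0 0 = 0 := by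
      intro G
      unfold c2
      rw [Finsupp.single_zero, Finsupp.single_zero, add_zero,
        MvPowerSeries.coeff_zero_eq_constantCoeff_apply]
      exact G.zero_constantCoeff
    have h10 : ∀ G : FormalGroup k, c2 G 1 0 = 1 := by
      intro G
      unfold c2
      rw [Finsupp.single_zero, add_zero]
      exact G.lin_coeff_X
    have h01 : ∀ G : FormalGroup k, c2 G 0 1 = 1 := by
      intro G
      unfold c2
      rw [Finsupp.single_zero, zero_add]
      exact G.lin_coeff_Y
    have hc : (i = 0 ∧ j = 0) ∨ (i = 1 ∧ j = 0) ∨ (i = 0 ∧ j = 1) := by omega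
    rcases hc with ⟨rfl, rfl⟩ | ⟨rfl, rfl⟩ | ⟨rfl, rfl⟩
    · show c2 G1 0 0 = c2 G2 0 0
      rw [h00, h00]
    · show c2 G1 1 0 = c2 G2 1 0
      rw [h10, h10]
    · show c2 G1 0 1 = c2 G2 0 1
      rw [h01, h01]
  have hstep : ∀ N (P : FormalGroup k × PowerSeries k), Good N P →
      ∃ P' : FormalGroup k × PowerSeries k, Good (N + 1) P' ∧
        ∀ i < N + 2, PowerSeries.coeff i P'.2 = PowerSeries.coeff i P.2 := by
    rintro N ⟨G, u⟩ ⟨hc, hm, ha, hu, h1⟩
    haveI : G.IsComm := hc
    obtain ⟨G', b, hc', hhom, hm', ha'⟩ := h_STEP p n hn k G G2 hm hm2 (N + 2) (by omega) ha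
    refine ⟨(G', comp (PowerSeries.X + PowerSeries.C b * PowerSeries.X ^ (N + 2)) u),
      ⟨hc', hm', ?_, hhom.comp hu, ?_⟩, ?_⟩
    · intro i j hij
      exact ha' i j (by omega)
    · show PowerSeries.coeff 1
        (comp (PowerSeries.X + PowerSeries.C b * PowerSeries.X ^ (N + 2)) u) = 1
      rw [coeff_step b hu.zero (by omega)]
      exact h1
    · intro i hi
      exact coeff_step b hu.zero hi
  choose! nx hnx1 hnx2 using hstep
  let P : ℕ → FormalGroup k × PowerSeries k := fun N =>
    Nat.rec (G1, PowerSeries.X) (fun N Q => nx N Q) N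
  have hP : ∀ N, Good N (P N) := by
    intro N
    induction N with
    | zero => exact hbase
    | succ N ih => exact hnx1 N (P N) ih
  have hPs : ∀ N, ∀ i < N + 2, PowerSeries.coeff i (P (N + 1)).2 = PowerSeries.coeff i (P N).2 :=
    fun N i hi => hnx2 N (P N) (hP N) i hi
  refine ⟨PowerSeries.mk fun i => PowerSeries.coeff i (P i).2,
    limit (fun N => (P N).1) (fun N => (P N).2) ?_ ?_ ?_, ?_⟩
  · intro N i j hij
    exact (hP N).2.2.1 i j (by omega)
  · intro N
    exact (hP N).2.2.2.1
  · intro N i hi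
    exact hPs N i (by omega)
  · rw [PowerSeries.coeff_mk]
    exact (hP 1).2.2.2.2

end Pool.Agent.CVH
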