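import Pool.Agent.CVH.Targets2

set_option autoImplicit false

/-!
# CVH: the first difference of two formal group laws is a cocycle (target CO)
-/

noncomputable section

namespace Pool.Agent.CVH

namespace CO_

variable {R : Type} [CommRing R] {τ : Type}

/-- All coefficients of degree less than `d` vanish. -/
def V (d : ℕ) (f : MvPowerSeries τ R) : Prop :=
  ∀ e : τ →₀ ℕ, e.degree < d → MvPowerSeries.coeff e f = 0

lemma V.mono {d d' : ℕ} {f : MvPowerSeries τ R} (h : V d f) (hd : d' ≤ d) : V d' f :=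
  fun e he => h e (lt_of_lt_of_le he hd)

lemma V.add {d : ℕ} {f g : MvPowerSeries τ R} (hf : V d f) (hg : V d g) : V d (f + g) := by
  intro e he
  rw [map_add, hf e he, hg e he, add_zero]

lemma V.sub {d : ℕ} {f g : MvPowerSeries τ R} (hf : V d f) (hg : V d g) : V d (f - g) := by
  intro e he
  rw [map_sub, hf e he, hg e he, sub_zero]

lemma V.mul {a b : ℕ} {f g : MvPowerSeries τ R} (hf : V a f) (hg : V b g) :
    V (a + b) (f * g) := by
  classical
  intro e he
  rw [MvPowerSeries.coeff_mul]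
  refine Finset.sum_eq_zero fun p hp => ?_
  have h1 : p.1 + p.2 = e := Finset.HasAntidiagonal.mem_antidiagonal.1 hp
  have h2 : p.1.degree + p.2.degree = e.degree := by rw [← map_add, h1]
  by_cases h3 : p.1.degree < a
  · rw [hf _ h3, zero_mul]
  · rw [hg _ (by omega), mul_zero]

lemma V_zero (f : MvPowerSeries τ R) : V 0 f := fun _ he => absurd he (Nat.not_lt_zero _)

lemma V_zero' (d : ℕ) : V d (0 : MvPowerSeries τ R) := fun _ _ => by rw [map_zero]

lemma V.pow {f : MvPowerSeries τ R} (hf : V 1 f) (n : ℕ) : V n (f ^ n) := by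
  induction n with
  | zero => exact V_zero _
  | succ n ih =>
    rw [pow_succ]
    exact ih.mul hf

lemma V_X (i : τ) : V 1 (MvPowerSeries.X i : MvPowerSeries τ R) := by
  intro e he
  have h1 : e.degree = 0 := by omega
  have h2 : e = 0 := by
    ext j
    exact (Finsupp.degree_eq_zero_iff e).1 h1 ▸ rfl
  rw [h2]
  simp

lemma V.cc {f : MvPowerSeries τ R} (hf : V 1 f) : MvPowerSeries.constantCoeff f = 0 := by
  rw [← MvPowerSeries.coeff_zero_eq_constantCoeff_apply]
  exact hf 0 (by simp)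

lemma V.hs {f : MvPowerSeries τ R} (hf : V 1 f) : PowerSeries.HasSubst f := hs_of_zero hf.cc

lemma pow_sub_V {A A' : MvPowerSeries τ R} {k : ℕ} (hA : V 1 A) (hA' : V 1 A')
    (h : V k (A - A')) (n : ℕ) : V (k + n) (A ^ (n + 1) - A' ^ (n + 1)) := by
  induction n with
  | zero => simpa using h
  | succ n ih =>
    have e : A ^ (n + 1 + 1) - A' ^ (n + 1 + 1)
        = A * (A ^ (n + 1) - A' ^ (n + 1)) + (A - A') * A' ^ (n + 1) := by ring
    rw [e]
    exact ((hA.mul ih).mono (by omega)).add ((h.mul (hA'.pow (n + 1))).mono (by omega))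

lemma term_V {A A' B B' : MvPowerSeries τ R} {k dd : ℕ} (hA : V 1 A) (hA' : V 1 A')
    (hB : V 1 B) (hB' : V 1 B') (h : V k (A - A')) (h' : V k (B - B')) {a b : ℕ}
    (hab : dd + 1 ≤ a + b) : V (k + dd) (A ^ a * B ^ b - A' ^ a * B' ^ b) := by
  have e : A ^ a * B ^ b - A' ^ a * B' ^ b
      = (A ^ a - A' ^ a) * B ^ b + A' ^ a * (B ^ b - B' ^ b) := by ring
  rw [e]
  refine V.add ?_ ?_
  · rcases a with _ | a
    · simp only [pow_zero, sub_self, zero_mul]
      exact V_zero' _
    · exact ((pow_sub_V hA hA' h a).mul (hB.pow b)).mono (by omega)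
  · rcases b with _ | b
    · simp only [pow_zero, sub_self, mul_zero]
      exact V_zero' _
    · exact ((hA'.pow a).mul (pow_sub_V hB hB' h' b)).mono (by omega)

lemma prod_two (A B : MvPowerSeries τ R) (d : Fin 2 →₀ ℕ) :
    (d.prod fun s e => (![A, B] : Fin 2 → MvPowerSeries τ R) s ^ e) = A ^ d 0 * B ^ d 1 := by
  rw [Finsupp.prod_fintype _ _ (fun i => pow_zero _), Fin.prod_univ_two]
  rfl

lemma deg_two (d : Fin 2 →₀ ℕ) : d.degree = d 0 + d 1 := by
  rw [Finsupp.degree_eq_sum, Fin.sum_univ_two]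

/-- coefficient of a substitution -/
lemma coeff_two {A B : MvPowerSeries τ R} (hA : V 1 A) (hB : V 1 B)
    (P : MvPowerSeries (Fin 2) R) (e : τ →₀ ℕ) :
    MvPowerSeries.coeff e (MvPowerSeries.subst ![A, B] P) =
      ∑ᶠ d : Fin 2 →₀ ℕ, MvPowerSeries.coeff d P • MvPowerSeries.coeff e (A ^ d 0 * B ^ d 1) := by
  rw [MvPowerSeries.coeff_subst (hs2 hA.hs hB.hs)]
  exact finsum_congr fun d => by rw [prod_two]

lemma fin_two {A B : MvPowerSeries τ R} (hA : V 1 A) (hB : V 1 B)
    (P : MvPowerSeries (Fin 2) R) (e : τ →₀ ℕ) :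
    (Function.support fun d : Fin 2 →₀ ℕ =>
      MvPowerSeries.coeff d P • MvPowerSeries.coeff e (A ^ d 0 * B ^ d 1)).Finite := by
  have h := MvPowerSeries.coeff_subst_finite (hs2 hA.hs hB.hs) P e
  refine Set.Finite.subset h ?_
  intro d hd
  rw [Function.mem_support] at hd ⊢
  rwa [prod_two]

lemma subst_V {A B : MvPowerSeries τ R} (hA : V 1 A) (hB : V 1 B) {dd : ℕ}
    {P : MvPowerSeries (Fin 2) R} (hP : V dd P) : V dd (MvPowerSeries.subst ![A, B] P) := by
  intro e he
  rw [coeff_two hA hB]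
  rw [finsum_congr (g := fun _ => (0 : R)) ?_, finsum_zero]
  intro d
  by_cases h : d.degree < dd
  · rw [hP d h, zero_smul]
  · have h2 : V (d 0 + d 1) (A ^ d 0 * B ^ d 1) := (hA.pow _).mul (hB.pow _)
    rw [deg_two] at h
    rw [h2 e (by omega), smul_zero]

/-- the main comparison lemma -/
lemma diff_V {A A' B B' : MvPowerSeries τ R} {k dd : ℕ} (hA : V 1 A) (hA' : V 1 A')
    (hB : V 1 B) (hB' : V 1 B') (h : V k (A - A')) (h' : V k (B - B'))
    {P : MvPowerSeries (Fin 2) R} (hP : V (dd + 1) P) :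
    V (k + dd) (MvPowerSeries.subst ![A, B] P - MvPowerSeries.subst ![A', B'] P) := by
  intro e he
  rw [map_sub, coeff_two hA hB, coeff_two hA' hB',
    ← finsum_sub_distrib (fin_two hA hB P e) (fin_two hA' hB' P e)]
  rw [finsum_congr (g := fun _ => (0 : R)) ?_, finsum_zero]
  intro d
  rw [← smul_sub, ← map_sub]
  by_cases h2 : d.degree < dd + 1
  · rw [hP d h2, zero_smul]
  · rw [deg_two] at h2
    rw [term_V hA hA' hB hB' h h' (show dd + 1 ≤ d 0 + d 1 by omega) e he, smul_zero]

/-- exponents in three variables -/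
def e3 (i j l : ℕ) : Fin 3 →₀ ℕ := Finsupp.single 0 i + Finsupp.single 1 j + Finsupp.single 2 l

lemma e3_inj {i j l a b c : ℕ} : e3 i j l = e3 a b c ↔ i = a ∧ j = b ∧ l = c := by
  constructor
  · intro h
    refine ⟨?_, ?_, ?_⟩
    · have := DFunLike.congr_fun h 0
      simpa [e3] using this
    · have := DFunLike.congr_fun h 1
      simpa [e3] using this
    · have := DFunLike.congr_fun h 2
      simpa [e3] using this
  · rintro ⟨rfl, rfl, rfl⟩
    rfl

lemma e3_degree (i j l : ℕ) : (e3 i j l).degree = i + j + l := by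
  unfold e3
  rw [map_add, map_add, Finsupp.degree_single, Finsupp.degree_single, Finsupp.degree_single]

lemma coeff_mono (i j l a b c : ℕ) :
    MvPowerSeries.coeff (e3 i j l) ((MvPowerSeries.X 0 : MvPowerSeries (Fin 3) R) ^ a *
      MvPowerSeries.X 1 ^ b * MvPowerSeries.X 2 ^ c) =
      if i = a ∧ j = b ∧ l = c then 1 else 0 := by
  classical
  rw [MvPowerSeries.X_pow_eq, MvPowerSeries.X_pow_eq, MvPowerSeries.X_pow_eq,
    MvPowerSeries.monomial_mul_monomial, MvPowerSeries.monomial_mul_monomial,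
    MvPowerSeries.coeff_monomial, mul_one, mul_one]
  refine if_congr ?_ rfl rfl
  exact e3_inj

lemma coeff_left {i j l : ℕ} (a b : ℕ) :
    MvPowerSeries.coeff (e3 i j l) (((MvPowerSeries.X 0 : MvPowerSeries (Fin 3) R) +
      MvPowerSeries.X 1) ^ a * MvPowerSeries.X 2 ^ b) =
      if a = i + j ∧ b = l then (((i + j).choose i : ℕ) : R) else 0 := by
  have h : ((MvPowerSeries.X 0 : MvPowerSeries (Fin 3) R) + MvPowerSeries.X 1) ^ a *
      MvPowerSeries.X 2 ^ b = ∑ m ∈ Finset.range (a + 1), MvPowerSeries.C ((a.choose m : ℕ) : R) *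
        (MvPowerSeries.X 0 ^ m * MvPowerSeries.X 1 ^ (a - m) * MvPowerSeries.X 2 ^ b) := by
    rw [add_pow, Finset.sum_mul]
    refine Finset.sum_congr rfl fun m _ => ?_
    rw [map_natCast]
    ring
  rw [h, map_sum]
  have h2 : ∀ m ∈ Finset.range (a + 1), MvPowerSeries.coeff (e3 i j l)
      (MvPowerSeries.C ((a.choose m : ℕ) : R) * (MvPowerSeries.X 0 ^ m *
        MvPowerSeries.X 1 ^ (a - m) * MvPowerSeries.X 2 ^ b)) =
      if m = i then (if a = i + j ∧ b = l then (((i + j).choose i : ℕ) : R) else 0) else 0 := by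
    intro m hm
    have hma : m ≤ a := Nat.lt_succ_iff.1 (Finset.mem_range.1 hm)
    rw [MvPowerSeries.coeff_C_mul, coeff_mono]
    by_cases h1 : m = i
    · subst h1
      rw [if_pos rfl]
      by_cases h3 : a = m + j ∧ b = l
      · rw [if_pos h3, if_pos ⟨rfl, by omega, h3.2.symm⟩, h3.1, mul_one]
      · rw [if_neg h3, if_neg, mul_zero]
        rintro ⟨-, h4, h5⟩
        exact h3 ⟨by omega, h5.symm⟩
    · rw [if_neg h1, if_neg (fun h => h1 h.1.symm), mul_zero]
  rw [Finset.sum_congr rfl h2, Finset.sum_ite_eq']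
  by_cases h3 : a = i + j ∧ b = l
  · rw [if_pos h3, if_pos (Finset.mem_range.2 (by omega))]
  · rw [if_neg h3]
    split_ifs <;> rfl

lemma coeff_right {i j l : ℕ} (a b : ℕ) :
    MvPowerSeries.coeff (e3 i j l) ((MvPowerSeries.X 0 : MvPowerSeries (Fin 3) R) ^ a *
      (MvPowerSeries.X 1 + MvPowerSeries.X 2) ^ b) =
      if a = i ∧ b = j + l then (((j + l).choose j : ℕ) : R) else 0 := by
  have h : (MvPowerSeries.X 0 : MvPowerSeries (Fin 3) R) ^ a *
      (MvPowerSeries.X 1 + MvPowerSeries.X 2) ^ b =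
      ∑ m ∈ Finset.range (b + 1), MvPowerSeries.C ((b.choose m : ℕ) : R) *
        (MvPowerSeries.X 0 ^ a * MvPowerSeries.X 1 ^ m * MvPowerSeries.X 2 ^ (b - m)) := by
    rw [add_pow, Finset.mul_sum]
    refine Finset.sum_congr rfl fun m _ => ?_
    rw [map_natCast]
    ring
  rw [h, map_sum]
  have h2 : ∀ m ∈ Finset.range (b + 1), MvPowerSeries.coeff (e3 i j l)
      (MvPowerSeries.C ((b.choose m : ℕ) : R) * (MvPowerSeries.X 0 ^ a *
        MvPowerSeries.X 1 ^ m * MvPowerSeries.X 2 ^ (b - m))) =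
      if m = j then (if a = i ∧ b = j + l then (((j + l).choose j : ℕ) : R) else 0) else 0 := by
    intro m hm
    have hma : m ≤ b := Nat.lt_succ_iff.1 (Finset.mem_range.1 hm)
    rw [MvPowerSeries.coeff_C_mul, coeff_mono]
    by_cases h1 : m = j
    · subst h1
      rw [if_pos rfl]
      by_cases h3 : a = i ∧ b = m + l
      · rw [if_pos h3, if_pos ⟨h3.1.symm, rfl, by omega⟩, h3.2, mul_one]
      · rw [if_neg h3, if_neg, mul_zero]
        rintro ⟨h4, -, h5⟩
        exact h3 ⟨h4.symm, by omega⟩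
    · rw [if_neg h1, if_neg (fun h => h1 h.2.1.symm), mul_zero]
  rw [Finset.sum_congr rfl h2, Finset.sum_ite_eq']
  by_cases h3 : a = i ∧ b = j + l
  · rw [if_pos h3, if_pos (Finset.mem_range.2 (by omega))]
  · rw [if_neg h3]
    split_ifs <;> rfl

/-- exponents in two variables -/
def e2 (a b : ℕ) : Fin 2 →₀ ℕ := Finsupp.single 0 a + Finsupp.single 1 b

lemma eq_e2 (d : Fin 2 →₀ ℕ) : d = e2 (d 0) (d 1) := by
  ext i
  fin_cases i <;> simp [e2]

lemma e2_zero (a b : ℕ) : e2 a b 0 = a := by simp [e2]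

lemma e2_one (a b : ℕ) : e2 a b 1 = b := by simp [e2]

variable (E : MvPowerSeries (Fin 2) R)

lemma sub_left {i j l : ℕ} : MvPowerSeries.coeff (e3 i j l) (MvPowerSeries.subst
    ![(MvPowerSeries.X 0 : MvPowerSeries (Fin 3) R) + MvPowerSeries.X 1, MvPowerSeries.X 2] E) =
      MvPowerSeries.coeff (e2 (i + j) l) E * (((i + j).choose i : ℕ) : R) := by
  rw [coeff_two ((V_X 0).add (V_X 1)) (V_X 2), finsum_eq_single _ (e2 (i + j) l)]
  · rw [coeff_left, if_pos ⟨e2_zero _ _, e2_one _ _⟩, smul_eq_mul]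
  · intro d hd
    rw [coeff_left, if_neg, smul_zero]
    rintro ⟨h1, h2⟩
    apply hd
    rw [eq_e2 d, h1, h2]

lemma sub_right {i j l : ℕ} : MvPowerSeries.coeff (e3 i j l) (MvPowerSeries.subst
    ![(MvPowerSeries.X 0 : MvPowerSeries (Fin 3) R), MvPowerSeries.X 1 + MvPowerSeries.X 2] E) =
      MvPowerSeries.coeff (e2 i (j + l)) E * (((j + l).choose j : ℕ) : R) := by
  rw [coeff_two (V_X 0) ((V_X 1).add (V_X 2)), finsum_eq_single _ (e2 i (j + l))]
  · rw [coeff_right, if_pos ⟨e2_zero _ _, e2_one _ _⟩, smul_eq_mul]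
  · intro d hd
    rw [coeff_right, if_neg, smul_zero]
    rintro ⟨h1, h2⟩
    apply hd
    rw [eq_e2 d, h1, h2]

lemma sub_low {i j l : ℕ} (hl : 0 < l) : MvPowerSeries.coeff (e3 i j l) (MvPowerSeries.subst
    ![(MvPowerSeries.X 0 : MvPowerSeries (Fin 3) R), MvPowerSeries.X 1] E) = 0 := by
  rw [coeff_two (V_X 0) (V_X 1), finsum_congr (g := fun _ => (0 : R)) ?_, finsum_zero]
  intro d
  have h := coeff_mono (R := R) i j l (d 0) (d 1) 0
  rw [pow_zero, mul_one] at h
  rw [h, if_neg (fun h => by omega), smul_zero]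

lemma sub_high {i j l : ℕ} (hi : 0 < i) : MvPowerSeries.coeff (e3 i j l) (MvPowerSeries.subst
    ![(MvPowerSeries.X 1 : MvPowerSeries (Fin 3) R), MvPowerSeries.X 2] E) = 0 := by
  rw [coeff_two (V_X 1) (V_X 2), finsum_congr (g := fun _ => (0 : R)) ?_, finsum_zero]
  intro d
  have h := coeff_mono (R := R) i j l 0 (d 0) (d 1)
  rw [pow_zero, one_mul] at h
  rw [h, if_neg (fun h => by omega), smul_zero]

lemma subst_sub' {A B : MvPowerSeries τ R} (hA : V 1 A) (hB : V 1 B)
    (P Q : MvPowerSeries (Fin 2) R) : MvPowerSeries.subst ![A, B] (P - Q) =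
      MvPowerSeries.subst ![A, B] P - MvPowerSeries.subst ![A, B] Q := by
  rw [← MvPowerSeries.coe_substAlgHom (hs2 hA.hs hB.hs), map_sub]

lemma subst_lin {A B : MvPowerSeries τ R} (hA : V 1 A) (hB : V 1 B)
    (P : MvPowerSeries (Fin 2) R) :
    MvPowerSeries.subst ![A, B] (P - MvPowerSeries.X 0 - MvPowerSeries.X 1) =
      MvPowerSeries.subst ![A, B] P - A - B := by
  rw [subst_sub' hA hB, subst_sub' hA hB, MvPowerSeries.subst_X (hs2 hA.hs hB.hs),
    MvPowerSeries.subst_X (hs2 hA.hs hB.hs)]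
  rfl

lemma lin_V (G : FormalGroup R) : V 2 (G.toPowerSeries - MvPowerSeries.X 0 - MvPowerSeries.X 1) := by
  intro d hd
  rw [deg_two] at hd
  rw [map_sub, map_sub, eq_e2 d]
  have hcases : (d 0 = 0 ∧ d 1 = 0) ∨ (d 0 = 1 ∧ d 1 = 0) ∨ (d 0 = 0 ∧ d 1 = 1) := by omega
  rcases hcases with ⟨h0, h1⟩ | ⟨h0, h1⟩ | ⟨h0, h1⟩
  · rw [h0, h1]
    have : e2 0 0 = 0 := by simp [e2]
    rw [this, MvPowerSeries.coeff_zero_eq_constantCoeff_apply, G.zero_constantCoeff]
    simp
  · rw [h0, h1]
    have : e2 1 0 = Finsupp.single 0 1 := by simp [e2]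
    rw [this, G.lin_coeff_X, MvPowerSeries.coeff_index_single_X,
      MvPowerSeries.coeff_index_single_X]
    simp
  · rw [h0, h1]
    have : e2 0 1 = Finsupp.single 1 1 := by simp [e2]
    rw [this, G.lin_coeff_Y, MvPowerSeries.coeff_index_single_X,
      MvPowerSeries.coeff_index_single_X]
    simp

lemma V21 {f : MvPowerSeries τ R} (h : V 2 f) : V 1 f := h.mono (by norm_num)

/-- a formal group law substituted -/
lemma G_V (G : FormalGroup R) {A B : MvPowerSeries τ R} (hA : V 1 A) (hB : V 1 B) :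
    V 1 (MvPowerSeries.subst ![A, B] G.toPowerSeries) := by
  have h := (V21 (subst_V hA hB (lin_V G))).add (hA.add hB)
  rw [subst_lin hA hB] at h
  have e : MvPowerSeries.subst ![A, B] G.toPowerSeries - A - B + (A + B)
      = MvPowerSeries.subst ![A, B] G.toPowerSeries := by ring
  rwa [e] at h

lemma diff_left {G G' : FormalGroup R} {M : ℕ} (hM : 2 ≤ M)
    (hE : V M (G'.toPowerSeries - G.toPowerSeries)) {x y z : MvPowerSeries τ R} (hx : V 1 x)
    (hy : V 1 y) (hz : V 1 z) :
    V (M + 1) (MvPowerSeries.subst ![MvPowerSeries.subst ![x, y] G'.toPowerSeries, z]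
        G'.toPowerSeries
      - MvPowerSeries.subst ![MvPowerSeries.subst ![x, y] G.toPowerSeries, z] G.toPowerSeries
      - (MvPowerSeries.subst ![x + y, z] (G'.toPowerSeries - G.toPowerSeries)
        + MvPowerSeries.subst ![x, y] (G'.toPowerSeries - G.toPowerSeries))) := by
  have hA' := G_V G' hx hy
  have hA := G_V G hx hy
  have hS := hx.add hy
  have hzz : ∀ k, V k (z - z) := fun k => by rw [sub_self]; exact V_zero' k
  have f1 : V 2 (MvPowerSeries.subst ![x, y] G'.toPowerSeries - (x + y)) := by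
    have := subst_V hx hy (lin_V G')
    rw [subst_lin hx hy] at this
    rwa [sub_sub] at this
  have f2 := diff_V hA' hS hz hz f1 (hzz 2) (dd := M - 1)
    (P := G'.toPowerSeries - G.toPowerSeries) (by rwa [Nat.sub_add_cancel (by omega)])
  have f3 : V M (MvPowerSeries.subst ![x, y] G'.toPowerSeries
      - MvPowerSeries.subst ![x, y] G.toPowerSeries) := by
    rw [← subst_sub' hx hy]
    exact subst_V hx hy hE
  have f4 := diff_V hA' hA hz hz f3 (hzz M) (dd := 1) (lin_V G)
  rw [subst_lin hA' hz, subst_lin hA hz] at f4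
  have f5 := (f2.mono (show M + 1 ≤ 2 + (M - 1) by omega)).add f4
  rw [subst_sub' hA' hz] at f5
  rw [subst_sub' hx hy]
  refine (congrArg (V (M + 1)) ?_).mp f5
  ring

lemma diff_right {G G' : FormalGroup R} {M : ℕ} (hM : 2 ≤ M)
    (hE : V M (G'.toPowerSeries - G.toPowerSeries)) {x y z : MvPowerSeries τ R} (hx : V 1 x)
    (hy : V 1 y) (hz : V 1 z) :
    V (M + 1) (MvPowerSeries.subst ![x, MvPowerSeries.subst ![y, z] G'.toPowerSeries]
        G'.toPowerSeries
      - MvPowerSeries.subst ![x, MvPowerSeries.subst ![y, z] G.toPowerSeries] G.toPowerSeries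
      - (MvPowerSeries.subst ![x, y + z] (G'.toPowerSeries - G.toPowerSeries)
        + MvPowerSeries.subst ![y, z] (G'.toPowerSeries - G.toPowerSeries))) := by
  have hA' := G_V G' hy hz
  have hA := G_V G hy hz
  have hS := hy.add hz
  have hzz : ∀ k, V k (x - x) := fun k => by rw [sub_self]; exact V_zero' k
  have f1 : V 2 (MvPowerSeries.subst ![y, z] G'.toPowerSeries - (y + z)) := by
    have := subst_V hy hz (lin_V G')
    rw [subst_lin hy hz] at this
    rwa [sub_sub] at this
  have f2 := diff_V hx hx hA' hS (hzz 2) f1 (dd := M - 1)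
    (P := G'.toPowerSeries - G.toPowerSeries) (by rwa [Nat.sub_add_cancel (by omega)])
  have f3 : V M (MvPowerSeries.subst ![y, z] G'.toPowerSeries
      - MvPowerSeries.subst ![y, z] G.toPowerSeries) := by
    rw [← subst_sub' hy hz]
    exact subst_V hy hz hE
  have f4 := diff_V hx hx hA' hA (hzz M) f3 (dd := 1) (lin_V G)
  rw [subst_lin hx hA', subst_lin hx hA] at f4
  have f5 := (f2.mono (show M + 1 ≤ 2 + (M - 1) by omega)).add f4
  rw [subst_sub' hx hA'] at f5
  rw [subst_sub' hy hz]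
  refine (congrArg (V (M + 1)) ?_).mp f5
  ring

lemma c2_eq (G : FormalGroup R) (i j : ℕ) :
    c2 G i j = MvPowerSeries.coeff (e2 i j) G.toPowerSeries := rfl

/-- the pure coefficients vanish -/
lemma pure_right (G : FormalGroup R) {M : ℕ} (hM : 2 ≤ M) : c2 G 0 M = 0 := by
  have h := congrArg (PowerSeries.coeff M) G.zeroX_eq_X
  rw [PowerSeries.coeff_X, if_neg (by omega)] at h
  have h0 : V 1 (0 : PowerSeries R) := V_zero' 1
  have hX : V 1 (PowerSeries.X : PowerSeries R) := V_X ()
  have h2 := coeff_two h0 hX G.toPowerSeries (Finsupp.single () M)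
  rw [finsum_eq_single _ (e2 0 M)] at h2
  · rw [e2_zero, e2_one, pow_zero, one_mul] at h2
    have h3 : MvPowerSeries.coeff (Finsupp.single () M) ((PowerSeries.X : PowerSeries R) ^ M)
        = 1 := by
      have := PowerSeries.coeff_X_pow_self (R := R) M
      exact this
    rw [h3, smul_eq_mul, mul_one] at h2
    rw [c2_eq, ← h2]
    exact h
  · intro d hd
    by_cases h4 : d 0 = 0
    · have h5 : d 1 ≠ M := by
        intro h6
        apply hd
        rw [eq_e2 d, h4, h6]
      have h6 : MvPowerSeries.coeff (Finsupp.single () M)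
          ((PowerSeries.X : PowerSeries R) ^ d 1) = 0 := by
        have := PowerSeries.coeff_X_pow (R := R) M (d 1)
        rw [if_neg (fun h => h5 h.symm)] at this
        exact this
      rw [h4, pow_zero, one_mul, h6, smul_zero]
    · rw [zero_pow h4, zero_mul, map_zero, smul_zero]

lemma pure_left (G : FormalGroup R) {M : ℕ} (hM : 2 ≤ M) : c2 G M 0 = 0 := by
  have h := congrArg (PowerSeries.coeff M) G.Xzero_eq_X
  rw [PowerSeries.coeff_X, if_neg (by omega)] at h
  have h0 : V 1 (0 : PowerSeries R) := V_zero' 1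
  have hX : V 1 (PowerSeries.X : PowerSeries R) := V_X ()
  have h2 := coeff_two hX h0 G.toPowerSeries (Finsupp.single () M)
  rw [finsum_eq_single _ (e2 M 0)] at h2
  · rw [e2_zero, e2_one, pow_zero, mul_one] at h2
    have h3 : MvPowerSeries.coeff (Finsupp.single () M) ((PowerSeries.X : PowerSeries R) ^ M)
        = 1 := by
      have := PowerSeries.coeff_X_pow_self (R := R) M
      exact this
    rw [h3, smul_eq_mul, mul_one] at h2
    rw [c2_eq, ← h2]
    exact h
  · intro d hd
    by_cases h4 : d 1 = 0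
    · have h5 : d 0 ≠ M := by
        intro h6
        apply hd
        rw [eq_e2 d, h4, h6]
      have h6 : MvPowerSeries.coeff (Finsupp.single () M)
          ((PowerSeries.X : PowerSeries R) ^ d 0) = 0 := by
        have := PowerSeries.coeff_X_pow (R := R) M (d 0)
        rw [if_neg (fun h => h5 h.symm)] at this
        exact this
      rw [h4, pow_zero, mul_one, h6, smul_zero]
    · rw [zero_pow h4, mul_zero, map_zero, smul_zero]

end CO_

open CO_

theorem p_CO : T_CO := by
  intro R _ G G' M hM hlow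
  refine ⟨by rw [pure_right G hM, pure_right G' hM, sub_zero],
    by rw [pure_left G hM, pure_left G' hM, sub_zero], fun i j l hi hj hl hs => ?_⟩
  have hE : V M (G'.toPowerSeries - G.toPowerSeries) := by
    intro d hd
    rw [deg_two] at hd
    have h := hlow (d 0) (d 1) hd
    rw [c2_eq, c2_eq] at h
    rw [map_sub, eq_e2 d, h, sub_self]
  have h1 := diff_left hM hE (V_X (R := R) (0 : Fin 3)) (V_X 1) (V_X 2)
  have h2 := diff_right hM hE (V_X (R := R) (0 : Fin 3)) (V_X 1) (V_X 2)
  rw [G.assoc' (V_X 0).hs (V_X 1).hs (V_X 2).hs, G'.assoc' (V_X 0).hs (V_X 1).hs (V_X 2).hs]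
    at h1
  have h3 := (h2.sub h1) (e3 i j l) (by rw [e3_degree]; omega)
  rw [map_sub, map_sub, map_sub, map_sub, map_sub, map_add, map_add, sub_left, sub_right,
    sub_low _ hl, sub_high _ hi, map_sub, map_sub] at h3
  rw [c2_eq, c2_eq, c2_eq, c2_eq]
  linear_combination h3

end Pool.Agent.CVH
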