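import Pool.Agent.CVH.Targets2

set_option autoImplicit false

/-!
# CVH, target COC: symmetric 2-cocycles in characteristic p (coefficients)
-/

noncomputable section

namespace Pool.Agent.CVH

namespace COC_

variable {p : ℕ} [hp : Fact p.Prime] {k : Type} [Field k] [CharP k p] {m : ℕ}

/-- The relations. -/
structure Cc (m : ℕ) (c : ℕ → k) : Prop where
  sym : ∀ i, 0 < i → i < m → c i = c (m - i)
  rel : ∀ i j l : ℕ, 0 < i → 0 < j → 0 < l → i + j + l = m →
    ((i + j).choose i : k) * c (i + j) = ((j + l).choose j : k) * c i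

omit hp [CharP k p] in
theorem Cc.sub {c d : ℕ → k} (hc : Cc m c) (hd : Cc m d) (a : k) :
    Cc m (fun i => c i - a * d i) where
  sym := by
    intro i hi hm
    simp only [hc.sym i hi hm, hd.sym i hi hm]
  rel := by
    intro i j l hi hj hl h
    have h1 := hc.rel i j l hi hj hl h
    have h2 := hd.rel i j l hi hj hl h
    simp only [mul_sub]
    rw [h1, mul_left_comm, h2, mul_left_comm]

omit hp [CharP k p] in
theorem Cc.r2 {c : ℕ → k} (h : Cc m c) {i j : ℕ} (hi : 0 < i) (hj : 0 < j) (hij : i + j < m) :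
    ((m - i).choose j : k) * c i = ((m - j).choose i : k) * c j := by
  have h1 := h.rel i j (m - i - j) hi hj (by omega) (by omega)
  have h2 := h.rel j i (m - i - j) hj hi (by omega) (by omega)
  have e1 : j + (m - i - j) = m - i := by omega
  have e2 : i + (m - i - j) = m - j := by omega
  rw [e1] at h1
  rw [e2, Nat.add_comm j i, ← Nat.choose_symm_add (a := i) (b := j)] at h2
  rw [← h1, ← h2]

theorem cast_choose (n t : ℕ) : ((n.choose (p ^ t) : ℕ) : k) = ((n / p ^ t : ℕ) : k) := by
  induction t generalizing n with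
  | zero => simp
  | succ t ih =>
    have h1 := Choose.choose_modEq_choose_mod_mul_choose_div_nat (n := n) (k := p ^ (t + 1))
      (p := p)
    have h2 : p ^ (t + 1) % p = 0 := by
      rw [pow_succ]
      exact Nat.mul_mod_left _ _
    have h3 : p ^ (t + 1) / p = p ^ t := by
      rw [pow_succ, Nat.mul_div_cancel _ hp.out.pos]
    rw [h2, h3, Nat.choose_zero_right, one_mul] at h1
    rw [(CharP.natCast_eq_natCast k p).2 h1, ih, Nat.div_div_eq_div_mul, pow_succ']

omit hp in
theorem cast_ne {n : ℕ} (h : ¬ p ∣ n) : (n : k) ≠ 0 := fun h0 =>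
  h ((CharP.cast_eq_zero_iff k p n).1 h0)

theorem zero_of {c : ℕ → k} (h : Cc m c) (h0 : ∀ t, p ^ t < m → c (p ^ t) = 0) :
    ∀ i, 0 < i → i < m → c i = 0 := by
  intro i hi him
  obtain ⟨t, u, hu, rfl⟩ := Nat.exists_eq_pow_mul_and_not_dvd hi.ne' p hp.out.ne_one
  have hpt : 0 < p ^ t := pow_pos hp.out.pos t
  have hu0 : u ≠ 0 := by
    rintro rfl
    exact hu (dvd_zero p)
  by_cases hu1 : u = 1
  · subst hu1
    rw [mul_one] at him ⊢
    exact h0 t him
  · have h2 : 2 ≤ u := by omega
    have h3 : p ^ t < p ^ t * u := by nlinarith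
    have h4 := h.rel (p ^ t) (p ^ t * u - p ^ t) (m - p ^ t * u) hpt (by omega) (by omega)
      (by omega)
    rw [Nat.add_sub_cancel' h3.le, h0 t (h3.trans him), mul_zero, cast_choose,
      Nat.mul_div_cancel_left _ hpt] at h4
    exact (mul_eq_zero.1 h4).resolve_left (cast_ne hu)

theorem dv {a x y : ℕ} (hy : y < a) : (a * x + y) / a = x := by
  rw [Nat.mul_add_div (by omega), Nat.div_eq_of_lt hy, add_zero]

omit hp [CharP k p] in
theorem std (m : ℕ) : Cc m (fun i => ((m.choose i : ℕ) : k)) where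
  sym := by
    intro i _ hm
    rw [Nat.choose_symm hm.le]
  rel := by
    intro i j l _ _ _ h
    have h1 := Nat.choose_mul (n := m) (k := i + j) (s := i) (by omega)
    have e1 : m - i = j + l := by omega
    rw [e1, Nat.add_sub_cancel_left] at h1
    have h2 : (i + j).choose i * m.choose (i + j) = (j + l).choose j * m.choose i := by
      rw [mul_comm, h1, mul_comm]
    rw [← Nat.cast_mul, ← Nat.cast_mul, h2]

omit [CharP k p] in
theorem stdp (r : ℕ) : Cc (p ^ r) (fun i => (((p ^ r).choose i / p : ℕ) : k)) where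
  sym := by
    intro i _ hm
    rw [Nat.choose_symm hm.le]
  rel := by
    intro i j l hi hj hl h
    obtain ⟨x, hx⟩ := hp.out.dvd_choose_pow (k := i + j) (n := r) (by omega) (by omega)
    obtain ⟨y, hy⟩ := hp.out.dvd_choose_pow (k := i) (n := r) (by omega) (by omega)
    have h1 := Nat.choose_mul (n := p ^ r) (k := i + j) (s := i) (by omega)
    have e1 : p ^ r - i = j + l := by omega
    rw [e1, Nat.add_sub_cancel_left, hx, hy] at h1
    rw [hx, hy, Nat.mul_div_cancel_left _ hp.out.pos, Nat.mul_div_cancel_left _ hp.out.pos]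
    have h2 : p * ((i + j).choose i * x) = p * ((j + l).choose j * y) := by
      calc p * ((i + j).choose i * x) = p * x * (i + j).choose i := by ring
        _ = p * y * (j + l).choose j := h1
        _ = p * ((j + l).choose j * y) := by ring
    have h3 := Nat.eq_of_mul_eq_mul_left hp.out.pos h2
    rw [← Nat.cast_mul, ← Nat.cast_mul, h3]

theorem part1 {r s : ℕ} (hs : ¬ p ∣ s) (hs2 : 2 ≤ s) {c : ℕ → k} (h : Cc (p ^ r * s) c)
    (h0 : c (p ^ r) = 0) : ∀ t, p ^ t < p ^ r * s → c (p ^ t) = 0 := by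
  have hpr : 0 < p ^ r := pow_pos hp.out.pos r
  have hA : ∀ d, 0 < d → p ^ (r + d) < p ^ r * s → c (p ^ (r + d)) = 0 := by
    intro d hd hlt
    have hd' : p ^ d < s := by
      rw [pow_add] at hlt
      exact lt_of_mul_lt_mul_left hlt (Nat.zero_le _)
    obtain ⟨e, rfl⟩ : ∃ e, s = p ^ d + e := ⟨s - p ^ d, by omega⟩
    have he : ¬ p ∣ e := fun h1 => hs ((Nat.dvd_add_right (dvd_pow_self p hd.ne')).2 h1)
    have he0 : 0 < e := by omega
    have hm : p ^ r * (p ^ d + e) - p ^ (r + d) = p ^ r * e := by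
      rw [pow_add, mul_add, Nat.add_sub_cancel_left]
    have hpd : 0 < p ^ (r + d) := pow_pos hp.out.pos _
    by_cases he1 : e = 1
    · subst he1
      rw [h.sym _ hpd hlt, hm, mul_one, h0]
    · have h1 : p ^ (r + d) + p ^ r < p ^ r * (p ^ d + e) := by
        rw [pow_add, mul_add]
        have : p ^ r < p ^ r * e := by nlinarith [show 2 ≤ e by omega]
        omega
      have h2 := h.r2 hpd hpr h1
      rw [h0, mul_zero, hm, cast_choose, Nat.mul_div_cancel_left _ hpr] at h2
      exact (mul_eq_zero.1 h2).resolve_left (cast_ne he)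
  intro t ht
  rcases lt_trichotomy t r with htr | htr | htr
  · have hpt : 0 < p ^ t := pow_pos hp.out.pos t
    have hlt : p ^ t < p ^ r := Nat.pow_lt_pow_right hp.out.one_lt htr
    obtain ⟨s', rfl⟩ : ∃ s', s = s' + 1 := ⟨s - 1, by omega⟩
    have hs' : s' ≠ 0 := by omega
    by_cases hd : p ∣ s'
    · obtain ⟨w, v, hv, rfl⟩ := Nat.exists_eq_pow_mul_and_not_dvd hs' p hp.out.ne_one
      have hw : 0 < w := by
        rcases Nat.eq_zero_or_pos w with rfl | hw
        · rw [pow_zero, one_mul] at hd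
          exact absurd hd hv
        · exact hw
      have hv0 : 0 < v := by
        rcases Nat.eq_zero_or_pos v with rfl | hv0
        · exact absurd (dvd_zero p) hv
        · exact hv0
      have hm : p ^ r * (p ^ w * v + 1) = p ^ (r + w) * v + p ^ r := by
        rw [pow_add]
        ring
      have hpu : 0 < p ^ (r + w) := pow_pos hp.out.pos _
      have h4 : p ^ (r + w) ≤ p ^ (r + w) * v := Nat.le_mul_of_pos_right _ hv0
      have hu0 := hA w hw (by omega)
      have h2 := h.r2 hpt hpu (by omega)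
      have hru : p ^ r < p ^ (r + w) := Nat.pow_lt_pow_right hp.out.one_lt (by omega)
      have h3 : p ^ r * (p ^ w * v + 1) - p ^ t = p ^ (r + w) * v + (p ^ r - p ^ t) := by omega
      rw [hu0, mul_zero, h3, cast_choose, dv (by omega)] at h2
      exact (mul_eq_zero.1 h2).resolve_left (cast_ne hv)
    · have hm : p ^ r * (s' + 1) = p ^ r * s' + p ^ r := by ring
      have h4 : p ^ r ≤ p ^ r * s' := Nat.le_mul_of_pos_right _ (by omega)
      have h2 := h.r2 hpt hpr (by omega)
      have h3 : p ^ r * (s' + 1) - p ^ t = p ^ r * s' + (p ^ r - p ^ t) := by omega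
      rw [h0, mul_zero, h3, cast_choose, dv (by omega)] at h2
      exact (mul_eq_zero.1 h2).resolve_left (cast_ne hd)
  · subst htr
    exact h0
  · obtain ⟨d, rfl⟩ : ∃ d, t = r + d := ⟨t - r, by omega⟩
    exact hA d (by omega) ht

theorem part2 {r : ℕ} {c : ℕ → k} (h : Cc (p ^ (r + 1)) c) (h0 : c (p ^ r) = 0) :
    ∀ t, p ^ t < p ^ (r + 1) → c (p ^ t) = 0 := by
  intro t ht
  have hpr : 0 < p ^ r := pow_pos hp.out.pos r
  have hpt : 0 < p ^ t := pow_pos hp.out.pos t
  have htr : t < r + 1 := (Nat.pow_lt_pow_iff_right hp.out.one_lt).1 ht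
  by_cases he : t = r
  · subst he
    exact h0
  · have hlt : p ^ t < p ^ r := Nat.pow_lt_pow_right hp.out.one_lt (by omega)
    obtain ⟨q, hq⟩ : ∃ q, p = q + 1 := ⟨p - 1, by have := hp.out.pos; omega⟩
    have hq1 : 1 ≤ q := by
      have := hp.out.two_le
      omega
    have hqd : ¬ p ∣ q := fun h1 => by
      have := Nat.le_of_dvd (by omega) h1
      omega
    have hm : p ^ (r + 1) = p ^ r * q + p ^ r := by
      rw [pow_succ]
      conv_lhs => rw [show p ^ r * p = p ^ r * (q + 1) by rw [← hq]]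
      ring
    have h4 : p ^ r ≤ p ^ r * q := Nat.le_mul_of_pos_right _ hq1
    have h2 := h.r2 hpt hpr (by omega)
    have h3 : p ^ (r + 1) - p ^ t = p ^ r * q + (p ^ r - p ^ t) := by omega
    rw [h0, mul_zero, h3, cast_choose, dv (by omega)] at h2
    exact (mul_eq_zero.1 h2).resolve_left (cast_ne hqd)

theorem not_dvd (r : ℕ) : ¬ p ∣ (p ^ (r + 1)).choose (p ^ r) / p := by
  intro h
  have hpr : p ^ r ≤ p ^ (r + 1) := Nat.pow_le_pow_right hp.out.pos (by omega)
  have hne : p ^ r ≠ p ^ (r + 1) := by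
    intro h1
    have := Nat.pow_right_injective hp.out.two_le h1
    omega
  have hd := hp.out.dvd_choose_pow (k := p ^ r) (n := r + 1) (pow_pos hp.out.pos r).ne' hne
  have h1 := Nat.factorization_choose_prime_pow hp.out hpr (pow_pos hp.out.pos r).ne'
  rw [hp.out.factorization_pow, Finsupp.single_eq_same, Nat.add_sub_cancel_left] at h1
  have h2 : p ^ 2 ∣ (p ^ (r + 1)).choose (p ^ r) := by
    obtain ⟨x, hx⟩ := hd
    rw [hx, Nat.mul_div_cancel_left _ hp.out.pos] at h
    rw [hx, pow_two]
    exact Nat.mul_dvd_mul_left p h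
  have h3 := (hp.out.pow_dvd_iff_le_factorization (Nat.choose_pos hpr).ne').1 h2
  omega

end COC_

open COC_ in
theorem p_COC : T_COC := by
  intro p hp k _ _ m hm c hsym hrel
  have hc : Cc m c := ⟨hsym, hrel⟩
  have hm0 : m ≠ 0 := by omega
  refine ⟨fun hne => ?_, fun r hr => ?_⟩
  · obtain ⟨r, s, hs, rfl⟩ := Nat.exists_eq_pow_mul_and_not_dvd hm0 p hp.out.ne_one
    have hpr : 0 < p ^ r := pow_pos hp.out.pos r
    have hs1 : s ≠ 1 := by
      rintro rfl
      exact hne r (mul_one _)
    have hs0 : s ≠ 0 := by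
      rintro rfl
      exact hs (dvd_zero p)
    have hsk : (s : k) ≠ 0 := cast_ne hs
    have h1 := hc.sub (std (k := k) (p ^ r * s)) (c (p ^ r) / s)
    refine ⟨c (p ^ r) / s, fun i hi him => ?_⟩
    have h2 := zero_of (p := p) h1 (part1 hs (by omega) h1 (by
      rw [cast_choose, Nat.mul_div_cancel_left _ hpr, div_mul_cancel₀ _ hsk, sub_self])) i hi him
    exact sub_eq_zero.1 h2
  · subst hr
    obtain ⟨r, rfl⟩ : ∃ r', r = r' + 1 := by
      rcases Nat.eq_zero_or_pos r with rfl | h
      · rw [pow_zero] at hm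
        omega
      · exact ⟨r - 1, by omega⟩
    have hd : (((p ^ (r + 1)).choose (p ^ r) / p : ℕ) : k) ≠ 0 := cast_ne (not_dvd r)
    have h1 := hc.sub (stdp (k := k) (p := p) (r + 1))
      (c (p ^ r) / (((p ^ (r + 1)).choose (p ^ r) / p : ℕ) : k))
    refine ⟨c (p ^ r) / (((p ^ (r + 1)).choose (p ^ r) / p : ℕ) : k), fun i hi him => ?_⟩
    have h2 := zero_of (p := p) h1 (part2 h1 (by
      rw [div_mul_cancel₀ _ hd, sub_self])) i hi him
    exact sub_eq_zero.1 h2

end Pool.Agent.CVH
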