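import Pool.Agent.CVH.Targets2

set_option autoImplicit false

/-!
# CVH: transport of a formal group law
-/

noncomputable section

namespace Pool.Agent.CVH

namespace CONJ_

variable {R : Type} [CommRing R]

/-- The transported series. -/
def ps (G : FormalGroup R) (u v : PowerSeries R) : MvPowerSeries (Fin 2) R :=
  PowerSeries.subst (addG G (PowerSeries.subst (MvPowerSeries.X 0 : MvPowerSeries (Fin 2) R) u)
      (PowerSeries.subst (MvPowerSeries.X 1 : MvPowerSeries (Fin 2) R) u)) v

theorem hs_ps {τ : Type} {a : MvPowerSeries τ R} (ha : PowerSeries.HasSubst a)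
    {u : PowerSeries R} (hu : PowerSeries.constantCoeff u = 0) :
    PowerSeries.HasSubst (PowerSeries.subst a u) := by
  have h := MvPowerSeries.IsNilpotent_subst (f := (u : MvPowerSeries Unit R)) ha.const
    (by
      have : MvPowerSeries.constantCoeff (u : MvPowerSeries Unit R) = 0 := hu
      rw [this]
      exact IsNilpotent.zero)
  exact h

theorem ps_cc (G : FormalGroup R) {u v : PowerSeries R} (hu : PowerSeries.constantCoeff u = 0)
    (hv : PowerSeries.constantCoeff v = 0) : MvPowerSeries.constantCoeff (ps G u v) = 0 := by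
  refine cc_psubst (addG_zero_cc G ?_ ?_) hv
  · exact cc_psubst (by simp) hu
  · exact cc_psubst (by simp) hu

theorem subst_ps {τ : Type} (G : FormalGroup R) {u v : PowerSeries R}
    (hu : PowerSeries.constantCoeff u = 0) {a b : MvPowerSeries τ R}
    (ha : PowerSeries.HasSubst a) (hb : PowerSeries.HasSubst b) :
    MvPowerSeries.subst ![a, b] (ps G u v) =
      PowerSeries.subst (addG G (PowerSeries.subst a u) (PowerSeries.subst b u)) v := by
  have h0 : PowerSeries.HasSubst (MvPowerSeries.X 0 : MvPowerSeries (Fin 2) R) :=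
    PowerSeries.HasSubst.X 0
  have h1 : PowerSeries.HasSubst (MvPowerSeries.X 1 : MvPowerSeries (Fin 2) R) :=
    PowerSeries.HasSubst.X 1
  have k0 := hs_ps h0 hu
  have k1 := hs_ps h1 hu
  unfold ps
  rw [mvsubst_psubst v (addG_hs G k0 k1) (hs2 ha hb), subst_addG G k0 k1 (hs2 ha hb),
    mvsubst_psubst u h0 (hs2 ha hb), mvsubst_psubst u h1 (hs2 ha hb),
    MvPowerSeries.subst_X (hs2 ha hb), MvPowerSeries.subst_X (hs2 ha hb)]
  rfl

theorem u_subst_ps {τ : Type} (G : FormalGroup R) {u v : PowerSeries R}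
    (hu : PowerSeries.constantCoeff u = 0) (hv : PowerSeries.constantCoeff v = 0)
    (huv : comp u v = PowerSeries.X) {a b : MvPowerSeries τ R}
    (ha : PowerSeries.HasSubst a) (hb : PowerSeries.HasSubst b) :
    PowerSeries.subst (MvPowerSeries.subst ![a, b] (ps G u v)) u =
      addG G (PowerSeries.subst a u) (PowerSeries.subst b u) := by
  have k := addG_hs G (hs_ps ha hu) (hs_ps hb hu)
  rw [subst_ps G hu ha hb, ← psubst_comp hv k, huv, PowerSeries.subst_X k]

theorem hs_subst_ps {τ : Type} (G : FormalGroup R) {u v : PowerSeries R}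
    (hu : PowerSeries.constantCoeff u = 0) (hv : PowerSeries.constantCoeff v = 0)
    {a b : MvPowerSeries τ R}
    (ha : PowerSeries.HasSubst a) (hb : PowerSeries.HasSubst b) :
    PowerSeries.HasSubst (MvPowerSeries.subst ![a, b] (ps G u v)) := by
  rw [subst_ps G hu ha hb]
  exact hs_ps (addG_hs G (hs_ps ha hu) (hs_ps hb hu)) hv

theorem coeff_X_zero (F : MvPowerSeries (Fin 2) R) :
    PowerSeries.coeff 1 (MvPowerSeries.subst ![PowerSeries.X, 0] F : PowerSeries R) =
      MvPowerSeries.coeff (Finsupp.single 0 1) F := by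
  have hs : MvPowerSeries.HasSubst (![PowerSeries.X, 0] : Fin 2 → MvPowerSeries Unit R) :=
    MvPowerSeries.HasSubst.X_zero
  rw [PowerSeries.coeff, MvPowerSeries.coeff_subst hs,
    finsum_eq_single _ (Finsupp.single 0 1)]
  · simp
  · intro d hd
    by_cases hd₁ : d 1 = 0
    · by_cases hd₀ : d 0 = 0
      · simp [hd₀, hd₁]
      simp [hd₁, PowerSeries.coeff_X_pow]
      grind
    simp [hd₁]

theorem coeff_zero_X (F : MvPowerSeries (Fin 2) R) :
    PowerSeries.coeff 1 (MvPowerSeries.subst ![0, PowerSeries.X] F : PowerSeries R) =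
      MvPowerSeries.coeff (Finsupp.single 1 1) F := by
  have hs : MvPowerSeries.HasSubst (![0, PowerSeries.X] : Fin 2 → MvPowerSeries Unit R) :=
    MvPowerSeries.HasSubst.zero_X
  rw [PowerSeries.coeff, MvPowerSeries.coeff_subst hs,
    finsum_eq_single _ (Finsupp.single 1 1)]
  · simp
  · intro d hd
    by_cases hd₁ : d 0 = 0
    · by_cases hd₀ : d 1 = 0
      · simp [hd₀, hd₁]
      simp [hd₁, PowerSeries.coeff_X_pow]
      grind
    simp [hd₁]

/-- The transported formal group law. -/
def law (G : FormalGroup R) {u v : PowerSeries R} (hu : PowerSeries.constantCoeff u = 0)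
    (hv : PowerSeries.constantCoeff v = 0) (huv : comp u v = PowerSeries.X)
    (hvu : comp v u = PowerSeries.X) : FormalGroup R where
  toPowerSeries := ps G u v
  zero_constantCoeff := ps_cc G hu hv
  lin_coeff_X := by
    rw [← coeff_X_zero, subst_ps G hu PowerSeries.HasSubst.X' PowerSeries.HasSubst.zero,
      PowerSeries.subst_zero_of_constantCoeff_zero hu,
      addG_zero G (hs_ps PowerSeries.HasSubst.X' hu), ← psubst_comp hu PowerSeries.HasSubst.X',
      hvu, PowerSeries.subst_X PowerSeries.HasSubst.X']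
    simp
  lin_coeff_Y := by
    rw [← coeff_zero_X, subst_ps G hu PowerSeries.HasSubst.zero PowerSeries.HasSubst.X',
      PowerSeries.subst_zero_of_constantCoeff_zero hu,
      zero_addG G (hs_ps PowerSeries.HasSubst.X' hu), ← psubst_comp hu PowerSeries.HasSubst.X',
      hvu, PowerSeries.subst_X PowerSeries.HasSubst.X']
    simp
  assoc := by
    have h0 : PowerSeries.HasSubst (MvPowerSeries.X 0 : MvPowerSeries (Fin 3) R) :=
      PowerSeries.HasSubst.X 0
    have h1 : PowerSeries.HasSubst (MvPowerSeries.X 1 : MvPowerSeries (Fin 3) R) :=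
      PowerSeries.HasSubst.X 1
    have h2 : PowerSeries.HasSubst (MvPowerSeries.X 2 : MvPowerSeries (Fin 3) R) :=
      PowerSeries.HasSubst.X 2
    rw [subst_ps G hu (hs_subst_ps G hu hv h0 h1) h2,
      subst_ps G hu h0 (hs_subst_ps G hu hv h1 h2), u_subst_ps G hu hv huv h0 h1,
      u_subst_ps G hu hv huv h1 h2, addG_assoc G (hs_ps h0 hu) (hs_ps h1 hu) (hs_ps h2 hu)]

end CONJ_

open CONJ_ in
theorem p_CONJ : T_CONJ := by
  intro R _ G u hu hunit
  have hv : PowerSeries.constantCoeff (u.substInvOfIsUnit hunit) = 0 :=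
    PowerSeries.constantCoeff_substInvOfIsUnit u hunit
  have huv : comp u (u.substInvOfIsUnit hunit) = PowerSeries.X :=
    PowerSeries.subst_substInvOfIsUnit_right u hu hunit
  have hvu : comp (u.substInvOfIsUnit hunit) u = PowerSeries.X :=
    PowerSeries.subst_substInvOfIsUnit_left u hu hunit
  have h0 : PowerSeries.HasSubst (MvPowerSeries.X 0 : MvPowerSeries (Fin 2) R) :=
    PowerSeries.HasSubst.X 0
  have h1 : PowerSeries.HasSubst (MvPowerSeries.X 1 : MvPowerSeries (Fin 2) R) :=
    PowerSeries.HasSubst.X 1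
  refine ⟨law G hu hv huv hvu, ⟨hu, ?_⟩, ?_⟩
  · have k := addG_hs G (hs_ps h0 hu) (hs_ps h1 hu)
    change PowerSeries.subst (ps G u (u.substInvOfIsUnit hunit)) u = _
    unfold ps
    rw [← psubst_comp hv k, huv, PowerSeries.subst_X k]
  · intro hc
    refine ⟨?_⟩
    change ps G u (u.substInvOfIsUnit hunit) =
      MvPowerSeries.subst ![MvPowerSeries.X 1, MvPowerSeries.X 0]
        (ps G u (u.substInvOfIsUnit hunit))
    rw [subst_ps G hu h1 h0, addG_comm G (hs_ps h1 hu) (hs_ps h0 hu)]
    rfl

end Pool.Agent.CVH
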