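import Pool.Agent.CVH.Targets2

set_option autoImplicit false

/-!
# CVH: target FIX
-/

noncomputable section

namespace Pool.Agent.CVH

theorem p_FIX : T_FIX := by
  intro p hpf n k _ hk G hG e
  have hp : p ≠ 0 := hpf.out.ne_zero
  have hq : p ^ n ≠ 0 := pow_ne_zero n hp
  have : ExpChar k p := ExpChar.prime hpf.out
  have hsub : ∀ {τ : Type} (a : MvPowerSeries τ k), MvPowerSeries.constantCoeff a = 0 →
      PowerSeries.subst a (PowerSeries.X ^ (p ^ n) : PowerSeries k) = a ^ (p ^ n) := by
    intro τ a ha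
    rw [PowerSeries.subst_pow (hs_of_zero ha), PowerSeries.subst_X (hs_of_zero ha)]
  have h := hG.map_add
  rw [hsub _ G.zero_constantCoeff, hsub _ (by simp), hsub _ (by simp)] at h
  have hexp : addG G ((MvPowerSeries.X 0 : MvPowerSeries (Fin 2) k) ^ (p ^ n))
      ((MvPowerSeries.X 1 : MvPowerSeries (Fin 2) k) ^ (p ^ n)) =
      MvPowerSeries.expand (p ^ n) hq G.toPowerSeries := by
    unfold addG MvPowerSeries.expand
    rw [MvPowerSeries.substAlgHom_apply]
    congr 1
    funext i
    fin_cases i <;> rfl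
  rw [hexp, ← MvPowerSeries.map_iterateFrobenius_expand p hp G.toPowerSeries n] at h
  have h1 := congrArg (MvPowerSeries.coeff ((p ^ n) • e)) h
  rw [MvPowerSeries.coeff_map, MvPowerSeries.coeff_expand_smul] at h1
  rwa [iterateFrobenius_def] at h1

end Pool.Agent.CVH
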