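import Pool.Agent.CVH.Targets2

set_option autoImplicit false

/-!
# CVH: proof of FROB
-/

noncomputable section

namespace Pool.Agent.CVH

namespace FROB_

section gen

variable {R : Type} [CommRing R] {τ : Type}

theorem coeff_pow_mul {a : MvPowerSeries τ R} (ha : MvPowerSeries.constantCoeff a = 0)
    (h : MvPowerSeries τ R) {N : ℕ} {e : τ →₀ ℕ} (hN : e.degree < N) :
    MvPowerSeries.coeff e (a ^ N * h) = 0 := by
  apply MvPowerSeries.coeff_of_lt_order
  have h1 : (1 : ℕ∞) ≤ a.order := MvPowerSeries.one_le_order_iff_constCoeff_eq_zero.mpr ha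
  have h2 : (N : ℕ∞) ≤ (a ^ N).order := by
    calc (N : ℕ∞) = N • (1 : ℕ∞) := by simp
      _ ≤ N • a.order := nsmul_le_nsmul_right h1 N
      _ ≤ (a ^ N).order := MvPowerSeries.le_order_pow N
  have h3 : (N : ℕ∞) ≤ (a ^ N * h).order :=
    h2.trans ((le_self_add).trans MvPowerSeries.le_order_mul)
  exact lt_of_lt_of_le (by exact_mod_cast hN) h3

/-- Chain rule. -/
theorem pderiv_psubst (i : τ) {a : MvPowerSeries τ R} (ha : MvPowerSeries.constantCoeff a = 0)
    (f : PowerSeries R) :
    MvPowerSeries.pderiv R i (PowerSeries.subst a f) =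
      PowerSeries.subst a (PowerSeries.derivative R f) * MvPowerSeries.pderiv R i a := by
  have hs := hs_of_zero ha
  ext e
  set N := e.degree + 2 with hN
  have hf := PowerSeries.eq_X_pow_mul_shift_add_trunc N f
  set f2 : PowerSeries R := PowerSeries.mk fun i => PowerSeries.coeff (i + N) f with hf2
  set q : Polynomial R := PowerSeries.trunc N f with hq
  have e1 : MvPowerSeries.pderiv R i (PowerSeries.subst a (q : PowerSeries R)) =
      PowerSeries.subst a (PowerSeries.derivative R (q : PowerSeries R)) *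
        MvPowerSeries.pderiv R i a := by
    rw [PowerSeries.subst_coe hs, PowerSeries.derivative_coe, PowerSeries.subst_coe hs,
      Derivation.comp_aeval_eq (a := a) (MvPowerSeries.pderiv R i) q, smul_eq_mul]
  rw [hf]
  rw [map_add, PowerSeries.subst_add hs, PowerSeries.subst_add hs, map_add, add_mul, e1, map_add,
    map_add]
  congr 1
  rw [PowerSeries.subst_mul hs, PowerSeries.subst_pow hs, PowerSeries.subst_X hs,
    Derivation.leibniz, Derivation.leibniz, MvPowerSeries.pderiv_pow, PowerSeries.derivative_pow,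
    PowerSeries.subst_add hs]
  simp only [smul_eq_mul]
  rw [PowerSeries.subst_mul hs, PowerSeries.subst_mul hs, PowerSeries.subst_pow hs,
    PowerSeries.subst_X hs, PowerSeries.subst_mul hs, PowerSeries.subst_mul hs,
    PowerSeries.subst_pow hs, PowerSeries.subst_X hs]
  have hN1 : e.degree < N - 1 := by omega
  have e2 : a ^ N = a ^ (N - 1) * a := by
    rw [← pow_succ]; congr 1
  set s2 := PowerSeries.subst a f2
  set s3 := PowerSeries.subst a (PowerSeries.derivative R f2)
  set s4 : MvPowerSeries τ R := PowerSeries.subst a ((N : ℕ) : PowerSeries R)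
  set s5 : MvPowerSeries τ R := PowerSeries.subst a (PowerSeries.derivative R PowerSeries.X)
  rw [e2]
  have l1 : a ^ (N - 1) * a * MvPowerSeries.pderiv R i s2 +
      s2 * (↑N * a ^ (N - 1) * MvPowerSeries.pderiv R i a) =
      a ^ (N - 1) * (a * MvPowerSeries.pderiv R i s2 +
        s2 * (↑N * MvPowerSeries.pderiv R i a)) := by ring
  have l2 : (a ^ (N - 1) * a * s3 + s2 * (s4 * a ^ (N - 1) * s5)) *
      MvPowerSeries.pderiv R i a = a ^ (N - 1) * ((a * s3 + s2 * (s4 * s5)) *
      MvPowerSeries.pderiv R i a) := by ring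
  rw [l1, l2, coeff_pow_mul ha _ hN1, coeff_pow_mul ha _ hN1]

/-- Divisibility by a square of a variable kills the coefficients with exponent one. -/
theorem coeff_X_sq_mul (i : τ) (h : MvPowerSeries τ R) {e : τ →₀ ℕ} (he : e i < 2) :
    MvPowerSeries.coeff e (MvPowerSeries.X i ^ 2 * h) = 0 := by
  classical
  rw [MvPowerSeries.X_pow_eq, MvPowerSeries.coeff_monomial_mul, if_neg]
  intro h1
  have := h1 i
  simp at this
  omega

end gen

section hom

variable {R : Type} [CommRing R]

/-- The composite with the embedding of the first variable. -/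
theorem coeff_sub_fst (f : PowerSeries R) (d : Fin 2 →₀ ℕ) (hd : d 1 ≠ 0) :
    MvPowerSeries.coeff d
      (PowerSeries.subst (MvPowerSeries.X 0 : MvPowerSeries (Fin 2) R) f) = 0 := by
  classical
  rw [PowerSeries.coeff_subst (PowerSeries.HasSubst.X 0)]
  apply finsum_eq_zero_of_forall_eq_zero
  intro k
  rw [MvPowerSeries.coeff_X_pow, if_neg, smul_zero]
  intro h
  apply hd
  rw [h]
  simp

/-- The terms of `G(f(X), f(Y))` which are linear in `Y`. -/
theorem rhs_coeff (G : FormalGroup R) {f : PowerSeries R}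
    (hf : PowerSeries.constantCoeff f = 0) (hf1 : PowerSeries.coeff 1 f = 0) (n : ℕ) :
    MvPowerSeries.coeff (Finsupp.single 0 n + Finsupp.single 1 1) (addG G
      (PowerSeries.subst (MvPowerSeries.X 0 : MvPowerSeries (Fin 2) R) f)
      (PowerSeries.subst (MvPowerSeries.X 1 : MvPowerSeries (Fin 2) R) f)) = 0 := by
  have h0 : PowerSeries.HasSubst (MvPowerSeries.X 0 : MvPowerSeries (Fin 2) R) :=
    PowerSeries.HasSubst.X 0
  have h1 : PowerSeries.HasSubst (MvPowerSeries.X 1 : MvPowerSeries (Fin 2) R) :=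
    PowerSeries.HasSubst.X 1
  unfold addG
  rw [MvPowerSeries.coeff_subst (hs2 (hs_of_zero (cc_psubst (by simp) hf))
    (hs_of_zero (cc_psubst (by simp) hf)))]
  apply finsum_eq_zero_of_forall_eq_zero
  intro d
  rw [Finsupp.prod_fintype _ _ (fun i => pow_zero _), Fin.prod_univ_two]
  change _ • MvPowerSeries.coeff _ (PowerSeries.subst (MvPowerSeries.X 0) f ^ d 0 *
    PowerSeries.subst (MvPowerSeries.X 1) f ^ d 1) = 0
  rcases Nat.eq_zero_or_pos (d 1) with h2 | h2
  · rw [h2, pow_zero, mul_one, ← PowerSeries.subst_pow h0, coeff_sub_fst, smul_zero]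
    simp
  · have h3 : PowerSeries.X ^ 2 ∣ f := by
      rw [PowerSeries.X_pow_dvd_iff]
      intro m hm
      interval_cases m
      · rw [PowerSeries.coeff_zero_eq_constantCoeff_apply, hf]
      · exact hf1
    obtain ⟨g, hg⟩ := h3
    obtain ⟨k, hk⟩ : ∃ k, d 1 = k + 1 := ⟨d 1 - 1, by omega⟩
    have h4 : PowerSeries.subst (MvPowerSeries.X 1 : MvPowerSeries (Fin 2) R) f =
        MvPowerSeries.X 1 ^ 2 *
          PowerSeries.subst (MvPowerSeries.X 1 : MvPowerSeries (Fin 2) R) g := by
      rw [hg, PowerSeries.subst_mul h1, PowerSeries.subst_pow h1, PowerSeries.subst_X h1]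
    have h5 : PowerSeries.subst (MvPowerSeries.X 0 : MvPowerSeries (Fin 2) R) f ^ d 0 *
        PowerSeries.subst (MvPowerSeries.X 1 : MvPowerSeries (Fin 2) R) f ^ d 1 =
        MvPowerSeries.X 1 ^ 2 *
          (PowerSeries.subst (MvPowerSeries.X 0 : MvPowerSeries (Fin 2) R) f ^ d 0 *
          (PowerSeries.subst (MvPowerSeries.X 1 : MvPowerSeries (Fin 2) R) g *
          PowerSeries.subst (MvPowerSeries.X 1 : MvPowerSeries (Fin 2) R) f ^ k)) := by
      rw [hk, pow_succ, show PowerSeries.subst (MvPowerSeries.X 1 : MvPowerSeries (Fin 2) R) f ^ k *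
        PowerSeries.subst (MvPowerSeries.X 1 : MvPowerSeries (Fin 2) R) f =
        PowerSeries.subst (MvPowerSeries.X 1 : MvPowerSeries (Fin 2) R) f ^ k *
        (MvPowerSeries.X 1 ^ 2 * PowerSeries.subst (MvPowerSeries.X 1 : MvPowerSeries (Fin 2) R) g)
        from by rw [← h4]]
      ring
    rw [h5, coeff_X_sq_mul, smul_zero]
    simp

/-- Setting the second variable to zero. -/
theorem coeff_set_zero (g : MvPowerSeries (Fin 2) R) (n : ℕ) :
    PowerSeries.coeff n (MvPowerSeries.subst ![(PowerSeries.X : PowerSeries R), 0] g) =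
      MvPowerSeries.coeff (Finsupp.single 0 n) g := by
  classical
  have hs : MvPowerSeries.HasSubst ![(PowerSeries.X : PowerSeries R), 0] :=
    hs2 PowerSeries.HasSubst.X' PowerSeries.HasSubst.zero
  have h := MvPowerSeries.coeff_subst hs g (Finsupp.single () n)
  refine h.trans ?_
  rw [finsum_eq_single _ (Finsupp.single 0 n)]
  · rw [Finsupp.prod_fintype _ _ (fun i => pow_zero _), Fin.prod_univ_two]
    simp only [Finsupp.single_eq_same, Matrix.cons_val_zero, Matrix.cons_val_one]
    rw [Finsupp.single_eq_of_ne (by decide), pow_zero, mul_one]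
    change _ • PowerSeries.coeff n (PowerSeries.X ^ n) = _
    rw [PowerSeries.coeff_X_pow_self, smul_eq_mul, mul_one]
  · intro d hd
    rw [Finsupp.prod_fintype _ _ (fun i => pow_zero _), Fin.prod_univ_two]
    change _ • PowerSeries.coeff n (PowerSeries.X ^ d 0 * (0 : PowerSeries R) ^ d 1) = _
    rcases Nat.eq_zero_or_pos (d 1) with h2 | h2
    · rw [h2, pow_zero, mul_one, PowerSeries.coeff_X_pow, if_neg, smul_zero]
      intro h3
      apply hd
      ext i
      fin_cases i
      · simp [h3]
      · simp [h2]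
    · rw [zero_pow (by omega), mul_zero, map_zero, smul_zero]

/-- The derivative vanishes. -/
theorem deriv_zero {F G : FormalGroup R} {f : PowerSeries R} (hf : IsHom F G f)
    (hf1 : PowerSeries.coeff 1 f = 0) : PowerSeries.derivative R f = 0 := by
  have hF := F.zero_constantCoeff
  have hs : MvPowerSeries.HasSubst ![(PowerSeries.X : PowerSeries R), 0] :=
    hs2 PowerSeries.HasSubst.X' PowerSeries.HasSubst.zero
  set D := MvPowerSeries.pderiv R 1 (PowerSeries.subst F.toPowerSeries f) with hD
  have e1 : MvPowerSeries.subst ![(PowerSeries.X : PowerSeries R), 0] D = 0 := by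
    apply PowerSeries.ext
    intro n
    rw [coeff_set_zero, hD, MvPowerSeries.coeff_pderiv, hf.map_add, rhs_coeff G hf.zero hf1,
      zero_mul, map_zero]
  have e2 := pderiv_psubst 1 hF f
  rw [← hD] at e2
  rw [e2, MvPowerSeries.subst_mul hs, mvsubst_psubst _ (hs_of_zero hF) hs] at e1
  have e3 : MvPowerSeries.subst ![(PowerSeries.X : PowerSeries R), 0] F.toPowerSeries =
      (PowerSeries.X : PowerSeries R) := F.add_zero PowerSeries.HasSubst.X'
  rw [e3] at e1
  have e4 : PowerSeries.subst (PowerSeries.X : PowerSeries R) (PowerSeries.derivative R f) =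
      PowerSeries.derivative R f := PowerSeries.X_subst _
  rw [e4] at e1
  have e5 : IsUnit (MvPowerSeries.subst ![(PowerSeries.X : PowerSeries R), 0]
      (MvPowerSeries.pderiv R 1 F.toPowerSeries) : PowerSeries R) := by
    rw [PowerSeries.isUnit_iff_constantCoeff, ← PowerSeries.coeff_zero_eq_constantCoeff_apply,
      coeff_set_zero, MvPowerSeries.coeff_pderiv]
    have := F.lin_coeff_Y
    simp only [Finsupp.single_zero, zero_add]
    rw [this]
    simp
  exact (e5.mul_left_eq_zero).mp e1

end hom

end FROB_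

open FROB_ in
theorem p_FROB : T_FROB := by
  intro R _ p _ _ F G f hf hf1
  have hp : p.Prime := Fact.out
  have hp0 : p ≠ 0 := hp.ne_zero
  have hd := deriv_zero hf hf1
  have hdiv : ∀ m, ¬ p ∣ m → PowerSeries.coeff m f = 0 := by
    intro m hm
    obtain ⟨k, rfl⟩ : ∃ k, m = k + 1 := ⟨m - 1, by
      have : m ≠ 0 := by rintro rfl; exact hm (dvd_zero p)
      omega⟩
    have h1 := congrArg (PowerSeries.coeff k) hd
    rw [PowerSeries.coeff_derivative, map_zero] at h1
    have h2 : IsUnit ((k : R) + 1) := by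
      have := (CharP.isUnit_natCast_iff (R := R) hp).mpr hm
      simpa using this
    exact (h2.mul_left_eq_zero).mp h1
  set f1 : PowerSeries R := PowerSeries.mk fun i => PowerSeries.coeff (p * i) f with hf1d
  have hexp : PowerSeries.expand p hp0 f1 = f := by
    ext m
    rw [PowerSeries.coeff_expand]
    split_ifs with h
    · obtain ⟨k, rfl⟩ := h
      rw [Nat.mul_div_cancel_left _ hp.pos, hf1d, PowerSeries.coeff_mk]
    · exact (hdiv m h).symm
  have hcomp : f = comp f1 (PowerSeries.X ^ p) := by
    unfold comp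
    rw [← PowerSeries.expand_apply p hp0, hexp]
  have hf10 : PowerSeries.constantCoeff f1 = 0 := by
    rw [← PowerSeries.constantCoeff_expand p hp0, hexp, hf.zero]
  refine ⟨f1, ⟨hf10, ?_⟩, hcomp⟩
  have hF := F.zero_constantCoeff
  have hinj : Function.Injective
      (MvPowerSeries.expand p hp0 : MvPowerSeries (Fin 2) R →ₐ[R] MvPowerSeries (Fin 2) R) := by
    intro x y h
    ext m
    rw [← MvPowerSeries.coeff_expand_smul p hp0 x m, h, MvPowerSeries.coeff_expand_smul]
  apply hinj
  have hFs : PowerSeries.HasSubst (F.map (frobenius R p)).toPowerSeries :=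
    hs_of_zero (F.map (frobenius R p)).zero_constantCoeff
  have e1 : MvPowerSeries.expand p hp0 (F.map (frobenius R p)).toPowerSeries =
      F.toPowerSeries ^ p := by
    change MvPowerSeries.expand p hp0 (MvPowerSeries.map (frobenius R p) F.toPowerSeries) = _
    rw [← MvPowerSeries.map_expand, MvPowerSeries.map_frobenius_expand]
  rw [PowerSeries.expand_subst p hp0 hFs, e1]
  have hsF : PowerSeries.HasSubst F.toPowerSeries := hs_of_zero hF
  have key : ∀ a : MvPowerSeries (Fin 2) R, PowerSeries.HasSubst a →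
      PowerSeries.subst (a ^ p) f1 = PowerSeries.subst a f := by
    intro a ha
    rw [hcomp, psubst_comp (by simp [hp0]) ha, PowerSeries.subst_pow ha, PowerSeries.subst_X ha]
  have h0 : PowerSeries.HasSubst (MvPowerSeries.X 0 : MvPowerSeries (Fin 2) R) :=
    PowerSeries.HasSubst.X 0
  have h1 : PowerSeries.HasSubst (MvPowerSeries.X 1 : MvPowerSeries (Fin 2) R) :=
    PowerSeries.HasSubst.X 1
  rw [key _ hsF, hf.map_add]
  have e2 : ∀ a b : MvPowerSeries (Fin 2) R, PowerSeries.HasSubst a → PowerSeries.HasSubst b →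
      MvPowerSeries.expand p hp0 (addG G a b) =
        addG G (MvPowerSeries.expand p hp0 a) (MvPowerSeries.expand p hp0 b) := by
    intro a b ha hb
    unfold addG
    rw [MvPowerSeries.expand_subst p hp0 (hs2 ha hb)]
    congr 1
    funext i
    fin_cases i <;> simp
  rw [e2 _ _ (hs_of_zero (cc_psubst (by simp) hf10)) (hs_of_zero (cc_psubst (by simp) hf10)),
    PowerSeries.expand_subst p hp0 h0, PowerSeries.expand_subst p hp0 h1,
    MvPowerSeries.expand_X, MvPowerSeries.expand_X, key _ h0, key _ h1]

end Pool.Agent.CVH
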