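import Pool.Agent.CVH.Targets2

set_option autoImplicit false

/-!
# CVH: target LAZ
-/

noncomputable section

namespace Pool.Agent.CVH

namespace LAZ_

section gen

variable {R : Type} [CommRing R]

theorem zcX (m : ℕ) (hm : m ≠ 0) :
    PowerSeries.constantCoeff (PowerSeries.X ^ m : PowerSeries R) = 0 := by
  rw [map_pow, PowerSeries.constantCoeff_X, zero_pow hm]

theorem compXpow (m : ℕ) {g : PowerSeries R} (hg : PowerSeries.constantCoeff g = 0) :
    comp (PowerSeries.X ^ m) g = g ^ m := by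
  rw [comp_pow _ hg, X_comp hg]

theorem compXX (a b : ℕ) (hb : b ≠ 0) :
    comp (PowerSeries.X ^ a : PowerSeries R) (PowerSeries.X ^ b) = PowerSeries.X ^ (b * a) := by
  rw [compXpow a (zcX b hb), ← pow_mul]

theorem cancel_left {f g a b : PowerSeries R} (hf : PowerSeries.constantCoeff f = 0)
    (hgf : comp g f = PowerSeries.X) (ha : PowerSeries.constantCoeff a = 0)
    (hb : PowerSeries.constantCoeff b = 0) (h : comp f a = comp f b) : a = b := by
  have e : ∀ x : PowerSeries R, PowerSeries.constantCoeff x = 0 → comp g (comp f x) = x := by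
    intro x hx
    rw [← comp_assoc hf hx, hgf, X_comp hx]
  rw [← e a ha, ← e b hb, h]

end gen

/-- Iterated factorisation through Frobenius. -/
theorem frob_iter (h_FROB : T_FROB) (p : ℕ) [hp : Fact p.Prime] (n : ℕ) (k : Type) [Field k]
    [CharP k p] (Γ : FormalGroup k) [Γ.IsComm]
    (hord : (mulSeries Γ p).order = ((p ^ n : ℕ) : ℕ∞)) : ∀ i, i ≤ n →
    ∃ (F' : FormalGroup k) (h : PowerSeries k), IsHom F' Γ h ∧
      mulSeries Γ p = comp h (PowerSeries.X ^ (p ^ i)) := by
  have hp0 : p ≠ 0 := hp.out.ne_zero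
  intro i
  induction i with
  | zero =>
    intro _
    refine ⟨Γ, mulSeries Γ p, isHom_mulSeries Γ p, ?_⟩
    rw [pow_zero, pow_one, comp_X]
  | succ i ih =>
    intro hi
    obtain ⟨F', h, hh, he⟩ := ih (by omega)
    have hpi : p ^ i ≠ 0 := pow_ne_zero i hp0
    have h1 : PowerSeries.coeff 1 h = 0 := by
      have e1 := coeff_comp_right (f := h) (g := (PowerSeries.X ^ (p ^ i) : PowerSeries k))
        (Q := p ^ i) (Nat.one_le_iff_ne_zero.2 hpi) hh.zero (dvd_refl _)
      rw [← he, PowerSeries.coeff_X_pow_self, mul_one] at e1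
      rw [← e1]
      refine PowerSeries.coeff_of_lt_order _ ?_
      rw [hord]
      exact_mod_cast Nat.pow_lt_pow_right hp.out.one_lt (by omega)
    obtain ⟨f1, hf1, hf1'⟩ := h_FROB k p F' Γ h hh h1
    refine ⟨_, f1, hf1, ?_⟩
    rw [he, hf1', comp_assoc (zcX p hp0) (zcX _ hpi), compXX _ _ hpi, pow_succ]

/-- `X ^ p` is an endomorphism over `ZMod p`. -/
theorem isHom_Xp (p : ℕ) [hp : Fact p.Prime] (H : FormalGroup (ZMod p)) :
    IsHom H H (PowerSeries.X ^ p) where
  zero := zcX p hp.out.ne_zero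
  map_add := by
    have hp0 : p ≠ 0 := hp.out.ne_zero
    have : ExpChar (ZMod p) p := ExpChar.prime hp.out
    have hsub : ∀ {τ : Type} (a : MvPowerSeries τ (ZMod p)),
        MvPowerSeries.constantCoeff a = 0 →
        PowerSeries.subst a (PowerSeries.X ^ p : PowerSeries (ZMod p)) = a ^ p := by
      intro τ a ha
      rw [PowerSeries.subst_pow (hs_of_zero ha), PowerSeries.subst_X (hs_of_zero ha)]
    rw [hsub _ H.zero_constantCoeff, hsub _ (by simp), hsub _ (by simp)]
    have hexp : addG H ((MvPowerSeries.X 0 : MvPowerSeries (Fin 2) (ZMod p)) ^ p)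
        ((MvPowerSeries.X 1 : MvPowerSeries (Fin 2) (ZMod p)) ^ p) =
        MvPowerSeries.expand p hp0 H.toPowerSeries := by
      unfold addG MvPowerSeries.expand
      rw [MvPowerSeries.substAlgHom_apply]
      congr 1
      funext i
      fin_cases i <;> rfl
    rw [hexp]
    have e := MvPowerSeries.map_iterateFrobenius_expand p hp0 H.toPowerSeries 1
    have e1 : iterateFrobenius (ZMod p) p 1 = RingHom.id (ZMod p) := by
      ext x
      rw [iterateFrobenius_one_apply, RingHom.id_apply, ZMod.pow_card]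
    rw [e1] at e
    have e2 : ∀ f : MvPowerSeries (Fin 2) (ZMod p),
        MvPowerSeries.map (RingHom.id (ZMod p)) f = f := by
      intro f
      ext d
      simp
    rw [e2] at e
    simp only [pow_one] at e
    exact e.symm

theorem iter_conj {k : Type} [Field k] {p : ℕ} (hp : p ≠ 0) {w w' : PowerSeries k}
    (hw : PowerSeries.constantCoeff w = 0) (hw' : PowerSeries.constantCoeff w' = 0)
    (h1 : comp w w' = PowerSeries.X) (h2 : comp w' w = PowerSeries.X) (m : ℕ) :
    iter (comp w' (comp (PowerSeries.X ^ p) w)) m =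
      comp w' (comp (PowerSeries.X ^ (p ^ m)) w) := by
  induction m with
  | zero =>
    rw [pow_zero, pow_one, X_comp hw, h2]
    rfl
  | succ m ih =>
    change comp (comp w' (comp (PowerSeries.X ^ p) w))
      (iter (comp w' (comp (PowerSeries.X ^ p) w)) m) = _
    have hpm : p ^ m ≠ 0 := pow_ne_zero m hp
    have hX : PowerSeries.constantCoeff (PowerSeries.X ^ (p ^ m) : PowerSeries k) = 0 :=
      zcX _ hpm
    have hXp : PowerSeries.constantCoeff (PowerSeries.X ^ p : PowerSeries k) = 0 := zcX _ hp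
    have hA : PowerSeries.constantCoeff (comp (PowerSeries.X ^ (p ^ m)) w) = 0 :=
      comp_zero_cc hX hw
    rw [ih, comp_assoc (comp_zero_cc hXp hw) (comp_zero_cc hw' hA),
      comp_assoc hw (comp_zero_cc hw' hA), ← comp_assoc hw' hA, h1, X_comp hA,
      ← comp_assoc hX hw, compXX _ _ hpm, pow_succ]

end LAZ_

open LAZ_ in
theorem p_LAZ (h_FROB : T_FROB) (h_LTG : T_LTG) (h_NORM : T_NORM) (h_CONJ : T_CONJ)
    (h_CMP : T_CMP) : T_LAZ := by
  intro p hp n hn k _ _ _ Γ _ hord
  have hp0 : p ≠ 0 := hp.out.ne_zero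
  have hq0 : p ^ n ≠ 0 := pow_ne_zero n hp0
  obtain ⟨F', h, hh, he⟩ := frob_iter h_FROB p n k Γ hord n le_rfl
  have hh1 : PowerSeries.coeff 1 h ≠ 0 := by
    have e1 := coeff_comp_right (f := h) (g := (PowerSeries.X ^ (p ^ n) : PowerSeries k))
      (Q := p ^ n) (Nat.one_le_iff_ne_zero.2 hq0) hh.zero (dvd_refl _)
    rw [← he, PowerSeries.coeff_X_pow_self, mul_one] at e1
    rw [← e1]
    exact (PowerSeries.order_eq_nat.mp hord).1
  obtain ⟨u, hu0, hu1, hu⟩ := h_NORM p n hn k h hh.zero hh1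
  obtain ⟨G', hG', hcomm⟩ := h_CONJ k Γ u hu0 (isUnit_iff_ne_zero.2 hu1)
  have hGc : G'.IsComm := hcomm inferInstance
  obtain ⟨u', hu'H, huu', hu'u⟩ := exists_inv hG' (isUnit_iff_ne_zero.2 hu1)
  have hmG : mulSeries G' p = PowerSeries.X ^ (p ^ n) := by
    refine cancel_left hu0 hu'u (mulSeries_zero_cc G' p) (zcX _ hq0) ?_
    rw [hG'.comp_mulSeries p, he, hu]
  obtain ⟨H0, hH0c, hH0⟩ := h_LTG p n hn
  let φ : ZMod p →+* k := ZMod.castHom (dvd_refl p) k
  have hH : mulSeries (H0.map φ) p = PowerSeries.X ^ (p ^ n) := by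
    rw [← map_mulSeries φ H0 p, hH0, map_pow, PowerSeries.map_X]
  have hXp : IsHom (H0.map φ) (H0.map φ) (PowerSeries.X ^ p) := by
    have e := (isHom_Xp p H0).map φ
    rwa [map_pow, PowerSeries.map_X] at e
  obtain ⟨v, hv, hv1⟩ := h_CMP p n hn k G' (H0.map φ) hmG hH
  have hw : IsHom Γ (H0.map φ) (comp v u') := hv.comp hu'H
  have hw1 : IsUnit (PowerSeries.coeff 1 (comp v u')) := by
    rw [coeff_one_comp hv.zero hu'H.zero, hv1, one_mul]
    have e := congrArg (PowerSeries.coeff 1) huu'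
    rw [coeff_one_comp hu0 hu'H.zero, PowerSeries.coeff_one_X] at e
    exact IsUnit.of_mul_eq_one_right _ e
  obtain ⟨w', hw'H, hww', hw'w⟩ := exists_inv hw hw1
  refine ⟨comp w' (comp (PowerSeries.X ^ p) (comp v u')), hw'H.comp (hXp.comp hw), ?_⟩
  rw [iter_conj hp0 hw.zero hw'H.zero hww' hw'w n, ← hH, ← hw.comp_mulSeries p,
    ← comp_assoc hw.zero (mulSeries_zero_cc Γ p), hw'w, X_comp (mulSeries_zero_cc Γ p)]

end Pool.Agent.CVH
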