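import Pool.Agent.CVH.Targets2

set_option autoImplicit false

/-!
# CVH: a formal group law over `ZMod p` with `[p](X) = X ^ (p ^ n)` (target LTG)

The logarithm `ℓ` with `ℓ(p X + X ^ q) = p ℓ(X)` over `ℚ_[p]`, transport of the additive group, and
integrality of the coefficients by induction on the degree.
-/

noncomputable section

namespace Pool.Agent.CVH

namespace LTG_

/-! ### The logarithm -/

section log

variable {K : Type} [Field K]

/-- Coefficients of the logarithm (recursion). -/
def lg (w : ℕ → K) (c : ℕ → ℕ → K) : ℕ → K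
  | 0 => 0
  | 1 => 1
  | (m + 2) => (w (m + 2))⁻¹ * ∑ j : Fin (m + 2), lg w c j.1 * c (m + 2) j.1
decreasing_by exact j.2

theorem lg_zero (w : ℕ → K) (c : ℕ → ℕ → K) : lg w c 0 = 0 := by
  unfold lg; rfl

theorem lg_one (w : ℕ → K) (c : ℕ → ℕ → K) : lg w c 1 = 1 := by
  unfold lg; rfl

theorem lg_rec (w : ℕ → K) (c : ℕ → ℕ → K) (m : ℕ) (hm : 2 ≤ m) (hw : w m ≠ 0) :
    w m * lg w c m = ∑ j ∈ Finset.range m, lg w c j * c m j := by
  obtain ⟨m, rfl⟩ : ∃ k, m = k + 2 := ⟨m - 2, by omega⟩
  rw [lg, ← mul_assoc, mul_inv_cancel₀ hw, one_mul, Finset.sum_range]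

theorem coeff_f_pow (a : K) (q : ℕ) (hq : 2 ≤ q) (d m : ℕ) (h : m ≤ d) :
    PowerSeries.coeff m ((PowerSeries.C a * PowerSeries.X + PowerSeries.X ^ q :
      PowerSeries K) ^ d) = if m = d then a ^ d else 0 := by
  have e : (PowerSeries.C a * PowerSeries.X + PowerSeries.X ^ q : PowerSeries K) =
      PowerSeries.X * (PowerSeries.C a + PowerSeries.X ^ (q - 1)) := by
    obtain ⟨r, rfl⟩ : ∃ r, q = r + 1 := ⟨q - 1, by omega⟩
    rw [Nat.add_sub_cancel, pow_succ]
    ring
  rw [e, mul_pow]
  split_ifs with hm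
  · subst hm
    rw [coeff_X_pow_mul_self, map_pow, map_add, PowerSeries.constantCoeff_C, map_pow,
      PowerSeries.constantCoeff_X, zero_pow (by omega), add_zero]
  · exact (PowerSeries.X_pow_dvd_iff.mp (Dvd.intro _ rfl)) m (by omega)

theorem exists_log (a : K) (ha : ∀ m, 2 ≤ m → a - a ^ m ≠ 0) (q : ℕ) (hq : 2 ≤ q) :
    ∃ l : PowerSeries K, PowerSeries.constantCoeff l = 0 ∧ PowerSeries.coeff 1 l = 1 ∧
      comp l (PowerSeries.C a * PowerSeries.X + PowerSeries.X ^ q) = PowerSeries.C a * l := by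
  set f : PowerSeries K := PowerSeries.C a * PowerSeries.X + PowerSeries.X ^ q with hf
  have hf0 : PowerSeries.constantCoeff f = 0 := by
    rw [hf]; simp; omega
  set L := lg (fun m => a - a ^ m) (fun m j => PowerSeries.coeff m (f ^ j)) with hL
  refine ⟨PowerSeries.mk L, ?_, ?_, ?_⟩
  · rw [← PowerSeries.coeff_zero_eq_constantCoeff_apply, PowerSeries.coeff_mk]
    exact lg_zero _ _
  · rw [PowerSeries.coeff_mk]
    exact lg_one _ _
  · ext m
    unfold comp
    rw [PowerSeries.coeff_subst' (hs_of_zero hf0)]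
    have hsub : (Function.support fun d : ℕ => PowerSeries.coeff d (PowerSeries.mk L) •
        PowerSeries.coeff m (f ^ d)) ⊆ (Finset.range (m + 1) : Set ℕ) := by
      intro d hd
      rw [Function.mem_support] at hd
      rw [Finset.coe_range, Set.mem_Iio]
      by_contra hc
      apply hd
      rw [coeff_f_pow a q hq d m (by omega), if_neg (by omega), smul_zero]
    rw [finsum_eq_sum_of_support_subset _ hsub, Finset.sum_range_succ,
      coeff_f_pow a q hq m m le_rfl, if_pos rfl, PowerSeries.coeff_C_mul]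
    simp only [PowerSeries.coeff_mk, smul_eq_mul]
    rcases Nat.lt_or_ge m 2 with hm | hm
    · interval_cases m
      · simp [hL, lg_zero]
      · simp [hL, lg_zero, lg_one]
    · rw [← lg_rec (fun m => a - a ^ m) (fun m j => PowerSeries.coeff m (f ^ j)) m hm (ha m hm)]
      ring

end log

/-! ### Substitution of `a X_i + X_i ^ q` -/

section sub

variable {S : Type} [CommRing S]

/-- The family `a X_i + X_i ^ q`. -/
def sb (a : S) (q : ℕ) (i : Fin 2) : MvPowerSeries (Fin 2) S :=
  MvPowerSeries.C a * MvPowerSeries.X i + MvPowerSeries.X i ^ q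

theorem hs_sb (a : S) (q : ℕ) (hq : 2 ≤ q) : MvPowerSeries.HasSubst (sb a q) :=
  MvPowerSeries.hasSubst_of_constantCoeff_zero (by
    intro i
    unfold sb
    rw [map_add, map_mul, MvPowerSeries.constantCoeff_X, mul_zero, map_pow,
      MvPowerSeries.constantCoeff_X, zero_pow (by omega), add_zero])

theorem prod_sb (a : S) (q : ℕ) (hq : 2 ≤ q) (d : Fin 2 →₀ ℕ) :
    (d.prod fun i k => sb a q i ^ k) = MvPowerSeries.monomial d (1 : S) *
      d.prod fun i k => (MvPowerSeries.C a + MvPowerSeries.X i ^ (q - 1)) ^ k := by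
  rw [MvPowerSeries.monomial_one_eq, ← Finsupp.prod_mul]
  refine Finsupp.prod_congr fun i _ => ?_
  rw [← mul_pow]
  congr 1
  unfold sb
  obtain ⟨r, rfl⟩ : ∃ r, q = r + 1 := ⟨q - 1, by omega⟩
  rw [Nat.add_sub_cancel, pow_succ]
  ring

theorem coeff_prod_sb (a : S) (q : ℕ) (hq : 2 ≤ q) (d e : Fin 2 →₀ ℕ)
    (h : Finsupp.degree e ≤ Finsupp.degree d) :
    MvPowerSeries.coeff e (d.prod fun i k => sb a q i ^ k) =
      if d = e then a ^ Finsupp.degree e else 0 := by
  rw [prod_sb a q hq, MvPowerSeries.coeff_monomial_mul]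
  by_cases hde : d ≤ e
  · have h2 : d = e := by
      obtain ⟨c, rfl⟩ := exists_add_of_le hde
      rw [map_add] at h
      have : Finsupp.degree c = 0 := by omega
      rw [Finsupp.degree_eq_zero_iff] at this
      rw [this, add_zero]
    subst h2
    rw [if_pos le_rfl, if_pos rfl, one_mul, tsub_self,
      MvPowerSeries.coeff_zero_eq_constantCoeff_apply, map_finsuppProd]
    have e1 : ∀ i : Fin 2, ∀ k : ℕ, MvPowerSeries.constantCoeff
        ((MvPowerSeries.C a + MvPowerSeries.X i ^ (q - 1) : MvPowerSeries (Fin 2) S) ^ k) =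
        a ^ k := by
      intro i k
      rw [map_pow, map_add, MvPowerSeries.constantCoeff_C, map_pow, MvPowerSeries.constantCoeff_X,
        zero_pow (by omega), add_zero]
    simp only [e1]
    rw [Finsupp.prod, Finset.prod_pow_eq_pow_sum]
    rfl
  · rw [if_neg hde, if_neg (fun h => hde h.le)]

/-- Only the coefficient of `ρ` itself is seen in the lowest degree. -/
theorem coeff_subst_sb (a : S) (q : ℕ) (hq : 2 ≤ q) (ρ : MvPowerSeries (Fin 2) S)
    (e : Fin 2 →₀ ℕ) (hρ : ∀ d, Finsupp.degree d < Finsupp.degree e →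
      MvPowerSeries.coeff d ρ = 0) :
    MvPowerSeries.coeff e (MvPowerSeries.subst (sb a q) ρ) =
      a ^ Finsupp.degree e * MvPowerSeries.coeff e ρ := by
  rw [MvPowerSeries.coeff_subst (hs_sb a q hq), finsum_eq_single _ e]
  · rw [coeff_prod_sb a q hq e e le_rfl, if_pos rfl, smul_eq_mul, mul_comm]
  · intro d hd
    rcases Nat.lt_or_ge (Finsupp.degree d) (Finsupp.degree e) with h | h
    · rw [hρ d h, zero_smul]
    · rw [coeff_prod_sb a q hq d e h, if_neg hd, smul_zero]

/-- The power only sees lower degrees. -/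
theorem coeff_pow_add (q : ℕ) (hq : 2 ≤ q) (x ρ : MvPowerSeries (Fin 2) S)
    (hx : MvPowerSeries.constantCoeff x = 0) (hρ0 : MvPowerSeries.constantCoeff ρ = 0)
    (e : Fin 2 →₀ ℕ) (hρ : ∀ d, Finsupp.degree d < Finsupp.degree e →
      MvPowerSeries.coeff d ρ = 0) :
    MvPowerSeries.coeff e ((x + ρ) ^ q) = MvPowerSeries.coeff e (x ^ q) := by
  have key := Commute.geom_sum₂_mul (Commute.all (x + ρ) x) q
  have e1 : x + ρ - x = ρ := by ring
  rw [e1] at key
  set T := ∑ i ∈ Finset.range q, (x + ρ) ^ i * x ^ (q - 1 - i) with hT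
  have hT0 : MvPowerSeries.constantCoeff T = 0 := by
    rw [hT, map_sum]
    refine Finset.sum_eq_zero fun i hi => ?_
    rw [map_mul, map_pow, map_pow, map_add, hx, hρ0, add_zero]
    rcases Nat.eq_zero_or_pos i with h | h
    · subst h
      rw [zero_pow (show q - 1 - 0 ≠ 0 by omega), mul_zero]
    · rw [zero_pow (show i ≠ 0 by omega), zero_mul]
  have h2 : MvPowerSeries.coeff e (T * ρ) = 0 := by
    rw [MvPowerSeries.coeff_mul]
    refine Finset.sum_eq_zero fun ab hab => ?_
    have hab : ab.1 + ab.2 = e := Finset.HasAntidiagonal.mem_antidiagonal.mp hab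
    by_cases h : ab.1 = 0
    · rw [h, MvPowerSeries.coeff_zero_eq_constantCoeff_apply, hT0, zero_mul]
    · have h3 : Finsupp.degree ab.2 < Finsupp.degree e := by
        rw [← hab, map_add]
        have : Finsupp.degree ab.1 ≠ 0 := fun h4 => h ((Finsupp.degree_eq_zero_iff _).mp h4)
        omega
      rw [hρ _ h3, mul_zero]
  rw [key, map_sub] at h2
  exact sub_eq_zero.mp h2

end sub

/-! ### Integrality -/

section int

variable (p : ℕ) [Fact p.Prime]

/-- The inclusion. -/
abbrev io : ℤ_[p] →+* ℚ_[p] := PadicInt.Coe.ringHom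

theorem io_inj : Function.Injective (io p) := Subtype.coe_injective

theorem map_inj {τ : Type} : Function.Injective
    (MvPowerSeries.map (io p) : MvPowerSeries τ ℤ_[p] →+* MvPowerSeries τ ℚ_[p]) := by
  intro a b h
  ext e
  have := congrArg (MvPowerSeries.coeff e) h
  rw [MvPowerSeries.coeff_map, MvPowerSeries.coeff_map] at this
  exact io_inj p this

theorem map_sb {S T : Type} [CommRing S] [CommRing T] (φ : S →+* T) (a : S) (q : ℕ) (i : Fin 2) :
    MvPowerSeries.map φ (sb a q i) = sb (φ a) q i := by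
  unfold sb
  rw [map_add, map_mul, map_pow, MvPowerSeries.map_X, MvPowerSeries.map_C]

theorem map_subst_sb {S T : Type} [CommRing S] [CommRing T] (φ : S →+* T) (a : S) (q : ℕ)
    (hq : 2 ≤ q) (ψ : MvPowerSeries (Fin 2) S) :
    MvPowerSeries.map φ (MvPowerSeries.subst (sb a q) ψ) =
      MvPowerSeries.subst (sb (φ a) q) (MvPowerSeries.map φ ψ) := by
  rw [MvPowerSeries.map_subst (hs_sb a q hq)]
  congr 1
  funext i
  exact map_sb φ a q i

theorem frob_zmod (n : ℕ) (ψ : MvPowerSeries (Fin 2) (ZMod p)) :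
    MvPowerSeries.subst (sb (0 : ZMod p) (p ^ n)) ψ = ψ ^ p ^ n := by
  have hp0 : p ≠ 0 := (Fact.out : p.Prime).ne_zero
  have e : iterateFrobenius (ZMod p) p n = RingHom.id _ := by
    rw [iterateFrobenius_eq_pow, ZMod.frobenius_zmod]
    exact one_pow n
  have h := MvPowerSeries.map_iterateFrobenius_expand (R := ZMod p) (σ := Fin 2) p hp0 ψ n
  rw [e, MvPowerSeries.map_id, RingHom.id_apply] at h
  rw [← h]
  change _ = MvPowerSeries.substAlgHom _ ψ
  rw [MvPowerSeries.substAlgHom_apply]
  congr 1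
  funext i
  unfold sb
  rw [map_zero, zero_mul, zero_add]

theorem dvd_coeff (n : ℕ) (hq : 2 ≤ p ^ n) (ψ : MvPowerSeries (Fin 2) ℤ_[p]) (e : Fin 2 →₀ ℕ) :
    ∃ z : ℤ_[p], MvPowerSeries.coeff e (MvPowerSeries.subst (sb (p : ℤ_[p]) (p ^ n)) ψ) -
      MvPowerSeries.coeff e (ψ ^ p ^ n) = p * z := by
  have h : PadicInt.toZMod (MvPowerSeries.coeff e
      (MvPowerSeries.subst (sb (p : ℤ_[p]) (p ^ n)) ψ) -
      MvPowerSeries.coeff e (ψ ^ p ^ n)) = 0 := by
    rw [map_sub, ← MvPowerSeries.coeff_map, ← MvPowerSeries.coeff_map, map_subst_sb _ _ _ hq,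
      map_natCast, ZMod.natCast_self, frob_zmod,
      map_pow (MvPowerSeries.map (PadicInt.toZMod (p := p))) ψ (p ^ n), sub_self]
  rw [← RingHom.mem_ker, PadicInt.ker_toZMod, PadicInt.maximalIdeal_eq_span_p,
    Ideal.mem_span_singleton] at h
  exact h

theorem norm_one_sub (m : ℕ) (hm : 1 ≤ m) : ‖(1 : ℤ_[p]) - (p : ℤ_[p]) ^ m‖ = 1 := by
  rw [← PadicInt.isUnit_iff]
  by_contra h
  have h2 : (1 : ℤ_[p]) - (p : ℤ_[p]) ^ m ∈ IsLocalRing.maximalIdeal ℤ_[p] :=
    (IsLocalRing.mem_maximalIdeal _).mpr h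
  have h3 : (p : ℤ_[p]) ^ m ∈ IsLocalRing.maximalIdeal ℤ_[p] := by
    rw [PadicInt.maximalIdeal_eq_span_p]
    exact Ideal.mem_span_singleton.mpr (dvd_pow_self _ (by omega))
  have h4 := Ideal.add_mem _ h2 h3
  rw [sub_add_cancel] at h4
  exact (Ideal.ne_top_iff_one _).mp (IsLocalRing.maximalIdeal.isMaximal _).ne_top h4

theorem integral (n : ℕ) (hq : 2 ≤ p ^ n) (φ : MvPowerSeries (Fin 2) ℚ_[p])
    (h0 : MvPowerSeries.constantCoeff φ = 0)
    (h1 : ∀ e, Finsupp.degree e = 1 → ‖MvPowerSeries.coeff e φ‖ ≤ 1)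
    (hφ : MvPowerSeries.C (p : ℚ_[p]) * φ + φ ^ p ^ n =
      MvPowerSeries.subst (sb (p : ℚ_[p]) (p ^ n)) φ) (d : ℕ) :
    ∀ e, Finsupp.degree e = d → ‖MvPowerSeries.coeff e φ‖ ≤ 1 := by
  induction d using Nat.strong_induction_on with
  | _ d ih =>
    intro e he
    rcases Nat.lt_or_ge d 2 with hd | hd
    · interval_cases d
      · rw [Finsupp.degree_eq_zero_iff] at he
        rw [he, MvPowerSeries.coeff_zero_eq_constantCoeff_apply, h0, norm_zero]
        exact zero_le_one
      · exact h1 e he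
    · have ih' : ∀ e' : Fin 2 →₀ ℕ, Finsupp.degree e' < d → ‖MvPowerSeries.coeff e' φ‖ ≤ 1 :=
        fun e' h => ih _ h e' rfl
      let ψ : MvPowerSeries (Fin 2) ℤ_[p] := fun e' =>
        if h : Finsupp.degree e' < d then ⟨MvPowerSeries.coeff e' φ, ih' e' h⟩ else 0
      have hψ1 : ∀ e', Finsupp.degree e' < d → io p (MvPowerSeries.coeff e' ψ) =
          MvPowerSeries.coeff e' φ := by
        intro e' h
        have : MvPowerSeries.coeff e' ψ = ⟨MvPowerSeries.coeff e' φ, ih' e' h⟩ := dif_pos h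
        rw [this]
        rfl
      have hψ2 : ∀ e', ¬ Finsupp.degree e' < d → MvPowerSeries.coeff e' ψ = 0 :=
        fun e' h => dif_neg h
      set x := MvPowerSeries.map (io p) ψ with hx
      set ρ := φ - x with hρ
      have hφx : φ = x + ρ := by rw [hρ]; ring
      have hρd : ∀ d', Finsupp.degree d' < Finsupp.degree e → MvPowerSeries.coeff d' ρ = 0 := by
        intro d' h
        rw [he] at h
        rw [hρ, map_sub, hx, MvPowerSeries.coeff_map, hψ1 d' h, sub_self]
      have hρe : MvPowerSeries.coeff e ρ = MvPowerSeries.coeff e φ := by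
        rw [hρ, map_sub, hx, MvPowerSeries.coeff_map, hψ2 e (by omega), map_zero, sub_zero]
      have hρ0 : MvPowerSeries.constantCoeff ρ = 0 := by
        rw [← MvPowerSeries.coeff_zero_eq_constantCoeff_apply]
        exact hρd 0 (by rw [he, map_zero]; omega)
      have hx0 : MvPowerSeries.constantCoeff x = 0 := by
        have := congrArg MvPowerSeries.constantCoeff hφx
        rw [map_add, h0, hρ0, add_zero] at this
        exact this.symm
      have e1 := congrArg (MvPowerSeries.coeff e) hφ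
      rw [map_add, MvPowerSeries.coeff_C_mul] at e1
      have e2 : MvPowerSeries.coeff e (φ ^ p ^ n) = MvPowerSeries.coeff e (x ^ p ^ n) := by
        conv_lhs => rw [hφx]
        exact coeff_pow_add (p ^ n) hq x ρ hx0 hρ0 e hρd
      have e3 : MvPowerSeries.coeff e (MvPowerSeries.subst (sb (p : ℚ_[p]) (p ^ n)) φ) =
          MvPowerSeries.coeff e (MvPowerSeries.subst (sb (p : ℚ_[p]) (p ^ n)) x) +
            (p : ℚ_[p]) ^ d * MvPowerSeries.coeff e φ := by
        conv_lhs => rw [hφx]
        rw [MvPowerSeries.subst_add (hs_sb _ _ hq), map_add, coeff_subst_sb _ _ hq ρ e hρd, hρe,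
          he]
      obtain ⟨z, hz⟩ := dvd_coeff p n hq ψ e
      have e4 : MvPowerSeries.coeff e (MvPowerSeries.subst (sb (p : ℚ_[p]) (p ^ n)) x) -
          MvPowerSeries.coeff e (x ^ p ^ n) = (p : ℚ_[p]) * io p z := by
        have h5 := congrArg (io p) hz
        rw [map_sub, ← MvPowerSeries.coeff_map, ← MvPowerSeries.coeff_map, map_subst_sb _ _ _ hq,
          map_natCast, map_pow, map_mul, map_natCast] at h5
        exact h5
      have hp0 : (p : ℚ_[p]) ≠ 0 := by
        exact_mod_cast (Fact.out : p.Prime).ne_zero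
      have e5 : ((1 : ℚ_[p]) - (p : ℚ_[p]) ^ (d - 1)) * MvPowerSeries.coeff e φ = io p z := by
        apply mul_left_cancel₀ hp0
        rw [← e4]
        obtain ⟨r, rfl⟩ : ∃ r, d = r + 1 := ⟨d - 1, by omega⟩
        rw [Nat.add_sub_cancel]
        rw [e2, e3] at e1
        rw [pow_succ] at e1
        linear_combination e1
      have e6 : ‖(1 : ℚ_[p]) - (p : ℚ_[p]) ^ (d - 1)‖ = 1 := by
        have := norm_one_sub p (d - 1) (by omega)
        rw [← this]
        rw [PadicInt.norm_def]
        push_cast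
        rfl
      have e7 := congrArg norm e5
      rw [norm_mul, e6, one_mul] at e7
      rw [e7]
      exact z.2

end int

/-! ### The formal group law -/

theorem mulSeries_Ga {S : Type} [CommRing S] (m : ℕ) :
    mulSeries (FormalGroup.𝔾ₐ : FormalGroup S) m =
      PowerSeries.C (m : S) * PowerSeries.X := by
  induction m with
  | zero => simp [mulSeries]
  | succ m ih =>
    change addG FormalGroup.𝔾ₐ (mulSeries FormalGroup.𝔾ₐ m) PowerSeries.X = _
    rw [ih]
    have hs := hs2 (a := (PowerSeries.C (m : S) * PowerSeries.X : PowerSeries S))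
      (b := (PowerSeries.X : PowerSeries S)) (hs_of_zero (by
        change PowerSeries.constantCoeff _ = 0
        simp)) PowerSeries.HasSubst.X'
    unfold addG
    rw [FormalGroup.𝔾ₐ_toPowerSeries, MvPowerSeries.subst_add hs, MvPowerSeries.subst_X hs,
      MvPowerSeries.subst_X hs]
    change PowerSeries.C (m : S) * PowerSeries.X + PowerSeries.X = _
    push_cast
    rw [map_add, map_one]
    ring

end LTG_

open LTG_ in
theorem p_LTG (h_CONJ : T_CONJ) : T_LTG := by
  intro p _ n hn
  have hp : p.Prime := Fact.out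
  have hq : 2 ≤ p ^ n := le_trans hp.two_le (Nat.le_self_pow (by omega) p)
  have hq0 : p ^ n ≠ 0 := by omega
  -- the logarithm
  obtain ⟨l, hl0, hl1, hlf⟩ := exists_log (p : ℚ_[p]) (by
    intro m hm h
    have h1 : ((p : ℕ) : ℚ_[p]) = ((p ^ m : ℕ) : ℚ_[p]) := by
      push_cast
      exact sub_eq_zero.mp h
    have h2 : p = p ^ m := by exact_mod_cast h1
    have h3 : p ^ 1 < p ^ m := Nat.pow_lt_pow_right hp.one_lt (by omega)
    rw [pow_one] at h3
    omega) (p ^ n) hq
  set f : PowerSeries ℚ_[p] := PowerSeries.C (p : ℚ_[p]) * PowerSeries.X +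
    PowerSeries.X ^ (p ^ n) with hf
  have hf0 : PowerSeries.constantCoeff f = 0 := by
    rw [hf, map_add, map_mul, PowerSeries.constantCoeff_X, mul_zero, map_pow,
      PowerSeries.constantCoeff_X, zero_pow hq0, add_zero]
  obtain ⟨G, hG, hGc⟩ := h_CONJ ℚ_[p] FormalGroup.𝔾ₐ l hl0 (by rw [hl1]; exact isUnit_one)
  have : G.IsComm := hGc inferInstance
  -- `[p] = f`
  have hmul : mulSeries G p = f := by
    obtain ⟨g, hg, -, hgl⟩ := exists_inv hG (by rw [hl1]; exact isUnit_one)
    have e1 := hG.comp_mulSeries p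
    have e2 : comp (mulSeries (FormalGroup.𝔾ₐ : FormalGroup ℚ_[p]) p) l = comp l f := by
      rw [mulSeries_Ga, hlf, comp_C_mul _ _ hl0, X_comp hl0]
    rw [e2] at e1
    have e3 := congrArg (comp g) e1
    rw [← comp_assoc hl0 (mulSeries_zero_cc G p), ← comp_assoc hl0 hf0, hgl,
      X_comp (mulSeries_zero_cc G p), X_comp hf0] at e3
    exact e3
  have hend : IsHom G G f := by rw [← hmul]; exact isHom_mulSeries G p
  -- integrality
  have hsub : ∀ (a : MvPowerSeries (Fin 2) ℚ_[p]), PowerSeries.HasSubst a →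
      PowerSeries.subst a f = MvPowerSeries.C (p : ℚ_[p]) * a + a ^ p ^ n := by
    intro a ha
    rw [hf, PowerSeries.subst_add ha, PowerSeries.subst_mul ha, PowerSeries.subst_pow ha,
      PowerSeries.subst_X ha, PowerSeries.subst_C]
  have heq : MvPowerSeries.C (p : ℚ_[p]) * G.toPowerSeries + G.toPowerSeries ^ p ^ n =
      MvPowerSeries.subst (sb (p : ℚ_[p]) (p ^ n)) G.toPowerSeries := by
    have h := hend.map_add
    rw [hsub _ (hs_of_zero G.zero_constantCoeff), hsub _ (PowerSeries.HasSubst.X 0),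
      hsub _ (PowerSeries.HasSubst.X 1)] at h
    rw [h]
    unfold addG
    congr 1
    funext i
    fin_cases i <;> rfl
  have hint : ∀ e, ‖MvPowerSeries.coeff e G.toPowerSeries‖ ≤ 1 := by
    intro e
    refine integral p n hq G.toPowerSeries G.zero_constantCoeff ?_ heq _ e rfl
    intro e he
    have h2 : e = Finsupp.single 0 1 ∨ e = Finsupp.single 1 1 := by
      rw [Finsupp.degree_eq_sum, Fin.sum_univ_two] at he
      rcases Nat.eq_zero_or_pos (e 0) with h | h
      · right
        ext i
        fin_cases i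
        · simpa using h
        · simp; omega
      · left
        ext i
        fin_cases i
        · simp; omega
        · simp; omega
    rcases h2 with rfl | rfl
    · rw [G.lin_coeff_X, norm_one]
    · rw [G.lin_coeff_Y, norm_one]
  let F0 : MvPowerSeries (Fin 2) ℤ_[p] := fun e => ⟨MvPowerSeries.coeff e G.toPowerSeries, hint e⟩
  have hF0 : MvPowerSeries.map (io p) F0 = G.toPowerSeries := by
    ext e
    rw [MvPowerSeries.coeff_map]
    rfl
  have hF0c : MvPowerSeries.constantCoeff F0 = 0 := by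
    apply io_inj p
    rw [map_zero, ← MvPowerSeries.constantCoeff_map, hF0, G.zero_constantCoeff]
  have hv : ∀ {τ : Type} (a b : MvPowerSeries τ ℤ_[p]),
      (fun i => MvPowerSeries.map (io p) (![a, b] i)) =
        ![MvPowerSeries.map (io p) a, MvPowerSeries.map (io p) b] := by
    intro τ a b
    funext i
    fin_cases i <;> rfl
  let FZ : FormalGroup ℤ_[p] :=
    { toPowerSeries := F0
      zero_constantCoeff := hF0c
      lin_coeff_X := by
        apply io_inj p
        rw [map_one, ← MvPowerSeries.coeff_map, hF0, G.lin_coeff_X]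
      lin_coeff_Y := by
        apply io_inj p
        rw [map_one, ← MvPowerSeries.coeff_map, hF0, G.lin_coeff_Y]
      assoc := by
        apply map_inj p
        rw [MvPowerSeries.map_subst
            (MvPowerSeries.HasSubst.cons_subst_zero_left (0 : Fin 3) 1 2 hF0c),
          MvPowerSeries.map_subst
            (MvPowerSeries.HasSubst.cons_subst_zero_right (0 : Fin 3) 1 2 hF0c), hv, hv,
          MvPowerSeries.map_subst MvPowerSeries.HasSubst.X_X,
          MvPowerSeries.map_subst MvPowerSeries.HasSubst.X_X, hv, hv, hF0]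
        simp only [MvPowerSeries.map_X]
        exact G.assoc }
  have hFZ : FZ.map (io p) = G := by
    ext1
    exact hF0
  have hcomm : FZ.IsComm := by
    constructor
    change F0 = MvPowerSeries.subst ![MvPowerSeries.X 1, MvPowerSeries.X 0] F0
    apply map_inj p
    rw [MvPowerSeries.map_subst MvPowerSeries.HasSubst.X_X, hv, hF0]
    simp only [MvPowerSeries.map_X]
    exact FormalGroup.IsComm.comm (F := G)
  refine ⟨FZ.map (PadicInt.toZMod (p := p)), inferInstance, ?_⟩
  rw [← map_mulSeries]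
  have h3 : mulSeries FZ p = PowerSeries.C (p : ℤ_[p]) * PowerSeries.X +
      PowerSeries.X ^ (p ^ n) := by
    apply map_inj p
    have h4 := map_mulSeries (io p) FZ p
    rw [hFZ, hmul] at h4
    refine Eq.trans h4 ?_
    change f = PowerSeries.map (io p) _
    rw [map_add, map_mul, map_pow, PowerSeries.map_X, PowerSeries.map_C, map_natCast]
  rw [h3, map_add, map_mul, map_pow, PowerSeries.map_X, PowerSeries.map_C, map_natCast,
    ZMod.natCast_self, map_zero, zero_mul, zero_add]

end Pool.Agent.CVH
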