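import Pool.Agent.CVH.Targets2

set_option autoImplicit false

/-!
# CVH: normal form of the series `[p]` over an algebraically closed field
-/

noncomputable section

namespace Pool.Agent.CVH

namespace NORM_

variable {R : Type} [CommRing R]

/-- Splitting off the constant coefficient. -/
theorem split (f : PowerSeries R) : ∃ f1 : PowerSeries R, (PowerSeries.constantCoeff f = 0 →
    f = PowerSeries.X * f1) ∧ ∀ a : PowerSeries R, PowerSeries.constantCoeff a = 0 →
    comp f a = PowerSeries.C (PowerSeries.constantCoeff f) + a * comp f1 a := by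
  have h1 : PowerSeries.constantCoeff (f - PowerSeries.C (PowerSeries.constantCoeff f)) = 0 := by
    simp
  obtain ⟨g, hg⟩ := PowerSeries.X_dvd_iff.mpr h1
  refine ⟨g, ?_, ?_⟩
  · intro h0
    rw [← hg, h0]; simp
  · intro a ha
    have e1 : f = PowerSeries.C (PowerSeries.constantCoeff f) +
        (f - PowerSeries.C (PowerSeries.constantCoeff f)) := by ring
    conv_lhs => rw [e1]
    have e2 : comp (PowerSeries.C (PowerSeries.constantCoeff f) +
        (f - PowerSeries.C (PowerSeries.constantCoeff f))) a =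
        comp (PowerSeries.C (PowerSeries.constantCoeff f)) a +
        comp (f - PowerSeries.C (PowerSeries.constantCoeff f)) a :=
      PowerSeries.subst_add (hs_of_zero ha) _ _
    rw [e2, comp_C, hg, comp_mul _ _ ha, X_comp ha]

/-- Composites of congruent series are congruent. -/
theorem dvd_comp (M : ℕ) : ∀ (f a b : PowerSeries R), PowerSeries.constantCoeff a = 0 →
    PowerSeries.constantCoeff b = 0 → PowerSeries.X ^ M ∣ a - b →
    PowerSeries.X ^ M ∣ comp f a - comp f b := by
  induction M with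
  | zero => intro f a b _ _ _; simp
  | succ M ih =>
    intro f a b ha hb hab
    obtain ⟨f1, -, h2⟩ := split f
    have h3 : PowerSeries.X ^ M ∣ comp f1 a - comp f1 b :=
      ih f1 a b ha hb ((pow_dvd_pow _ (by omega)).trans hab)
    have h4 : PowerSeries.X ∣ b := PowerSeries.X_dvd_iff.mpr hb
    have e : comp f a - comp f b = (a - b) * comp f1 a + b * (comp f1 a - comp f1 b) := by
      rw [h2 a ha, h2 b hb]; ring
    rw [e]
    refine dvd_add (hab.mul_right _) ?_
    rw [pow_succ']
    exact mul_dvd_mul h4 h3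

/-- The first coefficient in which the composites differ. -/
theorem coeff_comp_sub {h a b : PowerSeries R} {M : ℕ}
    (hh : PowerSeries.constantCoeff h = 0) (ha : PowerSeries.constantCoeff a = 0)
    (hb : PowerSeries.constantCoeff b = 0) (hab : PowerSeries.X ^ M ∣ a - b) :
    PowerSeries.coeff M (comp h a) = PowerSeries.coeff M (comp h b) +
      PowerSeries.coeff 1 h * (PowerSeries.coeff M a - PowerSeries.coeff M b) := by
  obtain ⟨h1, e1, h2⟩ := split h
  have h4 : PowerSeries.X ∣ b := PowerSeries.X_dvd_iff.mpr hb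
  have h3 : PowerSeries.X ^ (M + 1) ∣ b * (comp h1 a - comp h1 b) := by
    rw [pow_succ']
    exact mul_dvd_mul h4 (dvd_comp M h1 a b ha hb hab)
  have e : comp h a - comp h b = (a - b) * comp h1 a + b * (comp h1 a - comp h1 b) := by
    rw [h2 a ha, h2 b hb]; ring
  have e2 : PowerSeries.coeff 1 h = PowerSeries.constantCoeff h1 := by
    have := coeff_X_pow_mul_self 1 h1
    rw [e1 hh]
    rwa [pow_one] at this
  obtain ⟨g, hg⟩ := hab
  have e3 : PowerSeries.coeff M ((a - b) * comp h1 a) =
      PowerSeries.coeff M (a - b) * PowerSeries.constantCoeff h1 := by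
    rw [hg, mul_assoc, coeff_X_pow_mul_self, coeff_X_pow_mul_self, map_mul, cc_comp h1 ha]
  have e4 : PowerSeries.coeff M (comp h a - comp h b) =
      PowerSeries.coeff 1 h * (PowerSeries.coeff M a - PowerSeries.coeff M b) := by
    rw [e, map_add, e3, (PowerSeries.X_pow_dvd_iff.mp h3) M (by omega), add_zero, e2, map_sub,
      mul_comm]
  rw [map_sub, sub_eq_iff_eq_add] at e4
  rw [e4, add_comm]

section field

variable {k : Type} [Field k]

theorem dvd_map (φ : k →+* k) {M : ℕ} {a b : PowerSeries k} (hab : PowerSeries.X ^ M ∣ a - b) :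
    PowerSeries.X ^ M ∣ PowerSeries.map φ a - PowerSeries.map φ b := by
  rw [PowerSeries.X_pow_dvd_iff] at hab ⊢
  intro m hm
  have := hab m hm
  rw [map_sub, sub_eq_zero] at this
  rw [map_sub, PowerSeries.coeff_map, PowerSeries.coeff_map, this, sub_self]

/-- The invariant of the construction. -/
def Inv (φ : k →+* k) (h : PowerSeries k) (N : ℕ) (U : PowerSeries k) : Prop :=
  PowerSeries.constantCoeff U = 0 ∧ PowerSeries.coeff 1 U ≠ 0 ∧
    ∀ i ≤ N + 1, PowerSeries.coeff i (comp h (PowerSeries.map φ U)) = PowerSeries.coeff i U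

theorem root [IsAlgClosed k] {q : ℕ} (hq : 2 ≤ q) (c d : k) (hc : c ≠ 0) :
    ∃ t : k, c * t ^ q - t + d = 0 := by
  have hcoef : (Polynomial.C c * Polynomial.X ^ q - Polynomial.X + Polynomial.C d).coeff q = c := by
    rw [Polynomial.coeff_add, Polynomial.coeff_sub, Polynomial.coeff_C_mul_X_pow,
      Polynomial.coeff_X, Polynomial.coeff_C, if_pos rfl, if_neg (by omega), if_neg (by omega)]
    ring
  have hdeg : (Polynomial.C c * Polynomial.X ^ q - Polynomial.X + Polynomial.C d).degree ≠ 0 := by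
    intro h0
    have h1 := Polynomial.le_degree_of_ne_zero (n := q)
      (p := Polynomial.C c * Polynomial.X ^ q - Polynomial.X + Polynomial.C d)
      (by rw [hcoef]; exact hc)
    rw [h0] at h1
    have h2 : q ≤ 0 := by exact_mod_cast h1
    omega
  obtain ⟨t, ht⟩ := IsAlgClosed.exists_root _ hdeg
  refine ⟨t, ?_⟩
  simpa [Polynomial.IsRoot] using ht

theorem step [IsAlgClosed k] (φ : k →+* k) {q : ℕ} (hq : 2 ≤ q) (hφ : ∀ x, φ x = x ^ q)
    (h : PowerSeries k) (hh : PowerSeries.constantCoeff h = 0) (hh1 : PowerSeries.coeff 1 h ≠ 0)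
    (N : ℕ) (U : PowerSeries k) (hU : Inv φ h N U) :
    ∃ U' : PowerSeries k, Inv φ h (N + 1) U' ∧
      ∀ i ≤ N + 1, PowerSeries.coeff i U' = PowerSeries.coeff i U := by
  obtain ⟨h0, h1, h2⟩ := hU
  obtain ⟨t, ht⟩ := root hq (PowerSeries.coeff 1 h)
    (PowerSeries.coeff (N + 2) (comp h (PowerSeries.map φ U)) - PowerSeries.coeff (N + 2) U) hh1
  set U' : PowerSeries k := U + PowerSeries.C t * PowerSeries.X ^ (N + 2) with hU'
  have hsame : ∀ i ≤ N + 1, PowerSeries.coeff i U' = PowerSeries.coeff i U := by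
    intro i hi
    rw [hU', map_add, PowerSeries.coeff_C_mul, PowerSeries.coeff_X_pow, if_neg (by omega),
      mul_zero, add_zero]
  have htop : PowerSeries.coeff (N + 2) U' = PowerSeries.coeff (N + 2) U + t := by
    rw [hU', map_add, PowerSeries.coeff_C_mul, PowerSeries.coeff_X_pow, if_pos rfl, mul_one]
  have h0' : PowerSeries.constantCoeff U' = 0 := by
    rw [← PowerSeries.coeff_zero_eq_constantCoeff_apply, hsame 0 (by omega),
      PowerSeries.coeff_zero_eq_constantCoeff_apply, h0]
  have hdvd : PowerSeries.X ^ (N + 2) ∣ U' - U := by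
    rw [hU', add_sub_cancel_left]
    exact Dvd.intro_left _ rfl
  have hdvd' := dvd_map φ hdvd
  have hm0 : PowerSeries.constantCoeff (PowerSeries.map φ U) = 0 := map_zero_cc φ h0
  have hm0' : PowerSeries.constantCoeff (PowerSeries.map φ U') = 0 := map_zero_cc φ h0'
  refine ⟨U', ⟨h0', by rw [hsame 1 (by omega)]; exact h1, ?_⟩, hsame⟩
  intro i hi
  rcases Nat.lt_or_ge i (N + 2) with hlt | hge
  · rw [hsame i (by omega), ← h2 i (by omega)]
    have := (PowerSeries.X_pow_dvd_iff.mp (dvd_comp (N + 2) h _ _ hm0' hm0 hdvd')) i hlt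
    rwa [map_sub, sub_eq_zero] at this
  · have hi' : i = N + 2 := by omega
    subst hi'
    rw [coeff_comp_sub hh hm0' hm0 hdvd', htop, PowerSeries.coeff_map, PowerSeries.coeff_map,
      htop, map_add, hφ t]
    linear_combination ht

theorem start [IsAlgClosed k] (φ : k →+* k) {q : ℕ} (hq : 2 ≤ q) (hφ : ∀ x, φ x = x ^ q)
    (h : PowerSeries k) (hh : PowerSeries.constantCoeff h = 0)
    (hh1 : PowerSeries.coeff 1 h ≠ 0) : ∃ U : PowerSeries k, Inv φ h 0 U := by
  obtain ⟨z, hz⟩ := IsAlgClosed.exists_pow_nat_eq (PowerSeries.coeff 1 h)⁻¹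
    (show 0 < q - 1 by omega)
  have hz0 : z ≠ 0 := by
    rintro rfl
    rw [zero_pow (by omega)] at hz
    exact inv_ne_zero hh1 hz.symm
  have hz1 : PowerSeries.coeff 1 h * z ^ q = z := by
    obtain ⟨r, rfl⟩ : ∃ r, q = r + 1 := ⟨q - 1, by omega⟩
    rw [Nat.add_sub_cancel] at hz
    rw [pow_succ, hz, ← mul_assoc, mul_inv_cancel₀ hh1, one_mul]
  have e1 : PowerSeries.coeff 1 (PowerSeries.C z * PowerSeries.X : PowerSeries k) = z := by
    rw [PowerSeries.coeff_C_mul, PowerSeries.coeff_one_X, mul_one]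
  have e0 : PowerSeries.constantCoeff (PowerSeries.C z * PowerSeries.X : PowerSeries k) = 0 := by
    simp
  have em : PowerSeries.constantCoeff (PowerSeries.map φ
      (PowerSeries.C z * PowerSeries.X : PowerSeries k)) = 0 := map_zero_cc φ e0
  refine ⟨PowerSeries.C z * PowerSeries.X, e0, by rw [e1]; exact hz0, ?_⟩
  intro i hi
  rcases Nat.eq_zero_or_pos i with h0 | h0
  · subst h0
    rw [PowerSeries.coeff_zero_eq_constantCoeff_apply,
      PowerSeries.coeff_zero_eq_constantCoeff_apply, e0, comp_zero_cc hh em]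
  · have hi1 : i = 1 := by omega
    subst hi1
    rw [coeff_one_comp hh em, PowerSeries.coeff_map, e1, hφ, hz1]

theorem fixpoint [IsAlgClosed k] (φ : k →+* k) {q : ℕ} (hq : 2 ≤ q) (hφ : ∀ x, φ x = x ^ q)
    (h : PowerSeries k) (hh : PowerSeries.constantCoeff h = 0)
    (hh1 : PowerSeries.coeff 1 h ≠ 0) : ∃ u : PowerSeries k, PowerSeries.constantCoeff u = 0 ∧
      PowerSeries.coeff 1 u ≠ 0 ∧ comp h (PowerSeries.map φ u) = u := by
  choose! F hF1 hF2 using step φ hq hφ h hh hh1
  obtain ⟨U0, hU0⟩ := start φ hq hφ h hh hh1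
  let U : ℕ → PowerSeries k := fun N => Nat.rec U0 (fun N V => F N V) N
  have hUs : ∀ N, U (N + 1) = F N (U N) := fun N => rfl
  have hI : ∀ N, Inv φ h N (U N) := by
    intro N
    induction N with
    | zero => exact hU0
    | succ N ih => rw [hUs]; exact hF1 N (U N) ih
  have hS : ∀ N i, i ≤ N + 1 → PowerSeries.coeff i (U (N + 1)) = PowerSeries.coeff i (U N) := by
    intro N i hi
    rw [hUs]; exact hF2 N (U N) (hI N) i hi
  have hst : ∀ N i, i ≤ N → PowerSeries.coeff i (U N) = PowerSeries.coeff i (U i) := by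
    intro N
    induction N with
    | zero => intro i hi; rw [Nat.le_zero.mp hi]
    | succ N ih =>
      intro i hi
      rcases Nat.lt_or_ge N i with hlt | hge
      · have : i = N + 1 := by omega
        rw [this]
      · rw [hS N i (by omega), ih i hge]
  set u : PowerSeries k := PowerSeries.mk fun i => PowerSeries.coeff i (U i) with hu
  have hag : ∀ N i, i ≤ N → PowerSeries.coeff i u = PowerSeries.coeff i (U N) := by
    intro N i hi
    rw [hu, PowerSeries.coeff_mk, hst N i hi]
  have hu0 : PowerSeries.constantCoeff u = 0 := by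
    rw [← PowerSeries.coeff_zero_eq_constantCoeff_apply, hag 0 0 le_rfl,
      PowerSeries.coeff_zero_eq_constantCoeff_apply, (hI 0).1]
  refine ⟨u, hu0, ?_, ?_⟩
  · rw [hag 1 1 le_rfl]; exact (hI 1).2.1
  · ext i
    have hd : PowerSeries.X ^ (i + 1) ∣ u - U i := by
      rw [PowerSeries.X_pow_dvd_iff]
      intro m hm
      rw [map_sub, hag i m (by omega), sub_self]
    have h3 := (PowerSeries.X_pow_dvd_iff.mp (dvd_comp (i + 1) h _ _ (map_zero_cc φ hu0)
      (map_zero_cc φ (hI i).1) (dvd_map φ hd))) i (by omega)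
    rw [map_sub, sub_eq_zero] at h3
    rw [h3, (hI i).2.2 i (by omega), hag i i le_rfl]

end field

end NORM_

open NORM_ in
theorem p_NORM : T_NORM := by
  intro p hp n hn k _ _ _ h hh hh1
  have hp0 : p ≠ 0 := hp.out.ne_zero
  have hq0 : p ^ n ≠ 0 := pow_ne_zero n hp0
  have hq : 2 ≤ p ^ n := le_trans hp.out.two_le (Nat.le_self_pow (by omega) p)
  obtain ⟨u, hu0, hu1, hu⟩ := fixpoint (iterateFrobenius k p n) hq
    (fun x => iterateFrobenius_def p n x) h hh hh1
  refine ⟨u, hu0, hu1, ?_⟩
  have hX : PowerSeries.constantCoeff (PowerSeries.X ^ (p ^ n) : PowerSeries k) = 0 := by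
    rw [map_pow, PowerSeries.constantCoeff_X, zero_pow hq0]
  have hm : PowerSeries.constantCoeff (PowerSeries.map (iterateFrobenius k p n) u) = 0 :=
    map_zero_cc _ hu0
  have hpow : comp (PowerSeries.map (iterateFrobenius k p n) u) (PowerSeries.X ^ (p ^ n)) =
      u ^ (p ^ n) := by
    have e1 := MvPowerSeries.map_iterateFrobenius_expand p hp0 (u : MvPowerSeries Unit k) n
    have e2 : PowerSeries.map (iterateFrobenius k p n) (PowerSeries.expand (p ^ n) hq0 u) =
        u ^ (p ^ n) := e1
    rw [PowerSeries.map_expand, PowerSeries.expand_apply] at e2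
    exact e2
  rw [comp_assoc hX hu0, comp_pow _ hu0, X_comp hu0, ← hpow, ← comp_assoc hm hX, hu]

end Pool.Agent.CVH
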