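import Pool.Agent.CVH.Targets2

set_option autoImplicit false

/-!
# CVH: T_PD, the effect on the multiplication series
-/

noncomputable section

namespace Pool.Agent.CVH

namespace PD_

variable {R : Type} [CommRing R]

/-- The exponent `(i, j)`. -/
def ex (x : ℕ × ℕ) : Fin 2 →₀ ℕ := Finsupp.single 0 x.1 + Finsupp.single 1 x.2

theorem ex_zero (x : ℕ × ℕ) : ex x 0 = x.1 := by simp [ex]

theorem ex_one (x : ℕ × ℕ) : ex x 1 = x.2 := by simp [ex]

theorem ex_inj : Function.Injective ex := by
  intro x y h
  have h0 := DFunLike.congr_fun h 0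
  have h1 := DFunLike.congr_fun h 1
  rw [ex_zero, ex_zero] at h0
  rw [ex_one, ex_one] at h1
  exact Prod.ext h0 h1

theorem eq_ex (d : Fin 2 →₀ ℕ) : ex (d 0, d 1) = d := by
  ext i
  fin_cases i
  · exact ex_zero _
  · exact ex_one _

/-- A product of powers of series without constant term. -/
theorem coeff_small {f g : PowerSeries R} (hf : PowerSeries.constantCoeff f = 0)
    (hg : PowerSeries.constantCoeff g = 0) {n i j : ℕ} (h : n < i + j) :
    PowerSeries.coeff n (f ^ i * g ^ j) = 0 := by
  obtain ⟨f1, rfl⟩ := PowerSeries.X_dvd_iff.mpr hf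
  obtain ⟨g1, rfl⟩ := PowerSeries.X_dvd_iff.mpr hg
  have e : (PowerSeries.X * f1) ^ i * (PowerSeries.X * g1) ^ j =
      PowerSeries.X ^ (i + j) * (f1 ^ i * g1 ^ j) := by
    rw [mul_pow, mul_pow, pow_add]; ring
  rw [e]
  exact (PowerSeries.X_pow_dvd_iff.mp (Dvd.intro _ rfl)) n h

/-- The coefficients of a sum. -/
theorem coeff_addG (G : FormalGroup R) {f g : PowerSeries R}
    (hf : PowerSeries.constantCoeff f = 0) (hg : PowerSeries.constantCoeff g = 0) (n : ℕ) :
    PowerSeries.coeff n (addG G f g) = ∑ i ∈ Finset.range (n + 1), ∑ j ∈ Finset.range (n + 1),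
      c2 G i j * PowerSeries.coeff n (f ^ i * g ^ j) := by
  classical
  have hs := hs2 (hs_of_zero hf) (hs_of_zero hg)
  have key : ∀ d : Fin 2 →₀ ℕ, (d.prod fun s e => (![f, g] : Fin 2 → PowerSeries R) s ^ e) =
      f ^ d 0 * g ^ d 1 := by
    intro d
    rw [Finsupp.prod_fintype _ _ (fun i => pow_zero _), Fin.prod_univ_two]
    rfl
  have h1 := MvPowerSeries.coeff_subst hs G.toPowerSeries (Finsupp.single () n)
  have h2 : PowerSeries.coeff n (addG G f g) =
      ∑ᶠ d : Fin 2 →₀ ℕ, MvPowerSeries.coeff d G.toPowerSeries •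
        PowerSeries.coeff n (f ^ d 0 * g ^ d 1) := by
    refine h1.trans (finsum_congr fun d => ?_)
    rw [key d]
    rfl
  have hsub : (Function.support fun d : Fin 2 →₀ ℕ => MvPowerSeries.coeff d G.toPowerSeries •
      PowerSeries.coeff n (f ^ d 0 * g ^ d 1)) ⊆
      (((Finset.range (n + 1) ×ˢ Finset.range (n + 1)).image ex :
        Finset (Fin 2 →₀ ℕ)) : Set (Fin 2 →₀ ℕ)) := by
    intro d hd
    rw [Function.mem_support] at hd
    have h3 : d 0 + d 1 ≤ n := by
      by_contra hc
      exact hd (by rw [coeff_small hf hg (by omega), smul_zero])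
    rw [Finset.mem_coe, Finset.mem_image]
    refine ⟨(d 0, d 1), ?_, eq_ex d⟩
    rw [Finset.mem_product, Finset.mem_range, Finset.mem_range]
    constructor
    · change d 0 < n + 1
      omega
    · change d 1 < n + 1
      omega
  rw [h2, finsum_eq_sum_of_support_subset _ hsub,
    Finset.sum_image (fun x _ y _ h => ex_inj h), Finset.sum_product]
  refine Finset.sum_congr rfl fun i _ => Finset.sum_congr rfl fun j _ => ?_
  rw [ex_zero, ex_one, smul_eq_mul]
  rfl

/-- The coefficient in the lowest degree. -/
theorem coeff_top {f : PowerSeries R} (hf : PowerSeries.constantCoeff f = 0) (i j : ℕ) :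
    PowerSeries.coeff (i + j) (f ^ i * PowerSeries.X ^ j) = PowerSeries.coeff 1 f ^ i := by
  obtain ⟨f1, rfl⟩ := PowerSeries.X_dvd_iff.mpr hf
  have e : (PowerSeries.X * f1) ^ i * PowerSeries.X ^ j =
      PowerSeries.X ^ (i + j) * f1 ^ i := by
    rw [mul_pow, pow_add]; ring
  have e1 : PowerSeries.coeff 1 (PowerSeries.X * f1) = PowerSeries.constantCoeff f1 := by
    have := PowerSeries.coeff_succ_X_mul 0 f1
    rw [zero_add] at this
    rw [this]
    simp
  rw [e, e1, coeff_X_pow_mul_self, map_pow]

/-- The difference of powers. -/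
theorem pow_diff {f f' : PowerSeries R} {M : ℕ} (hf : PowerSeries.constantCoeff f = 0)
    (hf' : PowerSeries.constantCoeff f' = 0) (h : PowerSeries.X ^ M ∣ f' - f) (k : ℕ) :
    PowerSeries.X ^ (M + 1) ∣ f' ^ (k + 2) - f ^ (k + 2) := by
  have h1 : PowerSeries.X ^ M ∣ f' ^ (k + 1) - f ^ (k + 1) :=
    h.trans (sub_dvd_pow_sub_pow f' f (k + 1))
  have h2 : PowerSeries.X ∣ f := PowerSeries.X_dvd_iff.mpr hf
  have h3 : PowerSeries.X ∣ f' ^ (k + 1) :=
    (PowerSeries.X_dvd_iff.mpr hf').trans (dvd_pow_self _ (by omega))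
  have e : f' ^ (k + 2) - f ^ (k + 2) =
      (f' - f) * f' ^ (k + 1) + (f' ^ (k + 1) - f ^ (k + 1)) * f := by ring
  rw [e, pow_succ]
  exact dvd_add (mul_dvd_mul h h3) (mul_dvd_mul h1 h2)

/-- The step of the induction. -/
theorem step (G G' : FormalGroup R) (M : ℕ) (hM : 2 ≤ M)
    (hGG : ∀ i j, i + j < M → c2 G i j = c2 G' i j) (f f' : PowerSeries R)
    (hf : PowerSeries.constantCoeff f = 0) (hf' : PowerSeries.constantCoeff f' = 0)
    (m : R) (hm : PowerSeries.coeff 1 f = m) (hm' : PowerSeries.coeff 1 f' = m)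
    (h : ∀ i < M, PowerSeries.coeff i f' = PowerSeries.coeff i f) :
    (∀ i < M, PowerSeries.coeff i (addG G' f' PowerSeries.X) =
      PowerSeries.coeff i (addG G f PowerSeries.X)) ∧
    PowerSeries.coeff M (addG G' f' PowerSeries.X) -
      PowerSeries.coeff M (addG G f PowerSeries.X) =
      (PowerSeries.coeff M f' - PowerSeries.coeff M f) +
      ∑ i ∈ Finset.range (M + 1), (c2 G' i (M - i) - c2 G i (M - i)) * m ^ i := by
  have hX : PowerSeries.constantCoeff (PowerSeries.X : PowerSeries R) = 0 := by simp
  have hD : PowerSeries.X ^ M ∣ f' - f := by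
    rw [PowerSeries.X_pow_dvd_iff]
    intro i hi
    rw [map_sub, h i hi, sub_self]
  have hpow : ∀ i j : ℕ, PowerSeries.X ^ M ∣
      f' ^ i * PowerSeries.X ^ j - f ^ i * PowerSeries.X ^ j := by
    intro i j
    rw [← sub_mul]
    exact Dvd.dvd.mul_right (hD.trans (sub_dvd_pow_sub_pow f' f i)) _
  constructor
  · intro n hn
    rw [coeff_addG G' hf' hX, coeff_addG G hf hX]
    refine Finset.sum_congr rfl fun i _ => Finset.sum_congr rfl fun j _ => ?_
    by_cases hij : n < i + j
    · rw [coeff_small hf' hX hij, coeff_small hf hX hij, mul_zero, mul_zero]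
    · rw [hGG i j (by omega)]
      congr 1
      have := (PowerSeries.X_pow_dvd_iff.mp (hpow i j)) n hn
      rw [map_sub, sub_eq_zero] at this
      exact this
  · rw [coeff_addG G' hf' hX, coeff_addG G hf hX, ← Finset.sum_sub_distrib]
    have hterm : ∀ i j : ℕ, c2 G' i j * PowerSeries.coeff M (f' ^ i * PowerSeries.X ^ j) -
        c2 G i j * PowerSeries.coeff M (f ^ i * PowerSeries.X ^ j) =
        (if i + j = M then (c2 G' i j - c2 G i j) * m ^ i else 0) +
        (if i = 1 then (if j = 0 then PowerSeries.coeff M f' - PowerSeries.coeff M f else 0)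
          else 0) := by
      intro i j
      rcases Nat.lt_trichotomy (i + j) M with hij | hij | hij
      · rw [if_neg (by omega), zero_add, ← hGG i j hij, ← mul_sub, ← map_sub]
        by_cases hi : i = 1
        · subst hi
          rw [if_pos rfl]
          by_cases hj : j = 0
          · subst hj
            rw [if_pos rfl, pow_one, pow_one, pow_zero, mul_one, mul_one, map_sub]
            have : c2 G 1 0 = 1 := by
              unfold c2
              rw [Finsupp.single_zero, add_zero]
              exact G.lin_coeff_X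
            rw [this, one_mul]
          · rw [if_neg hj, pow_one, pow_one, ← sub_mul]
            have h1 : PowerSeries.X ^ (M + 1) ∣ (f' - f) * PowerSeries.X ^ j := by
              rw [pow_succ]
              exact mul_dvd_mul hD (dvd_pow_self _ hj)
            rw [(PowerSeries.X_pow_dvd_iff.mp h1) M (by omega), mul_zero]
        · rw [if_neg hi]
          rcases Nat.eq_zero_or_pos i with h0 | h0
          · subst h0
            simp
          · obtain ⟨k, rfl⟩ : ∃ k, i = k + 2 := ⟨i - 2, by omega⟩
            rw [← sub_mul]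
            have h1 : PowerSeries.X ^ (M + 1) ∣
                (f' ^ (k + 2) - f ^ (k + 2)) * PowerSeries.X ^ j :=
              Dvd.dvd.mul_right (pow_diff hf hf' hD k) _
            rw [(PowerSeries.X_pow_dvd_iff.mp h1) M (by omega), mul_zero]
      · rw [if_pos hij, ← hij, coeff_top hf', coeff_top hf, hm, hm', ← sub_mul]
        by_cases hi : i = 1
        · rw [if_pos hi, if_neg (by omega), add_zero]
        · rw [if_neg hi, add_zero]
      · rw [coeff_small hf' hX hij, coeff_small hf hX hij, mul_zero, mul_zero, sub_zero,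
          if_neg (by omega), zero_add]
        by_cases hi : i = 1
        · rw [if_pos hi, if_neg (by omega)]
        · rw [if_neg hi]
    have h1 : ∑ x ∈ Finset.range (M + 1),
        ((∑ j ∈ Finset.range (M + 1), c2 G' x j *
          PowerSeries.coeff M (f' ^ x * PowerSeries.X ^ j)) -
        ∑ j ∈ Finset.range (M + 1), c2 G x j *
          PowerSeries.coeff M (f ^ x * PowerSeries.X ^ j)) =
        ∑ x ∈ Finset.range (M + 1), ((c2 G' x (M - x) - c2 G x (M - x)) * m ^ x +
          (if x = 1 then (PowerSeries.coeff M f' - PowerSeries.coeff M f) else 0)) := by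
      refine Finset.sum_congr rfl fun x hx => ?_
      rw [Finset.mem_range] at hx
      rw [← Finset.sum_sub_distrib, Finset.sum_congr rfl fun j _ => hterm x j,
        Finset.sum_add_distrib]
      congr 1
      · rw [Finset.sum_eq_single (M - x)]
        · rw [if_pos (by omega)]
        · intro b _ hb
          rw [if_neg (by omega)]
        · intro hb
          exact absurd (Finset.mem_range.2 (by omega)) hb
      · by_cases hx1 : x = 1
        · simp [hx1]
        · simp [hx1]
    rw [h1, Finset.sum_add_distrib, add_comm]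
    congr 1
    rw [Finset.sum_ite_eq' (Finset.range (M + 1)) 1, if_pos (Finset.mem_range.2 (by omega))]

end PD_

open PD_ in
theorem p_PD : T_PD := by
  intro R _ G G' M hM hGG m
  induction m with
  | zero =>
    constructor
    · intro i _
      rfl
    · simp [mulSeries]
  | succ m ih =>
    obtain ⟨h1, h2⟩ := step G G' M hM hGG (mulSeries G m) (mulSeries G' m)
      (mulSeries_zero_cc G m) (mulSeries_zero_cc G' m) (m : R) (coeff_one_mulSeries G m)
      (coeff_one_mulSeries G' m) ih.1
    refine ⟨h1, ?_⟩
    rw [Finset.sum_range_succ, ← ih.2]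
    exact h2

end Pool.Agent.CVH
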