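import Pool.Agent.CVH.Targets2

set_option autoImplicit false

/-!
# CVH: one step of the comparison
-/

noncomputable section

namespace Pool.Agent.CVH

open Finset

/-! ### symmetry of the coefficients -/

theorem STEP_.swap_fun {R : Type} [CommRing R] :
    (![MvPowerSeries.X 1, MvPowerSeries.X 0] : Fin 2 → MvPowerSeries (Fin 2) R) =
      MvPowerSeries.X ∘ ((Equiv.swap (0 : Fin 2) 1).toEmbedding) := by
  funext i
  fin_cases i <;> simp

theorem STEP_.symm {R : Type} [CommRing R] (G : FormalGroup R) [G.IsComm] (i j : ℕ) :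
    c2 G i j = c2 G j i := by
  have h := FormalGroup.IsComm.comm (F := G)
  have h2 : (G.toPowerSeries : MvPowerSeries (Fin 2) R) =
      MvPowerSeries.rename ((Equiv.swap (0 : Fin 2) 1).toEmbedding) G.toPowerSeries := by
    rw [MvPowerSeries.rename_eq_subst, ← STEP_.swap_fun]
    exact h
  have h3 := MvPowerSeries.coeff_embDomain_rename ((Equiv.swap (0 : Fin 2) 1).toEmbedding)
    G.toPowerSeries (Finsupp.single 0 i + Finsupp.single 1 j)
  have h4 : Finsupp.embDomain ((Equiv.swap (0 : Fin 2) 1).toEmbedding)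
      (Finsupp.single 0 i + Finsupp.single 1 j) = Finsupp.single 0 j + Finsupp.single 1 i := by
    rw [Finsupp.embDomain_eq_mapDomain, Finsupp.mapDomain_add, Finsupp.mapDomain_single,
      Finsupp.mapDomain_single]
    simp [add_comm]
  rw [h4, ← h2] at h3
  unfold c2
  exact h3.symm

/-! ### powers -/

theorem STEP_.psubst_pow {R : Type} [CommRing R] {f : PowerSeries R}
    (hf : PowerSeries.constantCoeff f = 0) (m : ℕ) :
    comp (PowerSeries.X ^ m) f = f ^ m := by
  unfold comp
  rw [PowerSeries.subst_pow (hs_of_zero hf), PowerSeries.subst_X (hs_of_zero hf)]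

theorem STEP_.comp_u {R : Type} [CommRing R] (b : R) (M q : ℕ) (hq : 0 < q) :
    comp (PowerSeries.X + PowerSeries.C b * PowerSeries.X ^ M) (PowerSeries.X ^ q) =
      PowerSeries.X ^ q + PowerSeries.C b * (PowerSeries.X ^ q) ^ M := by
  have hc : PowerSeries.constantCoeff (PowerSeries.X ^ q : PowerSeries R) = 0 := by
    rw [map_pow, PowerSeries.constantCoeff_X, zero_pow hq.ne']
  have hs : PowerSeries.HasSubst (PowerSeries.X ^ q : PowerSeries R) := hs_of_zero hc
  unfold comp
  have h1 : PowerSeries.subst (PowerSeries.X ^ q : PowerSeries R)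
      (PowerSeries.C b : PowerSeries R) = PowerSeries.C b := PowerSeries.subst_C _
  rw [PowerSeries.subst_add hs, PowerSeries.subst_mul hs, PowerSeries.subst_pow hs,
    PowerSeries.subst_X hs, h1]

/-- the hom with prescribed underlying series -/
theorem STEP_.transport (h_CONJ : T_CONJ) {R : Type} [CommRing R] (G : FormalGroup R)
    (hG : G.IsComm) (u : PowerSeries R) (hu0 : PowerSeries.constantCoeff u = 0)
    (hu1 : IsUnit (PowerSeries.coeff 1 u)) :
    ∃ G' : FormalGroup R, IsHom G G' u ∧ G'.IsComm := by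
  set w := u.substInvOfIsUnit hu1 with hw
  have hw0 : PowerSeries.constantCoeff w = 0 := PowerSeries.constantCoeff_substInvOfIsUnit u hu1
  have h1 : comp u w = PowerSeries.X := PowerSeries.subst_substInvOfIsUnit_right u hu0 hu1
  have h2 : comp w u = PowerSeries.X := PowerSeries.subst_substInvOfIsUnit_left u hu0 hu1
  have hw1 : IsUnit (PowerSeries.coeff 1 w) := by
    have h := congrArg (PowerSeries.coeff 1) h2
    rw [coeff_one_comp hw0 hu0, PowerSeries.coeff_one_X] at h
    exact IsUnit.of_mul_eq_one _ h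
  obtain ⟨G', hG', hcomm⟩ := h_CONJ R G w hw0 hw1
  obtain ⟨g, hg, hg1, hg2⟩ := exists_inv hG' hw1
  refine ⟨G', ?_, hcomm hG⟩
  have : g = u := by
    calc g = comp PowerSeries.X g := (X_comp hg.zero).symm
      _ = comp (comp u w) g := by rw [h1]
      _ = comp u (comp w g) := comp_assoc hw0 hg.zero
      _ = comp u PowerSeries.X := by rw [hg1]
      _ = u := comp_X u
  rw [← this]
  exact hg

/-! ### a sum of binomial coefficients -/

theorem STEP_.choose_dvd (p : ℕ) (hp : p.Prime) (r i : ℕ) (h0 : 0 < i) (h1 : i < p ^ r) :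
    p ∣ (p ^ r).choose i :=
  (Nat.Prime.dvd_choose_pow_iff hp).2 ⟨h0.ne', h1.ne⟩

theorem STEP_.inner (p : ℕ) (hp : p.Prime) (r : ℕ) (j : ℕ) :
    p * ∑ i ∈ Ioo 0 (p ^ r), ((p ^ r).choose i / p) * j ^ i + j ^ (p ^ r) + 1 =
      (j + 1) ^ (p ^ r) := by
  rw [Finset.mul_sum, add_pow]
  have hM : 0 < p ^ r := pow_pos hp.pos r
  have e1 : ∑ m ∈ range (p ^ r + 1), j ^ m * 1 ^ (p ^ r - m) * ((p ^ r).choose m : ℕ) =
      ∑ m ∈ Ioo 0 (p ^ r), j ^ m * ((p ^ r).choose m) + j ^ (p ^ r) + 1 := by
    rw [Finset.sum_range_succ]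
    have e2 : range (p ^ r) = insert 0 (Ioo 0 (p ^ r)) := by
      ext x
      simp only [mem_range, mem_insert, mem_Ioo]
      omega
    rw [e2, Finset.sum_insert (by simp)]
    simp
    ring
  simp only [Nat.cast_id] at e1 ⊢
  rw [e1]
  congr 2
  apply Finset.sum_congr rfl
  intro i hi
  rw [mem_Ioo] at hi
  obtain ⟨c, hc⟩ := STEP_.choose_dvd p hp r i hi.1 hi.2
  rw [hc, Nat.mul_div_cancel_left _ hp.pos]
  ring

theorem STEP_.outer (p : ℕ) (hp : p.Prime) (r : ℕ) (N : ℕ) :
    p * ∑ j ∈ range N, ∑ i ∈ Ioo 0 (p ^ r), ((p ^ r).choose i / p) * j ^ i + N = N ^ (p ^ r) := by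
  induction N with
  | zero =>
    have : 0 < p ^ r := pow_pos hp.pos r
    simp [zero_pow this.ne']
  | succ N ih =>
    rw [Finset.sum_range_succ, mul_add, ← STEP_.inner p hp r N]
    omega

/-- the double sum is `-1` in characteristic `p` -/
theorem STEP_.sum_cast (p : ℕ) (hp : p.Prime) (k : Type) [Field k] [CharP k p] (r : ℕ)
    (hr : 2 ≤ p ^ r) :
    ((∑ j ∈ range p, ∑ i ∈ Ioo 0 (p ^ r), ((p ^ r).choose i / p) * j ^ i : ℕ) : k) = -1 := by
  set S := ∑ j ∈ range p, ∑ i ∈ Ioo 0 (p ^ r), ((p ^ r).choose i / p) * j ^ i with hS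
  have h := STEP_.outer p hp r p
  rw [← hS] at h
  obtain ⟨e, he⟩ : ∃ e, p ^ r = e + 2 := ⟨p ^ r - 2, by omega⟩
  have h2 : p * (S + 1) = p * p ^ (e + 1) := by
    calc p * (S + 1) = p * S + p := by ring
      _ = p ^ (p ^ r) := h
      _ = p ^ (e + 2) := by rw [he]
      _ = p * p ^ (e + 1) := by ring
  have h3 : S + 1 = p ^ (e + 1) := Nat.eq_of_mul_eq_mul_left hp.pos h2
  have h4 : (S : k) + 1 = (p : k) ^ (e + 1) := by
    exact_mod_cast congrArg (Nat.cast : ℕ → k) h3
  rw [CharP.cast_eq_zero k p, zero_pow (by omega)] at h4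
  exact eq_neg_of_add_eq_zero_left h4

theorem p_STEP (h_FIX : T_FIX) (h_COC : T_COC) (h_CO : T_CO) (h_PD : T_PD) (h_SUB : T_SUB)
    (h_CONJ : T_CONJ) : T_STEP := by
  intro p hp n hn k _ _ G1 G2 hc1 hc2 hm1 hm2 M hM hagree
  have hpp : p.Prime := hp.out
  set q := p ^ n with hq
  have hq0 : 0 < q := pow_pos hpp.pos n
  -- the cocycle
  obtain ⟨co1, co2, co3⟩ := h_CO k G1 G2 M hM hagree
  set D : ℕ → k := fun i => c2 G2 i (M - i) - c2 G1 i (M - i) with hD
  have hsym : ∀ i, 0 < i → i < M → D i = D (M - i) := by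
    intro i h0 h1
    have e : M - (M - i) = i := by omega
    simp only [hD, e]
    rw [STEP_.symm G2 i (M - i), STEP_.symm G1 i (M - i)]
  have hcoc : ∀ i j l : ℕ, 0 < i → 0 < j → 0 < l → i + j + l = M →
      ((i + j).choose i : k) * D (i + j) = ((j + l).choose j : k) * D i := by
    intro i j l hi hj hl h
    have e1 : M - (i + j) = l := by omega
    have e2 : M - i = j + l := by omega
    simp only [hD, e1, e2]
    exact co3 i j l hi hj hl h
  obtain ⟨coc1, coc2⟩ := h_COC p k M hM D hsym hcoc
  -- the coefficients are fixed by the power map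
  have hfix : ∀ (G : FormalGroup k) (_ : G.IsComm), mulSeries G p = PowerSeries.X ^ q →
      ∀ i j, c2 G i j ^ q = c2 G i j := by
    intro G hG hm i j
    have h := isHom_mulSeries G p
    rw [hm] at h
    exact h_FIX p n k G h _
  have hDfix : ∀ i, D i ^ q = D i := by
    intro i
    simp only [hD]
    rw [hq, sub_pow_char_pow, ← hq, hfix G2 hc2 hm2, hfix G1 hc1 hm1]
  -- the coefficient `b`
  have hb : ∃ b : k, b ^ q = b ∧ ∀ i, 0 < i → i < M → D i = b * (M.choose i : k) := by
    by_cases hpow : ∃ r, M = p ^ r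
    · obtain ⟨r, hr⟩ := hpow
      obtain ⟨a, ha⟩ := coc2 r hr
      have hpd := (h_PD k G1 G2 M hM hagree p).2
      rw [hm1, hm2, sub_self] at hpd
      have hin : ∀ j : ℕ, ∑ i ∈ range (M + 1), (c2 G2 i (M - i) - c2 G1 i (M - i)) * (j : k) ^ i =
          a * ((∑ i ∈ Ioo 0 M, (M.choose i / p) * j ^ i : ℕ) : k) := by
        intro j
        have e0 : range (M + 1) = insert 0 (insert M (Ioo 0 M)) := by
          ext x
          simp only [mem_range, mem_insert, mem_Ioo]
          omega
        rw [e0, Finset.sum_insert (by simp; omega), Finset.sum_insert (by simp)]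
        have e1 : c2 G2 0 (M - 0) - c2 G1 0 (M - 0) = 0 := co1
        have e2 : c2 G2 M (M - M) - c2 G1 M (M - M) = 0 := by
          rw [Nat.sub_self]; exact co2
        rw [e1, e2, zero_mul, zero_mul, zero_add, zero_add]
        push_cast
        rw [Finset.mul_sum]
        apply Finset.sum_congr rfl
        intro i hi
        rw [mem_Ioo] at hi
        have := ha i hi.1 hi.2
        simp only [hD] at this
        rw [this]
        ring
      rw [Finset.sum_congr rfl (fun j _ => hin j), ← Finset.mul_sum] at hpd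
      have hs := STEP_.sum_cast p hpp k r (by omega)
      rw [← hr] at hs
      have ha0 : a = 0 := by
        have h5 : (∑ j ∈ range p, ((∑ i ∈ Ioo 0 M, (M.choose i / p) * j ^ i : ℕ) : k)) = -1 := by
          rw [← hs]
          push_cast
          rfl
        rw [h5] at hpd
        have : a = -(a * -1) := by ring
        rw [this, ← hpd, neg_zero]
      refine ⟨0, zero_pow hq0.ne', ?_⟩
      intro i h0 h1
      rw [ha i h0 h1, ha0, zero_mul, zero_mul]
    · have hpow' : ∀ r : ℕ, M ≠ p ^ r := fun r h => hpow ⟨r, h⟩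
      obtain ⟨a, ha⟩ := coc1 hpow'
      by_cases hall : ∀ i, 0 < i → i < M → (M.choose i : k) = 0
      · refine ⟨0, zero_pow hq0.ne', ?_⟩
        intro i h0 h1
        rw [ha i h0 h1, hall i h0 h1, mul_zero, mul_zero]
      · push Not at hall
        obtain ⟨i, h0, h1, h2⟩ := hall
        refine ⟨a, ?_, ha⟩
        have h3 := hDfix i
        rw [ha i h0 h1, mul_pow] at h3
        have h4 : (M.choose i : k) ^ q = (M.choose i : k) := by
          have := map_natCast (iterateFrobenius k p n) (M.choose i)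
          rwa [iterateFrobenius_def] at this
        rw [h4] at h3
        exact mul_right_cancel₀ h2 h3
  obtain ⟨b, hbq, hbD⟩ := hb
  -- the change of variable
  set u : PowerSeries k := PowerSeries.X + PowerSeries.C b * PowerSeries.X ^ M with hu
  have hu0 : PowerSeries.constantCoeff u = 0 := by
    rw [hu, map_add, map_mul, map_pow, PowerSeries.constantCoeff_X, zero_pow (by omega), mul_zero,
      add_zero]
  have hu1 : PowerSeries.coeff 1 u = 1 := by
    rw [hu, map_add, PowerSeries.coeff_one_X, PowerSeries.coeff_C_mul, PowerSeries.coeff_X_pow,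
      if_neg (by omega), mul_zero, add_zero]
  obtain ⟨G', hG', hG'c⟩ := STEP_.transport h_CONJ G1 hc1 u hu0 (by rw [hu1]; exact isUnit_one)
  obtain ⟨sub1, sub2⟩ := h_SUB k G1 G' M hM b hG'
  refine ⟨G', b, hG'c, hG', ?_, ?_⟩
  · have h1 := hG'.comp_mulSeries p
    rw [hm1, STEP_.comp_u b M q hq0] at h1
    have h2 : comp (PowerSeries.X ^ q) u = PowerSeries.X ^ q +
        PowerSeries.C b * (PowerSeries.X ^ q) ^ M := by
      rw [STEP_.psubst_pow hu0, hu]
      have hch : CharP (PowerSeries k) p := by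
        apply charP_of_injective_ringHom (PowerSeries.C_injective (R := k))
      rw [hq, add_pow_char_pow, mul_pow, ← map_pow, ← hq, hbq, ← pow_mul, ← pow_mul, mul_comm M q]
    rw [← h2] at h1
    obtain ⟨w, hw, hw1, hw2⟩ := exists_inv hG' (by rw [hu1]; exact isUnit_one)
    have h3 : comp (comp (PowerSeries.X ^ q) u) w = comp (comp (mulSeries G' p) u) w := by
      rw [h1]
    rw [comp_assoc hu0 hw.zero, comp_assoc hu0 hw.zero, hw1, comp_X, comp_X] at h3
    exact h3.symm
  · intro i j hij
    rcases Nat.lt_or_ge (i + j) M with h | h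
    · rw [sub1 i j h, hagree i j h]
    · have hM' : i + j = M := by omega
      have hag : ∀ i j, i + j < M → c2 G1 i j = c2 G' i j := fun i j h => (sub1 i j h).symm
      obtain ⟨co1', co2', -⟩ := h_CO k G1 G' M hM hag
      rcases Nat.eq_zero_or_pos i with hi | hi
      · subst hi
        have : j = M := by omega
        subst this
        rw [sub_eq_zero.1 co1', sub_eq_zero.1 co1]
      rcases Nat.eq_zero_or_pos j with hj | hj
      · subst hj
        have : i = M := by omega
        subst this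
        rw [sub_eq_zero.1 co2', sub_eq_zero.1 co2]
      have h1 := hbD i hi (by omega)
      simp only [hD] at h1
      have e : M - i = j := by omega
      rw [e] at h1
      rw [sub2 i j hi hj hM', ← h1]
      ring

end Pool.Agent.CVH
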