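import Pool.Agent.CVH.Targets2

set_option autoImplicit false

/-!
# CVH: target SUB
-/

noncomputable section

namespace Pool.Agent.CVH

namespace SUB_

variable {R : Type} [CommRing R]

/-- All coefficients of degree less than `N` vanish. -/
def Sm (N : ℕ) (f : MvPowerSeries (Fin 2) R) : Prop :=
  ∀ d : Fin 2 →₀ ℕ, d.degree < N → MvPowerSeries.coeff d f = 0

theorem Sm_iff {N : ℕ} {f : MvPowerSeries (Fin 2) R} : Sm N f ↔ (N : ℕ∞) ≤ f.order := by
  constructor
  · intro h
    exact MvPowerSeries.nat_le_order h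
  · intro h d hd
    exact MvPowerSeries.coeff_of_lt_order (lt_of_lt_of_le (by exact_mod_cast hd) h)

theorem Sm.mul {a b : ℕ} {f g : MvPowerSeries (Fin 2) R} (hf : Sm a f) (hg : Sm b g) :
    Sm (a + b) (f * g) := by
  rw [Sm_iff] at *
  refine le_trans ?_ MvPowerSeries.le_order_mul
  push_cast
  exact add_le_add hf hg

theorem Sm.add {a : ℕ} {f g : MvPowerSeries (Fin 2) R} (hf : Sm a f) (hg : Sm a g) :
    Sm a (f + g) := by
  intro d hd
  rw [map_add, hf d hd, hg d hd, add_zero]

theorem Sm.pow {f : MvPowerSeries (Fin 2) R} (hf : Sm 1 f) (n : ℕ) : Sm n (f ^ n) := by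
  induction n with
  | zero => intro d hd; exact absurd hd (Nat.not_lt_zero _)
  | succ n ih => rw [pow_succ]; exact ih.mul hf

theorem Sm.cast {a b : ℕ} {f : MvPowerSeries (Fin 2) R} (hf : Sm a f) (h : b ≤ a) : Sm b f :=
  fun d hd => hf d (lt_of_lt_of_le hd h)

theorem Sm.pow_sub {f g : MvPowerSeries (Fin 2) R} (hf : Sm 1 f) (hg : Sm 1 g) {r : ℕ}
    (h : Sm (r + 1) (f - g)) (n : ℕ) : Sm (n + r) (f ^ n - g ^ n) := by
  induction n with
  | zero => intro d _; simp
  | succ n ih =>
    have e : f ^ (n + 1) - g ^ (n + 1) = f ^ n * (f - g) + (f ^ n - g ^ n) * g := by ring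
    rw [e]
    exact ((hf.pow n).mul h).cast (by omega) |>.add ((ih.mul hg).cast (by omega))

theorem Sm.prod_sub {f g f' g' : MvPowerSeries (Fin 2) R} (hf : Sm 1 f) (hg : Sm 1 g)
    (hf' : Sm 1 f') (hg' : Sm 1 g') {r : ℕ} (h : Sm (r + 1) (f - f')) (h' : Sm (r + 1) (g - g'))
    (a b : ℕ) : Sm (a + b + r) (f ^ a * g ^ b - f' ^ a * g' ^ b) := by
  have e : f ^ a * g ^ b - f' ^ a * g' ^ b =
      f ^ a * (g ^ b - g' ^ b) + (f ^ a - f' ^ a) * g' ^ b := by ring
  rw [e]
  exact (((hf.pow a).mul (hg.pow_sub hg' h' b)).cast (by omega)).add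
    (((hf.pow_sub hf' h a).mul (hg'.pow b)).cast (by omega))

theorem Sm_one {f : MvPowerSeries (Fin 2) R} (hf : MvPowerSeries.constantCoeff f = 0) :
    Sm 1 f := by
  intro d hd
  have : d = 0 := (Finsupp.degree_eq_zero_iff d).mp (by omega)
  rw [this, MvPowerSeries.coeff_zero_eq_constantCoeff_apply, hf]

theorem deg_two (d : Fin 2 →₀ ℕ) : d.degree = d 0 + d 1 := by
  rw [Finsupp.degree_eq_sum, Fin.sum_univ_two]

/-- Substitution in a series without terms of degree less than two. -/
theorem coeff_subst_congr {H f g f' g' : MvPowerSeries (Fin 2) R} (hH : Sm 2 H)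
    (hf : MvPowerSeries.constantCoeff f = 0) (hg : MvPowerSeries.constantCoeff g = 0)
    (hf' : MvPowerSeries.constantCoeff f' = 0) (hg' : MvPowerSeries.constantCoeff g' = 0) {r : ℕ}
    (h : Sm (r + 1) (f - f')) (h' : Sm (r + 1) (g - g')) (e : Fin 2 →₀ ℕ)
    (he : e.degree < r + 2) :
    MvPowerSeries.coeff e (MvPowerSeries.subst ![f, g] H) =
      MvPowerSeries.coeff e (MvPowerSeries.subst ![f', g'] H) := by
  have key : ∀ (f g : MvPowerSeries (Fin 2) R) (d : Fin 2 →₀ ℕ),
      (d.prod fun s e => (![f, g] : Fin 2 → MvPowerSeries (Fin 2) R) s ^ e) =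
      f ^ d 0 * g ^ d 1 := by
    intro f g d
    rw [Finsupp.prod_fintype _ _ (fun i => pow_zero _), Fin.prod_univ_two]
    rfl
  rw [MvPowerSeries.coeff_subst (hs2 (hs_of_zero hf) (hs_of_zero hg)),
    MvPowerSeries.coeff_subst (hs2 (hs_of_zero hf') (hs_of_zero hg'))]
  refine finsum_congr fun d => ?_
  rw [key, key]
  by_cases hd : d.degree < 2
  · rw [hH d hd, zero_smul, zero_smul]
  · congr 1
    have h1 := Sm.prod_sub (Sm_one hf) (Sm_one hg) (Sm_one hf') (Sm_one hg') h h' (d 0) (d 1)
    have h2 := h1 e (by rw [deg_two] at hd ⊢; rw [deg_two] at he; omega)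
    rw [map_sub] at h2
    exact sub_eq_zero.mp h2

theorem e01 : (![MvPowerSeries.X 0, MvPowerSeries.X 1] : Fin 2 → MvPowerSeries (Fin 2) R) =
    MvPowerSeries.X := by
  funext i; fin_cases i <;> rfl

/-- The series `G - X - Y` has no terms of degree less than two. -/
theorem Sm_two (G : FormalGroup R) :
    Sm 2 (G.toPowerSeries - (MvPowerSeries.X 0 + MvPowerSeries.X 1)) := by
  classical
  intro d hd
  rw [deg_two] at hd
  have hcase : d = 0 ∨ d = Finsupp.single 0 1 ∨ d = Finsupp.single 1 1 := by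
    rcases Nat.eq_zero_or_pos (d 0) with h5 | h5
    · rcases Nat.eq_zero_or_pos (d 1) with h6 | h6
      · left
        ext i
        fin_cases i
        · exact h5
        · exact h6
      · right; right
        ext i
        fin_cases i
        · simp [h5]
        · simp; omega
    · right; left
      ext i
      fin_cases i
      · simp; omega
      · simp; omega
  rcases hcase with rfl | rfl | rfl
  · rw [MvPowerSeries.coeff_zero_eq_constantCoeff_apply]
    simp [G.zero_constantCoeff]
  · rw [map_sub, map_add, G.lin_coeff_X, MvPowerSeries.X, MvPowerSeries.X,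
      MvPowerSeries.coeff_monomial, MvPowerSeries.coeff_monomial, if_pos rfl, if_neg]
    · ring
    · intro h
      have := DFunLike.congr_fun h 0
      simp at this
  · rw [map_sub, map_add, G.lin_coeff_Y, MvPowerSeries.X, MvPowerSeries.X,
      MvPowerSeries.coeff_monomial, MvPowerSeries.coeff_monomial, if_neg, if_pos rfl]
    · ring
    · intro h
      have := DFunLike.congr_fun h 0
      simp at this

/-- Small changes of the arguments of a formal group law. -/
theorem coeff_addG_sub (G : FormalGroup R) {f g : MvPowerSeries (Fin 2) R}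
    (hf : MvPowerSeries.constantCoeff f = 0) (hg : MvPowerSeries.constantCoeff g = 0) {r : ℕ}
    (h : Sm (r + 1) (f - MvPowerSeries.X 0)) (h' : Sm (r + 1) (g - MvPowerSeries.X 1))
    (e : Fin 2 →₀ ℕ) (he : e.degree < r + 2) :
    MvPowerSeries.coeff e (addG G f g) = MvPowerSeries.coeff e G.toPowerSeries +
      MvPowerSeries.coeff e (f - MvPowerSeries.X 0) +
      MvPowerSeries.coeff e (g - MvPowerSeries.X 1) := by
  set H := G.toPowerSeries - (MvPowerSeries.X 0 + MvPowerSeries.X 1) with hH
  have hs := hs2 (hs_of_zero hf) (hs_of_zero hg)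
  have e1 : addG G f g = f + g + MvPowerSeries.subst ![f, g] H := by
    have e2 : G.toPowerSeries = MvPowerSeries.X 0 + MvPowerSeries.X 1 + H := by rw [hH]; ring
    unfold addG
    rw [e2, MvPowerSeries.subst_add hs, MvPowerSeries.subst_add hs, MvPowerSeries.subst_X hs,
      MvPowerSeries.subst_X hs]
    rfl
  have e3 := coeff_subst_congr (Sm_two G) hf hg (MvPowerSeries.constantCoeff_X 0)
    (MvPowerSeries.constantCoeff_X 1) h h' e he
  rw [e01, MvPowerSeries.subst_self, id] at e3
  rw [e1, map_add, map_add, hH, e3]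
  simp only [map_sub, map_add]
  ring

theorem X_pow_mul (a b : ℕ) : (MvPowerSeries.X 0 : MvPowerSeries (Fin 2) R) ^ a *
    MvPowerSeries.X 1 ^ b =
      MvPowerSeries.monomial (Finsupp.single 0 a + Finsupp.single 1 b) 1 := by
  rw [MvPowerSeries.X_pow_eq, MvPowerSeries.X_pow_eq, MvPowerSeries.monomial_mul_monomial,
    one_mul]

theorem e_inj {a b i j : ℕ} (h : (Finsupp.single 0 i + Finsupp.single 1 j : Fin 2 →₀ ℕ) =
    Finsupp.single 0 a + Finsupp.single 1 b) : i = a ∧ j = b := by
  have h0 := DFunLike.congr_fun h 0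
  have h1 := DFunLike.congr_fun h 1
  simp at h0 h1
  exact ⟨h0, h1⟩

theorem e_deg (i j : ℕ) :
    (Finsupp.single 0 i + Finsupp.single 1 j : Fin 2 →₀ ℕ).degree = i + j := by
  rw [deg_two]
  simp

/-- The binomial coefficient. -/
theorem coeff_binom (M i j : ℕ) (hij : i + j = M) :
    MvPowerSeries.coeff (Finsupp.single 0 i + Finsupp.single 1 j)
      ((MvPowerSeries.X 0 + MvPowerSeries.X 1 : MvPowerSeries (Fin 2) R) ^ M) =
      (M.choose i : R) := by
  classical
  rw [add_pow, map_sum]
  rw [Finset.sum_eq_single i]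
  · rw [X_pow_mul, ← map_natCast (MvPowerSeries.C (σ := Fin 2) (R := R)),
      MvPowerSeries.coeff_mul_C, MvPowerSeries.coeff_monomial, if_pos, one_mul]
    rw [show M - i = j by omega]
  · intro m _ hm
    rw [X_pow_mul, ← map_natCast (MvPowerSeries.C (σ := Fin 2) (R := R)),
      MvPowerSeries.coeff_mul_C, MvPowerSeries.coeff_monomial, if_neg, zero_mul]
    intro h
    exact hm (e_inj h).1.symm
  · intro h
    exact absurd (Finset.mem_range.mpr (by omega)) h

end SUB_

open SUB_ in
theorem p_SUB : T_SUB := by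
  classical
  intro R _ G G' M hM b hu
  have hG : PowerSeries.HasSubst G.toPowerSeries := hs_of_zero G.zero_constantCoeff
  have sub : ∀ a : MvPowerSeries (Fin 2) R, PowerSeries.HasSubst a →
      PowerSeries.subst a (PowerSeries.X + PowerSeries.C b * PowerSeries.X ^ M) =
        a + MvPowerSeries.C b * a ^ M := by
    intro a ha
    rw [PowerSeries.subst_add ha, PowerSeries.subst_mul ha, PowerSeries.subst_pow ha,
      PowerSeries.subst_X ha, PowerSeries.subst_C]
  have h0 : PowerSeries.HasSubst (MvPowerSeries.X 0 : MvPowerSeries (Fin 2) R) :=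
    PowerSeries.HasSubst.X 0
  have h1 : PowerSeries.HasSubst (MvPowerSeries.X 1 : MvPowerSeries (Fin 2) R) :=
    PowerSeries.HasSubst.X 1
  have e := hu.map_add
  rw [sub _ hG, sub _ h0, sub _ h1] at e
  have hX : ∀ s : Fin 2, Sm M (MvPowerSeries.C b *
      (MvPowerSeries.X s : MvPowerSeries (Fin 2) R) ^ M) := by
    intro s d hd
    rw [MvPowerSeries.coeff_C_mul, (Sm_one (MvPowerSeries.constantCoeff_X s)).pow M d hd,
      mul_zero]
  have hcc : ∀ s : Fin 2, MvPowerSeries.constantCoeff (MvPowerSeries.X s +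
      MvPowerSeries.C b * (MvPowerSeries.X s : MvPowerSeries (Fin 2) R) ^ M) = 0 := by
    intro s
    have : M ≠ 0 := by omega
    simp [this]
  have key : ∀ i j : ℕ, i + j ≤ M → c2 G i j + b * MvPowerSeries.coeff
      (Finsupp.single 0 i + Finsupp.single 1 j)
      ((MvPowerSeries.X 0 + MvPowerSeries.X 1 : MvPowerSeries (Fin 2) R) ^ M) =
      c2 G' i j + b * MvPowerSeries.coeff (Finsupp.single 0 i + Finsupp.single 1 j)
      ((MvPowerSeries.X 0 : MvPowerSeries (Fin 2) R) ^ M) +
      b * MvPowerSeries.coeff (Finsupp.single 0 i + Finsupp.single 1 j)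
      ((MvPowerSeries.X 1 : MvPowerSeries (Fin 2) R) ^ M) := by
    intro i j hij
    have hdeg := e_deg i j
    have e1 := congrArg (MvPowerSeries.coeff (Finsupp.single 0 i + Finsupp.single 1 j)) e
    rw [coeff_addG_sub G' (r := M - 1) (hcc 0) (hcc 1)
      (by rw [add_sub_cancel_left]; exact (hX 0).cast (by omega))
      (by rw [add_sub_cancel_left]; exact (hX 1).cast (by omega)) _ (by omega),
      add_sub_cancel_left, add_sub_cancel_left, map_add, MvPowerSeries.coeff_C_mul,
      MvPowerSeries.coeff_C_mul, MvPowerSeries.coeff_C_mul] at e1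
    have h2 := Sm.pow_sub (Sm_one G.zero_constantCoeff)
      (g := MvPowerSeries.X 0 + MvPowerSeries.X 1)
      (Sm_one (by simp)) (r := 1) (Sm_two G) M (Finsupp.single 0 i + Finsupp.single 1 j)
      (by omega)
    rw [map_sub] at h2
    rw [sub_eq_zero.mp h2] at e1
    exact e1
  have hXz : ∀ s : Fin 2, ∀ i j : ℕ, i + j < M → MvPowerSeries.coeff
      (Finsupp.single 0 i + Finsupp.single 1 j)
      ((MvPowerSeries.X s : MvPowerSeries (Fin 2) R) ^ M) = 0 := by
    intro s i j hij
    exact (Sm_one (MvPowerSeries.constantCoeff_X s)).pow M _ (by rw [e_deg]; exact hij)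
  refine ⟨fun i j hij => ?_, fun i j hi hj hij => ?_⟩
  · have h2 := key i j hij.le
    have h3 := (Sm_one (f := (MvPowerSeries.X 0 + MvPowerSeries.X 1 :
      MvPowerSeries (Fin 2) R)) (by simp)).pow M
      (Finsupp.single 0 i + Finsupp.single 1 j) (by rw [e_deg]; exact hij)
    rw [hXz 0 i j hij, hXz 1 i j hij, h3, mul_zero, add_zero, add_zero, add_zero] at h2
    exact h2.symm
  · have h2 := key i j hij.le
    have z0 : MvPowerSeries.coeff (Finsupp.single 0 i + Finsupp.single 1 j)
        ((MvPowerSeries.X 0 : MvPowerSeries (Fin 2) R) ^ M) = 0 := by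
      rw [MvPowerSeries.X_pow_eq, MvPowerSeries.coeff_monomial, if_neg]
      intro h
      have := DFunLike.congr_fun h 1
      simp at this
      omega
    have z1 : MvPowerSeries.coeff (Finsupp.single 0 i + Finsupp.single 1 j)
        ((MvPowerSeries.X 1 : MvPowerSeries (Fin 2) R) ^ M) = 0 := by
      rw [MvPowerSeries.X_pow_eq, MvPowerSeries.coeff_monomial, if_neg]
      intro h
      have := DFunLike.congr_fun h 0
      simp at this
      omega
    rw [coeff_binom M i j hij, z0, z1, mul_zero, add_zero, add_zero] at h2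
    exact h2.symm

end Pool.Agent.CVH
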