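import Pool.Agent.CVH.Targets2
import Pool.Agent.CVH.P_COMPL

set_option autoImplicit false

/-!
# CVH, target SURJ: change of coordinates
-/

noncomputable section

namespace Pool.Agent.CVH

namespace SURJ_

/-! ### Surjective endomorphisms of Noetherian rings -/

/-- The kernel of the iterate. -/
def kerIt {A : Type} [CommRing A] (θ : A →+* A) (i : ℕ) : Ideal A where
  carrier := {x | θ^[i] x = 0}
  zero_mem' := iterate_map_zero θ i
  add_mem' := by
    intro x y hx hy
    change θ^[i] x = 0 at hx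
    change θ^[i] y = 0 at hy
    change θ^[i] (x + y) = 0
    rw [iterate_map_add, hx, hy, add_zero]
  smul_mem' := by
    intro c x hx
    change θ^[i] x = 0 at hx
    change θ^[i] (c • x) = 0
    rw [smul_eq_mul, iterate_map_mul, hx, mul_zero]

theorem mem_kerIt {A : Type} [CommRing A] {θ : A →+* A} {i : ℕ} {x : A} :
    x ∈ kerIt θ i ↔ θ^[i] x = 0 := Iff.rfl

theorem endo_inj {A : Type} [CommRing A] [IsNoetherianRing A] (θ : A →+* A)
    (hs : Function.Surjective θ) : Function.Injective θ := by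
  have hmono : Monotone (kerIt θ) := by
    refine monotone_nat_of_le_succ fun i x hx => ?_
    rw [mem_kerIt] at hx ⊢
    rw [Function.iterate_succ_apply', hx, map_zero]
  obtain ⟨n, hn⟩ := monotone_stabilizes_iff_noetherian.2 (inferInstance : IsNoetherian A A)
    ⟨kerIt θ, hmono⟩
  rw [injective_iff_map_eq_zero]
  intro x hx
  obtain ⟨y, hy⟩ := hs.iterate n x
  have h1 : y ∈ kerIt θ (n + 1) := by
    rw [mem_kerIt, Function.iterate_succ_apply', hy, hx]
  have h2 : kerIt θ n = kerIt θ (n + 1) := hn (n + 1) (Nat.le_succ n)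
  rw [← h2, mem_kerIt, hy] at h1
  exact h1

/-! ### Surjectivity by successive approximation -/

section approx

variable {R A : Type} [CommRing R] [CommRing A] [Algebra R A]

/-- One step of the approximation. -/
theorem step {m : Ideal A} (θ : A →ₐ[R] A) (hmap : Ideal.map θ m = m)
    (hdec : ∀ a : A, ∃ w : R, a - algebraMap R A w ∈ m) (i : ℕ) (f : A) (hf : f ∈ m ^ i) :
    ∃ g ∈ m ^ i, f - θ g ∈ m ^ (i + 1) := by
  have h1 : Ideal.map θ (m ^ i) = m ^ i := by rw [Ideal.map_pow, hmap]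
  have hf' : f ∈ Submodule.span A (θ '' (m ^ i : Ideal A)) := by
    have : f ∈ Ideal.map θ (m ^ i) := by rw [h1]; exact hf
    exact this
  have hle : ∀ x, x ∈ Submodule.span A (θ '' (m ^ i : Ideal A)) → x ∈ m ^ i := by
    intro x hx
    rw [← h1]
    exact hx
  induction hf' using Submodule.span_induction with
  | mem x hx =>
    obtain ⟨g, hg, rfl⟩ := hx
    exact ⟨g, hg, by rw [sub_self]; exact Ideal.zero_mem _⟩
  | zero => exact ⟨0, Ideal.zero_mem _, by rw [map_zero, sub_zero]; exact Ideal.zero_mem _⟩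
  | add x y hx hy ihx ihy =>
    obtain ⟨g, hg, hg'⟩ := ihx (hle x hx)
    obtain ⟨h, hh, hh'⟩ := ihy (hle y hy)
    refine ⟨g + h, Ideal.add_mem _ hg hh, ?_⟩
    have e : x + y - θ (g + h) = (x - θ g) + (y - θ h) := by
      rw [map_add]; ring
    rw [e]
    exact Ideal.add_mem _ hg' hh'
  | smul a x hx ihx =>
    obtain ⟨g, hg, hg'⟩ := ihx (hle x hx)
    obtain ⟨w, hw⟩ := hdec a
    refine ⟨algebraMap R A w * g, Ideal.mul_mem_left _ _ hg, ?_⟩
    have e : a • x - θ (algebraMap R A w * g) =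
        algebraMap R A w * (x - θ g) + (a - algebraMap R A w) * x := by
      rw [map_mul, AlgHom.commutes, smul_eq_mul]; ring
    rw [e, pow_succ']
    refine Ideal.add_mem _ ?_ (Ideal.mul_mem_mul hw (hle x hx))
    rw [← pow_succ']
    exact Ideal.mul_mem_left _ _ hg'

theorem surj {m : Ideal A} [hA : IsAdicComplete m A] (θ : A →ₐ[R] A) (hmap : Ideal.map θ m = m)
    (hdec : ∀ a : A, ∃ w : R, a - algebraMap R A w ∈ m) : Function.Surjective θ := by
  intro f
  have hstep : ∀ (i : ℕ) (g : A), f - θ g ∈ m ^ i →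
      ∃ g' : A, g' - g ∈ m ^ i ∧ f - θ g' ∈ m ^ (i + 1) := by
    intro i g hg
    obtain ⟨h, hh, hh'⟩ := step θ hmap hdec i (f - θ g) hg
    refine ⟨g + h, by rw [add_sub_cancel_left]; exact hh, ?_⟩
    have e : f - θ (g + h) = f - θ g - θ h := by rw [map_add]; ring
    rw [e]
    exact hh'
  choose G hG using hstep
  let T : (i : ℕ) → {g : A // f - θ g ∈ m ^ i} := fun i =>
    Nat.rec ⟨0, by rw [pow_zero, Ideal.one_eq_top]; exact Submodule.mem_top⟩
      (fun i g => ⟨G i g.1 g.2, (hG i g.1 g.2).2⟩) i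
  have hT : ∀ i, (T (i + 1)).1 - (T i).1 ∈ m ^ i := fun i => (hG i (T i).1 (T i).2).1
  have hmem : ∀ (x : A) (n : ℕ), x ∈ (m ^ n • ⊤ : Submodule A A) ↔ x ∈ m ^ n := by
    intro x n
    rw [smul_eq_mul, Ideal.mul_top]
  have hT' : ∀ i j, i ≤ j → (T i).1 - (T j).1 ∈ m ^ i := by
    intro i j hij
    induction j, hij using Nat.le_induction with
    | base => rw [sub_self]; exact Ideal.zero_mem _
    | succ j hij ih =>
      have e : (T i).1 - (T (j + 1)).1 = ((T i).1 - (T j).1) - ((T (j + 1)).1 - (T j).1) := by ring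
      rw [e]
      exact Ideal.sub_mem _ ih (Ideal.pow_le_pow_right hij (hT j))
  obtain ⟨L, hL⟩ := IsPrecomplete.prec hA.toIsPrecomplete (f := fun i => (T i).1) (by
    intro i j hij
    rw [SModEq.sub_mem, hmem]
    exact hT' i j hij)
  refine ⟨L, ?_⟩
  have hθ : ∀ (i : ℕ) (x : A), x ∈ m ^ i → θ x ∈ m ^ i := by
    intro i x hx
    have h1 : Ideal.map θ (m ^ i) = m ^ i := by rw [Ideal.map_pow, hmap]
    rw [← h1]
    exact Ideal.mem_map_of_mem θ hx
  have h2 : f - θ L = 0 := by
    refine IsHausdorff.haus hA.toIsHausdorff _ fun n => ?_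
    rw [SModEq.sub_mem, sub_zero, hmem]
    have h3 := hL n
    rw [SModEq.sub_mem, hmem] at h3
    have e : f - θ L = (f - θ (T n).1) + θ ((T n).1 - L) := by rw [map_sub]; ring
    rw [e]
    exact Ideal.add_mem _ (T n).2 (hθ n _ h3)
  exact (sub_eq_zero.1 h2).symm

end approx

end SURJ_

open SURJ_ MvPowerSeries in
theorem p_SURJ : T_SURJ := by
  intro p _ n v hv0 hspan
  have hW : ∀ x : Wb p, ¬ IsUnit x ↔ (p : Wb p) ∣ x := by
    intro x
    rw [← Ideal.mem_span_singleton, ← WittVector.ker_constantCoeff, RingHom.mem_ker]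
    constructor
    · intro hx
      by_contra h0
      exact hx (WittVector.isUnit_of_coeff_zero_ne_zero _ h0)
    · intro hx hu
      have h1 := hu.map (WittVector.constantCoeff : Wb p →+* Kb p)
      rw [hx] at h1
      exact not_isUnit_zero h1
  have hA : ∀ f : Ab p n, f ∈ IsLocalRing.maximalIdeal (Ab p n) ↔
      (p : Wb p) ∣ MvPowerSeries.constantCoeff f := by
    intro f
    rw [IsLocalRing.mem_maximalIdeal, mem_nonunits_iff, MvPowerSeries.isUnit_iff_constantCoeff, hW]
  have ha : HasSubst v := hasSubst_of_constantCoeff_zero hv0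
  obtain ⟨θ, hθX⟩ : ∃ θ : Ab p n →ₐ[Wb p] Ab p n, ∀ j, θ (MvPowerSeries.X j) = v j :=
    ⟨substAlgHom ha, fun j => substAlgHom_X ha j⟩
  have hCm : ∀ w : Wb p, (p : Wb p) ∣ w → (MvPowerSeries.C w : Ab p n) ∈
      IsLocalRing.maximalIdeal (Ab p n) := by
    intro w hw
    rw [hA, constantCoeff_C]
    exact hw
  have hvm : ∀ j, v j ∈ IsLocalRing.maximalIdeal (Ab p n) := by
    intro j
    rw [hA, hv0]
    exact dvd_zero _
  have hXm : ∀ j, (MvPowerSeries.X j : Ab p n) ∈ IsLocalRing.maximalIdeal (Ab p n) := by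
    intro j
    rw [hA, constantCoeff_X]
    exact dvd_zero _
  have hθC : ∀ w : Wb p, θ (MvPowerSeries.C w) = MvPowerSeries.C w := fun w => θ.commutes w
  have hmap : Ideal.map θ (IsLocalRing.maximalIdeal (Ab p n)) =
      IsLocalRing.maximalIdeal (Ab p n) := by
    apply le_antisymm
    · rw [Ideal.map_le_iff_le_comap]
      intro f hf
      rw [Ideal.mem_comap, COMPL_.decomp f, map_add, map_sum, hθC]
      refine Ideal.add_mem _ (hCm _ ?_) (Ideal.sum_mem _ fun j _ => ?_)
      · exact (hA f).1 hf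
      · rw [map_mul, hθX]
        exact Ideal.mul_mem_right _ _ (hvm j)
    · rw [← hspan, Ideal.span_le, hspan]
      rintro x (hx | ⟨j, rfl⟩)
      · rw [Set.mem_singleton_iff] at hx
        have h1 : (p : Ab p n) = θ (p : Ab p n) := (map_natCast θ p).symm
        rw [hx, h1]
        refine Ideal.mem_map_of_mem θ ?_
        have h2 : (p : Ab p n) = MvPowerSeries.C (p : Wb p) := by rw [map_natCast]
        rw [h2]
        exact hCm _ dvd_rfl
      · rw [← hθX]
        exact Ideal.mem_map_of_mem θ (hXm j)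
  have hdec : ∀ a : Ab p n, ∃ w : Wb p, a - algebraMap (Wb p) (Ab p n) w ∈
      IsLocalRing.maximalIdeal (Ab p n) := by
    intro a
    refine ⟨constantCoeff a, ?_⟩
    have h1 : algebraMap (Wb p) (Ab p n) (constantCoeff a) = MvPowerSeries.C (constantCoeff a) :=
      rfl
    rw [hA, map_sub, h1, constantCoeff_C, sub_self]
    exact dvd_zero _
  have : IsAdicComplete (IsLocalRing.maximalIdeal (Ab p n)) (Ab p n) := p_COMPL p n
  have hs : Function.Surjective θ := surj θ hmap hdec
  have hi : Function.Injective θ := endo_inj (θ : Ab p n →+* Ab p n) hs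
  exact ⟨AlgEquiv.ofBijective θ ⟨hi, hs⟩, fun j => hθX j⟩

end Pool.Agent.CVH
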