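import Pool.Agent.CVH.Trans
import Pool.Agent.CVH.P_CMP
import Pool.Agent.CVH.P_CO
import Pool.Agent.CVH.P_COC
import Pool.Agent.CVH.P_CONJ
import Pool.Agent.CVH.P_FIX
import Pool.Agent.CVH.P_FROB
import Pool.Agent.CVH.P_LAZ
import Pool.Agent.CVH.P_LTG
import Pool.Agent.CVH.P_NORM
import Pool.Agent.CVH.P_PD
import Pool.Agent.CVH.P_STEP
import Pool.Agent.CVH.P_SUB
import Pool.Agent.CVH.P_SURJ

set_option autoImplicit false

/-!
# CVH: the invariants of `A / p`, without technical hypotheses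
-/

noncomputable section

namespace Pool.Agent.CVH

theorem t_STEP : T_STEP := p_STEP p_FIX p_COC p_CO p_PD p_SUB p_CONJ

theorem t_CMP : T_CMP := p_CMP t_STEP

theorem t_LAZ : T_LAZ := p_LAZ p_FROB (p_LTG p_CONJ) p_NORM p_CONJ t_CMP

/-- For every formal group law of height `n` and every universal deformation of it the invariants
of `A / p` are constant. -/
theorem invConst_all {p : ℕ} [Fact p.Prime] {n : ℕ} (hn : 1 ≤ n) {Γ : FormalGroup (Kb p)}
    (ht : (mulSeries Γ p).order = ((p ^ n : ℕ) : ℕ∞)) {F : FormalGroup (Ab p n)}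
    (hF : IsUniversalDeformation p n Γ F) : InvConst hF := by
  have hcomm := hF.comm
  have hΓ : Γ.IsComm := by
    rw [← hF.red]
    infer_instance
  obtain ⟨S, hS, hSn⟩ := t_LAZ p n hn (Kb p) Γ ht
  exact invConst p_FROB p_SURJ hF hn ht hS hSn

end Pool.Agent.CVH
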