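import Pool.Agent.CVH.Defs

set_option autoImplicit false

/-!
# CVH: basic library on homomorphisms of formal group laws
-/

noncomputable section

namespace Pool.Agent.CVH

section FG

variable {R : Type} [CommRing R]

theorem hs_of_zero {τ : Type} {a : MvPowerSeries τ R} (ha : MvPowerSeries.constantCoeff a = 0) :
    PowerSeries.HasSubst a := PowerSeries.HasSubst.of_constantCoeff_zero ha

theorem hs2 {τ : Type} {a b : MvPowerSeries τ R} (ha : PowerSeries.HasSubst a)
    (hb : PowerSeries.HasSubst b) : MvPowerSeries.HasSubst ![a, b] :=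
  MvPowerSeries.hasSubst_of_constantCoeff_nilpotent (by intro s; fin_cases s <;> simpa)

theorem addG_hs {τ : Type} (G : FormalGroup R) {a b : MvPowerSeries τ R}
    (ha : PowerSeries.HasSubst a) (hb : PowerSeries.HasSubst b) :
    PowerSeries.HasSubst (addG G a b) :=
  MvPowerSeries.IsNilpotent_subst (hs2 ha hb) (G.zero_constantCoeff ▸ IsNilpotent.zero)

theorem addG_zero_cc {τ : Type} (G : FormalGroup R) {a b : MvPowerSeries τ R}
    (ha : MvPowerSeries.constantCoeff a = 0) (hb : MvPowerSeries.constantCoeff b = 0) :
    MvPowerSeries.constantCoeff (addG G a b) = 0 := by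
  refine MvPowerSeries.constantCoeff_subst_eq_zero (hs2 (hs_of_zero ha) (hs_of_zero hb)) ?_
    G.zero_constantCoeff
  intro s; fin_cases s <;> simpa

/-- Substitution in a sum. -/
theorem subst_addG {τ υ : Type} (G : FormalGroup R) {a b : MvPowerSeries τ R}
    (ha : PowerSeries.HasSubst a) (hb : PowerSeries.HasSubst b) {s : τ → MvPowerSeries υ R}
    (hs : MvPowerSeries.HasSubst s) :
    MvPowerSeries.subst s (addG G a b) = addG G (MvPowerSeries.subst s a)
      (MvPowerSeries.subst s b) := by
  unfold addG
  rw [MvPowerSeries.subst_comp_subst_apply (hs2 ha hb) hs]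
  congr 1
  funext i
  fin_cases i <;> simp

theorem psubst_addG {υ : Type} (G : FormalGroup R) {a b : PowerSeries R}
    (ha : PowerSeries.HasSubst a) (hb : PowerSeries.HasSubst b) {s : MvPowerSeries υ R}
    (hs : PowerSeries.HasSubst s) :
    PowerSeries.subst s (addG G a b) = addG G (PowerSeries.subst s a)
      (PowerSeries.subst s b) :=
  subst_addG G ha hb hs.const

/-- Substitution in a composite. -/
theorem mvsubst_psubst {τ υ : Type} (f : PowerSeries R) {a : MvPowerSeries τ R}
    (ha : PowerSeries.HasSubst a) {s : τ → MvPowerSeries υ R}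
    (hs : MvPowerSeries.HasSubst s) :
    MvPowerSeries.subst s (PowerSeries.subst a f) =
      PowerSeries.subst (MvPowerSeries.subst s a) f := by
  unfold PowerSeries.subst
  rw [MvPowerSeries.subst_comp_subst_apply ha.const hs]

theorem IsHom.apply {F G : FormalGroup R} {f : PowerSeries R} (hf : IsHom F G f) {τ : Type}
    {a b : MvPowerSeries τ R} (ha : PowerSeries.HasSubst a) (hb : PowerSeries.HasSubst b) :
    PowerSeries.subst (addG F a b) f = addG G (PowerSeries.subst a f) (PowerSeries.subst b f) := by
  have h0 : PowerSeries.HasSubst (MvPowerSeries.X 0 : MvPowerSeries (Fin 2) R) :=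
    PowerSeries.HasSubst.X 0
  have h1 : PowerSeries.HasSubst (MvPowerSeries.X 1 : MvPowerSeries (Fin 2) R) :=
    PowerSeries.HasSubst.X 1
  have hF : PowerSeries.HasSubst F.toPowerSeries := hs_of_zero F.zero_constantCoeff
  have e := congrArg (MvPowerSeries.subst ![a, b]) hf.map_add
  rw [mvsubst_psubst f hF (hs2 ha hb), subst_addG G ?_ ?_ (hs2 ha hb),
    mvsubst_psubst f h0 (hs2 ha hb), mvsubst_psubst f h1 (hs2 ha hb),
    MvPowerSeries.subst_X (hs2 ha hb), MvPowerSeries.subst_X (hs2 ha hb)] at e
  · simpa [addG] using e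
  · exact hs_of_zero (PowerSeries.constantCoeff_subst_eq_zero (by simp) _ hf.zero)
  · exact hs_of_zero (PowerSeries.constantCoeff_subst_eq_zero (by simp) _ hf.zero)

theorem cc_psubst {τ : Type} {a : MvPowerSeries τ R} {f : PowerSeries R}
    (ha : MvPowerSeries.constantCoeff a = 0) (hf : PowerSeries.constantCoeff f = 0) :
    MvPowerSeries.constantCoeff (PowerSeries.subst a f) = 0 :=
  PowerSeries.constantCoeff_subst_eq_zero ha _ hf

theorem comp_zero_cc {f g : PowerSeries R} (hf : PowerSeries.constantCoeff f = 0)
    (hg : PowerSeries.constantCoeff g = 0) : PowerSeries.constantCoeff (comp f g) = 0 :=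
  cc_psubst hg hf

theorem comp_assoc {f g h : PowerSeries R} (hg : PowerSeries.constantCoeff g = 0)
    (hh : PowerSeries.constantCoeff h = 0) : comp (comp f g) h = comp f (comp g h) := by
  unfold comp
  rw [PowerSeries.subst_comp_subst_apply (hs_of_zero hg) (hs_of_zero hh)]

theorem X_comp {f : PowerSeries R} (hf : PowerSeries.constantCoeff f = 0) :
    comp PowerSeries.X f = f := PowerSeries.subst_X (hs_of_zero hf)

theorem comp_X (f : PowerSeries R) : comp f PowerSeries.X = f := PowerSeries.X_subst f

/-- Substitution in a composite, one variable inside. -/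
theorem psubst_comp {τ : Type} {f g : PowerSeries R} (hg : PowerSeries.constantCoeff g = 0)
    {a : MvPowerSeries τ R} (ha : PowerSeries.HasSubst a) :
    PowerSeries.subst a (comp f g) = PowerSeries.subst (PowerSeries.subst a g) f := by
  unfold comp
  rw [PowerSeries.subst_comp_subst_apply (hs_of_zero hg) ha]

theorem isHom_X (F : FormalGroup R) : IsHom F F PowerSeries.X where
  zero := by simp
  map_add := by
    have h0 : PowerSeries.HasSubst (MvPowerSeries.X 0 : MvPowerSeries (Fin 2) R) :=
      PowerSeries.HasSubst.X 0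
    have h1 : PowerSeries.HasSubst (MvPowerSeries.X 1 : MvPowerSeries (Fin 2) R) :=
      PowerSeries.HasSubst.X 1
    rw [PowerSeries.subst_X (hs_of_zero F.zero_constantCoeff), PowerSeries.subst_X h0,
      PowerSeries.subst_X h1]
    unfold addG
    have : (![MvPowerSeries.X 0, MvPowerSeries.X 1] : Fin 2 → MvPowerSeries (Fin 2) R) =
        MvPowerSeries.X := by
      funext i; fin_cases i <;> rfl
    rw [this, MvPowerSeries.subst_self]
    rfl

theorem IsHom.comp {F G H : FormalGroup R} {f g : PowerSeries R} (hf : IsHom G H f)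
    (hg : IsHom F G g) : IsHom F H (comp f g) where
  zero := comp_zero_cc hf.zero hg.zero
  map_add := by
    have h0 : PowerSeries.HasSubst (MvPowerSeries.X 0 : MvPowerSeries (Fin 2) R) :=
      PowerSeries.HasSubst.X 0
    have h1 : PowerSeries.HasSubst (MvPowerSeries.X 1 : MvPowerSeries (Fin 2) R) :=
      PowerSeries.HasSubst.X 1
    rw [psubst_comp hg.zero (hs_of_zero F.zero_constantCoeff), hg.map_add,
      hf.apply (hs_of_zero (cc_psubst (by simp) hg.zero))
        (hs_of_zero (cc_psubst (by simp) hg.zero)), psubst_comp hg.zero h0,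
      psubst_comp hg.zero h1]

theorem isHom_zero (F G : FormalGroup R) : IsHom F G 0 where
  zero := by simp
  map_add := by
    have e : ∀ {τ : Type} (a : MvPowerSeries τ R), PowerSeries.HasSubst a →
        PowerSeries.subst a (0 : PowerSeries R) = 0 := by
      intro τ a ha
      rw [← PowerSeries.coe_substAlgHom ha, map_zero]
    rw [e _ (hs_of_zero F.zero_constantCoeff), e _ (PowerSeries.HasSubst.X 0),
      e _ (PowerSeries.HasSubst.X 1)]
    exact (G.add_zero PowerSeries.HasSubst.zero).symm

section comm

variable {τ : Type} (G : FormalGroup R) [G.IsComm]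

theorem addG_comm {a b : MvPowerSeries τ R} (ha : PowerSeries.HasSubst a)
    (hb : PowerSeries.HasSubst b) : addG G a b = addG G b a := G.comm' ha hb

omit [G.IsComm] in
theorem addG_assoc {a b c : MvPowerSeries τ R} (ha : PowerSeries.HasSubst a)
    (hb : PowerSeries.HasSubst b) (hc : PowerSeries.HasSubst c) :
    addG G (addG G a b) c = addG G a (addG G b c) := G.assoc' ha hb hc

omit [G.IsComm] in
theorem addG_zero {a : MvPowerSeries τ R} (ha : PowerSeries.HasSubst a) :
    addG G a 0 = a := G.add_zero ha

omit [G.IsComm] in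
theorem zero_addG {a : MvPowerSeries τ R} (ha : PowerSeries.HasSubst a) :
    addG G 0 a = a := G.zero_add ha

theorem addG_add_add {a b c d : MvPowerSeries τ R} (ha : PowerSeries.HasSubst a)
    (hb : PowerSeries.HasSubst b) (hc : PowerSeries.HasSubst c) (hd : PowerSeries.HasSubst d) :
    addG G (addG G a b) (addG G c d) = addG G (addG G a c) (addG G b d) := by
  rw [addG_assoc G ha hb (addG_hs G hc hd), ← addG_assoc G hb hc hd, addG_comm G hb hc,
    addG_assoc G hc hb hd, ← addG_assoc G ha hc (addG_hs G hb hd)]

end comm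

theorem IsHom.add {F G : FormalGroup R} [G.IsComm] {f g : PowerSeries R} (hf : IsHom F G f)
    (hg : IsHom F G g) : IsHom F G (addG G f g) where
  zero := addG_zero_cc G hf.zero hg.zero
  map_add := by
    have h0 : PowerSeries.HasSubst (MvPowerSeries.X 0 : MvPowerSeries (Fin 2) R) :=
      PowerSeries.HasSubst.X 0
    have h1 : PowerSeries.HasSubst (MvPowerSeries.X 1 : MvPowerSeries (Fin 2) R) :=
      PowerSeries.HasSubst.X 1
    have c : ∀ (i : Fin 2) {f : PowerSeries R}, PowerSeries.constantCoeff f = 0 →
        PowerSeries.HasSubst (PowerSeries.subst (MvPowerSeries.X i : MvPowerSeries (Fin 2) R) f) :=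
      fun i f hf => hs_of_zero (cc_psubst (by simp) hf)
    rw [psubst_addG G (hs_of_zero hf.zero) (hs_of_zero hg.zero)
      (hs_of_zero F.zero_constantCoeff), hf.map_add, hg.map_add,
      addG_add_add G (c 0 hf.zero) (c 1 hf.zero) (c 0 hg.zero) (c 1 hg.zero),
      psubst_addG G (hs_of_zero hf.zero) (hs_of_zero hg.zero) h0,
      psubst_addG G (hs_of_zero hf.zero) (hs_of_zero hg.zero) h1]

theorem comp_addG (G : FormalGroup R) {f g h : PowerSeries R}
    (hf : PowerSeries.constantCoeff f = 0) (hg : PowerSeries.constantCoeff g = 0)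
    (hh : PowerSeries.constantCoeff h = 0) :
    comp (addG G f g) h = addG G (comp f h) (comp g h) :=
  psubst_addG G (hs_of_zero hf) (hs_of_zero hg) (hs_of_zero hh)

theorem IsHom.comp_add {F G : FormalGroup R} {f g h : PowerSeries R} (hf : IsHom F G f)
    (hg : PowerSeries.constantCoeff g = 0) (hh : PowerSeries.constantCoeff h = 0) :
    Pool.Agent.CVH.comp f (addG F g h) =
      addG G (Pool.Agent.CVH.comp f g) (Pool.Agent.CVH.comp f h) :=
  hf.apply (hs_of_zero hg) (hs_of_zero hh)

/-! ### The multiplication series -/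

theorem mulSeries_zero_cc (F : FormalGroup R) (m : ℕ) :
    PowerSeries.constantCoeff (mulSeries F m) = 0 := by
  induction m with
  | zero => simp [mulSeries]
  | succ m ih => exact addG_zero_cc F ih (by simp [← PowerSeries.constantCoeff.eq_def])

theorem isHom_mulSeries (F : FormalGroup R) [F.IsComm] (m : ℕ) : IsHom F F (mulSeries F m) := by
  induction m with
  | zero => exact isHom_zero F F
  | succ m ih => exact ih.add (isHom_X F)

theorem mulSeries_one (F : FormalGroup R) : mulSeries F 1 = PowerSeries.X :=
  zero_addG F PowerSeries.HasSubst.X'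

theorem IsHom.comp_mulSeries {F G : FormalGroup R} {f : PowerSeries R} (hf : IsHom F G f)
    (m : ℕ) : Pool.Agent.CVH.comp f (mulSeries F m) =
      Pool.Agent.CVH.comp (mulSeries G m) f := by
  induction m with
  | zero =>
    unfold mulSeries Pool.Agent.CVH.comp
    rw [PowerSeries.subst_zero_of_constantCoeff_zero hf.zero,
      ← PowerSeries.coe_substAlgHom (hs_of_zero hf.zero), map_zero]
  | succ m ih =>
    change Pool.Agent.CVH.comp f (addG F (mulSeries F m) PowerSeries.X) =
      Pool.Agent.CVH.comp (addG G (mulSeries G m) PowerSeries.X) f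
    rw [hf.comp_add (mulSeries_zero_cc F m) (by simp),
      comp_addG G (mulSeries_zero_cc G m) (by simp) hf.zero, ih, comp_X, X_comp hf.zero]

theorem mulSeries_add (F : FormalGroup R) (m l : ℕ) :
    mulSeries F (m + l) = addG F (mulSeries F m) (mulSeries F l) := by
  induction l with
  | zero => exact (addG_zero F (hs_of_zero (mulSeries_zero_cc F m))).symm
  | succ l ih =>
    change addG F (mulSeries F (m + l)) PowerSeries.X =
      addG F (mulSeries F m) (addG F (mulSeries F l) PowerSeries.X)
    rw [ih, addG_assoc F (hs_of_zero (mulSeries_zero_cc F m))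
      (hs_of_zero (mulSeries_zero_cc F l)) PowerSeries.HasSubst.X']

theorem mulSeries_mul (F : FormalGroup R) [F.IsComm] (m l : ℕ) :
    mulSeries F (m * l) = comp (mulSeries F m) (mulSeries F l) := by
  induction l with
  | zero =>
    change (0 : PowerSeries R) = comp (mulSeries F m) 0
    unfold comp
    rw [PowerSeries.subst_zero_of_constantCoeff_zero (mulSeries_zero_cc F m)]
  | succ l ih =>
    rw [Nat.mul_succ, mulSeries_add, ih]
    change _ = comp (mulSeries F m) (addG F (mulSeries F l) PowerSeries.X)
    rw [(isHom_mulSeries F m).comp_add (mulSeries_zero_cc F l) (by simp), comp_X]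

/-! ### Base change -/

section map

variable {S : Type} [CommRing S] (φ : R →+* S)

theorem map_addG {τ : Type} (G : FormalGroup R) {a b : MvPowerSeries τ R}
    (ha : PowerSeries.HasSubst a) (hb : PowerSeries.HasSubst b) :
    MvPowerSeries.map φ (addG G a b) =
      addG (G.map φ) (MvPowerSeries.map φ a) (MvPowerSeries.map φ b) := by
  unfold addG
  rw [MvPowerSeries.map_subst (hs2 ha hb)]
  congr 1
  funext i
  fin_cases i <;> simp

theorem map_comp {f g : PowerSeries R} (hg : PowerSeries.constantCoeff g = 0) :
    PowerSeries.map φ (comp f g) = comp (PowerSeries.map φ f) (PowerSeries.map φ g) :=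
  PowerSeries.map_subst (hs_of_zero hg) f

theorem map_zero_cc {f : PowerSeries R} (hf : PowerSeries.constantCoeff f = 0) :
    PowerSeries.constantCoeff (PowerSeries.map φ f) = 0 := by
  rw [← PowerSeries.coeff_zero_eq_constantCoeff_apply, PowerSeries.coeff_map,
    PowerSeries.coeff_zero_eq_constantCoeff_apply, hf, map_zero]

theorem IsHom.map {F G : FormalGroup R} {f : PowerSeries R} (hf : IsHom F G f) :
    IsHom (F.map φ) (G.map φ) (PowerSeries.map φ f) where
  zero := map_zero_cc φ hf.zero
  map_add := by
    have h0 : PowerSeries.HasSubst (MvPowerSeries.X 0 : MvPowerSeries (Fin 2) R) :=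
      PowerSeries.HasSubst.X 0
    have h1 : PowerSeries.HasSubst (MvPowerSeries.X 1 : MvPowerSeries (Fin 2) R) :=
      PowerSeries.HasSubst.X 1
    have c : ∀ (i : Fin 2),
        PowerSeries.HasSubst (PowerSeries.subst (MvPowerSeries.X i : MvPowerSeries (Fin 2) R) f) :=
      fun i => hs_of_zero (cc_psubst (by simp) hf.zero)
    have e := congrArg (MvPowerSeries.map φ) hf.map_add
    rw [map_addG φ G (c 0) (c 1)] at e
    have e1 := PowerSeries.map_subst (h := φ) (hs_of_zero F.zero_constantCoeff) f
    have e2 := PowerSeries.map_subst (h := φ) h0 f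
    have e3 := PowerSeries.map_subst (h := φ) h1 f
    rw [e1, e2, e3, MvPowerSeries.map_X, MvPowerSeries.map_X] at e
    exact e

theorem map_mulSeries (F : FormalGroup R) (m : ℕ) :
    PowerSeries.map φ (mulSeries F m) = mulSeries (F.map φ) m := by
  induction m with
  | zero => simp [mulSeries]
  | succ m ih =>
    change MvPowerSeries.map φ (addG F (mulSeries F m) PowerSeries.X) =
      addG (F.map φ) (mulSeries (F.map φ) m) PowerSeries.X
    rw [map_addG φ F (hs_of_zero (mulSeries_zero_cc F m)) PowerSeries.HasSubst.X', ← ih]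
    congr 1
    exact PowerSeries.map_X φ

theorem map_map_FG {T : Type} [CommRing T] (ψ : S →+* T) (F : FormalGroup R) :
    (F.map φ).map ψ = F.map (ψ.comp φ) := by
  ext1
  change MvPowerSeries.map ψ (MvPowerSeries.map φ F.toPowerSeries) =
    MvPowerSeries.map (ψ.comp φ) F.toPowerSeries
  ext e
  simp

theorem map_id_FG (F : FormalGroup R) : F.map (RingHom.id R) = F := by
  ext1
  change MvPowerSeries.map (RingHom.id R) F.toPowerSeries = F.toPowerSeries
  ext e
  simp

instance map_isComm (F : FormalGroup R) [F.IsComm] : (F.map φ).IsComm where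
  comm := by
    change MvPowerSeries.map φ F.toPowerSeries = MvPowerSeries.subst _
      (MvPowerSeries.map φ F.toPowerSeries)
    conv_lhs => rw [FormalGroup.IsComm.comm (F := F)]
    rw [MvPowerSeries.map_subst MvPowerSeries.HasSubst.X_X]
    congr 1
    funext i
    fin_cases i <;> simp

end map

end FG

end Pool.Agent.CVH
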