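import Pool.Agent.CVH.Targets

set_option autoImplicit false

/-!
# CVH: inverses, orders, endomorphism monoid, lifts of automorphisms
-/

noncomputable section

namespace Pool.Agent.CVH

section FG

variable {R : Type} [CommRing R]

/-! ### Inverse of a homomorphism -/

theorem exists_inv {F G : FormalGroup R} {f : PowerSeries R} (hf : IsHom F G f)
    (hu : IsUnit (PowerSeries.coeff 1 f)) :
    ∃ g : PowerSeries R, IsHom G F g ∧ comp f g = PowerSeries.X ∧ comp g f = PowerSeries.X := by
  set g := f.substInvOfIsUnit hu with hg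
  have hg0 : PowerSeries.constantCoeff g = 0 := PowerSeries.constantCoeff_substInvOfIsUnit f hu
  have h1 : comp f g = PowerSeries.X := PowerSeries.subst_substInvOfIsUnit_right f hf.zero hu
  have h2 : comp g f = PowerSeries.X := PowerSeries.subst_substInvOfIsUnit_left f hf.zero hu
  refine ⟨g, ⟨hg0, ?_⟩, h1, h2⟩
  have h0 : PowerSeries.HasSubst (MvPowerSeries.X 0 : MvPowerSeries (Fin 2) R) :=
    PowerSeries.HasSubst.X 0
  have h1' : PowerSeries.HasSubst (MvPowerSeries.X 1 : MvPowerSeries (Fin 2) R) :=
    PowerSeries.HasSubst.X 1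
  have c : ∀ (i : Fin 2), MvPowerSeries.constantCoeff
      (PowerSeries.subst (MvPowerSeries.X i : MvPowerSeries (Fin 2) R) g) = 0 :=
    fun i => cc_psubst (by simp) hg0
  set a := PowerSeries.subst (MvPowerSeries.X 0 : MvPowerSeries (Fin 2) R) g with ha
  set b := PowerSeries.subst (MvPowerSeries.X 1 : MvPowerSeries (Fin 2) R) g with hb
  have e1 := hf.apply (hs_of_zero (c 0)) (hs_of_zero (c 1))
  rw [← psubst_comp hg0 h0, ← psubst_comp hg0 h1', h1, PowerSeries.subst_X h0,
    PowerSeries.subst_X h1'] at e1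
  have e2 : addG G (MvPowerSeries.X 0) (MvPowerSeries.X 1) = G.toPowerSeries := by
    unfold addG
    have : (![MvPowerSeries.X 0, MvPowerSeries.X 1] : Fin 2 → MvPowerSeries (Fin 2) R) =
        MvPowerSeries.X := by
      funext i; fin_cases i <;> rfl
    rw [this, MvPowerSeries.subst_self]
    rfl
  rw [e2] at e1
  rw [← e1, ← psubst_comp hf.zero (addG_hs F (hs_of_zero (c 0)) (hs_of_zero (c 1))), h2,
    PowerSeries.subst_X (addG_hs F (hs_of_zero (c 0)) (hs_of_zero (c 1)))]

/-! ### The endomorphism monoid -/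

namespace EndF

variable {F : FormalGroup R}

@[ext] theorem ext' {f g : EndF F} (h : f.1 = g.1) : f = g := Subtype.ext h

instance : Monoid (EndF F) where
  mul f g := ⟨comp f.1 g.1, f.2.comp g.2⟩
  one := ⟨PowerSeries.X, isHom_X F⟩
  mul_assoc f g h := ext' (comp_assoc g.2.zero h.2.zero)
  one_mul f := ext' (X_comp f.2.zero)
  mul_one f := ext' (comp_X f.1)

theorem mul_val (f g : EndF F) : (f * g).1 = comp f.1 g.1 := rfl
theorem one_val : (1 : EndF F).1 = PowerSeries.X := rfl

end EndF

/-- The coefficients of a unit of the endomorphism monoid. -/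
def qc {F : FormalGroup R} (g : (EndF F)ˣ) (i : ℕ) : R := PowerSeries.coeff i g.1.1

theorem coeff_one_comp {f g : PowerSeries R} (hf : PowerSeries.constantCoeff f = 0)
    (hg : PowerSeries.constantCoeff g = 0) :
    PowerSeries.coeff 1 (comp f g) = PowerSeries.coeff 1 f * PowerSeries.coeff 1 g := by
  obtain ⟨f1, rfl⟩ := PowerSeries.X_dvd_iff.mpr hf
  obtain ⟨g1, rfl⟩ := PowerSeries.X_dvd_iff.mpr hg
  unfold comp
  have hs := hs_of_zero hg
  rw [PowerSeries.subst_mul hs, PowerSeries.subst_X hs, mul_assoc]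
  have e : ∀ h : PowerSeries R, PowerSeries.coeff 1 (PowerSeries.X * h) =
      PowerSeries.constantCoeff h := by
    intro h
    rw [show (1 : ℕ) = 0 + 1 from rfl, PowerSeries.coeff_succ_X_mul,
      PowerSeries.coeff_zero_eq_constantCoeff_apply]
  rw [e, e, e, map_mul]
  have e2 : PowerSeries.constantCoeff (PowerSeries.subst (PowerSeries.X * g1) f1 :
      PowerSeries R) = PowerSeries.constantCoeff f1 := by
    have := PowerSeries.subst_sub hs f1 (PowerSeries.C (PowerSeries.constantCoeff f1))
    have h3 : PowerSeries.constantCoeff (PowerSeries.subst (PowerSeries.X * g1)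
        (f1 - PowerSeries.C (PowerSeries.constantCoeff f1)) : PowerSeries R) = 0 :=
      cc_psubst hg (by simp)
    rw [this, map_sub] at h3
    have h4 : PowerSeries.constantCoeff (PowerSeries.subst (PowerSeries.X * g1)
        (PowerSeries.C (PowerSeries.constantCoeff f1)) : PowerSeries R) =
        PowerSeries.constantCoeff f1 := by
      have h5 : (PowerSeries.subst (PowerSeries.X * g1)
        (PowerSeries.C (PowerSeries.constantCoeff f1)) : PowerSeries R) =
          PowerSeries.C (PowerSeries.constantCoeff f1) := PowerSeries.subst_C _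
      rw [h5]; simp
    rw [h4] at h3
    exact sub_eq_zero.mp h3
  rw [e2, mul_comm]

theorem isUnit_coeff_one {F : FormalGroup R} (g : (EndF F)ˣ) :
    IsUnit (PowerSeries.coeff 1 g.1.1) := by
  have h : PowerSeries.coeff 1 (comp g.1.1 (g⁻¹).1.1) = 1 := by
    have h' := congrArg (fun x : EndF F => PowerSeries.coeff 1 x.1) g.mul_inv
    exact h'.trans PowerSeries.coeff_one_X
  rw [coeff_one_comp g.1.2.zero (g⁻¹).1.2.zero] at h
  exact IsUnit.of_mul_eq_one _ h

/-- An endomorphism with invertible linear coefficient is an automorphism. -/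
def mkUnit {F : FormalGroup R} (f : PowerSeries R) (hf : IsHom F F f)
    (hu : IsUnit (PowerSeries.coeff 1 f)) : (EndF F)ˣ where
  val := ⟨f, hf⟩
  inv := ⟨(exists_inv hf hu).choose, (exists_inv hf hu).choose_spec.1⟩
  val_inv := EndF.ext' (exists_inv hf hu).choose_spec.2.1
  inv_val := EndF.ext' (exists_inv hf hu).choose_spec.2.2

theorem mkUnit_val {F : FormalGroup R} (f : PowerSeries R) (hf : IsHom F F f)
    (hu : IsUnit (PowerSeries.coeff 1 f)) : (mkUnit f hf hu).1.1 = f := rfl

end FG

end Pool.Agent.CVH
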