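import Pool.Agent.CVH.Lib2

set_option autoImplicit false

/-!
# CVH: orders, leading coefficients, differences of homomorphisms, rigidity
-/

noncomputable section

namespace Pool.Agent.CVH

section FG

variable {R : Type} [CommRing R]

theorem cc_comp (f : PowerSeries R) {g : PowerSeries R} (hg : PowerSeries.constantCoeff g = 0) :
    PowerSeries.constantCoeff (comp f g) = PowerSeries.constantCoeff f := by
  have hs := hs_of_zero hg
  unfold comp
  have := PowerSeries.subst_sub hs f (PowerSeries.C (PowerSeries.constantCoeff f))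
  have h3 : PowerSeries.constantCoeff (PowerSeries.subst g
      (f - PowerSeries.C (PowerSeries.constantCoeff f)) : PowerSeries R) = 0 :=
    cc_psubst hg (by simp)
  rw [this, map_sub] at h3
  have h4 : PowerSeries.constantCoeff (PowerSeries.subst g
      (PowerSeries.C (PowerSeries.constantCoeff f)) : PowerSeries R) =
      PowerSeries.constantCoeff f := by
    have h5 : (PowerSeries.subst g
      (PowerSeries.C (PowerSeries.constantCoeff f)) : PowerSeries R) =
        PowerSeries.C (PowerSeries.constantCoeff f) := PowerSeries.subst_C _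
    rw [h5]; simp
  rw [h4] at h3
  exact sub_eq_zero.mp h3

theorem comp_mul (f f' : PowerSeries R) {g : PowerSeries R}
    (hg : PowerSeries.constantCoeff g = 0) : comp (f * f') g = comp f g * comp f' g :=
  PowerSeries.subst_mul (hs_of_zero hg) f f'

theorem comp_pow (f : PowerSeries R) {g : PowerSeries R}
    (hg : PowerSeries.constantCoeff g = 0) (m : ℕ) : comp (f ^ m) g = comp f g ^ m :=
  PowerSeries.subst_pow (hs_of_zero hg) f m

theorem comp_sub (f f' : PowerSeries R) {g : PowerSeries R}
    (hg : PowerSeries.constantCoeff g = 0) : comp (f - f') g = comp f g - comp f' g :=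
  PowerSeries.subst_sub (hs_of_zero hg) f f'

theorem comp_C (c : R) (g : PowerSeries R) : comp (PowerSeries.C c) g = PowerSeries.C c :=
  PowerSeries.subst_C _

theorem comp_C_mul (c : R) (f : PowerSeries R) {g : PowerSeries R}
    (hg : PowerSeries.constantCoeff g = 0) :
    comp (PowerSeries.C c * f) g = PowerSeries.C c * comp f g := by
  rw [comp_mul _ _ hg, comp_C]

theorem coeff_X_pow_mul_self (a : ℕ) (f : PowerSeries R) :
    PowerSeries.coeff a (PowerSeries.X ^ a * f) = PowerSeries.constantCoeff f := by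
  have := PowerSeries.coeff_X_pow_mul f a 0
  rwa [zero_add, PowerSeries.coeff_zero_eq_constantCoeff_apply] at this

/-- The leading coefficient of a composite, first form. -/
theorem coeff_comp_right {f g : PowerSeries R} {Q : ℕ} (hQ : 1 ≤ Q)
    (hf : PowerSeries.constantCoeff f = 0) (hg : PowerSeries.X ^ Q ∣ g) :
    PowerSeries.coeff Q (comp f g) = PowerSeries.coeff 1 f * PowerSeries.coeff Q g := by
  have hg0 : PowerSeries.constantCoeff g = 0 :=
    PowerSeries.X_dvd_iff.mp ((dvd_pow_self _ (by omega)).trans hg)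
  obtain ⟨f1, rfl⟩ := PowerSeries.X_dvd_iff.mpr hf
  rw [comp_mul _ _ hg0, X_comp hg0]
  obtain ⟨g1, hg1⟩ := hg
  have e : PowerSeries.coeff 1 (PowerSeries.X * f1) = PowerSeries.constantCoeff f1 := by
    have := coeff_X_pow_mul_self 1 f1
    rwa [pow_one] at this
  rw [e]
  have e2 : g * comp f1 g = PowerSeries.X ^ Q * (g1 * comp f1 g) := by
    rw [← mul_assoc, ← hg1]
  rw [e2, coeff_X_pow_mul_self, map_mul, cc_comp f1 hg0, mul_comm]
  congr 1
  rw [hg1, coeff_X_pow_mul_self]

/-- The leading coefficient of a composite, second form. -/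
theorem coeff_comp_left {f g : PowerSeries R} {Q : ℕ}
    (hf : PowerSeries.X ^ Q ∣ f) (hg : PowerSeries.constantCoeff g = 0) :
    PowerSeries.coeff Q (comp f g) = PowerSeries.coeff Q f * PowerSeries.coeff 1 g ^ Q := by
  obtain ⟨f1, rfl⟩ := hf
  rw [comp_mul _ _ hg, comp_pow _ hg, X_comp hg]
  obtain ⟨g1, rfl⟩ := PowerSeries.X_dvd_iff.mpr hg
  have e : PowerSeries.coeff 1 (PowerSeries.X * g1) = PowerSeries.constantCoeff g1 := by
    have := coeff_X_pow_mul_self 1 g1
    rwa [pow_one] at this
  rw [e, mul_pow, mul_assoc, coeff_X_pow_mul_self, coeff_X_pow_mul_self, map_mul, map_pow,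
    cc_comp f1 hg, mul_comm]

theorem order_comp [IsDomain R] {f g : PowerSeries R} {a b : ℕ} (hf : f.order = a)
    (hg : g.order = b) (hb : 1 ≤ b) : (comp f g).order = ((a * b : ℕ) : ℕ∞) := by
  have hg0 : PowerSeries.constantCoeff g = 0 := by
    rw [← PowerSeries.coeff_zero_eq_constantCoeff_apply]
    exact PowerSeries.coeff_of_lt_order 0 (by rw [hg]; exact_mod_cast hb)
  obtain ⟨hf1, hf2⟩ := PowerSeries.order_eq_nat.mp hf
  obtain ⟨f1, rfl⟩ := PowerSeries.X_pow_dvd_iff.mpr hf2
  rw [coeff_X_pow_mul_self] at hf1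
  rw [comp_mul _ _ hg0, comp_pow _ hg0, X_comp hg0, PowerSeries.order_mul,
    PowerSeries.order_pow, hg]
  have h0 : (comp f1 g).order = 0 := by
    rw [← Nat.cast_zero, PowerSeries.order_eq_nat]
    refine ⟨?_, by simp⟩
    rw [PowerSeries.coeff_zero_eq_constantCoeff_apply, cc_comp f1 hg0]
    exact hf1
  rw [h0, add_zero, nsmul_eq_mul]
  push_cast
  ring

theorem order_map [Nontrivial R] {S : Type} [CommRing S] (φ : R →+* S)
    (hφ : Function.Injective φ) (f : PowerSeries R) : (PowerSeries.map φ f).order = f.order := by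
  by_cases h : f = 0
  · subst h; simp
  · have h1 := PowerSeries.coe_toNat_order h
    rw [← h1, PowerSeries.order_eq_nat]
    obtain ⟨h2, h3⟩ := PowerSeries.order_eq_nat.mp h1.symm
    refine ⟨?_, fun i hi => ?_⟩
    · rw [PowerSeries.coeff_map]
      intro h4
      exact h2 (hφ (by rw [h4, map_zero]))
    · rw [PowerSeries.coeff_map, h3 i hi, map_zero]

/-- The linear coefficient of a sum. -/
theorem coeff_one_addG (G : FormalGroup R) {f g : PowerSeries R}
    (hf : PowerSeries.constantCoeff f = 0) (hg : PowerSeries.constantCoeff g = 0) :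
    PowerSeries.coeff 1 (addG G f g) = PowerSeries.coeff 1 f + PowerSeries.coeff 1 g := by
  have hs := hs2 (hs_of_zero hf) (hs_of_zero hg)
  have key : ∀ d : Fin 2 →₀ ℕ, (d.prod fun s e => (![f, g] : Fin 2 → PowerSeries R) s ^ e) =
      f ^ d 0 * g ^ d 1 := by
    intro d
    rw [Finsupp.prod_fintype _ _ (fun i => pow_zero _), Fin.prod_univ_two]
    rfl
  obtain ⟨f1, rfl⟩ := PowerSeries.X_dvd_iff.mpr hf
  obtain ⟨g1, rfl⟩ := PowerSeries.X_dvd_iff.mpr hg
  have hbig : ∀ d : Fin 2 →₀ ℕ, 2 ≤ d 0 + d 1 →
      PowerSeries.coeff 1 ((PowerSeries.X * f1) ^ d 0 * (PowerSeries.X * g1) ^ d 1) = 0 := by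
    intro d hd
    have e : (PowerSeries.X * f1) ^ d 0 * (PowerSeries.X * g1) ^ d 1 =
        PowerSeries.X ^ (d 0 + d 1) * (f1 ^ d 0 * g1 ^ d 1) := by
      rw [mul_pow, mul_pow, pow_add]; ring
    rw [e]
    exact (PowerSeries.X_pow_dvd_iff.mp (Dvd.intro _ rfl)) 1 (by omega)
  have h1 := MvPowerSeries.coeff_subst hs G.toPowerSeries (Finsupp.single () 1)
  have h2 : PowerSeries.coeff 1 (addG G (PowerSeries.X * f1) (PowerSeries.X * g1)) =
      ∑ᶠ d : Fin 2 →₀ ℕ, MvPowerSeries.coeff d G.toPowerSeries •
        PowerSeries.coeff 1 ((PowerSeries.X * f1) ^ d 0 * (PowerSeries.X * g1) ^ d 1) := by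
    refine h1.trans (finsum_congr fun d => ?_)
    rw [key d]
    rfl
  have hsub : (Function.support fun d : Fin 2 →₀ ℕ => MvPowerSeries.coeff d G.toPowerSeries •
      PowerSeries.coeff 1 ((PowerSeries.X * f1) ^ d 0 * (PowerSeries.X * g1) ^ d 1)) ⊆
      (({Finsupp.single 0 1, Finsupp.single 1 1} : Finset (Fin 2 →₀ ℕ)) : Set (Fin 2 →₀ ℕ)) := by
    intro d hd
    rw [Function.mem_support] at hd
    have h3 : d 0 + d 1 < 2 := by
      by_contra hc
      exact hd (by rw [hbig d (not_lt.mp hc), smul_zero])
    have h4 : d ≠ 0 := by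
      rintro rfl
      apply hd
      rw [MvPowerSeries.coeff_zero_eq_constantCoeff_apply, G.zero_constantCoeff, zero_smul]
    rcases Nat.eq_zero_or_pos (d 0) with h5 | h5
    · rcases Nat.eq_zero_or_pos (d 1) with h6 | h6
      · exfalso
        apply h4
        ext i
        fin_cases i
        · exact h5
        · exact h6
      · have : d = Finsupp.single 1 1 := by
          ext i
          fin_cases i
          · simp [h5]
          · simp; omega
        simp [this]
    · have : d = Finsupp.single 0 1 := by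
        ext i
        fin_cases i
        · simp; omega
        · simp; omega
      simp [this]
  rw [h2, finsum_eq_sum_of_support_subset _ hsub, Finset.sum_pair]
  · rw [G.lin_coeff_X, G.lin_coeff_Y]
    simp
  · intro h
    have := DFunLike.congr_fun h 0
    simp at this

theorem coeff_one_mulSeries (F : FormalGroup R) (m : ℕ) :
    PowerSeries.coeff 1 (mulSeries F m) = (m : R) := by
  induction m with
  | zero => simp [mulSeries]
  | succ m ih =>
    change PowerSeries.coeff 1 (addG F (mulSeries F m) PowerSeries.X) = _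
    rw [coeff_one_addG F (mulSeries_zero_cc F m) (by simp), ih, PowerSeries.coeff_one_X]
    push_cast
    ring

/-! ### Differences -/

theorem exists_neg (h_NEG : T_NEG) (G : FormalGroup R) {f : PowerSeries R}
    (hf : PowerSeries.constantCoeff f = 0) :
    ∃ g : PowerSeries R, PowerSeries.constantCoeff g = 0 ∧ addG G f g = 0 := by
  obtain ⟨i, hi, h⟩ := h_NEG R G
  refine ⟨comp i f, comp_zero_cc hi hf, ?_⟩
  have e := comp_addG G (f := PowerSeries.X) (g := i) (h := f) (by simp) hi hf
  rw [h, X_comp hf] at e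
  rw [← e]
  unfold comp
  rw [← PowerSeries.coe_substAlgHom (hs_of_zero hf), map_zero]

theorem addG_cancel (h_NEG : T_NEG) (G : FormalGroup R) [G.IsComm] {f g h : PowerSeries R}
    (hf : PowerSeries.constantCoeff f = 0) (hg : PowerSeries.constantCoeff g = 0)
    (hh : PowerSeries.constantCoeff h = 0) (e : addG G f g = addG G f h) : g = h := by
  obtain ⟨f', hf', e'⟩ := exists_neg h_NEG G hf
  have k : ∀ x : PowerSeries R, PowerSeries.constantCoeff x = 0 →
      addG G f' (addG G f x) = x := by
    intro x hx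
    rw [← addG_assoc G (hs_of_zero hf') (hs_of_zero hf) (hs_of_zero hx),
      addG_comm G (hs_of_zero hf') (hs_of_zero hf), e', zero_addG G (hs_of_zero hx)]
  rw [← k g hg, ← k h hh, e]

theorem addG_uniq (G : FormalGroup R) [G.IsComm] {τ : Type} {a b c : MvPowerSeries τ R}
    (ha : PowerSeries.HasSubst a) (hb : PowerSeries.HasSubst b) (hc : PowerSeries.HasSubst c)
    (e1 : addG G a b = 0) (e2 : addG G a c = 0) : b = c := by
  have h : addG G b (addG G a c) = addG G (addG G b a) c := (addG_assoc G hb ha hc).symm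
  rw [e2, addG_zero G hb, addG_comm G hb ha, e1, zero_addG G hc] at h
  exact h

theorem isHom_neg (G : FormalGroup R) [G.IsComm] {i : PowerSeries R}
    (hi : PowerSeries.constantCoeff i = 0) (hi' : addG G PowerSeries.X i = 0) :
    IsHom G G i where
  zero := hi
  map_add := by
    have h0 : PowerSeries.HasSubst (MvPowerSeries.X 0 : MvPowerSeries (Fin 2) R) :=
      PowerSeries.HasSubst.X 0
    have h1 : PowerSeries.HasSubst (MvPowerSeries.X 1 : MvPowerSeries (Fin 2) R) :=
      PowerSeries.HasSubst.X 1
    have hG : PowerSeries.HasSubst G.toPowerSeries := hs_of_zero G.zero_constantCoeff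
    have key : ∀ a : MvPowerSeries (Fin 2) R, PowerSeries.HasSubst a →
        addG G a (PowerSeries.subst a i) = 0 := by
      intro a ha
      have e := psubst_addG G (a := PowerSeries.X) (b := i) PowerSeries.HasSubst.X'
        (hs_of_zero hi) ha
      have e0 : PowerSeries.subst a (0 : PowerSeries R) = 0 := by
        rw [← PowerSeries.coe_substAlgHom ha, map_zero]
      rw [hi', PowerSeries.subst_X ha, e0] at e
      exact e.symm
    have c : ∀ (j : Fin 2), PowerSeries.HasSubst
        (PowerSeries.subst (MvPowerSeries.X j : MvPowerSeries (Fin 2) R) i) :=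
      fun j => hs_of_zero (cc_psubst (by simp) hi)
    have e2 : addG G (MvPowerSeries.X 0) (MvPowerSeries.X 1) = G.toPowerSeries := by
      unfold addG
      have : (![MvPowerSeries.X 0, MvPowerSeries.X 1] : Fin 2 → MvPowerSeries (Fin 2) R) =
          MvPowerSeries.X := by
        funext i; fin_cases i <;> rfl
      rw [this, MvPowerSeries.subst_self]
      rfl
    refine addG_uniq G hG (hs_of_zero (cc_psubst G.zero_constantCoeff hi))
      (addG_hs G (c 0) (c 1)) (key _ hG) ?_
    have e3 := addG_add_add G h0 h1 (c 0) (c 1)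
    rw [e2] at e3
    rw [e3, key _ h0, key _ h1]
    exact addG_zero G PowerSeries.HasSubst.zero

/-- The difference of two homomorphisms is a homomorphism. -/
theorem exists_diff (h_NEG : T_NEG) {F G : FormalGroup R} [G.IsComm] {f g : PowerSeries R}
    (hf : IsHom F G f) (hg : IsHom F G g) :
    ∃ y : PowerSeries R, IsHom F G y ∧ addG G f y = g := by
  obtain ⟨i, hi, hi'⟩ := h_NEG R G
  have hiH : IsHom G G i := isHom_neg G hi hi'
  refine ⟨addG G (comp i f) g, (hiH.comp hf).add hg, ?_⟩
  have e := comp_addG G (f := PowerSeries.X) (g := i) (h := f) (by simp) hi hf.zero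
  rw [hi', X_comp hf.zero] at e
  rw [← addG_assoc G (hs_of_zero hf.zero) (hs_of_zero (comp_zero_cc hi hf.zero))
    (hs_of_zero hg.zero), ← e]
  have e0 : comp (0 : PowerSeries R) f = 0 := by
    unfold comp
    rw [← PowerSeries.coe_substAlgHom (hs_of_zero hf.zero), map_zero]
  rw [e0, zero_addG G (hs_of_zero hg.zero)]

end FG

end Pool.Agent.CVH
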