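import Pool.Agent.CVH.Targets

set_option autoImplicit false

/-!
# CVH: inverses for formal group laws
-/

noncomputable section

namespace Pool.Agent.CVH

namespace NEG_

variable {R : Type} [CommRing R]

/-- Termwise divisibility. -/
lemma dvd_subst_sub (H : MvPowerSeries (Fin 2) R) (a b b' : PowerSeries R)
    (ha : PowerSeries.constantCoeff a = 0) (hb : PowerSeries.constantCoeff b = 0)
    (hb' : PowerSeries.constantCoeff b' = 0) (N : ℕ)
    (h : ∀ d : Fin 2 →₀ ℕ, MvPowerSeries.coeff d H ≠ 0 →
      (PowerSeries.X : PowerSeries R) ^ N ∣ a ^ d 0 * b ^ d 1 - a ^ d 0 * b' ^ d 1) :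
    (PowerSeries.X : PowerSeries R) ^ N ∣
      (MvPowerSeries.subst ![a, b] H : PowerSeries R) - MvPowerSeries.subst ![a, b'] H := by
  rw [PowerSeries.X_pow_dvd_iff]
  intro m hm
  rw [map_sub, sub_eq_zero]
  have h1 := MvPowerSeries.coeff_subst (hs2 (hs_of_zero ha) (hs_of_zero hb)) H
    (Finsupp.single () m)
  have h2 := MvPowerSeries.coeff_subst (hs2 (hs_of_zero ha) (hs_of_zero hb')) H
    (Finsupp.single () m)
  change MvPowerSeries.coeff (Finsupp.single () m) (MvPowerSeries.subst ![a, b] H) =
    MvPowerSeries.coeff (Finsupp.single () m) (MvPowerSeries.subst ![a, b'] H)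
  rw [h1, h2]
  refine finsum_congr fun d => ?_
  by_cases hd : MvPowerSeries.coeff d H = 0
  · rw [hd, zero_smul, zero_smul]
  · congr 1
    have h3 := (PowerSeries.X_pow_dvd_iff.1 (h d hd)) m hm
    rw [map_sub, sub_eq_zero] at h3
    have e : ∀ c : PowerSeries R, (d.prod fun s e => (![a, c] s) ^ e) = a ^ d 0 * c ^ d 1 := by
      intro c
      rw [Finsupp.prod_fintype _ _ (fun i => pow_zero _)]
      simp [Fin.prod_univ_two]
    rw [e, e]
    exact h3

/-- The contraction property. -/
lemma contr (G : FormalGroup R) (b b' : PowerSeries R)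
    (hb : PowerSeries.constantCoeff b = 0)
    (hb' : PowerSeries.constantCoeff b' = 0) (N : ℕ)
    (h : (PowerSeries.X : PowerSeries R) ^ N ∣ b - b') :
    (PowerSeries.X : PowerSeries R) ^ (N + 1) ∣
      (addG G PowerSeries.X b - addG G PowerSeries.X b' : PowerSeries R) - (b - b') := by
  let H : MvPowerSeries (Fin 2) R := G.toPowerSeries - MvPowerSeries.X 1
  have hX : PowerSeries.constantCoeff (PowerSeries.X : PowerSeries R) = 0 := by simp
  have e : ∀ c : PowerSeries R, PowerSeries.constantCoeff c = 0 →
      (MvPowerSeries.subst ![PowerSeries.X, c] H : PowerSeries R) =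
        addG G PowerSeries.X c - c := by
    intro c hc
    have hs := hs2 (hs_of_zero hX) (hs_of_zero hc)
    have h1 : MvPowerSeries.subst ![PowerSeries.X, c] H =
        MvPowerSeries.subst ![PowerSeries.X, c] G.toPowerSeries -
          MvPowerSeries.subst ![PowerSeries.X, c]
            (MvPowerSeries.X 1 : MvPowerSeries (Fin 2) R) := by
      rw [← MvPowerSeries.coe_substAlgHom hs, ← map_sub]
    rw [h1, MvPowerSeries.subst_X hs]
    rfl
  have h1 := dvd_subst_sub H PowerSeries.X b b' hX hb hb' (N + 1) ?_
  · rw [e b hb, e b' hb'] at h1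
    convert h1 using 1
    ring
  · intro d hd
    have hXb : (PowerSeries.X : PowerSeries R) ∣ b := PowerSeries.X_dvd_iff.2 hb
    have hXb' : (PowerSeries.X : PowerSeries R) ∣ b' := PowerSeries.X_dvd_iff.2 hb'
    have hpow : ∀ k : ℕ, (PowerSeries.X : PowerSeries R) ^ N ∣ b ^ k - b' ^ k := fun k =>
      h.trans (sub_dvd_pow_sub_pow b b' k)
    rcases Nat.eq_zero_or_pos (d 0) with h0 | h0
    · rw [h0, pow_zero, one_mul, one_mul]
      rcases Nat.eq_zero_or_pos (d 1) with h1 | h1
      · rw [h1, pow_zero, pow_zero, sub_self]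
        exact dvd_zero _
      · rcases Nat.lt_or_ge 1 (d 1) with h2 | h2
        · obtain ⟨k, hk⟩ : ∃ k, d 1 = k + 1 := ⟨d 1 - 1, by omega⟩
          have e1 : b ^ d 1 - b' ^ d 1 = b * (b ^ k - b' ^ k) + (b - b') * b' ^ k := by
            rw [hk]
            ring
          rw [e1]
          refine dvd_add ?_ ?_
          · rw [pow_succ']
            exact mul_dvd_mul hXb (hpow k)
          · rw [pow_succ]
            refine mul_dvd_mul h (hXb'.trans (dvd_pow_self _ ?_))
            omega
        · exfalso
          apply hd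
          have h3 : d 1 = 1 := by omega
          have h4 : d = Finsupp.single 1 1 := by
            ext i
            fin_cases i
            · simpa using h0
            · simpa using h3
          simp only [H, map_sub, h4, G.lin_coeff_Y]
          simp
    · have e1 : (PowerSeries.X : PowerSeries R) ^ d 0 * b ^ d 1 -
          PowerSeries.X ^ d 0 * b' ^ d 1 =
          PowerSeries.X ^ d 0 * (b ^ d 1 - b' ^ d 1) := by ring
      rw [e1, pow_succ']
      exact mul_dvd_mul (dvd_pow_self _ (by omega)) (hpow _)

/-- The approximations. -/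
def app (G : FormalGroup R) : ℕ → PowerSeries R
  | 0 => 0
  | n + 1 => app G n - addG G PowerSeries.X (app G n)

lemma app_cc (G : FormalGroup R) (n : ℕ) : PowerSeries.constantCoeff (app G n) = 0 := by
  induction n with
  | zero => simp [app]
  | succ n ih =>
    have h1 : MvPowerSeries.constantCoeff (addG G PowerSeries.X (app G n)) = 0 :=
      addG_zero_cc G (by simp [← PowerSeries.constantCoeff.eq_def]) ih
    change PowerSeries.constantCoeff (app G n - addG G PowerSeries.X (app G n)) = 0
    rw [map_sub, ih, zero_sub, neg_eq_zero]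
    exact h1

lemma app_step (G : FormalGroup R) (n : ℕ) :
    (PowerSeries.X : PowerSeries R) ^ (n + 1) ∣ app G (n + 1) - app G n := by
  induction n with
  | zero =>
    have h1 : addG G PowerSeries.X (0 : PowerSeries R) = PowerSeries.X :=
      addG_zero G PowerSeries.HasSubst.X'
    change (PowerSeries.X : PowerSeries R) ^ (0 + 1) ∣
      (0 - addG G PowerSeries.X (0 : PowerSeries R)) - 0
    rw [h1]
    simp
  | succ n ih =>
    have h1 := contr G _ _ (app_cc G (n + 1)) (app_cc G n) (n + 1) ih
    have e1 : app G (n + 1 + 1) - app G (n + 1) =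
        -((addG G PowerSeries.X (app G (n + 1)) - addG G PowerSeries.X (app G n)) -
          (app G (n + 1) - app G n)) := by
      have e2 : app G (n + 1 + 1) =
        app G (n + 1) - addG G PowerSeries.X (app G (n + 1)) := rfl
      have e3 : app G (n + 1) = app G n - addG G PowerSeries.X (app G n) := rfl
      rw [e2]
      linear_combination (-1 : PowerSeries R) * e3
    rw [e1]
    exact (dvd_neg).2 h1

lemma app_le (G : FormalGroup R) {n m : ℕ} (h : n ≤ m) :
    (PowerSeries.X : PowerSeries R) ^ (n + 1) ∣ app G m - app G n := by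
  induction m, h using Nat.le_induction with
  | base => simp
  | succ m hm ih =>
    have e1 : app G (m + 1) - app G n = (app G (m + 1) - app G m) + (app G m - app G n) := by
      ring
    rw [e1]
    exact dvd_add ((pow_dvd_pow _ (by omega)).trans (app_step G m)) ih

end NEG_

open NEG_ in
theorem p_NEG : T_NEG := by
  intro R _ G
  let i : PowerSeries R := PowerSeries.mk fun n => PowerSeries.coeff n (app G n)
  have hi : ∀ n, (PowerSeries.X : PowerSeries R) ^ (n + 1) ∣ i - app G n := by
    intro n
    rw [PowerSeries.X_pow_dvd_iff]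
    intro k hk
    rw [map_sub, PowerSeries.coeff_mk, sub_eq_zero]
    have h1 := (PowerSeries.X_pow_dvd_iff.1 (app_le G (Nat.lt_succ_iff.1 hk))) k
      (Nat.lt_succ_self k)
    rw [map_sub, sub_eq_zero] at h1
    exact h1.symm
  have hi0 : PowerSeries.constantCoeff i = 0 := by
    have h1 := (PowerSeries.X_pow_dvd_iff.1 (hi 0)) 0 (by omega)
    rw [map_sub, sub_eq_zero, PowerSeries.coeff_zero_eq_constantCoeff_apply,
      PowerSeries.coeff_zero_eq_constantCoeff_apply, app_cc] at h1
    exact h1
  refine ⟨i, hi0, ?_⟩
  have key : ∀ n, (PowerSeries.X : PowerSeries R) ^ (n + 1) ∣ addG G PowerSeries.X i := by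
    intro n
    have h1 := contr G _ _ hi0 (app_cc G n) (n + 1) (hi n)
    have h2 := (pow_dvd_pow (PowerSeries.X : PowerSeries R) (Nat.le_succ (n + 1))).trans h1
    have h3 := app_step G n
    have e3 : app G (n + 1) = app G n - addG G PowerSeries.X (app G n) := rfl
    have e1 : (addG G PowerSeries.X i : PowerSeries R) =
        ((addG G PowerSeries.X i - addG G PowerSeries.X (app G n)) - (i - app G n)) +
          (i - app G n) - (app G (n + 1) - app G n) := by
      linear_combination e3
    rw [e1]
    exact dvd_sub (dvd_add h2 (hi n)) h3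
  have h4 : ∀ n, PowerSeries.coeff n (addG G PowerSeries.X i : PowerSeries R) = 0 := fun n =>
    (PowerSeries.X_pow_dvd_iff.1 (key n)) n (Nat.lt_succ_self n)
  exact PowerSeries.ext fun n => by rw [h4 n, map_zero]

end Pool.Agent.CVH
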