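import Pool.Agent.CVH.Targets

set_option autoImplicit false

/-!
# CVH: roots of a power series in `t k[[t]]` (`T_ROOT`)
-/

noncomputable section

namespace Pool.Agent.CVH

namespace ROOT_

variable {k : Type} [Field k]

theorem dvd_of_mul (e : ℕ) : ∀ (a b : PowerSeries k) (n : ℕ),
    PowerSeries.X ^ (n + e + 1) ∣ a * b → ¬ PowerSeries.X ^ (e + 1) ∣ a →
      PowerSeries.X ^ n ∣ b := by
  induction e with
  | zero =>
    intro a b n h1 h2
    rw [zero_add, pow_one] at h2
    have h3 := PowerSeries.X_prime.pow_dvd_of_dvd_mul_left (n + 0 + 1) h2 h1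
    exact (pow_dvd_pow _ (by omega)).trans h3
  | succ e ih =>
    intro a b n h1 h2
    by_cases ha : PowerSeries.X ∣ a
    · obtain ⟨a', rfl⟩ := ha
      refine ih a' b n ?_ ?_
      · have h3 : PowerSeries.X * PowerSeries.X ^ (n + e + 1) ∣
            (PowerSeries.X : PowerSeries k) * (a' * b) := by
          rw [← pow_succ', ← mul_assoc]
          exact h1
        exact (mul_dvd_mul_iff_left PowerSeries.X_ne_zero).1 h3
      · intro h3
        apply h2
        rw [pow_succ']
        exact mul_dvd_mul_left _ h3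
    · have h3 := PowerSeries.X_prime.pow_dvd_of_dvd_mul_left (n + (e + 1) + 1) ha h1
      exact (pow_dvd_pow _ (by omega)).trans h3

theorem exists_not_dvd (a : PowerSeries k) (ha : a ≠ 0) :
    ∃ e : ℕ, ¬ PowerSeries.X ^ (e + 1) ∣ a := by
  obtain ⟨m, hm⟩ : ∃ m, PowerSeries.coeff m a ≠ 0 := by
    by_contra h
    push Not at h
    exact ha (PowerSeries.ext h)
  exact ⟨m, fun h => hm (PowerSeries.X_pow_dvd_iff.1 h m (by omega))⟩

theorem roots (d : ℕ) : ∀ y : Fin (d + 1) → PowerSeries k, Function.Injective y →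
    (∀ i, PowerSeries.constantCoeff (y i) = 0) → ∃ D : ℕ, ∀ h : Polynomial (PowerSeries k),
      (∀ i, PowerSeries.X ^ D ∣ h.eval (y i)) → PowerSeries.constantCoeff (h.coeff d) = 0 := by
  induction d with
  | zero =>
    intro y _ hcc
    refine ⟨1, fun h hh => ?_⟩
    have h1 := hh 0
    rw [pow_one, PowerSeries.X_dvd_iff, ← Polynomial.eval₂_hom, hcc 0] at h1
    rw [← h1, Polynomial.eval₂_at_zero]
  | succ d ih =>
    intro y hinj hcc
    obtain ⟨D', hD'⟩ := ih (fun i => y i.succ) (fun i j hij => by
      have := hinj hij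
      simpa using this) (fun i => hcc _)
    have hne : ∀ i : Fin (d + 1), ∃ e : ℕ, ¬ PowerSeries.X ^ (e + 1) ∣ y i.succ - y 0 := by
      intro i
      apply exists_not_dvd
      intro h0
      have h1 : y i.succ = y 0 := sub_eq_zero.1 h0
      exact (Fin.succ_ne_zero i) (hinj h1)
    choose e he using hne
    refine ⟨D' + Finset.univ.sup e + 1, fun h hh => ?_⟩
    set q := h /ₘ (Polynomial.X - Polynomial.C (y 0)) with hq
    have hdiv : h = Polynomial.C (h.eval (y 0)) + (Polynomial.X - Polynomial.C (y 0)) * q := by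
      rw [hq, ← Polynomial.modByMonic_X_sub_C_eq_C_eval, Polynomial.modByMonic_add_div]
    have hE : ∀ x : PowerSeries k, h.eval x - h.eval (y 0) = (x - y 0) * q.eval x := by
      intro x
      conv_lhs => rw [hdiv]
      simp
    have h1 := hD' q (fun i => by
      refine dvd_of_mul (e i) (y i.succ - y 0) _ D' ?_ (he i)
      rw [← hE]
      have h2 : e i ≤ Finset.univ.sup e := Finset.le_sup (Finset.mem_univ i)
      exact (pow_dvd_pow _ (by omega)).trans (dvd_sub (hh i.succ) (hh 0)))
    have h2 : h.coeff (d + 1) = q.coeff d - y 0 * q.coeff (d + 1) := by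
      conv_lhs => rw [hdiv]
      rw [Polynomial.coeff_add, Polynomial.coeff_C_succ, zero_add, sub_mul,
        Polynomial.coeff_sub, Polynomial.coeff_X_mul, Polynomial.coeff_C_mul]
    rw [h2, map_sub, map_mul, h1, hcc 0, zero_mul, sub_zero]

end ROOT_

open ROOT_ in
theorem p_ROOT : T_ROOT := by
  intro k _ f b d hd hf y hcc hy hinj
  obtain ⟨D, hD⟩ := roots d y hinj hcc
  apply hf
  set L := max D (d + 1) with hL
  let h : Polynomial (PowerSeries k) :=
    (PowerSeries.trunc L f).map PowerSeries.C - Polynomial.C b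
  have h1 := hD h (fun i => by
    have hs : PowerSeries.HasSubst (y i) := hs_of_zero (hcc i)
    have e1 : h.eval (y i) = Polynomial.aeval (y i) (PowerSeries.trunc L f) - b := by
      simp only [h, Polynomial.eval_sub, Polynomial.eval_C, Polynomial.eval_map]
      rfl
    have e2 : PowerSeries.subst (y i) f = y i ^ L * PowerSeries.subst (y i)
        (PowerSeries.mk fun j ↦ PowerSeries.coeff (j + L) f) +
          Polynomial.aeval (y i) (PowerSeries.trunc L f) := by
      conv_lhs => rw [PowerSeries.eq_X_pow_mul_shift_add_trunc L f]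
      rw [PowerSeries.subst_add hs, PowerSeries.subst_mul hs, PowerSeries.subst_pow hs,
        PowerSeries.subst_X hs, PowerSeries.subst_coe hs]
    have e3 : h.eval (y i) = - (y i ^ L * PowerSeries.subst (y i)
        (PowerSeries.mk fun j ↦ PowerSeries.coeff (j + L) f)) := by
      have e4 : PowerSeries.subst (y i) f = b := hy i
      rw [e1, ← e4, e2]
      ring
    rw [e3, dvd_neg]
    refine Dvd.dvd.mul_right ?_ _
    have e5 : (PowerSeries.X : PowerSeries k) ∣ y i := PowerSeries.X_dvd_iff.2 (hcc i)
    exact (pow_dvd_pow _ (le_max_left D (d + 1))).trans (pow_dvd_pow_of_dvd e5 L))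
  have h2 : h.coeff d = PowerSeries.C (PowerSeries.coeff d f) := by
    simp only [h, Polynomial.coeff_sub, Polynomial.coeff_map, PowerSeries.coeff_trunc]
    rw [if_pos (by omega), Polynomial.coeff_C_of_ne_zero (by omega), sub_zero]
  rw [h2] at h1
  simpa using h1

end Pool.Agent.CVH
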