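import Pool.Agent.CVH.Lib3
import Pool.Agent.CVH.P_NEG

set_option autoImplicit false

/-!
# CVH: rigidity of homomorphisms over `k[[t]]`
-/

noncomputable section

namespace Pool.Agent.CVH

theorem comp_ne_zero {R : Type} [CommRing R] [IsDomain R] {f g : PowerSeries R} (hf : f ≠ 0)
    (hg : g ≠ 0) (hg0 : PowerSeries.constantCoeff g = 0) : comp f g ≠ 0 := by
  have h1 := (PowerSeries.coe_toNat_order hf).symm
  have h2 := (PowerSeries.coe_toNat_order hg).symm
  have h3 : 1 ≤ g.order.toNat := by
    by_contra hc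
    have h4 : g.order.toNat = 0 := by omega
    rw [h4] at h2
    exact (PowerSeries.order_eq_nat.mp h2).1
      (by rw [PowerSeries.coeff_zero_eq_constantCoeff_apply, hg0])
  have h5 := order_comp h1 h2 h3
  intro h6
  rw [h6, PowerSeries.order_zero] at h5
  exact ENat.top_ne_natCast _ h5

variable {k : Type} [Field k]

/-- Reduction modulo `t` of a series over `k[[t]]`. -/
abbrev rd (f : PowerSeries (PowerSeries k)) : PowerSeries k :=
  PowerSeries.map (PowerSeries.constantCoeff : PowerSeries k →+* k) f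

theorem rigid {G1 G2 : FormalGroup (PowerSeries k)} {f : PowerSeries (PowerSeries k)}
    (hf : IsHom G1 G2 f) (m : ℕ) (hm : rd (mulSeries G1 m) ≠ 0)
    (hm2 : PowerSeries.coeff 1 (mulSeries G2 m) = 0) (h0 : rd f = 0) : f = 0 := by
  classical
  by_contra hne
  have hex : ∃ i, ∃ j, PowerSeries.coeff i (PowerSeries.coeff j f) ≠ 0 := by
    by_contra hc
    push Not at hc
    apply hne
    ext j i
    rw [hc i j]
    simp
  set i := Nat.find hex with hi
  obtain ⟨j0, hj0⟩ := Nat.find_spec hex
  have hmin : ∀ i' < i, ∀ j, PowerSeries.coeff i' (PowerSeries.coeff j f) = 0 := by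
    intro i' hi' j
    by_contra hc
    exact Nat.find_min hex hi' ⟨j, hc⟩
  have hdvd : ∀ j, (PowerSeries.X : PowerSeries k) ^ i ∣ PowerSeries.coeff j f := by
    intro j
    exact PowerSeries.X_pow_dvd_iff.mpr (fun i' hi' => hmin i' hi' j)
  choose c hc using hdvd
  have hff : f = PowerSeries.C ((PowerSeries.X : PowerSeries k) ^ i) * PowerSeries.mk c := by
    ext j : 1
    rw [PowerSeries.coeff_C_mul, PowerSeries.coeff_mk]
    exact hc j
  set f0 := PowerSeries.mk c with hf0
  have hi1 : 1 ≤ i := by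
    by_contra hcon
    have hi0 : i = 0 := by omega
    have h1 := congrArg (PowerSeries.coeff j0) h0
    rw [PowerSeries.coeff_map, map_zero] at h1
    apply hj0
    rw [← hi, hi0, PowerSeries.coeff_zero_eq_constantCoeff_apply]
    exact h1
  have hf0ne : rd f0 ≠ 0 := by
    intro h1
    have h2 := congrArg (PowerSeries.coeff j0) h1
    rw [PowerSeries.coeff_map, map_zero, hf0, PowerSeries.coeff_mk] at h2
    apply hj0
    rw [← hi, hc j0, coeff_X_pow_mul_self]
    exact h2
  have hP1 : PowerSeries.constantCoeff (mulSeries G1 m) = 0 := mulSeries_zero_cc G1 m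
  have hP2 : (PowerSeries.X : PowerSeries (PowerSeries k)) ^ 2 ∣ mulSeries G2 m := by
    rw [PowerSeries.X_pow_dvd_iff]
    intro l hl
    interval_cases l
    · rw [PowerSeries.coeff_zero_eq_constantCoeff_apply, mulSeries_zero_cc]
    · exact hm2
  obtain ⟨P2', hP2'⟩ := hP2
  have e := hf.comp_mulSeries m
  have hfz := hf.zero
  have e1 : comp f (mulSeries G1 m) =
      PowerSeries.C ((PowerSeries.X : PowerSeries k) ^ i) * comp f0 (mulSeries G1 m) := by
    conv_lhs => rw [hff]
    exact comp_C_mul _ _ hP1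
  have e2 : comp (mulSeries G2 m) f = f ^ 2 * comp P2' f := by
    rw [hP2', comp_mul _ _ hfz, comp_pow _ hfz, X_comp hfz]
  have e3 : f ^ 2 * comp P2' f = PowerSeries.C ((PowerSeries.X : PowerSeries k) ^ i) *
      (PowerSeries.C ((PowerSeries.X : PowerSeries k) ^ i) * f0 ^ 2 * comp P2' f) := by
    conv_lhs => rw [show f ^ 2 = f * f from pow_two f]
    conv_lhs => enter [1]; rw [hff]
    ring
  rw [e1, e2, e3] at e
  have hCne : PowerSeries.C ((PowerSeries.X : PowerSeries k) ^ i) ≠ 0 := by
    intro h1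
    have h2 := congrArg PowerSeries.constantCoeff h1
    rw [PowerSeries.constantCoeff_C, map_zero] at h2
    exact pow_ne_zero i PowerSeries.X_ne_zero h2
  have e4 := mul_left_cancel₀ hCne e
  have e5 := congrArg (fun x => rd x) e4
  simp only [rd, map_mul] at e5
  have e6 : PowerSeries.map (PowerSeries.constantCoeff : PowerSeries k →+* k)
      (PowerSeries.C ((PowerSeries.X : PowerSeries k) ^ i)) = 0 := by
    rw [PowerSeries.map_C, map_pow, PowerSeries.constantCoeff_X, zero_pow (by omega), map_zero]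
  rw [e6, zero_mul, zero_mul, map_comp _ hP1] at e5
  exact comp_ne_zero hf0ne hm (map_zero_cc _ hP1) e5

/-- Two homomorphisms with the same reduction agree. -/
theorem rigid_eq {G1 G2 : FormalGroup (PowerSeries k)} [G2.IsComm]
    {f g : PowerSeries (PowerSeries k)}
    (hf : IsHom G1 G2 f) (hg : IsHom G1 G2 g) (m : ℕ) (hm : rd (mulSeries G1 m) ≠ 0)
    (hm2 : PowerSeries.coeff 1 (mulSeries G2 m) = 0) (h0 : rd f = rd g) : f = g := by
  obtain ⟨y, hy, e⟩ := exists_diff p_NEG hf hg
  have e1 : rd (addG G2 f y) = addG (G2.map (PowerSeries.constantCoeff : PowerSeries k →+* k))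
      (rd f) (rd y) := map_addG _ G2 (hs_of_zero hf.zero) (hs_of_zero hy.zero)
  rw [e] at e1
  have hfz : PowerSeries.constantCoeff (rd f) = 0 := map_zero_cc _ hf.zero
  have e2 : rd y = 0 := by
    refine addG_cancel p_NEG (G2.map (PowerSeries.constantCoeff : PowerSeries k →+* k)) hfz
      (map_zero_cc _ hy.zero) (by simp) ?_
    rw [← e1, ← h0]
    exact (addG_zero _ (hs_of_zero hfz)).symm
  have e3 := rigid hy m hm hm2 e2
  rw [← e, e3]
  exact (addG_zero _ (hs_of_zero hf.zero)).symm

end Pool.Agent.CVH
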