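import Pool.Agent.CVH.Coord

set_option autoImplicit false

/-!
# CVH: the Hasse invariants generate the maximal ideal
-/

noncomputable section

namespace Pool.Agent.CVH

theorem complete_of_sq {B : Type} [CommRing B] {I : Ideal B} (h : I ^ 2 = ⊥) :
    IsAdicComplete I B where
  haus' := by
    intro x hx
    have := hx 2
    rw [h, smul_eq_mul, Ideal.mul_top, SModEq.zero] at this
    exact this
  prec' := by
    intro f hf
    refine ⟨f 2, fun m => ?_⟩
    rcases le_total m 2 with hm | hm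
    · exact hf hm
    · have h1 := hf hm
      rw [h, smul_eq_mul, Ideal.mul_top, SModEq.bot] at h1
      rw [h1]

variable {p : ℕ} [Fact p.Prime] {n : ℕ}

/-- The coefficients of `X ^ (p ^ (j + 1))` in `[p]`. -/
def hasse (F : FormalGroup (Ab p n)) (j : Fin (n - 1)) : Ab p n :=
  PowerSeries.coeff (p ^ ((j : ℕ) + 1)) (mulSeries F p)

theorem mem_max_iff (a : Ab p n) : a ∈ IsLocalRing.maximalIdeal (Ab p n) ↔ res p n a = 0 := by
  rw [IsLocalRing.mem_maximalIdeal, mem_nonunits_iff]
  constructor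
  · intro h
    by_contra hc
    exact h (isUnit_of_res hc)
  · intro h hu
    have := hu.map (res p n)
    rw [h] at this
    exact not_isUnit_zero this

theorem p_mem_max : (p : Ab p n) ∈ IsLocalRing.maximalIdeal (Ab p n) := by
  rw [mem_max_iff, map_natCast]
  exact CharP.cast_eq_zero (Kb p) p

theorem hasse_mem_max {Γ : FormalGroup (Kb p)} {F : FormalGroup (Ab p n)}
    (hred : F.map (res p n) = Γ) (ht : (mulSeries Γ p).order = ((p ^ n : ℕ) : ℕ∞))
    (j : Fin (n - 1)) : hasse F j ∈ IsLocalRing.maximalIdeal (Ab p n) := by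
  have hp : p.Prime := Fact.out
  rw [mem_max_iff, hasse, ← PowerSeries.coeff_map, map_mulSeries, hred]
  refine (PowerSeries.order_eq_nat.mp ht).2 _ ?_
  have := j.2
  exact Nat.pow_lt_pow_right hp.one_lt (by omega)

theorem tangent (h_FROB : T_FROB) {Γ : FormalGroup (Kb p)} {F : FormalGroup (Ab p n)}
    (hF : IsUniversalDeformation p n Γ F) (hn : 1 ≤ n)
    (ht : (mulSeries Γ p).order = ((p ^ n : ℕ) : ℕ∞)) :
    Ideal.span ({(p : Ab p n)} ∪ Set.range (hasse F)) = IsLocalRing.maximalIdeal (Ab p n) := by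
  have hp : p.Prime := Fact.out
  have hcomm := hF.comm
  set m := IsLocalRing.maximalIdeal (Ab p n) with hm
  set N : Ideal (Ab p n) := Ideal.span ({(p : Ab p n)} ∪ Set.range (hasse F)) with hN
  have hpN : (p : Ab p n) ∈ N := Ideal.subset_span (Or.inl rfl)
  have hNm : N ≤ m := by
    rw [hN, Ideal.span_le]
    rintro x (hx | ⟨j, rfl⟩)
    · rw [Set.mem_singleton_iff] at hx
      rw [hx]
      exact p_mem_max
    · exact hasse_mem_max hF.red ht j
  refine le_antisymm hNm ?_
  set I : Ideal (Ab p n) := N ⊔ m • m with hI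
  have hIm : I ≤ m := sup_le hNm (by rw [smul_eq_mul]; exact Ideal.mul_le_left)
  have hInt : I ≠ ⊤ := fun h => by
    have h1 := hIm
    rw [h] at h1
    exact (IsLocalRing.maximalIdeal.isMaximal (Ab p n)).ne_top (top_le_iff.mp h1)
  have hnt : Nontrivial (Ab p n ⧸ I) := Ideal.Quotient.nontrivial_iff.mpr hInt
  have hloc : IsLocalRing (Ab p n ⧸ I) :=
    IsLocalRing.of_surjective' (Ideal.Quotient.mk I) Ideal.Quotient.mk_surjective
  have hres0 : ∀ a ∈ I, res p n a = 0 := fun a ha => (mem_max_iff a).mp (hIm ha)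
  let π : (Ab p n ⧸ I) →+* Kb p := Ideal.Quotient.lift I (res p n) hres0
  have hπ : ∀ a, π (Ideal.Quotient.mk I a) = res p n a := fun a => Ideal.Quotient.lift_mk I _ _
  have hπc : π.comp (Ideal.Quotient.mk I) = res p n := RingHom.ext hπ
  have hmax : ∀ x : Ab p n ⧸ I, x ∈ IsLocalRing.maximalIdeal (Ab p n ⧸ I) → π x = 0 := by
    intro x hx
    obtain ⟨a, rfl⟩ := Ideal.Quotient.mk_surjective x
    rw [hπ]
    by_contra hc
    rw [IsLocalRing.mem_maximalIdeal, mem_nonunits_iff] at hx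
    exact hx ((isUnit_of_res hc).map _)
  have hsq : ∀ x y : Ab p n ⧸ I, π x = 0 → π y = 0 → x * y = 0 := by
    intro x y hx hy
    obtain ⟨a, rfl⟩ := Ideal.Quotient.mk_surjective x
    obtain ⟨b, rfl⟩ := Ideal.Quotient.mk_surjective y
    rw [hπ] at hx hy
    rw [← map_mul]
    apply Ideal.Quotient.eq_zero_iff_mem.mpr
    rw [hI]
    apply Ideal.mem_sup_right
    rw [smul_eq_mul]
    exact Ideal.mul_mem_mul ((mem_max_iff a).mpr hx) ((mem_max_iff b).mpr hy)
  have hsq' : IsLocalRing.maximalIdeal (Ab p n ⧸ I) ^ 2 = ⊥ := by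
    rw [pow_two, eq_bot_iff, Ideal.mul_le]
    intro x hx y hy
    rw [hsq x y (hmax x hx) (hmax y hy)]
    exact Ideal.zero_mem _
  have hcompl : IsAdicComplete (IsLocalRing.maximalIdeal (Ab p n ⧸ I)) (Ab p n ⧸ I) :=
    complete_of_sq hsq'
  have hp0 : ((p : ℕ) : Ab p n ⧸ I) = 0 := by
    have := Ideal.Quotient.eq_zero_iff_mem.mpr (Ideal.mem_sup_left hpN :
      (p : Ab p n) ∈ N ⊔ m • m)
    rwa [map_natCast] at this
  have hchar : CharP (Ab p n ⧸ I) p := (CharP.charP_iff_prime_eq_zero hp).mpr hp0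
  have halg : ∀ w : Wb p, algebraMap (Wb p) (Ab p n ⧸ I) w =
      Ideal.Quotient.mk I (MvPowerSeries.C w) := fun w => rfl
  -- the section
  have hker : RingHom.ker (WittVector.constantCoeff : Wb p →+* Kb p) ≤
      RingHom.ker (algebraMap (Wb p) (Ab p n ⧸ I)) := by
    rw [WittVector.ker_constantCoeff, Ideal.span_le]
    intro x hx
    rw [Set.mem_singleton_iff] at hx
    rw [hx]
    change algebraMap (Wb p) (Ab p n ⧸ I) (p : Wb p) = 0
    rw [map_natCast, hp0]
  let ι : Kb p →+* (Ab p n ⧸ I) := RingHom.liftOfSurjective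
    (WittVector.constantCoeff : Wb p →+* Kb p) (WittVector.constantCoeff_surjective p)
    ⟨algebraMap (Wb p) (Ab p n ⧸ I), hker⟩
  have hι : ∀ w : Wb p, ι (WittVector.constantCoeff w) = algebraMap (Wb p) (Ab p n ⧸ I) w :=
    fun w => RingHom.liftOfRightInverse_comp_apply _ _ _ _ _
  have hπι : ∀ c : Kb p, π (ι c) = c := by
    intro c
    obtain ⟨w, rfl⟩ := WittVector.constantCoeff_surjective (p := p) c
    rw [hι, halg, hπ, res_C]
  have hπιc : π.comp ι = RingHom.id _ := RingHom.ext hπι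
  -- Frobenius
  have hfrob : frobenius (Ab p n ⧸ I) p ^ n = (ι.comp (frobenius (Kb p) p ^ n)).comp π := by
    refine RingHom.ext fun x => ?_
    rw [pow_frob_apply]
    change x ^ p ^ n = ι ((frobenius (Kb p) p ^ n) (π x))
    rw [pow_frob_apply, map_pow]
    have e1 : π (x - ι (π x)) = 0 := by rw [map_sub, hπι, sub_self]
    have h2 : 2 ≤ p ^ n := by
      have h8 : p ^ 1 ≤ p ^ n := Nat.pow_le_pow_right hp.pos hn
      rw [pow_one] at h8
      exact hp.two_le.trans h8
    have e2 : (x - ι (π x)) ^ p ^ n = 0 := by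
      obtain ⟨l, hl⟩ := Nat.exists_eq_add_of_le h2
      rw [hl, pow_add, pow_two, hsq _ _ e1 e1, zero_mul]
    rw [sub_pow_char_pow, sub_eq_zero] at e2
    exact e2
  -- the deformation
  set FB := F.map (Ideal.Quotient.mk I) with hFB
  have hFBπ : FB.map π = Γ := by rw [hFB, map_map_FG, hπc, hF.red]
  have hPB : mulSeries FB p = PowerSeries.map (Ideal.Quotient.mk I) (mulSeries F p) :=
    (map_mulSeries _ F p).symm
  obtain ⟨g, hg, hge⟩ := frob_iter h_FROB p (isHom_mulSeries FB p) n (by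
    intro i hi
    rcases Nat.eq_zero_or_pos i with h0 | h0
    · rw [h0, pow_zero, coeff_one_mulSeries, hp0]
    · rw [hPB, PowerSeries.coeff_map]
      apply Ideal.Quotient.eq_zero_iff_mem.mpr
      rw [hI]
      apply Ideal.mem_sup_left
      apply Ideal.subset_span
      right
      refine ⟨⟨i - 1, by omega⟩, ?_⟩
      simp only [hasse]
      congr 2
      congr 1
      omega)
  have hFBfrob : FB.map (frobenius (Ab p n ⧸ I) p ^ n) =
      (Γ.map (frobenius (Kb p) p ^ n)).map ι := by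
    have e : FB.map ((ι.comp (frobenius (Kb p) p ^ n)).comp π) =
        (FB.map π).map (ι.comp (frobenius (Kb p) p ^ n)) := (map_map_FG _ _ _).symm
    rw [hfrob, e, hFBπ, map_map_FG]
  rw [hFBfrob] at hg
  -- the reduction of `g`
  have hgr := hg.map π
  have e3 : ((Γ.map (frobenius (Kb p) p ^ n)).map ι).map π = Γ.map (frobenius (Kb p) p ^ n) := by
    rw [map_map_FG, hπιc, map_id_FG]
  rw [e3, hFBπ] at hgr
  have hQ : 1 ≤ p ^ n := Nat.one_le_pow _ _ hp.pos
  have hunit : IsUnit (PowerSeries.coeff 1 (PowerSeries.map π g)) := by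
    rw [isUnit_iff_ne_zero]
    have e4 : mulSeries Γ p = comp (PowerSeries.map π g) (PowerSeries.X ^ p ^ n) := by
      have e5 := congrArg (PowerSeries.map π) hge
      rw [map_comp π (X_pow_cc hQ), map_pow, PowerSeries.map_X, map_mulSeries, hFBπ] at e5
      exact e5
    rw [← coeff_comp_X_pow hQ hgr.zero, ← e4]
    exact (PowerSeries.order_eq_nat.mp ht).1
  obtain ⟨g', hg', hgg', -⟩ := exists_inv hgr hunit
  -- the two homomorphisms
  have hψ : IsHom (Γ.map ι) FB (comp g (PowerSeries.map ι g')) := hg.comp (hg'.map ι)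
  have hψr : PowerSeries.map π (comp g (PowerSeries.map ι g')) = PowerSeries.X := by
    rw [map_comp π (map_zero_cc ι hg'.zero)]
    have e6 : PowerSeries.map π (PowerSeries.map ι g') = g' := by
      ext i
      rw [PowerSeries.coeff_map, PowerSeries.coeff_map, hπι]
    rw [e6, hgg']
  have hFBc : FB.IsComm := inferInstance
  have huniv := hF.univ (Ab p n ⧸ I) π (fun c => ⟨ι c, hπι c⟩)
    (fun w => by rw [halg, hπ, res_C]) FB PowerSeries.X
    (by rw [hFBπ]; exact isHom_X Γ) (by rw [PowerSeries.coeff_one_X]; exact isUnit_one)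
  let φ1 : Ab p n →ₐ[Wb p] (Ab p n ⧸ I) := Ideal.Quotient.mkₐ (Wb p) I
  let φ2 : Ab p n →ₐ[Wb p] (Ab p n ⧸ I) :=
    { ι.comp (res p n) with
      commutes' := by
        intro w
        change ι (res p n (MvPowerSeries.C w)) = _
        rw [res_C, hι] }
  have h1 : π.comp (φ1 : Ab p n →+* _) = res p n ∧
      ∃ ψ : PowerSeries (Ab p n ⧸ I), IsHom (F.map (φ1 : Ab p n →+* _)) FB ψ ∧
        comp PowerSeries.X (PowerSeries.map π ψ) = PowerSeries.X := by
    refine ⟨hπc, PowerSeries.X, isHom_X _, ?_⟩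
    rw [PowerSeries.map_X, comp_X]
  have h2 : π.comp (φ2 : Ab p n →+* _) = res p n ∧
      ∃ ψ : PowerSeries (Ab p n ⧸ I), IsHom (F.map (φ2 : Ab p n →+* _)) FB ψ ∧
        comp PowerSeries.X (PowerSeries.map π ψ) = PowerSeries.X := by
    refine ⟨RingHom.ext fun a => hπι _, comp g (PowerSeries.map ι g'), ?_, ?_⟩
    · have e7 : F.map (φ2 : Ab p n →+* _) = Γ.map ι := by
        rw [← hF.red, map_map_FG]
        rfl
      rw [e7]
      exact hψ
    · rw [hψr, comp_X]
  have heq : φ1 = φ2 := huniv.unique h1 h2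
  have hmle : m ≤ I := by
    intro a ha
    have h3 := congrArg (fun φ : Ab p n →ₐ[Wb p] (Ab p n ⧸ I) => φ a) heq
    change Ideal.Quotient.mk I a = ι (res p n a) at h3
    rw [(mem_max_iff a).mp ha, map_zero] at h3
    exact Ideal.Quotient.eq_zero_iff_mem.mp h3
  exact Submodule.le_of_le_smul_of_le_jacobson_bot (IsNoetherian.noetherian m)
    (IsLocalRing.maximalIdeal_le_jacobson _) hmle

end Pool.Agent.CVH
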