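import Pool.Agent.CVH.Lib

set_option autoImplicit false

/-!
# CVH: targets (MP_05d689_gt). Every proof is in the docstring.
-/

noncomputable section

namespace Pool.Agent.CVH

/-- NEG. Inverses exist: for every formal group law `G` there is `i(X)` with `G(X, i(X)) = 0`.

PROOF. (1) If `a, b, b'` have constant coefficient zero and `b - b'` is divisible by `X ^ (N + 1)`
then `addG G a b` and `addG G a b'` have the same coefficient `N`: by `MvPowerSeries.coeff_subst`
(as in Mathlib's proof of `PowerSeries.subst_substInv_right`) the coefficient is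
`∑ᶠ d, coeff d G • coeff N (a ^ (d 0) * b ^ (d 1))`. (2) For `N ≥ 1` the coefficient `N` of
`addG G a (b + c X^N)` is that of `addG G a b` plus `c`: the difference of the terms for `d` is
divisible by `X^(N+1)` unless `d = (0, 1)`, and `coeff (0,1) G = 1` (`G.lin_coeff_Y`). (3) Define
the coefficients `c N` of `i` by strong recursion: `c 0 = 0`,
`c N = - coeff N (addG G X (∑_{j < N} c j X^j))`. By (1), (2) all coefficients of `addG G X i`
vanish (coefficient zero: `addG_zero_cc`). Any other proof is fine. -/
def T_NEG : Prop := ∀ (R : Type) [CommRing R] (G : FormalGroup R),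
  ∃ i : PowerSeries R, PowerSeries.constantCoeff i = 0 ∧ addG G PowerSeries.X i = 0

/-- ROOT. `f(Y) = b` has at most `d` roots in `t k[[t]]` if the coefficient `d ≥ 1` of `f` is not
zero.

PROOF. Write `T = PowerSeries k`, `cc = constantCoeff`. (R) By induction on `d`: for every injective
`y : Fin (d + 1) → T` with `cc (y i) = 0` there is `D` such that for all `h : Polynomial T` with
`X ^ D ∣ h.eval (y i)` for all `i` we have `cc (h.coeff d) = 0`. For `d = 0` take `D = 1`:
`cc (h.eval y) = (h.map cc).eval 0 = cc (h.coeff 0)`. Step: let `D'` be the bound for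
`i ↦ y i.succ`, and `e` with `¬ X ^ (e + 1) ∣ y i.succ - y 0` for all `i`; put `D = D' + e + 1` or
larger. Write `h = (X - C (y 0)) * q + C (h.eval (y 0))` (`Polynomial.divByMonic`). Then
`(y i.succ - y 0) * q.eval (y i.succ) = h.eval (y i.succ) - h.eval (y 0)` is divisible by `X ^ D`,
so `X ^ D' ∣ q.eval (y i.succ)` (orders: `PowerSeries.order_mul`, or `X` is prime), so
`cc (q.coeff d) = 0`, and `h.coeff (d + 1) = q.coeff d - y 0 * q.coeff (d + 1)`. (S) Suppose `y` is
injective with `f(y i) = b`; let `D` be as in (R) and `L = max D (d + 1)`,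
`h = (trunc L f).map C - C b`. From `f = trunc L f + X ^ L * g` (`PowerSeries.subst_add`,
`subst_mul`, `subst_pow`, `subst_coe`: `subst y (trunc L f) = aeval y (trunc L f)`) we get
`X ^ L ∣ h.eval (y i)` (`X ∣ y i`). As `d ≥ 1` and `d < L`: `h.coeff d = C (coeff d f)`, so
`coeff d f = 0`. -/
def T_ROOT : Prop := ∀ (k : Type) [Field k] (f b : PowerSeries k) (d : ℕ), 1 ≤ d →
  PowerSeries.coeff d f ≠ 0 → ∀ y : Fin (d + 1) → PowerSeries k,
  (∀ i, PowerSeries.constantCoeff (y i) = 0) → (∀ i, comp f (y i) = b) →
  ¬ Function.Injective y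

/-- COMPL. The ring `A = W[[u_1, …, u_(n-1)]]` is complete for its maximal ideal `m`.

PROOF. `W` is local (a discrete valuation ring, instance) with maximal ideal `(p)`
(`WittVector.ker_constantCoeff`), complete (`WittVector.isAdicCompleteIdealSpanP`); `f ∈ m` if and
only if `p ∣ constantCoeff f`. Let `K i = {f | ∀ e, coeff e f ∈ (p ^ (i - |e|))}` (truncated
subtraction, `|e| = e.degree`). (a) `m ^ i ≤ K i`: `K i` is an ideal, `m ≤ K 1`, `K i * K j ≤ K
(i + j)` (`MvPowerSeries.coeff_mul`). (b) `K i ≤ m ^ i`: by induction on the number of variables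
or: a series whose coefficients vanish for `|e| < i` is a finite sum of series
`X^e * g` with `|e| = i`
(peel off one variable at a time with `MvPowerSeries.X_dvd_iff`: a series of order `≥ i` is
`∑_j X_j g_j` with `g_j` of order `≥ i - 1`), and the finitely many terms with `|e| < i` are in
`m ^ i`. Hausdorff: by (a) all coefficients are in `⋂ (p ^ N) = 0` (or Krull's theorem,
`A` is Noetherian and local). Precomplete: if `f_i - f_j ∈ m ^ i` for `i ≤ j` then by (a) for every
`e` the sequence `i ↦ coeff e (f_(i + |e|))` is Cauchy for `(p)`; let `coeff e f` be its limit; then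
`coeff e (f - f_i) ∈ (p ^ (i - |e|))` for all `e`, so `f - f_i ∈ m ^ i` by (b). Alternative:
Mathlib's `MvPowerSeries/Equiv.lean` has the comparison with the completion of `MvPolynomial` at
`idealOfVars`. -/
def T_COMPL : Prop := ∀ (p : ℕ) [Fact p.Prime] (n : ℕ),
  IsAdicComplete (IsLocalRing.maximalIdeal (Ab p n)) (Ab p n)

/-- JMEM. Membership in the ideal `(p, u_1, …, u_h)` (`Jid p n h`).

PROOF. `→`: `Submodule.span_induction` / the set of such `f` is an ideal: it is the kernel of the
ring homomorphism `(MvPowerSeries.killCompl e).comp (MvPowerSeries.map constantCoeff)` for the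
embedding `e` of `{j // h ≤ j}` in `Fin (n - 1)` (`MvPowerSeries.coeff_killCompl`), and the
generators are in it. `←`: induction on `h`. `h = 0`: all coefficients are divisible by `p`
(`WittVector.ker_constantCoeff`), so `p ∣ f`. Step: if `h < n - 1` put
`f' = (fun e => if e ⟨h, _⟩ = 0 then coeff e f else 0)`; `X ⟨h, _⟩ ∣ f - f'`
(`MvPowerSeries.X_dvd_iff`), and `f' ∈ Jid p n h` by induction. If `h ≥ n - 1` the ideals for `h`
and `h + 1` and the conditions agree. -/
def T_JMEM : Prop := ∀ (p : ℕ) [Fact p.Prime] (n h : ℕ) (f : Ab p n),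
  f ∈ Jid p n h ↔ ∀ e : Fin (n - 1) →₀ ℕ, (∀ j : Fin (n - 1), (j : ℕ) < h → e j = 0) →
    WittVector.constantCoeff (MvPowerSeries.coeff e f) = (0 : Kb p)

end Pool.Agent.CVH
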