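import Pool.Agent.CVH.Final

set_option autoImplicit false

/-!
# CVH: second part of the targets

Part B removes the hypothesis on the coordinates, part A (Lazard) the hypothesis on `S`.
Useful lemmas: Lib.lean, Lib2.lean (`exists_inv`), Lib3.lean (`coeff_comp_left`, `order_comp`,
`coeff_one_mulSeries`, `comp_mul`, ..), ThmC.lean (`iter`).
-/

noncomputable section

namespace Pool.Agent.CVH

/-! ## Part B -/

/-- FROB. A homomorphism with vanishing linear coefficient factors through Frobenius.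

PROOF. `f(F(X, Y)) = G(f(X), f(Y))`; take the terms linear in `Y`. Cleanest: base change to the
dual numbers `R[ε]` and substitute `X, ε` (allowed, `ε` is nilpotent; `DualNumber R` or
`TrivSqZeroExt`): `f(F(X, ε)) = G(f(X), f_1 ε) = G(f(X), 0) = f(X)` as `f_1 = coeff 1 f = 0`, and
`F(X, ε) = X + ε F_2(X)` with `F_2(0) = 1`, `f(X + ε F_2) = f(X) + ε f'(X) F_2(X)`. Or compare the
coefficients of `X^i Y^1` directly, or use `MvPowerSeries.pderiv`. So
`f'(X) F_2(X) = 0`, `F_2` is a unit, `f' = 0`, so `i f_i = 0` and `f_i = 0` for `p ∤ i` (`i` is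
invertible in the `ZMod p`-algebra `R`). So `f = f1(X^p)`. Then `f1` is a homomorphism from
`F.map (frobenius R p)`: `f1((F^σ)(X^p, Y^p)) = f1(F(X, Y)^p) = f(F(X, Y)) = G(f1(X^p), f1(Y^p))`
(`MvPowerSeries.map_frobenius_expand`, `expand`), and `X, Y ↦ X^p, Y^p` is injective on power
series. -/
def T_FROB : Prop := ∀ (R : Type) [CommRing R] (p : ℕ) [Fact p.Prime] [CharP R p]
  (F G : FormalGroup R) (f : PowerSeries R), IsHom F G f → PowerSeries.coeff 1 f = 0 →
  ∃ f1 : PowerSeries R, IsHom (F.map (frobenius R p)) G f1 ∧ f = comp f1 (PowerSeries.X ^ p)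

/-- SURJ. Change of coordinates: if `v_j` have constant coefficient zero and generate with `p` the
maximal ideal of `A`, then the `W`-algebra homomorphism `X_j ↦ v_j` is bijective.

PROOF. `θ = MvPowerSeries.substAlgHom`. Let `m` be the maximal ideal; `θ` maps `m` into `m` and
`Ideal.map θ m = m` (`θ (X j) = v j`, `θ p = p`), so `Ideal.map θ (m ^ i) = m ^ i`. (1) For
`f ∈ m ^ i` there is `g ∈ m ^ i` with `f - θ g ∈ m ^ (i + 1)`: `Submodule.span_induction` over
`m ^ i = span (θ '' m ^ i)`; for `a * x` write `a = C w + a'` with `w = constantCoeff a`,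
`a' ∈ m`, and use `C w * g`. (2) Surjective: with (1) find `g_i` with `f - θ g_i ∈ m ^ i`,
`g_(i+1) - g_i ∈ m ^ i`; `A` is complete (`p_COMPL`); the limit `g` satisfies `θ g = f`. (3) A
surjective endomorphism `θ` of a Noetherian ring is injective: the chain `ker (θ^i)` stops, and if
`θ x = 0`, `x = θ^i y` then `y ∈ ker θ^(i+1) = ker θ^i`, so `x = 0`. -/
def T_SURJ : Prop := ∀ (p : ℕ) [Fact p.Prime] (n : ℕ) (v : Fin (n - 1) → Ab p n),
  (∀ j, MvPowerSeries.constantCoeff (v j) = 0) →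
  Ideal.span ({(p : Ab p n)} ∪ Set.range v) = IsLocalRing.maximalIdeal (Ab p n) →
  ∃ θ : Ab p n ≃ₐ[Wb p] Ab p n, ∀ j, θ (MvPowerSeries.X j) = v j

/-! ## Part A: Lazard's theorem -/

/-- The coefficient of `X^i Y^j`. -/
def c2 {R : Type} [CommRing R] (G : FormalGroup R) (i j : ℕ) : R :=
  MvPowerSeries.coeff (Finsupp.single 0 i + Finsupp.single 1 j) G.toPowerSeries

/-- LTG. A formal group law over `ZMod p` with `[p](X) = X ^ (p ^ n)`.

PROOF. (Lubin-Tate) Let `q = p ^ n`, `f = p X + X^q` over `ℤ_[p]` (or over the localisation of `ℤ`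
at `p`). LEMMA: for a linear form `L = ∑ l_i X_i` in `r` variables there is exactly one series `φ`
without constant term, with linear part `L` and `f(φ) = φ(f(X_1), …, f(X_r))`. The coefficients
`c_e` of `φ` for `|e| = d ≥ 2` are determined recursively by
`(p - p^d) c_e = coeff e (φ_{<d}(f(X_1), ..)) - coeff e (φ_{<d}^q)`, where `φ_{<d}` has the terms
of degree `< d`; the right side is divisible by `p` because modulo `p` `f = X^q` and
`φ(X^q) = φ(X)^q` for series over `ZMod p`, and `1 - p^(d-1)` is a unit. Let `φ = F(X, Y)` for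
`L = X + Y`. By uniqueness `F(F(X,Y),Z) = F(X,F(Y,Z))` (both solve the problem for
`X + Y + Z`), `F(X,Y) = F(Y,X)`, and `[p]_F = f` (both commute with `f` and have linear part
`p X`; `[p]_F` commutes with `f` as `f` is an endomorphism). Reduce modulo `p`
(`PadicInt.toZMod`). -/
def T_LTG : Prop := ∀ (p : ℕ) [Fact p.Prime] (n : ℕ), 1 ≤ n →
  ∃ H : FormalGroup (ZMod p), H.IsComm ∧ mulSeries H p = PowerSeries.X ^ (p ^ n)

/-- NORM. Normal form of the series `[p]`.

PROOF. `q = p ^ n`. Find `u` with `u = h(u^σ)`, `u^σ` = coefficients to the power `q`; then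
`h(u(X)^q) = h(u^σ(X^q)) = u(X^q)` (`MvPowerSeries.map_iterateFrobenius_expand`). Coefficients:
`u_1 = h_1 u_1^q` has a solution `u_1 ≠ 0` (a root of `h_1 T^(q-1) = 1`), and for `j ≥ 2` the
coefficient `j` of `h(u^σ)` is `h_1 u_j^q + c_j` with `c_j` depending only on `u_1, …, u_(j-1)`
(truncate `u`), so `u_j` is a root of the polynomial `T - h_1 T^q - c_j` of degree `q ≥ 2`
(`IsAlgClosed.exists_root`). Strong recursion with choice. -/
def T_NORM : Prop := ∀ (p : ℕ) [Fact p.Prime] (n : ℕ), 1 ≤ n → ∀ (k : Type) [Field k]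
  [IsAlgClosed k] [CharP k p] (h : PowerSeries k), PowerSeries.constantCoeff h = 0 →
  PowerSeries.coeff 1 h ≠ 0 → ∃ u : PowerSeries k, PowerSeries.constantCoeff u = 0 ∧
    PowerSeries.coeff 1 u ≠ 0 ∧
    comp (comp h (PowerSeries.X ^ (p ^ n))) u = comp u (PowerSeries.X ^ (p ^ n))

/-- CONJ. Transport of a formal group law.

PROOF. `G'(X, Y) = u⁻¹(G(u(X), u(Y)))` with `u⁻¹ = u.substInvOfIsUnit`. All composites with
`PowerSeries.subst_comp_subst_apply`, `mvsubst_psubst`, `subst_addG`. Linear coefficients: e.g.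
coefficient of `X`: substitute `Y = 0` (`G'(X, 0) = u⁻¹(u(X)) = X`) or compute. Associativity:
apply `u` to both sides (`u⁻¹` is injective) and use `G.assoc'`. -/
def T_CONJ : Prop := ∀ (R : Type) [CommRing R] (G : FormalGroup R) (u : PowerSeries R),
  PowerSeries.constantCoeff u = 0 → IsUnit (PowerSeries.coeff 1 u) →
  ∃ G' : FormalGroup R, IsHom G' G u ∧ (G.IsComm → G'.IsComm)

/-- FIX. If `X ^ q` is an endomorphism then the coefficients are fixed by the `q`-power map.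

PROOF. `G(X, Y)^q = G(X^q, Y^q)` (`IsHom.map_add` for `X ^ q`), and
`G(X, Y)^q = (G^σ)(X^q, Y^q)` (`MvPowerSeries.map_iterateFrobenius_expand`); `expand` is
injective. -/
def T_FIX : Prop := ∀ (p : ℕ) [Fact p.Prime] (n : ℕ) (k : Type) [Field k] [CharP k p]
  (G : FormalGroup k), IsHom G G (PowerSeries.X ^ (p ^ n)) →
  ∀ e, MvPowerSeries.coeff e G.toPowerSeries ^ (p ^ n) = MvPowerSeries.coeff e G.toPowerSeries

/-- COC. Symmetric 2-cocycles over a field of characteristic `p` (only the coefficients).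

PROOF. `C(a, p^t) ≡ (digit t of a) mod p` (Lucas, e.g.
`Choose.choose_modEq_choose_mod_mul_choose_div_nat`). Write (R) for the relation `C(i+j, i)
c_(i+j) = C(j+l, j) c_i`. (1) If `0 < i < m`
is not a power of `p` let `i_t ≠ 0` be a digit of `i`, `a = p^t < i`: `C(i, a) ≢ 0`, so by (R)
`c_i` is a multiple of `c_a`. (2) For `t ≠ u`, `p^t + p^u < m`:
`C(p^t + p^u, p^t) ≡ C(p^t + p^u, p^u) ≡ 1`, so by (R) in both orders
`C(m - p^t, p^u) c_(p^t) = C(m - p^u, p^t) c_(p^u)`, the binomials being the digit `u` of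
`m - p^t` and the digit `t` of `m - p^u`. Subtract from `c` the multiple of the standard solution
which makes one value zero. FIRST PART (`m` not a power of `p`; standard solution `C(m, i)`,
`r = v_p(m)`, `C(m, p^r) ≡ s_0 ≠ 0`, the digit `r` of `m`, `p^r < m`): let `c_(p^r) = 0`. If
`t > r`, `p^t + p^r < m`: digit `r` of `m - p^t` is `s_0`, so `c_(p^t) = 0`; if `p^t + p^r = m` use
`c_(p^t) = c_(p^r)`. If `t < r`: digit `t` of `m - p^u` is zero for `u ≥ r`; digit `r` of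
`m - p^t` is `s_0 - 1`, so `c_(p^t) = 0` if `s_0 ≠ 1`; if `s_0 = 1` there is a digit `m_u ≠ 0`,
`u > r`, which is also the digit `u` of `m - p^t`, so `c_(p^t) = 0`. SECOND PART (`m = p^r`,
`r ≥ 1`; standard solution `C(m, i)/p`, its value at `p^(r-1)` is `≡ 1`, it satisfies (R) over the
integers after multiplication by `p`): let `c_(p^(r-1)) = 0`; for `t < r - 1` the digit `r - 1` of
`m - p^t` is `p - 1` and the digit `t` of `m - p^(r-1)` is `0`, so `c_(p^t) = 0`. Then all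
`c_i = 0` by (1). -/
def T_COC : Prop := ∀ (p : ℕ) [Fact p.Prime] (k : Type) [Field k] [CharP k p] (m : ℕ), 2 ≤ m →
  ∀ c : ℕ → k, (∀ i, 0 < i → i < m → c i = c (m - i)) →
  (∀ i j l : ℕ, 0 < i → 0 < j → 0 < l → i + j + l = m →
    ((i + j).choose i : k) * c (i + j) = ((j + l).choose j : k) * c i) →
  ((∀ r : ℕ, m ≠ p ^ r) → ∃ a : k, ∀ i, 0 < i → i < m → c i = a * (m.choose i : k)) ∧
  (∀ r : ℕ, m = p ^ r → ∃ a : k, ∀ i, 0 < i → i < m → c i = a * ((m.choose i / p : ℕ) : k))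

/-- CO. The difference of two formal group laws in the first degree in which they differ is a
cocycle.

PROOF. Let `D(X, Y) = ∑_{i ≤ M} (c2 G' i (M-i) - c2 G i (M-i)) X^i Y^(M-i)`, `G' ≡ G + D` modulo
degree `M + 1`. `G'(G'(X,Y),Z) ≡ G(G'(X,Y),Z) + D(X+Y,Z) ≡ G(G(X,Y),Z) + D(X,Y) + D(X+Y,Z)` modulo
degree `M + 1` and `G'(X,G'(Y,Z)) ≡ G(X,G(Y,Z)) + D(Y,Z) + D(X,Y+Z)`. Compare the coefficients of
`X^i Y^j Z^l`. First two claims: `G(0, Y) = Y` (`FormalGroup.zeroX_eq_X`). -/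
def T_CO : Prop := ∀ (R : Type) [CommRing R] (G G' : FormalGroup R) (M : ℕ), 2 ≤ M →
  (∀ i j, i + j < M → c2 G i j = c2 G' i j) →
  c2 G' 0 M - c2 G 0 M = 0 ∧ c2 G' M 0 - c2 G M 0 = 0 ∧
  ∀ i j l : ℕ, 0 < i → 0 < j → 0 < l → i + j + l = M →
    ((i + j).choose i : R) * (c2 G' (i + j) l - c2 G (i + j) l) =
      ((j + l).choose j : R) * (c2 G' i (j + l) - c2 G i (j + l))

/-- PD. The effect on the multiplication series.

PROOF. Induction on `m`: `[m+1]_{G'} = G'([m]_{G'}(X), X) ≡ G([m]_{G'}(X), X) + D(m X, X)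
≡ G([m]_G(X), X) + (δ_m + ∑_i D_i m^i) X^M` modulo `X^(M+1)`, where `δ_m` is the difference for `m`
(`[m](X) ≡ m X` modulo `X^2`). -/
def T_PD : Prop := ∀ (R : Type) [CommRing R] (G G' : FormalGroup R) (M : ℕ), 2 ≤ M →
  (∀ i j, i + j < M → c2 G i j = c2 G' i j) → ∀ m : ℕ,
  (∀ i < M, PowerSeries.coeff i (mulSeries G' m) = PowerSeries.coeff i (mulSeries G m)) ∧
  PowerSeries.coeff M (mulSeries G' m) - PowerSeries.coeff M (mulSeries G m) =
    ∑ j ∈ Finset.range m, ∑ i ∈ Finset.range (M + 1),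
      (c2 G' i (M - i) - c2 G i (M - i)) * (j : R) ^ i

/-- SUB. The effect of a change of variable `u = X + b X^M` on the first coefficients.

PROOF. `u` is a homomorphism `G → G'`: `u(G(X, Y)) = G'(u(X), u(Y))`. Modulo degree `M + 1`:
`u(G(X,Y)) ≡ G(X,Y) + b (X+Y)^M`, `G'(u(X), u(Y)) ≡ G'(X, Y) + b X^M + b Y^M` (`M ≥ 2`). Compare
the coefficients of `X^i Y^j` for `i + j ≤ M`. -/
def T_SUB : Prop := ∀ (R : Type) [CommRing R] (G G' : FormalGroup R) (M : ℕ), 2 ≤ M →
  ∀ b : R, IsHom G G' (PowerSeries.X + PowerSeries.C b * PowerSeries.X ^ M) →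
  (∀ i j, i + j < M → c2 G' i j = c2 G i j) ∧
  ∀ i j, 0 < i → 0 < j → i + j = M → c2 G' i j = c2 G i j + b * (M.choose i : R)

/-- STEP. One step of the comparison (uses FIX, COC, CO, PD, SUB, CONJ).

PROOF. Let `D_i = c2 G2 i (M-i) - c2 G1 i (M-i)`. CO and commutativity: `D` satisfies the hypotheses
of COC. If `M` is not a power of `p` then `D_i = b C(M, i)`; `b^q = b` for `q = p^n` because some
`C(M, i) ≠ 0` in `k` (`0 < i < M`; if all vanish take `b = 0`) and the coefficients are fixed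
(FIX; `X^q` is an endomorphism by `isHom_mulSeries`). Let `u = X + b X^M` and (CONJ for the
inverse of `u`) `G'`
with `u : G1 → G'` a homomorphism; SUB: `G'` and `G2` agree in degrees `≤ M`. `mulSeries G' p` is
`u ∘ X^q ∘ u⁻¹ = X^q` as `u ∘ X^q = X^q ∘ u` (`b^q = b`). If `M = p^r`: `D_i = a C(M,i)/p`, and
`∑_{j<p} ∑_{0<i<M} (C(M,i)/p) j^i = ∑_{j<p} ((j+1)^M - j^M - 1)/p = (p^M - p)/p ≡ -1` modulo `p`, so
PD for `m = p` gives `0 = - a` (both series `[p]` are `X^q`), so `D = 0`; take `G' = G1`,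
`b = 0`. -/
def T_STEP : Prop := ∀ (p : ℕ) [Fact p.Prime] (n : ℕ), 1 ≤ n → ∀ (k : Type) [Field k] [CharP k p]
  (G1 G2 : FormalGroup k) [G1.IsComm] [G2.IsComm],
  mulSeries G1 p = PowerSeries.X ^ (p ^ n) → mulSeries G2 p = PowerSeries.X ^ (p ^ n) →
  ∀ M : ℕ, 2 ≤ M → (∀ i j, i + j < M → c2 G1 i j = c2 G2 i j) →
  ∃ (G' : FormalGroup k) (b : k), G'.IsComm ∧
    IsHom G1 G' (PowerSeries.X + PowerSeries.C b * PowerSeries.X ^ M) ∧
    mulSeries G' p = PowerSeries.X ^ (p ^ n) ∧ (∀ i j, i + j < M + 1 → c2 G' i j = c2 G2 i j)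

/-- CMP. Lazard's comparison theorem (uses STEP).

PROOF. Iterate STEP: `G_2 = G1` (all formal group laws agree in degrees `< 2`), `G_(M+1)` from `G_M`
with `w_M = X + b_M X^M : G_M → G_(M+1)`; `u_M = w_(M-1) ∘ … ∘ w_2 : G1 → G_M`, and
`u_(M+1) ≡ u_M` modulo `X^M`. Let `u` be the limit (`coeff i u = coeff i u_(i+1)`, so
`u ≡ u_M` modulo `X^M`). For every `M` and `i + j < M` the coefficients of `X^i Y^j` of
`u(G1(X, Y))` and `G2(u(X), u(Y))` are those of `u_M(G1(X, Y)) = G_M(u_M(X), u_M(Y))`. -/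
def T_CMP : Prop := ∀ (p : ℕ) [Fact p.Prime] (n : ℕ), 1 ≤ n → ∀ (k : Type) [Field k] [CharP k p]
  (G1 G2 : FormalGroup k) [G1.IsComm] [G2.IsComm],
  mulSeries G1 p = PowerSeries.X ^ (p ^ n) → mulSeries G2 p = PowerSeries.X ^ (p ^ n) →
  ∃ u : PowerSeries k, IsHom G1 G2 u ∧ PowerSeries.coeff 1 u = 1

/-- LAZ. Every formal group law of height `n` over an algebraically closed field of characteristic
`p` has an endomorphism `S` with `S^n = [p]` (uses FROB, LTG, NORM, CONJ, CMP).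

PROOF. Iterating FROB (`coeff (p^i) (mulSeries Γ p) = 0` for `i < n`; `i = 0`: `p = 0` in `k`):
`mulSeries Γ p = comp h (X ^ q)`, `q = p^n`, `coeff 1 h ≠ 0`. NORM: `u`. CONJ: `Γ'` with
`u : Γ' → Γ`; `u ∘ [p]_{Γ'} = [p]_Γ ∘ u = u ∘ X^q` (`IsHom.comp_mulSeries`), so `[p]_{Γ'} = X^q`
(`u` has an inverse series). Let `H` be the base change of LTG to `k` (`ZMod.castHom`/`algebraMap`),
`[p]_H = X^q` (`map_mulSeries`), and `X^p` is an endomorphism of `H` (its coefficients are fixed by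
`x ↦ x^p`). CMP: `v : Γ' → H`. Let `w = v ∘ u⁻¹ : Γ → H`, `S = w⁻¹ ∘ X^p ∘ w` (`exists_inv`);
`S^n = w⁻¹ ∘ X^q ∘ w = w⁻¹ ∘ [p]_H ∘ w = [p]_Γ`. -/
def T_LAZ : Prop := ∀ (p : ℕ) [Fact p.Prime] (n : ℕ), 1 ≤ n → ∀ (k : Type) [Field k]
  [IsAlgClosed k] [CharP k p] (Γ : FormalGroup k) [Γ.IsComm],
  (mulSeries Γ p).order = ((p ^ n : ℕ) : ℕ∞) →
  ∃ S : PowerSeries k, IsHom Γ Γ S ∧ iter S n = mulSeries Γ p

end Pool.Agent.CVH
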