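import Pool.Agent.CVH.Rigid
import Pool.Agent.CVH.P_ROOT

set_option autoImplicit false

/-!
# CVH: no invariants over `k[[t]]`
-/

noncomputable section

namespace Pool.Agent.CVH

section iter

variable {R : Type} [CommRing R]

theorem iter_zero_cc {f : PowerSeries R} (hf : PowerSeries.constantCoeff f = 0) (m : ℕ) :
    PowerSeries.constantCoeff (iter f m) = 0 := by
  induction m with
  | zero => simp [iter]
  | succ m ih => exact comp_zero_cc hf ih

theorem iter_add {f : PowerSeries R} (hf : PowerSeries.constantCoeff f = 0) (a b : ℕ) :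
    iter f (a + b) = comp (iter f a) (iter f b) := by
  induction a with
  | zero => rw [zero_add]; exact (X_comp (iter_zero_cc hf b)).symm
  | succ a ih =>
    rw [Nat.succ_add]
    change comp f (iter f (a + b)) = comp (comp f (iter f a)) (iter f b)
    rw [ih, comp_assoc (iter_zero_cc hf a) (iter_zero_cc hf b)]

theorem iter_mulSeries (F : FormalGroup R) [F.IsComm] (a m : ℕ) :
    iter (mulSeries F a) m = mulSeries F (a ^ m) := by
  induction m with
  | zero => rw [pow_zero]; exact (mulSeries_one F).symm
  | succ m ih =>
    change comp (mulSeries F a) (iter (mulSeries F a) m) = _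
    rw [ih, ← mulSeries_mul, pow_succ']

theorem iter_mul_of {F : FormalGroup R} [F.IsComm] {S : PowerSeries R} (hS : IsHom F F S)
    {n p : ℕ} (hSn : iter S n = mulSeries F p) (e : ℕ) :
    iter S (n * e) = mulSeries F (p ^ e) := by
  induction e with
  | zero => rw [pow_zero]; exact (mulSeries_one F).symm
  | succ e ih => rw [Nat.mul_succ, iter_add hS.zero, ih, hSn, ← mulSeries_mul, pow_succ]

theorem iter_comp_mulSeries {F : FormalGroup R} [F.IsComm] {S : PowerSeries R}
    (hS : IsHom F F S) (a j : ℕ) :
    iter (comp (mulSeries F a) S) j = comp (mulSeries F (a ^ j)) (iter S j) := by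
  induction j with
  | zero => rw [pow_zero, mulSeries_one]; exact (comp_X _).symm
  | succ j ih =>
    change comp (comp (mulSeries F a) S) (iter (comp (mulSeries F a) S) j) =
      comp (mulSeries F (a ^ (j + 1))) (comp S (iter S j))
    have h1 := iter_zero_cc hS.zero j
    have h2 := mulSeries_zero_cc F (a ^ j)
    rw [ih, comp_assoc hS.zero (comp_zero_cc h2 h1), ← comp_assoc h2 h1, hS.comp_mulSeries,
      comp_assoc hS.zero h1, ← comp_assoc h2 (comp_zero_cc hS.zero h1), ← mulSeries_mul, pow_succ']

end iter

section phi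

variable {k : Type} [Field k]

theorem phi_eq (φ : PowerSeries k →+* PowerSeries k)
    (hC : ∀ c : k, φ (PowerSeries.C c) = PowerSeries.C c)
    (hX : PowerSeries.constantCoeff (φ PowerSeries.X) = 0) (f : PowerSeries k) :
    φ f = comp f (φ PowerSeries.X) := by
  have hs : PowerSeries.HasSubst (φ PowerSeries.X) := hs_of_zero hX
  have hpoly : ∀ q : Polynomial k, φ (q : PowerSeries k) =
      comp (q : PowerSeries k) (φ PowerSeries.X) := by
    intro q
    have : φ.comp (Polynomial.coeToPowerSeries.ringHom) =
        ((PowerSeries.substAlgHom (R := k) hs).toRingHom).comp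
          (Polynomial.coeToPowerSeries.ringHom) := by
      apply Polynomial.ringHom_ext
      · intro c
        simp only [RingHom.comp_apply, Polynomial.coeToPowerSeries.ringHom_apply,
          Polynomial.coe_C, hC]
        have h5 : (PowerSeries.subst (φ PowerSeries.X) (PowerSeries.C c) : PowerSeries k) =
          PowerSeries.C c := PowerSeries.subst_C _
        change _ = PowerSeries.substAlgHom hs (PowerSeries.C c)
        rw [PowerSeries.coe_substAlgHom, h5]
      · simp only [RingHom.comp_apply, Polynomial.coeToPowerSeries.ringHom_apply,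
          Polynomial.coe_X]
        change _ = PowerSeries.substAlgHom hs PowerSeries.X
        rw [PowerSeries.coe_substAlgHom, PowerSeries.subst_X hs]
    have h := RingHom.congr_fun this q
    simp only [RingHom.comp_apply, Polynomial.coeToPowerSeries.ringHom_apply] at h
    rw [h]
    change PowerSeries.substAlgHom hs (q : PowerSeries k) = _
    rw [PowerSeries.coe_substAlgHom]
    rfl
  have hXdvd : (PowerSeries.X : PowerSeries k) ∣ φ PowerSeries.X :=
    PowerSeries.X_dvd_iff.mpr hX
  rw [← sub_eq_zero]
  ext L
  rw [map_zero]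
  have h1 : (PowerSeries.X : PowerSeries k) ^ (L + 1) ∣ f - (PowerSeries.trunc (L + 1) f :
      Polynomial k) := by
    rw [PowerSeries.X_pow_dvd_iff]
    intro m hm
    rw [map_sub, Polynomial.coeff_coe, PowerSeries.coeff_trunc, if_pos hm, sub_self]
  obtain ⟨g, hg⟩ := h1
  have h2 : f = ((PowerSeries.trunc (L + 1) f : Polynomial k) : PowerSeries k) +
      PowerSeries.X ^ (L + 1) * g := by
    rw [← hg]; ring
  have h3 : φ f - comp f (φ PowerSeries.X) =
      φ PowerSeries.X ^ (L + 1) * (φ g - comp g (φ PowerSeries.X)) := by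
    have e1 : comp (((PowerSeries.trunc (L + 1) f : Polynomial k) : PowerSeries k) +
        PowerSeries.X ^ (L + 1) * g)
        (φ PowerSeries.X) = comp ((PowerSeries.trunc (L + 1) f : Polynomial k) : PowerSeries k)
          (φ PowerSeries.X) + comp (PowerSeries.X ^ (L + 1) * g) (φ PowerSeries.X) :=
      PowerSeries.subst_add hs _ _
    have e2 : φ f = φ (((PowerSeries.trunc (L + 1) f : Polynomial k) : PowerSeries k) +
        PowerSeries.X ^ (L + 1) * g) := congrArg φ h2
    have e3 : comp f (φ PowerSeries.X) = comp (((PowerSeries.trunc (L + 1) f : Polynomial k) :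
        PowerSeries k) + PowerSeries.X ^ (L + 1) * g) (φ PowerSeries.X) :=
      congrArg (fun x => comp x (φ PowerSeries.X)) h2
    rw [e2, e3, e1, map_add, hpoly, comp_mul _ _ hX, comp_pow _ hX, X_comp hX, map_mul, map_pow]
    ring
  rw [h3]
  have h4 : (PowerSeries.X : PowerSeries k) ^ (L + 1) ∣
      φ PowerSeries.X ^ (L + 1) * (φ g - comp g (φ PowerSeries.X)) :=
    (pow_dvd_pow_of_dvd hXdvd _).mul_right _
  exact PowerSeries.X_pow_dvd_iff.mp h4 L (by omega)

theorem comp_zero_right (f : PowerSeries k) :
    comp f 0 = PowerSeries.C (PowerSeries.constantCoeff f) := by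
  have h0 : PowerSeries.constantCoeff (0 : PowerSeries k) = 0 := by simp
  have e1 : f = PowerSeries.C (PowerSeries.constantCoeff f) +
      (f - PowerSeries.C (PowerSeries.constantCoeff f)) := by ring
  have h1 : PowerSeries.constantCoeff (f - PowerSeries.C (PowerSeries.constantCoeff f)) = 0 := by
    simp
  obtain ⟨g, hg⟩ := PowerSeries.X_dvd_iff.mpr h1
  conv_lhs => rw [e1]
  have e2 : comp (PowerSeries.C (PowerSeries.constantCoeff f) +
      (f - PowerSeries.C (PowerSeries.constantCoeff f))) 0 =
      comp (PowerSeries.C (PowerSeries.constantCoeff f)) 0 +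
      comp (f - PowerSeries.C (PowerSeries.constantCoeff f)) 0 :=
    PowerSeries.subst_add (hs_of_zero h0) _ _
  rw [e2, comp_C, hg, comp_mul _ _ h0, X_comp h0, zero_mul, add_zero]

end phi

end Pool.Agent.CVH
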