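import Pool.Agent.CVH.Main

set_option autoImplicit false

/-!
# CVH: standard coordinates always exist
-/

noncomputable section

namespace Pool.Agent.CVH

variable {p : ℕ} [Fact p.Prime] {n : ℕ}

theorem res_alg (θ : Ab p n ≃ₐ[Wb p] Ab p n) (a : Ab p n) : res p n (θ a) = res p n a := by
  have h1 : ∀ b : Ab p n, res p n b = 0 → res p n (θ b) = 0 := by
    intro b hb
    by_contra hc
    have h2 := isUnit_of_res hc
    have h3 : IsUnit b := by
      have := h2.map (θ.symm : Ab p n →+* Ab p n)
      rwa [show (θ.symm : Ab p n →+* Ab p n) (θ b) = b from θ.symm_apply_apply b] at this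
    have h4 := h3.map (res p n)
    rw [hb] at h4
    exact not_isUnit_zero h4
  have h2 := h1 (a - MvPowerSeries.C (MvPowerSeries.constantCoeff a)) (by
    rw [map_sub, res_C, res_apply, sub_self])
  have h3 : θ (MvPowerSeries.C (MvPowerSeries.constantCoeff a)) =
      MvPowerSeries.C (MvPowerSeries.constantCoeff a) := θ.commutes _
  rw [map_sub, h3, map_sub, res_C, sub_eq_zero] at h2
  exact h2

theorem exists_coord (h_FROB : T_FROB) (h_SURJ : T_SURJ) {Γ : FormalGroup (Kb p)}
    {F : FormalGroup (Ab p n)} (hF : IsUniversalDeformation p n Γ F) (hn : 1 ≤ n)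
    (ht : (mulSeries Γ p).order = ((p ^ n : ℕ) : ℕ∞)) :
    ∃ θ : Ab p n ≃ₐ[Wb p] Ab p n, StdCoord p n (F.map (θ.symm : Ab p n →+* Ab p n)) := by
  have hcomm := hF.comm
  have hconst : ∀ j, MvPowerSeries.C (MvPowerSeries.constantCoeff (hasse F j)) ∈
      Ideal.span {(p : Ab p n)} := by
    intro j
    have h1 := hasse_mem_max hF.red ht j
    rw [mem_max_iff, res_apply] at h1
    have h2 : MvPowerSeries.constantCoeff (hasse F j) ∈
        RingHom.ker (WittVector.constantCoeff : Wb p →+* Kb p) := h1
    rw [WittVector.ker_constantCoeff] at h2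
    obtain ⟨v, hv⟩ := Ideal.mem_span_singleton'.mp h2
    rw [← hv, map_mul, map_natCast]
    exact Ideal.mul_mem_left _ _ (Ideal.mem_span_singleton_self _)
  let v : Fin (n - 1) → Ab p n := fun j =>
    hasse F j - MvPowerSeries.C (MvPowerSeries.constantCoeff (hasse F j))
  have hspan : Ideal.span ({(p : Ab p n)} ∪ Set.range v) =
      IsLocalRing.maximalIdeal (Ab p n) := by
    rw [← tangent h_FROB hF hn ht]
    apply le_antisymm
    · rw [Ideal.span_le]
      rintro x (hx | ⟨j, rfl⟩)
      · exact Ideal.subset_span (Or.inl hx)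
      · exact Ideal.sub_mem _ (Ideal.subset_span (Or.inr ⟨j, rfl⟩))
          (Ideal.span_mono Set.subset_union_left (hconst j))
    · rw [Ideal.span_le]
      rintro x (hx | ⟨j, rfl⟩)
      · exact Ideal.subset_span (Or.inl hx)
      · have e : hasse F j = v j +
            MvPowerSeries.C (MvPowerSeries.constantCoeff (hasse F j)) := by
          simp only [v]; ring
        rw [SetLike.mem_coe, e]
        exact Ideal.add_mem _ (Ideal.subset_span (Or.inr ⟨j, rfl⟩))
          (Ideal.span_mono Set.subset_union_left (hconst j))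
  obtain ⟨θ, hθ⟩ := h_SURJ p n v (fun j => by
    simp only [v]
    rw [map_sub, MvPowerSeries.constantCoeff_C, sub_self]) hspan
  refine ⟨θ, ?_⟩
  have hsymm : ∀ j, θ.symm (hasse F j) = MvPowerSeries.X j +
      MvPowerSeries.C (MvPowerSeries.constantCoeff (hasse F j)) := by
    intro j
    rw [AlgEquiv.symm_apply_eq, map_add, hθ]
    have h3 : θ (MvPowerSeries.C (MvPowerSeries.constantCoeff (hasse F j))) =
      MvPowerSeries.C (MvPowerSeries.constantCoeff (hasse F j)) := θ.commutes _
    rw [h3]
    simp only [v]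
    ring
  have hpJ : ∀ h, (p : Ab p n) ∈ Jid p n h := fun h => Ideal.subset_span (Or.inl rfl)
  have hCJ : ∀ (h : ℕ) (j : Fin (n - 1)),
      MvPowerSeries.C (MvPowerSeries.constantCoeff (hasse F j)) ∈ Jid p n h := by
    intro h j
    refine (Ideal.span_le.mpr ?_ : Ideal.span {(p : Ab p n)} ≤ Jid p n h) (hconst j)
    intro x hx
    rw [Set.mem_singleton_iff] at hx
    rw [hx]
    exact hpJ h
  have hmulF : mulSeries (F.map (θ.symm : Ab p n →+* Ab p n)) p =
      PowerSeries.map (θ.symm : Ab p n →+* Ab p n) (mulSeries F p) := (map_mulSeries _ F p).symm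
  constructor
  · intro j m hm
    rw [hmulF, PowerSeries.coeff_map]
    set J : Ideal (Ab p n) := Ideal.span ({(p : Ab p n)} ∪
      {x | ∃ i : Fin (n - 1), (i : ℕ) < j ∧ x = hasse F i}) with hJ
    have h1 : PowerSeries.coeff m (mulSeries F p) ∈ J := by
      refine low_mem h_FROB p F J (Ideal.subset_span (Or.inl rfl)) ((j : ℕ) + 1) ?_ m hm
      intro i hi hij
      refine Ideal.subset_span (Or.inr ⟨⟨i - 1, by have := j.2; omega⟩, ?_, ?_⟩)
      · change i - 1 < j
        omega
      · simp only [hasse]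
        congr 2
        congr 1
        omega
    have h2 : J ≤ (Jid p n j).comap (θ.symm : Ab p n →+* Ab p n) := by
      rw [hJ, Ideal.span_le]
      rintro x (hx | ⟨i, hi, rfl⟩)
      · rw [Set.mem_singleton_iff] at hx
        rw [hx, SetLike.mem_coe, Ideal.mem_comap, map_natCast]
        exact hpJ _
      · rw [SetLike.mem_coe, Ideal.mem_comap]
        change θ.symm (hasse F i) ∈ _
        rw [hsymm]
        exact Ideal.add_mem _ (Ideal.subset_span (Or.inr ⟨i, hi, rfl⟩)) (hCJ _ _)
    exact h2 h1
  · intro j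
    rw [hmulF, PowerSeries.coeff_map]
    change θ.symm (hasse F j) - _ ∈ _
    rw [hsymm, add_sub_cancel_left]
    exact hCJ _ _

/-- The invariants of `A / p` for every universal deformation. -/
theorem invConst (h_FROB : T_FROB) (h_SURJ : T_SURJ) {Γ : FormalGroup (Kb p)}
    {F : FormalGroup (Ab p n)} (hF : IsUniversalDeformation p n Γ F) (hn : 1 ≤ n)
    (ht : (mulSeries Γ p).order = ((p ^ n : ℕ) : ℕ∞))
    {S : PowerSeries (Kb p)} (hS : IsHom Γ Γ S) (hSn : iter S n = mulSeries Γ p) :
    InvConst hF := by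
  have hcomm := hF.comm
  obtain ⟨θ, hc⟩ := exists_coord h_FROB h_SURJ hF hn ht
  have hΓ : mulSeries Γ p ≠ 0 := by
    intro h0
    rw [h0, PowerSeries.order_zero] at ht
    exact ENat.top_ne_natCast _ ht
  have hressymm : ∀ a, res p n (θ.symm a) = res p n a := res_alg θ.symm
  have hrescomp : (res p n).comp (θ.symm : Ab p n →+* Ab p n) = res p n := RingHom.ext hressymm
  have hred : (F.map (θ.symm : Ab p n →+* Ab p n)).map (res p n) = Γ := by
    rw [map_map_FG, hrescomp, hF.red]
  let φ : (EndF Γ)ˣ → (Ab p n →+* Ab p n) := fun g =>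
    ((θ.symm : Ab p n →+* Ab p n).comp (ltAction hF g)).comp (θ : Ab p n →+* Ab p n)
  let ψ : (EndF Γ)ˣ → PowerSeries (Ab p n) := fun g =>
    PowerSeries.map (θ.symm : Ab p n →+* Ab p n) (act_spec hF g).2.choose
  have hφ : ∀ g, (φ g).comp (θ.symm : Ab p n →+* Ab p n) =
      (θ.symm : Ab p n →+* Ab p n).comp (ltAction hF g) := by
    intro g
    refine RingHom.ext fun a => ?_
    change θ.symm (ltAction hF g (θ (θ.symm a))) = θ.symm (ltAction hF g a)
    rw [AlgEquiv.apply_symm_apply]
  have hElt : ∀ g, Elt (F.map (θ.symm : Ab p n →+* Ab p n)) (φ g) (ψ g) := by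
    intro g
    have he := elt_act hF g
    constructor
    · have h1 := he.hom.map (θ.symm : Ab p n →+* Ab p n)
      rw [map_map_FG, ← hφ, ← map_map_FG] at h1
      exact h1
    · simp only [ψ]
      rw [PowerSeries.coeff_map]
      exact he.unit.map _
    · intro w
      change θ.symm (ltAction hF g (θ (MvPowerSeries.C w))) = _
      have h1 : θ (MvPowerSeries.C w) = MvPowerSeries.C w := θ.commutes w
      have h2 : θ.symm (MvPowerSeries.C w) = MvPowerSeries.C w := θ.symm.commutes w
      rw [h1, he.lin, h2]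
    · intro a
      change res p n (θ.symm (ltAction hF g (θ a))) = _
      rw [hressymm, he.res, res_alg]
  intro a ha
  obtain ⟨w, hw⟩ := core Γ hΓ S hS hSn (F.map (θ.symm : Ab p n →+* Ab p n)) hred hc φ ψ hElt
    (by
      intro g
      have h1 := (act_spec hF g).2.choose_spec.2
      refine Eq.trans ?_ h1
      ext i
      simp only [ψ, PowerSeries.coeff_map]
      exact hressymm _)
    (θ.symm a) (by
      intro g
      change θ.symm (ltAction hF g (θ (θ.symm a))) - θ.symm a ∈ _
      rw [AlgEquiv.apply_symm_apply, ← map_sub]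
      obtain ⟨b, hb⟩ := Ideal.mem_span_singleton'.mp (ha g)
      rw [← hb, map_mul, map_natCast]
      exact Ideal.mul_mem_left _ _ (Ideal.mem_span_singleton_self _))
  refine ⟨w, ?_⟩
  obtain ⟨b, hb⟩ := Ideal.mem_span_singleton'.mp hw
  have h1 := congrArg θ hb
  have h2 : θ (MvPowerSeries.C w) = MvPowerSeries.C w := θ.commutes w
  rw [map_sub, AlgEquiv.apply_symm_apply, h2, map_mul, map_natCast] at h1
  rw [← h1]
  exact Ideal.mul_mem_left _ _ (Ideal.mem_span_singleton_self _)

end Pool.Agent.CVH
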